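import Pool.Agent.HCR.A1

namespace Pool.Agent.HCR

open Pool.Agent.HCH Pool.Agent.HCF Polynomial

variable {K B : Type} [Field K] [CommRing B] [Algebra K B] [Algebra.FiniteType K B]

/-
PROOF. p = E ∩ B. cylP p ≤ E and cylP p ≠ E, so by dm_lt: dm E < dm (cylP p) = dm p + 1 (dm_cylP). And
dm p ≤ dm E: the injection B ⧸ p → B[X] ⧸ E (Ideal.quotientMap_injective') of K-algebras
gives trdeg K (B ⧸ p) ≤ trdeg K (B[X] ⧸ E) (see dm_ext_le, e5f in HCH/E5 for the same argument; the second
is finite since B[X] is of finite type).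
-/
theorem dm_noncyl (E : PrimeSpectrum (Polynomial B))
    (h : E ≠ cylP (PrimeSpectrum.comap (C : B →+* Polynomial B) E)) :
    dm K (PrimeSpectrum.comap (C : B →+* Polynomial B) E).asIdeal = dm K E.asIdeal := by
  have hft : Algebra.FiniteType K (Polynomial B) :=
    Algebra.FiniteType.trans (S := B) inferInstance inferInstance
  have hE : E.asIdeal.IsPrime := E.isPrime
  have hc : (cylP (PrimeSpectrum.comap (C : B →+* Polynomial B) E)).asIdeal.IsPrime :=
    (cylP (PrimeSpectrum.comap (C : B →+* Polynomial B) E)).isPrime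
  have h1 : (cylP (PrimeSpectrum.comap (C : B →+* Polynomial B) E)).asIdeal ≤ E.asIdeal :=
    Ideal.map_comap_le
  have h2 : (cylP (PrimeSpectrum.comap (C : B →+* Polynomial B) E)).asIdeal ≠ E.asIdeal :=
    fun he => h (PrimeSpectrum.ext he.symm)
  have h3 := dm_lt (K := K) _ _ (lt_of_le_of_ne h1 h2)
  rw [dm_cylP _ (PrimeSpectrum.comap (C : B →+* Polynomial B) E) rfl] at h3
  have h4 : dm K (PrimeSpectrum.comap (C : B →+* Polynomial B) E).asIdeal ≤ dm K E.asIdeal := by
    let f : (B ⧸ (PrimeSpectrum.comap (C : B →+* Polynomial B) E).asIdeal) →ₐ[K]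
        (Polynomial B ⧸ E.asIdeal) :=
      Ideal.quotientMapₐ E.asIdeal (Polynomial.CAlgHom : B →ₐ[K] Polynomial B) le_rfl
    have hf : Function.Injective f := Ideal.quotientMap_injective' (H := le_rfl) le_rfl
    have h5 := trdeg_le_of_injective f hf
    exact Cardinal.toNat_le_toNat h5 trdeg_lt_aleph0_of_finiteType
  omega

end Pool.Agent.HCR
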