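import Pool.Agent.HCR.B1a
import Pool.Agent.HCR.B1b

namespace Pool.Agent.HCR

open Pool.Agent.HCH Pool.Agent.HCF Polynomial

variable {K B : Type} [Field K] [CommRing B] [Algebra K B] [Algebra.FiniteType K B]

theorem B1c_mlt {R : Type} [CommRing R] (J : Ideal R) (E : PrimeSpectrum R) (hJ : J ≤ E.asIdeal)
    (h : ∀ r ∈ E.asIdeal, ∃ s ∉ E.asIdeal, s * r ∈ J) : mlt J E = 1 := by
  rw [← mlt_self E]
  unfold mlt
  have h1 : J.map (algebraMap R (Localization.AtPrime E.asIdeal)) =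
      E.asIdeal.map (algebraMap R (Localization.AtPrime E.asIdeal)) := by
    refine le_antisymm (Ideal.map_mono hJ) (Ideal.map_le_iff_le_comap.2 fun r hr => ?_)
    obtain ⟨s, hs, hsr⟩ := h r hr
    have h2 := Ideal.mem_map_of_mem (algebraMap R (Localization.AtPrime E.asIdeal)) hsr
    rw [map_mul] at h2
    have hu : IsUnit (algebraMap R (Localization.AtPrime E.asIdeal) s) :=
      IsLocalization.map_units (Localization.AtPrime E.asIdeal) (⟨s, hs⟩ : E.asIdeal.primeCompl)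
    rw [Ideal.mem_comap]
    exact (Ideal.unit_mul_mem_iff_mem _ hu).1 h2
  rw [h1]

/-
PROOF. p = E ∩ B, δ = dm E = dm p (dm_noncyl), W = cylP p, dm W = δ + 1. P, l from exists_min_poly. Let
v = fdiv K W P δ ∈ Rt K W δ (fdiv_mem_Rt), w = v - single E 1.
* v E = od (W ⊔ span {P}) E = 1: mlt (W ⊔ span {P}) E = mlt E E = 1 (mlt_self), since both ideals have the same image in the
  localisation at E: for r ∈ E, C l ^ k * r ∈ W ⊔ span {P} and C l is a unit there.
* if w Q ≠ 0, then Q ≠ E, v Q ≠ 0, so by fdiv_supp dm Q = δ and W ⊔ span {P} ≤ Q. Let q = Q ∩ B ≥ p. If q = p then C l ∉ Q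
  and C l ^ k * r ∈ Q for r ∈ E gives E ≤ Q, so Q = E by eq_of_le: contradiction. So p < q, dm q < δ (dm_lt), cylP q ≤ Q,
  dm (cylP q) = dm q + 1 ≤ δ = dm Q; and dm Q ≤ dm (cylP q) (dm_le) so dm q + 1 = δ and Q = cylP q (eq_of_le).
-/
theorem div_noncyl (E : PrimeSpectrum (Polynomial B))
    (h : E ≠ cylP (PrimeSpectrum.comap (C : B →+* Polynomial B) E)) :
    ∃ w : PrimeSpectrum (Polynomial B) →₀ ℤ, (∀ Q, w Q ≠ 0 → ∃ q : PrimeSpectrum B, Q = cylP q ∧
      (PrimeSpectrum.comap (C : B →+* Polynomial B) E).asIdeal ≤ q.asIdeal ∧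
      dm K q.asIdeal + 1 = dm K E.asIdeal) ∧
      Finsupp.single E 1 + w ∈ Rt K (cylP (PrimeSpectrum.comap (C : B →+* Polynomial B) E)).asIdeal
        (dm K E.asIdeal) := by
  set p : PrimeSpectrum B := PrimeSpectrum.comap (C : B →+* Polynomial B) E with hp
  have hdp : dm K p.asIdeal = dm K E.asIdeal := dm_noncyl E h
  have hdW : dm K (cylP p).asIdeal = dm K E.asIdeal + 1 := dm_cylP _ p hdp
  have hle : (cylP p).asIdeal ≤ E.asIdeal := Ideal.map_comap_le
  have hn : ¬ E.asIdeal ≤ (E.asIdeal.comap (C : B →+* Polynomial B)).map C := by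
    intro h1
    exact h (PrimeSpectrum.ext (le_antisymm h1 hle))
  obtain ⟨P, hPE, hPW, l, hl, hr⟩ := exists_min_poly E hn
  have hPW' : P ∉ (cylP p).asIdeal := hPW
  have hJE : (cylP p).asIdeal ⊔ Ideal.span {P} ≤ E.asIdeal :=
    sup_le hle ((Ideal.span_singleton_le_iff_mem _).2 hPE)
  have hlk : ∀ k : ℕ, C l ^ k ∉ E.asIdeal := fun k hk => hl (E.isPrime.mem_of_pow_mem k hk)
  have hvE : fdiv K (cylP p).asIdeal P (dm K E.asIdeal) E = 1 := by
    rw [fdiv_apply (K := K) (cylP p).asIdeal P hPW' (dm K E.asIdeal) hdW E rfl]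
    unfold od
    rw [B1c_mlt _ E hJE fun r hrE => by
      obtain ⟨k, hk⟩ := hr r hrE
      exact ⟨C l ^ k, hlk k, hk⟩]
    rfl
  refine ⟨fdiv K (cylP p).asIdeal P (dm K E.asIdeal) - Finsupp.single E 1, ?_, ?_⟩
  · intro Q hQ
    have hQE : Q ≠ E := by
      rintro rfl
      apply hQ
      rw [Finsupp.sub_apply, hvE, Finsupp.single_eq_same, sub_self]
    rw [Finsupp.sub_apply, Finsupp.single_eq_of_ne hQE, sub_zero] at hQ
    obtain ⟨hdQ, hJQ⟩ := fdiv_supp _ _ _ _ hQ
    have hpq : p.asIdeal ≤ (PrimeSpectrum.comap (C : B →+* Polynomial B) Q).asIdeal := by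
      intro b hb
      exact hJQ (Ideal.mem_sup_left (Ideal.mem_map_of_mem C hb))
    have hne : p.asIdeal ≠ (PrimeSpectrum.comap (C : B →+* Polynomial B) Q).asIdeal := by
      intro h1
      apply hQE
      have hlQ : C l ∉ Q.asIdeal := by
        intro h2
        have h3 : l ∈ (PrimeSpectrum.comap (C : B →+* Polynomial B) Q).asIdeal := h2
        rw [← h1] at h3
        exact hl h3
      refine (eq_of_le (K := K) E Q ?_ hdQ.ge).symm
      intro r hrE
      obtain ⟨k, hk⟩ := hr r hrE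
      rcases Q.isPrime.mem_or_mem (hJQ hk) with h2 | h2
      · exact absurd (Q.isPrime.mem_of_pow_mem k h2) hlQ
      · exact h2
    have hlt := dm_lt (K := K) p.asIdeal (PrimeSpectrum.comap (C : B →+* Polynomial B) Q).asIdeal
      (lt_of_le_of_ne hpq hne)
    have hcQ : (cylP (PrimeSpectrum.comap (C : B →+* Polynomial B) Q)).asIdeal ≤ Q.asIdeal :=
      Ideal.map_comap_le
    have hd1 : dm K (cylP (PrimeSpectrum.comap (C : B →+* Polynomial B) Q)).asIdeal =
        dm K (PrimeSpectrum.comap (C : B →+* Polynomial B) Q).asIdeal + 1 := dm_cylP _ _ rfl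
    have hd2 := dm_le (K := K) _ _ hcQ
    refine ⟨PrimeSpectrum.comap (C : B →+* Polynomial B) Q, ?_, hpq, ?_⟩
    · refine (eq_of_le (K := K) _ Q hcQ ?_).symm
      omega
    · omega
  · rw [add_sub_cancel]
    exact fdiv_mem_Rt _ _ (cylP p) P le_rfl hdW hPW'

end Pool.Agent.HCR
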