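import Pool.Agent.HCR.U1a

namespace Pool.Agent.HCR

open Pool.Agent.HCH Pool.Agent.HCF MvPolynomial

/-- If all linear functionals send `u` into `p` then `u` is in the extended ideal. -/
theorem U1b_mem {K L : Type} [Field K] [Field L] [Algebra K L] {n : ℕ}
    (p : Ideal (MvPolynomial (Fin n) K)) (u : MvPolynomial (Fin n) L)
    (h : ∀ φ : L →ₗ[K] K, U1a_phi φ u ∈ p) : u ∈ p.map (ext K L n) := by
  classical
  set B := Module.Basis.ofVectorSpace K L with hB
  set T := u.support.biUnion (fun s => (B.repr (coeff s u)).support) with hT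
  have h1 : u = ∑ b ∈ T, C (B b) * ext K L n (U1a_phi (B.coord b) u) := by
    ext t
    rw [coeff_sum]
    have h2 : ∀ b, coeff t (C (B b) * ext K L n (U1a_phi (B.coord b) u)) = B.repr (coeff t u) b • B b := by
      intro b
      rw [coeff_C_mul, HCH.ext, coeff_map, U1a_coeff, Module.Basis.coord_apply, Algebra.smul_def, mul_comm]
    rw [Finset.sum_congr rfl fun b _ => h2 b]
    by_cases ht : t ∈ u.support
    · have h3 : (B.repr (coeff t u)).support ⊆ T :=
        Finset.subset_biUnion_of_mem (fun s => (B.repr (coeff s u)).support) ht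
      have h4 := B.linearCombination_repr (coeff t u)
      rw [Finsupp.linearCombination_apply, Finsupp.sum_of_support_subset _ h3 _
        (fun i _ => zero_smul K (B i))] at h4
      exact h4.symm
    · rw [notMem_support_iff.1 ht, map_zero]
      simp
  rw [h1]
  exact Ideal.sum_mem _ fun b _ => Ideal.mul_mem_left _ _ (Ideal.mem_map_of_mem _ (h _))

theorem U1b_eval {K L : Type} [Field K] [Field L] [Algebra K L] {n : ℕ}
    (φ : L →ₗ[K] K) (u : MvPolynomial (Fin n) L) (x : Fin n → K) :
    φ (eval (fun i => algebraMap K L (x i)) u) = eval x (U1a_phi φ u) := by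
  rw [eval_eq', U1a_phi, map_sum, map_sum]
  refine Finset.sum_congr rfl fun s _ => ?_
  rw [eval_monomial, Finsupp.prod_fintype _ _ (fun i => pow_zero _)]
  have h1 : ∏ i, (algebraMap K L (x i)) ^ s i = algebraMap K L (∏ i, x i ^ s i) := by
    rw [map_prod]
    exact Finset.prod_congr rfl fun i _ => (map_pow _ _ _).symm
  rw [h1, mul_comm, ← Algebra.smul_def, map_smul, smul_eq_mul, mul_comm]

/-
PROOF. Every u ∈ L[x] is Σ_i C (μ_i) * ext (u_i) with μ linearly independent over K (a K-basis of the span of the coefficients).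
Let u v ∈ p.map ext, u = Σ μ_i u_i, v = Σ ν_j v_j, neither in p.map ext: some u_i ∉ p, v_j ∉ p, so u_i v_j ∉ p = radical p =
vanishing ideal of the zero locus (Nullstellensatz, MvPolynomial.vanishingIdeal_zeroLocus_eq_radical): a point x ∈ K^n of V(p) with u_i(x) v_j(x) ≠ 0.
Evaluation at x (L[x] → L) kills p.map ext, so u(x) v(x) = 0, but u(x) = Σ μ_i u_i(x) ≠ 0 and v(x) ≠ 0 by linear independence.
-/
/-- The base change of a prime from an algebraically closed field is prime. -/
theorem ext_prime {K L : Type} [Field K] [IsAlgClosed K] [Field L] [Algebra K L] {n : ℕ}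
    (p : PrimeSpectrum (MvPolynomial (Fin n) K)) : (p.asIdeal.map (ext K L n)).IsPrime := by
  refine ⟨?_, ?_⟩
  · intro h0
    apply p.isPrime.ne_top
    rw [← comap_map_ext (L := L) p.asIdeal, h0, Ideal.comap_top]
  · intro u v huv
    by_contra hcon
    rw [not_or] at hcon
    obtain ⟨hu, hv⟩ := hcon
    obtain ⟨φ, hφ⟩ : ∃ φ : L →ₗ[K] K, U1a_phi φ u ∉ p.asIdeal := by
      by_contra h
      push Not at h
      exact hu (U1b_mem _ _ h)
    obtain ⟨ψ, hψ⟩ : ∃ φ : L →ₗ[K] K, U1a_phi φ v ∉ p.asIdeal := by
      by_contra h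
      push Not at h
      exact hv (U1b_mem _ _ h)
    have h1 : U1a_phi φ u * U1a_phi ψ v ∉ p.asIdeal := fun h =>
      (p.isPrime.mem_or_mem h).elim hφ hψ
    have h2 : vanishingIdeal K (zeroLocus K p.asIdeal) = p.asIdeal := by
      rw [vanishingIdeal_zeroLocus_eq_radical, p.isPrime.radical]
    rw [← h2, mem_vanishingIdeal_iff] at h1
    push Not at h1
    obtain ⟨x, hx, hne⟩ := h1
    rw [mem_zeroLocus_iff] at hx
    have h3 : ∀ w ∈ p.asIdeal.map (ext K L n), eval (fun i => algebraMap K L (x i)) w = 0 := by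
      have h4 : p.asIdeal.map (ext K L n) ≤ RingHom.ker (eval (fun i => algebraMap K L (x i))) := by
        rw [Ideal.map_le_iff_le_comap]
        intro r hr
        rw [Ideal.mem_comap, RingHom.mem_ker, HCH.ext, eval_map]
        have h5 := hx r hr
        have h6 : eval₂ (algebraMap K L) (fun i => algebraMap K L (x i)) r = algebraMap K L (eval x r) :=
          (eval₂_comp_left (algebraMap K L) (RingHom.id K) x r).symm
        rw [h6]
        have h7 : eval x r = 0 := h5
        rw [h7, map_zero]
      exact fun w hw => h4 hw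
    have h8 := h3 _ huv
    rw [map_mul] at h8
    have h9 : eval x (U1a_phi φ u) * eval x (U1a_phi ψ v) ≠ 0 := by
      rw [← map_mul]
      exact hne
    rcases mul_eq_zero.1 h8 with h10 | h10
    · rw [← U1b_eval φ u x, h10, map_zero, zero_mul] at h9
      exact h9 rfl
    · rw [← U1b_eval ψ v x, h10, map_zero, mul_zero] at h9
      exact h9 rfl

/-- The base change of a subvariety. -/
noncomputable def bc (L : Type) {K : Type} [Field K] [IsAlgClosed K] [Field L] [Algebra K L] {n : ℕ}
    (p : PrimeSpectrum (MvPolynomial (Fin n) K)) : PrimeSpectrum (MvPolynomial (Fin n) L) :=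
  ⟨p.asIdeal.map (ext K L n), ext_prime p⟩

end Pool.Agent.HCR
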