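import Pool.Agent.HCR.Defs

namespace Pool.Agent.HCR

open Pool.Agent.HCH Pool.Agent.HCF MvPolynomial

/-
PROOF. descend_AT with L = AlgebraicClosure k, ext 0 = 0, aff_AT.
-/
theorem aff_AT' {k : Type} [Field k] [CharZero k] (n e : ℕ) (he : e < n) :
    AT k (0 : MvPolynomial (Fin n) k) e := by
  apply descend_AT (L := AlgebraicClosure k) 0 e
  rw [map_zero]
  exact aff_AT n e he

/-
PROOF. gys_tors (HCF/G1) with aff_AT' instead of aff_AT.
-/
theorem gys_tors' {k : Type} [Field k] [CharZero k] (n e : ℕ) (he : e + 1 < n)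
    (f : MvPolynomial (Fin n) k) (V : PrimeSpectrum (MvPolynomial (Fin n) k))
    (hd : dm k V.asIdeal = e + 1) (hf : f ∉ V.asIdeal) :
    ∃ N : ℕ, 0 < N ∧ (N : ℤ) • fdiv k V.asIdeal f e ∈ Rt k (Ideal.span {f}) e := by
  obtain ⟨N, hN, h1⟩ := (AT_iff (K := k) (0 : MvPolynomial (Fin n) k) (e + 1)).1
    (aff_AT' n (e + 1) he) V (Ideal.zero_mem _) hd
  refine ⟨N, hN, ?_⟩
  have h2 := gys_Rt (K := k) (Ideal.span {(0 : MvPolynomial (Fin n) k)}) f e _ h1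
  rw [map_zsmul, gys_single, if_neg hf, one_smul] at h2
  have h3 : Ideal.span {(0 : MvPolynomial (Fin n) k)} ⊔ Ideal.span {f} = Ideal.span {f} := by
    rw [Ideal.span_singleton_eq_bot.2 rfl, bot_sup_eq]
  rw [h3] at h2
  exact h2

/-
PROOF. JJ_tors (HCF/Y6) with gys_tors'.
-/
theorem JJ_tors' {k : Type} [Field k] [CharZero k] {n e : ℕ} (he : e + 1 < n)
    (f : MvPolynomial (Fin n) k) (x : PrimeSpectrum (MvPolynomial (Fin n) k) →₀ ℤ)
    (hx : x ∈ JJ k f e) : ∃ N : ℕ, 0 < N ∧ (N : ℤ) • x ∈ Rt k (Ideal.span {f}) e := by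
  exact tors_closure (Rt k (Ideal.span {f}) e)
    {z | ∃ V : PrimeSpectrum (MvPolynomial (Fin n) k),
      dm k V.asIdeal = e + 1 ∧ f ∉ V.asIdeal ∧ z = fdiv k V.asIdeal f e}
    (by
      rintro t ⟨V, hdV, hfV, rfl⟩
      exact gys_tors' n e he f V hdV hfV) _ hx

end Pool.Agent.HCR
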