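import Pool.Agent.HCR.Defs

/-!
Push-forward along closed immersions; generation statements.
-/

namespace Pool.Agent.HCR

open Pool.Agent.HCH Pool.Agent.HCF

section

variable {K R R' : Type} [Field K] [CommRing R] [CommRing R'] [Algebra K R]
  [Algebra K R'] [Algebra.FiniteType K R] [Algebra.FiniteType K R']

omit [Algebra.FiniteType K R] [Algebra.FiniteType K R'] in
theorem psh_surj (φ : R →ₐ[K] R') (hφ : Function.Surjective φ) (z : PrimeSpectrum R' →₀ ℤ) :
    @psh R R' _ _ (φ : R →+* R').toAlgebra z =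
      z.mapDomain (PrimeSpectrum.comap (φ : R →+* R')) := by
  let _ : Algebra R R' := (φ : R →+* R').toAlgebra
  have h3 : ∀ P : PrimeSpectrum R', rdeg R P = 1 := by
    intro P
    exact rdeg_surj P (Ideal.Quotient.mk P.asIdeal) Ideal.mk_ker
      (Ideal.Quotient.mk_surjective.comp hφ)
  induction z using Finsupp.induction_linear with
  | zero => simp
  | add x y hx hy => rw [map_add, hx, hy, Finsupp.mapDomain_add]
  | single P n =>
    rw [psh_single, h3, Finsupp.mapDomain_single, Finsupp.smul_single, smul_eq_mul, mul_one]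
    rfl

/-- Push-forward along a closed immersion. -/
theorem map_Rt (φ : R →ₐ[K] R')
    (hφ : Function.Surjective φ) (I : Ideal R) (e : ℕ) (z : PrimeSpectrum R' →₀ ℤ)
    (hz : z ∈ Rt K (I.map (φ : R →+* R')) e) :
    z.mapDomain (PrimeSpectrum.comap (φ : R →+* R')) ∈ Rt K I e := by
  rw [← psh_surj φ hφ]
  exact psh_Rt_hom φ (RingHom.Finite.of_surjective _ hφ) I e z hz

omit [Algebra.FiniteType K R] in
theorem Cy_mono (f : R) (e : ℕ) {S S' : PrimeSpectrum R → Prop}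
    (h : ∀ q, f ∈ q.asIdeal → dm K q.asIdeal = e → S q → S' q) : Cy K f e S ≤ Cy K f e S' := by
  apply AddSubgroup.closure_mono
  rintro z ⟨q, h1, h2, h3, rfl⟩
  exact ⟨q, h1, h2, h q h1 h2 h3, rfl⟩

omit [Algebra.FiniteType K R] in
theorem Gen.mono {f : R} {e : ℕ} {S S' : PrimeSpectrum R → Prop} (hG : Gen K f e S)
    (h : ∀ q, f ∈ q.asIdeal → dm K q.asIdeal = e → S q → S' q) : Gen K f e S' := by
  intro p hp hd
  obtain ⟨N, hN, hz⟩ := hG p hp hd
  exact ⟨N, hN, sup_le_sup_left (Cy_mono f e h) _ hz⟩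

/-- The torsion statement for all cycles in the closure. -/
theorem tors_sup {A : Type} [AddCommGroup A] (G H : AddSubgroup A) (T : Set A)
    (hT : ∀ t ∈ T, ∃ N : ℕ, 0 < N ∧ (N : ℤ) • t ∈ G ⊔ H) (x : A)
    (hx : x ∈ G ⊔ AddSubgroup.closure T) : ∃ N : ℕ, 0 < N ∧ (N : ℤ) • x ∈ G ⊔ H :=
  tors_closure (G ⊔ H) T hT x ((sup_le_sup_right le_sup_left _ : G ⊔ AddSubgroup.closure T ≤ _) hx)

omit [Algebra.FiniteType K R] in
/-- Transitivity of generation. -/
theorem Gen.trans {f : R} {e : ℕ} {S S' : PrimeSpectrum R → Prop} (hG : Gen K f e S)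
    (h : ∀ q : PrimeSpectrum R, f ∈ q.asIdeal → dm K q.asIdeal = e → S q →
      ∃ N : ℕ, 0 < N ∧ (N : ℤ) • Finsupp.single q (1 : ℤ) ∈
        Rt K (Ideal.span {f}) e ⊔ Cy K f e S') : Gen K f e S' := by
  intro p hp hd
  obtain ⟨N, hN, hz⟩ := hG p hp hd
  obtain ⟨N', hN', hz'⟩ := tors_sup (Rt K (Ideal.span {f}) e) (Cy K f e S') _
    (by
      rintro t ⟨q, h1, h2, h3, rfl⟩
      exact h q h1 h2 h3) _ hz
  refine ⟨N' * N, Nat.mul_pos hN' hN, ?_⟩
  rw [smul_smul] at hz'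
  push_cast
  exact hz'

/-- All torsion is the case `S = False`. -/
theorem Gen_false_iff (f : R) (e : ℕ) : Gen K f e (fun _ => False) ↔ AT K f e := by
  have h0 : Cy K f e (fun _ => False) = ⊥ := by
    rw [eq_bot_iff]
    refine (AddSubgroup.closure_le _).2 ?_
    rintro z ⟨q, -, -, h, -⟩
    exact h.elim
  rw [AT_iff]
  unfold Gen
  rw [h0, sup_bot_eq]

/-- Generation on a closed subvariety. -/
theorem Gen.push {f : R} {e : ℕ} {S' : PrimeSpectrum R' → Prop} (φ : R →ₐ[K] R')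
    (hφ : Function.Surjective φ) (hG : Gen K (φ f) e S') (p : PrimeSpectrum R)
    (hp : f ∈ p.asIdeal) (hk : RingHom.ker (φ : R →+* R') ≤ p.asIdeal) (hd : dm K p.asIdeal = e) :
    ∃ N : ℕ, 0 < N ∧ (N : ℤ) • Finsupp.single p (1 : ℤ) ∈ Rt K (Ideal.span {f}) e ⊔
      Cy K f e (fun q => ∃ q', PrimeSpectrum.comap (φ : R →+* R') q' = q ∧ S' q') := by
  obtain ⟨P, rfl⟩ := exists_comap φ p hk hφ
  have hd' : dm K P.asIdeal = e := by
    rw [← hd]
    exact (dm_comap φ hφ P.asIdeal).symm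
  obtain ⟨N, hN, hz⟩ := hG P hp hd'
  refine ⟨N, hN, ?_⟩
  rw [AddSubgroup.mem_sup] at hz ⊢
  obtain ⟨y, hy, w, hw, hyw⟩ := hz
  refine ⟨y.mapDomain (PrimeSpectrum.comap (φ : R →+* R')), ?_,
    w.mapDomain (PrimeSpectrum.comap (φ : R →+* R')), ?_, ?_⟩
  · apply map_Rt φ hφ
    rw [Ideal.map_span, Set.image_singleton]
    exact hy
  · have h1 : Cy K (φ f) e S' ≤ (Cy K f e (fun q => ∃ q',
        PrimeSpectrum.comap (φ : R →+* R') q' = q ∧ S' q')).comap
        (Finsupp.mapDomain.addMonoidHom (PrimeSpectrum.comap (φ : R →+* R'))) := by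
      refine (AddSubgroup.closure_le _).2 ?_
      rintro z ⟨q, h1, h2, h3, rfl⟩
      rw [SetLike.mem_coe, AddSubgroup.mem_comap]
      change Finsupp.mapDomain (PrimeSpectrum.comap (φ : R →+* R')) (Finsupp.single q (1 : ℤ)) ∈
        Cy K f e (fun q => ∃ q', PrimeSpectrum.comap (φ : R →+* R') q' = q ∧ S' q')
      rw [Finsupp.mapDomain_single]
      apply AddSubgroup.subset_closure
      refine ⟨_, h1, ?_, ⟨q, rfl, h3⟩, rfl⟩
      rw [← h2]
      exact dm_comap φ hφ q.asIdeal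
    exact h1 hw
  · rw [← Finsupp.mapDomain_add, hyw, Finsupp.mapDomain_smul, Finsupp.mapDomain_single]

/-- Generation and isomorphisms. -/
theorem Gen.equiv {f : R} {e : ℕ} {S' : PrimeSpectrum R' → Prop} (φ : R ≃ₐ[K] R')
    (hG : Gen K (φ f) e S') : Gen K f e (fun q => ∃ q',
      PrimeSpectrum.comap ((φ : R →ₐ[K] R') : R →+* R') q' = q ∧ S' q') := by
  intro p hp hd
  apply Gen.push (φ : R →ₐ[K] R') φ.surjective hG p hp _ hd
  have : RingHom.ker ((φ : R →ₐ[K] R') : R →+* R') = ⊥ :=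
    (RingHom.injective_iff_ker_eq_bot _).1 φ.injective
  rw [this]
  exact bot_le

/-- The torsion statement on a closed subvariety. -/
theorem AT.push {f : R} {e : ℕ} (φ : R →ₐ[K] R')
    (hφ : Function.Surjective φ) (hG : AT K (φ f) e) (p : PrimeSpectrum R)
    (hp : f ∈ p.asIdeal) (hk : RingHom.ker (φ : R →+* R') ≤ p.asIdeal) (hd : dm K p.asIdeal = e) :
    ∃ N : ℕ, 0 < N ∧ (N : ℤ) • Finsupp.single p (1 : ℤ) ∈ Rt K (Ideal.span {f}) e := by
  obtain ⟨N, hN, hz⟩ := Gen.push φ hφ ((Gen_false_iff (K := K) (φ f) e).2 hG) p hp hk hd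
  refine ⟨N, hN, ?_⟩
  have h0 : Cy K f e (fun q => ∃ q', PrimeSpectrum.comap (φ : R →+* R') q' = q ∧ False) = ⊥ := by
    rw [eq_bot_iff]
    refine (AddSubgroup.closure_le _).2 ?_
    rintro z ⟨q, -, -, ⟨_, -, h⟩, -⟩
    exact h.elim
  rw [h0, sup_bot_eq] at hz
  exact hz

end

end Pool.Agent.HCR
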