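import Pool.Agent.HCR.A1

namespace Pool.Agent.HCR

open Pool.Agent.HCH Pool.Agent.HCF MvPolynomial

/-
PROOF. adiv and fdiv depend on K only through dm K at primes; so do the generators of Rt, Cy.
-/
open Classical in
/-- the divisor of a function with finite support -/
noncomputable def A2a_F {R : Type} [CommRing R] (a : PrimeSpectrum R → ℤ) :
    PrimeSpectrum R →₀ ℤ :=
  if h : {P : PrimeSpectrum R | a P ≠ 0}.Finite then Finsupp.ofSupportFinite a h else 0

theorem A2a_fdiv {K K' R : Type} [Field K] [Field K'] [CommRing R] [Algebra K R] [Algebra K' R]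
    (h : ∀ P : PrimeSpectrum R, dm K P.asIdeal = dm K' P.asIdeal) (W : Ideal R) (g : R) (e : ℕ) :
    fdiv K W g e = fdiv K' W g e := by
  have h1 : adiv K W g e = adiv K' W g e := by
    funext P
    unfold adiv
    rw [h P]
  have h2 : fdiv K W g e = A2a_F (adiv K W g e) := rfl
  have h3 : fdiv K' W g e = A2a_F (adiv K' W g e) := rfl
  rw [h2, h3, h1]

theorem Rt_congr {K K' R : Type} [Field K] [Field K'] [CommRing R] [Algebra K R] [Algebra K' R]
    (h : ∀ P : PrimeSpectrum R, dm K P.asIdeal = dm K' P.asIdeal) (I : Ideal R) (e : ℕ) :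
    Rt K I e = Rt K' I e := by
  unfold Rt
  congr 1
  ext z
  simp only [Set.mem_ofPred_eq, h, A2a_fdiv h]

theorem Gen_congr {K K' R : Type} [Field K] [Field K'] [CommRing R] [Algebra K R] [Algebra K' R]
    (h : ∀ P : PrimeSpectrum R, dm K P.asIdeal = dm K' P.asIdeal) (f : R) (e : ℕ)
    (S : PrimeSpectrum R → Prop) (hG : Gen K f e S) : Gen K' f e S := by
  have h1 : Cy K f e S = Cy K' f e S := by
    unfold Cy
    congr 1
    ext z
    simp only [Set.mem_ofPred_eq, h]
  intro p hp hd
  have h2 := hG p hp (by rw [h p]; exact hd)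
  rwa [Rt_congr h, h1] at h2

end Pool.Agent.HCR
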