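import Pool.Agent.HCR.A1
import Pool.Agent.HCH.Main

namespace Pool.Agent.HCR

open Pool.Agent.HCH Pool.Agent.HCF MvPolynomial

/-
PROOF. generic_tors (HCH/F2) with torsion replaced by membership in ARat ⊔ cycles: for p in a special member hs; otherwise
p = comap lam q (comap_lam_or), Gen at q: N • single q 1 = y + w; lift_lam for y (as an element of ARat, Rt_iff): Z ∈ ARat K f e with
Z (comap lam q') = y q'. The cycle N • single p 1 - mapDomain (comap lam) w - Z vanishes at all primes comap lam q' (comap_lam_inj),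
so its support consists of primes of special members (comap_lam_or): these are torsion by hs. mapDomain (comap lam) w ∈ Cy
(dm_lam: dimension e).
-/
/-- Localisation at the generic point of the line. -/
theorem gen_of_generic {K : Type} [Field K] [IsAlgClosed K] {m : ℕ}
    (f : MvPolynomial (Fin (m + 1)) K) (e : ℕ) (he : 1 ≤ e)
    (hs : ∀ (t : K) (p : PrimeSpectrum (MvPolynomial (Fin (m + 1)) K)), f ∈ p.asIdeal →
      X 0 - C t ∈ p.asIdeal → dm K p.asIdeal = e →
      ∃ N : ℕ, 0 < N ∧ (N : ℤ) • cls p ∈ ARat K f e)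
    (S : PrimeSpectrum (MvPolynomial (Fin m) (RatFunc K)) → Prop)
    (hg : Gen (RatFunc K) (lamR K m f) (e - 1) S) :
    Gen K f e (fun P => ∃ q, PrimeSpectrum.comap (lamR K m) q = P ∧ S q) := by
  classical
  obtain ⟨e, rfl⟩ := Nat.exists_eq_add_of_le' he
  simp only [Nat.add_sub_cancel] at hg
  have hs' : ∀ p : PrimeSpectrum (MvPolynomial (Fin (m + 1)) K), f ∈ p.asIdeal →
      (∃ t : K, X 0 - C t ∈ p.asIdeal) → dm K p.asIdeal = e + 1 →
      ∃ N : ℕ, 0 < N ∧ (N : ℤ) • Finsupp.single p (1 : ℤ) ∈ Rt K (Ideal.span {f}) (e + 1) := by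
    rintro p hp ⟨t, ht⟩ hd
    obtain ⟨N, hN, h⟩ := hs t p hp ht hd
    refine ⟨N, hN, ?_⟩
    rw [Rt_iff, t1_coe (R := MvPolynomial (Fin (m + 1)) K) N p]
    exact h
  intro p hp hd
  rcases comap_lam_or p with ht | ⟨q, rfl⟩
  · obtain ⟨N, hN, h⟩ := hs' p hp ht hd
    exact ⟨N, hN, AddSubgroup.mem_sup_left h⟩
  · have hq : lamR K m f ∈ q.asIdeal := hp
    have hdq : dm (RatFunc K) q.asIdeal = e := by
      have h1 := dm_lam q.asIdeal
      have h2 : dm K (q.asIdeal.comap (lamR K m)) = e + 1 := hd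
      omega
    obtain ⟨N, hN, hz⟩ := hg q hq hdq
    obtain ⟨y, hy, w, hw, hyw⟩ := AddSubgroup.mem_sup.1 hz
    obtain ⟨Z, hZ, hZv⟩ := lift_lam f e _ ((Rt_iff (K := RatFunc K) _ _ _).1 hy)
    obtain ⟨hZf, hZs⟩ := ARat_supp f (e + 1) Z hZ
    have hZ' : Finsupp.ofSupportFinite Z hZf ∈ Rt K (Ideal.span {f}) (e + 1) := by
      rw [Rt_iff]
      exact hZ
    have hZ'v : ∀ p', Finsupp.ofSupportFinite Z hZf p' = Z p' := fun p' => rfl
    have hW : w.mapDomain (PrimeSpectrum.comap (lamR K m)) ∈ Cy K f (e + 1)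
        (fun P => ∃ q, PrimeSpectrum.comap (lamR K m) q = P ∧ S q) := by
      have h1 : Cy (RatFunc K) (lamR K m f) e S ≤ (Cy K f (e + 1)
          (fun P => ∃ q, PrimeSpectrum.comap (lamR K m) q = P ∧ S q)).comap
          (Finsupp.mapDomain.addMonoidHom (PrimeSpectrum.comap (lamR K m))) := by
        refine (AddSubgroup.closure_le _).2 ?_
        rintro z ⟨q', h1, h2, h3, rfl⟩
        rw [SetLike.mem_coe, AddSubgroup.mem_comap]
        change Finsupp.mapDomain (PrimeSpectrum.comap (lamR K m)) (Finsupp.single q' (1 : ℤ)) ∈ _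
        rw [Finsupp.mapDomain_single]
        apply AddSubgroup.subset_closure
        refine ⟨_, h1, ?_, ⟨q', rfl, h3⟩, rfl⟩
        rw [← h2]
        exact dm_lam q'.asIdeal
      exact h1 hw
    obtain ⟨c, hc⟩ : ∃ c : PrimeSpectrum (MvPolynomial (Fin (m + 1)) K) →₀ ℤ,
        c = (N : ℤ) • Finsupp.single (PrimeSpectrum.comap (lamR K m) q) (1 : ℤ) -
          w.mapDomain (PrimeSpectrum.comap (lamR K m)) - Finsupp.ofSupportFinite Z hZf := ⟨_, rfl⟩
    have hcs : ∀ p', c p' ≠ 0 → f ∈ p'.asIdeal ∧ (∃ t : K, X 0 - C t ∈ p'.asIdeal) ∧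
        dm K p'.asIdeal = e + 1 := by
      intro p' hp'
      rcases comap_lam_or p' with ht | ⟨q', rfl⟩
      · by_cases hr : p' ∈ Set.range (PrimeSpectrum.comap (lamR K m))
        · obtain ⟨q', rfl⟩ := hr
          exfalso
          apply hp'
          have h1 : (Finsupp.single (PrimeSpectrum.comap (lamR K m) q) (1 : ℤ))
              (PrimeSpectrum.comap (lamR K m) q') = (Finsupp.single q (1 : ℤ)) q' := by
            rw [← Finsupp.mapDomain_single, Finsupp.mapDomain_apply comap_lam_inj]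
          have h2 := DFunLike.congr_fun hyw q'
          rw [Finsupp.add_apply, Finsupp.smul_apply] at h2
          rw [hc, Finsupp.sub_apply, Finsupp.sub_apply, Finsupp.smul_apply, h1,
            Finsupp.mapDomain_apply comap_lam_inj, hZ'v, hZv, ← h2]
          ring
        · have h1 : (Finsupp.single (PrimeSpectrum.comap (lamR K m) q) (1 : ℤ)) p' = 0 := by
            rw [Finsupp.single_apply, if_neg]
            rintro rfl
            exact hr ⟨q, rfl⟩
          have h2 : Z p' ≠ 0 := by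
            intro h0
            apply hp'
            rw [hc, Finsupp.sub_apply, Finsupp.sub_apply, Finsupp.smul_apply, h1,
              Finsupp.mapDomain_of_notMem_range _ _ hr, hZ'v, h0]
            simp
          exact ⟨(hZs p' h2).1, ht, (hZs p' h2).2⟩
      · exfalso
        apply hp'
        have h1 : (Finsupp.single (PrimeSpectrum.comap (lamR K m) q) (1 : ℤ))
            (PrimeSpectrum.comap (lamR K m) q') = (Finsupp.single q (1 : ℤ)) q' := by
          rw [← Finsupp.mapDomain_single, Finsupp.mapDomain_apply comap_lam_inj]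
        have h2 := DFunLike.congr_fun hyw q'
        rw [Finsupp.add_apply, Finsupp.smul_apply] at h2
        rw [hc, Finsupp.sub_apply, Finsupp.sub_apply, Finsupp.smul_apply, h1,
          Finsupp.mapDomain_apply comap_lam_inj, hZ'v, hZv, ← h2]
        ring
    have hcT : c ∈ AddSubgroup.closure {z : PrimeSpectrum (MvPolynomial (Fin (m + 1)) K) →₀ ℤ |
        ∃ p' : PrimeSpectrum (MvPolynomial (Fin (m + 1)) K), f ∈ p'.asIdeal ∧
          (∃ t : K, X 0 - C t ∈ p'.asIdeal) ∧ dm K p'.asIdeal = e + 1 ∧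
          z = Finsupp.single p' 1} := by
      have h1 : c = ∑ p' ∈ c.support, c p' • Finsupp.single p' (1 : ℤ) := by
        conv_lhs => rw [← Finsupp.sum_single c]
        unfold Finsupp.sum
        refine Finset.sum_congr rfl fun p' _ => ?_
        rw [Finsupp.smul_single, smul_eq_mul, mul_one]
      rw [h1]
      refine AddSubgroup.sum_mem _ fun p' hp' => AddSubgroup.zsmul_mem _ ?_ _
      obtain ⟨h2, h3, h4⟩ := hcs p' (Finsupp.mem_support_iff.1 hp')
      exact AddSubgroup.subset_closure ⟨p', h2, h3, h4, rfl⟩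
    obtain ⟨N', hN', hcz⟩ := tors_closure (Rt K (Ideal.span {f}) (e + 1)) _ (by
      rintro t ⟨p', h2, h3, h4, rfl⟩
      exact hs' p' h2 h3 h4) c (AddSubgroup.mem_sup_right hcT)
    refine ⟨N' * N, Nat.mul_pos hN' hN, ?_⟩
    have e1 : ((N' * N : ℕ) : ℤ) •
        Finsupp.single (PrimeSpectrum.comap (lamR K m) q) (1 : ℤ) =
        ((N' : ℤ) • c + (N' : ℤ) • Finsupp.ofSupportFinite Z hZf) +
          (N' : ℤ) • w.mapDomain (PrimeSpectrum.comap (lamR K m)) := by
      rw [hc, Nat.cast_mul, mul_smul, ← smul_add, ← smul_add]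
      congr 1
      abel
    rw [e1]
    exact AddSubgroup.add_mem_sup ((Rt K (Ideal.span {f}) (e + 1)).add_mem hcz
      ((Rt K (Ideal.span {f}) (e + 1)).zsmul_mem hZ' _)) ((Cy K f (e + 1) _).zsmul_mem hW _)

end Pool.Agent.HCR
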