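import Pool.Agent.HCR.A1
import Pool.Agent.HCH.Main

namespace Pool.Agent.HCR

open Pool.Agent.HCH Pool.Agent.HCF MvPolynomial

theorem A2c_Cy_supp {K R : Type} [Field K] [CommRing R] [Algebra K R] (f : R) (e : ℕ)
    (S : PrimeSpectrum R → Prop) (w : PrimeSpectrum R →₀ ℤ) (hw : w ∈ Cy K f e S)
    (P : PrimeSpectrum R) (hP : w P ≠ 0) : f ∈ P.asIdeal ∧ dm K P.asIdeal = e ∧ S P := by
  classical
  unfold Cy at hw
  by_contra hne
  apply hP
  induction hw using AddSubgroup.closure_induction with
  | mem z hz =>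
    obtain ⟨q, h1, h2, h3, rfl⟩ := hz
    rw [Finsupp.single_apply, if_neg]
    rintro rfl
    exact hne ⟨h1, h2, h3⟩
  | zero => rfl
  | add x y _ _ hx hy =>
    rw [Finsupp.add_apply]
    by_cases h1 : x P = 0
    · by_cases h2 : y P = 0
      · rw [h1, h2, add_zero]
      · exact absurd (hy h2) h2
    · exact absurd (hx h1) h1
  | neg x _ hx =>
    rw [Finsupp.neg_apply]
    by_cases h1 : x P = 0
    · rw [h1, neg_zero]
    · exact absurd (hx h1) h1

theorem A2c_mem_Cy {K R : Type} [Field K] [CommRing R] [Algebra K R] (f : R) (e : ℕ)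
    (S : PrimeSpectrum R → Prop) (w : PrimeSpectrum R →₀ ℤ)
    (h : ∀ P, w P ≠ 0 → f ∈ P.asIdeal ∧ dm K P.asIdeal = e ∧ S P) : w ∈ Cy K f e S := by
  classical
  rw [← Finsupp.sum_single w]
  refine AddSubgroup.sum_mem _ fun P hP => ?_
  have h1 := h P (Finsupp.mem_support_iff.mp hP)
  have h2 : Finsupp.single P (w P) = w P • Finsupp.single P (1 : ℤ) := by
    rw [Finsupp.smul_single, smul_eq_mul, mul_one]
  rw [h2]
  apply AddSubgroup.zsmul_mem
  exact AddSubgroup.subset_closure ⟨P, h1.1, h1.2.1, h1.2.2, rfl⟩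

/-
PROOF. As descend_AT (HCH/G8). q ∈ Spec k[x] with f ∈ q, dm = e; Q over q (lying_over), dm L Q = e (dm_alg). Gen at Q: N • single Q 1 - w ∈ Rt L,
w ∈ Cy L (ext f) e S. descend_fin: a finite set s ⊂ L such that for every E ⊇ s this holds over E (the function
z = N • cls Q - w descends: z' ∈ ARat E, z' (comap (ext E L) Q') = z Q'); take E Galois over k (exists_galois). descend_gal:
z'' ∈ ARat k f e with z'' (comap (ext k E) q') = Σ_σ z' (comap (ga σ) q'). Hence z'' = N m • cls q - (combination of cls q', q' = Q' ∩ k[x],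
Q' in the support of w, so S Q'), with m > 0: evaluate at every prime of k[x], choosing a prime over it. Supports: ARat_supp.
-/
/-- Galois descent of generation. -/
theorem gen_descend {k L : Type} [Field k] [CharZero k] [Field L] [Algebra k L]
    [IsAlgClosure k L] {n : ℕ} (f : MvPolynomial (Fin n) k) (e : ℕ)
    (S : PrimeSpectrum (MvPolynomial (Fin n) L) → Prop) (h : Gen L (ext k L n f) e S) :
    Gen k f e (fun q => ∃ Q, PrimeSpectrum.comap (ext k L n) Q = q ∧ S Q) := by
  classical
  have halg : Algebra.IsAlgebraic k L := IsAlgClosure.isAlgebraic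
  have hac : IsAlgClosed L := IsAlgClosure.isAlgClosed k
  have hnorm : Normal k L := inferInstance
  have hgalk : IsGalois k L := ⟨⟩
  intro p hp hd
  obtain ⟨q, rfl⟩ := lying_over (E := L) p
  have hdq : dm L q.asIdeal = e := by
    rw [← hd]
    exact (dm_alg q.asIdeal).symm
  obtain ⟨N, hN, hz⟩ := h q hp hdq
  rw [AddSubgroup.mem_sup] at hz
  obtain ⟨y, hy, w, hw, hyw⟩ := hz
  have hyv : ∀ P, y P = (N : ℤ) * (if P = q then 1 else 0) - w P := by
    intro P
    have h1 := DFunLike.congr_fun hyw P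
    rw [Finsupp.add_apply, Finsupp.smul_apply, Finsupp.single_apply, smul_eq_mul] at h1
    by_cases h2 : P = q
    · rw [if_pos h2.symm] at h1
      rw [if_pos h2]
      linarith
    · rw [if_neg (fun h3 => h2 h3.symm)] at h1
      rw [if_neg h2]
      linarith
  have hy' : (⇑y : PrimeSpectrum (MvPolynomial (Fin n) L) → ℤ) ∈ ARat L (ext k L n f) e :=
    (Rt_iff _ _ _).mp hy
  obtain ⟨s, hs⟩ := descend_fin f e _ hy'
  obtain ⟨E, hsE, hfd, hgal⟩ := exists_galois (k := k) s
  obtain ⟨z', hz', hz'v⟩ := hs E hsE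
  have halgE : Algebra.IsAlgebraic k E := inferInstance
  have halgL : Algebra.IsAlgebraic E L := Algebra.IsAlgebraic.tower_top (K := k) E
  set qE := PrimeSpectrum.comap (ext E L n) q with hqE
  obtain ⟨z'', hz'', hz''v⟩ := descend_gal f e z' hz'
  have hcomp : ∀ r : PrimeSpectrum (MvPolynomial (Fin n) L),
      PrimeSpectrum.comap (ext k E n) (PrimeSpectrum.comap (ext E L n) r) =
        PrimeSpectrum.comap (ext k L n) r := by
    intro r
    apply PrimeSpectrum.ext
    change (r.asIdeal.comap (ext E L n)).comap (ext k E n) = r.asIdeal.comap (ext k L n)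
    rw [Ideal.comap_comap, ext_comp]
  set A : Finset (E ≃ₐ[k] E) := Finset.univ.filter
    (fun σ => PrimeSpectrum.comap (ga n σ) qE = qE) with hA
  have hA1 : 0 < A.card := by
    rw [Finset.card_pos]
    refine ⟨1, ?_⟩
    rw [hA, Finset.mem_filter]
    refine ⟨Finset.mem_univ _, ?_⟩
    apply PrimeSpectrum.ext
    ext a
    change ga n 1 a ∈ qE.asIdeal ↔ _
    rw [ga_one]
  have hfin := (ARat_supp f e z'' hz'').1
  let y'' : PrimeSpectrum (MvPolynomial (Fin n) k) →₀ ℤ := Finsupp.ofSupportFinite z'' hfin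
  have hy''v : ∀ r, y'' r = z'' r := fun _ => rfl
  have hy'' : y'' ∈ Rt k (Ideal.span {f}) e := (Rt_iff _ _ _).mpr hz''
  refine ⟨N * A.card, Nat.mul_pos hN hA1, ?_⟩
  rw [AddSubgroup.mem_sup]
  refine ⟨y'', hy'', ((N * A.card : ℕ) : ℤ) • Finsupp.single
    (PrimeSpectrum.comap (ext k L n) q) (1 : ℤ) - y'', ?_, add_sub_cancel _ _⟩
  -- the key computation
  have key : ∀ r, (∀ P, PrimeSpectrum.comap (ext k L n) P = r → w P = 0) →
      z'' r = if r = PrimeSpectrum.comap (ext k L n) q then ((N * A.card : ℕ) : ℤ) else 0 := by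
    intro r hr
    have hval : ∀ PE, PrimeSpectrum.comap (ext k E n) PE = r →
        z' PE = if PE = qE then (N : ℤ) else 0 := by
      intro PE hPE
      by_cases h1 : PE = qE
      · rw [if_pos h1]
        have h2 : w q = 0 := by
          apply hr
          rw [← hcomp q, ← hqE, ← h1]
          exact hPE
        rw [h1, hqE, hz'v, hyv, if_pos rfl, h2]
        ring
      · rw [if_neg h1]
        obtain ⟨P, rfl⟩ := lying_over (E := L) PE
        have h2 : w P = 0 := by
          apply hr
          rw [← hcomp P]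
          exact hPE
        have h3 : P ≠ q := by
          rintro rfl
          exact h1 rfl
        rw [hz'v, hyv, if_neg h3, h2]
        ring
    by_cases hrq : r = PrimeSpectrum.comap (ext k L n) q
    · rw [if_pos hrq]
      have h4 : r = PrimeSpectrum.comap (ext k E n) qE := by
        rw [hrq, hqE, hcomp]
      rw [h4, hz''v]
      have h5 : ∀ σ : E ≃ₐ[k] E, z' (PrimeSpectrum.comap (ga n σ) qE) =
          if PrimeSpectrum.comap (ga n σ) qE = qE then (N : ℤ) else 0 := by
        intro σ
        apply hval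
        rw [ga_comap, ← h4]
      rw [Finset.sum_congr rfl (fun σ _ => h5 σ), ← Finset.sum_filter, Finset.sum_const, ← hA]
      simp [mul_comm]
    · rw [if_neg hrq]
      obtain ⟨r', rfl⟩ := lying_over (E := E) r
      rw [hz''v]
      apply Finset.sum_eq_zero
      intro σ _
      have h6 : PrimeSpectrum.comap (ga n σ) r' ≠ qE := by
        intro h2
        apply hrq
        rw [← hcomp q, ← hqE, ← h2, ga_comap]
      rw [hval _ (ga_comap σ r'), if_neg h6]
  apply A2c_mem_Cy
  intro r hr
  have hex : ∃ P, PrimeSpectrum.comap (ext k L n) P = r ∧ w P ≠ 0 := by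
    by_contra hno
    push Not at hno
    apply hr
    have h7 := key r hno
    rw [Finsupp.sub_apply, Finsupp.smul_apply, Finsupp.single_apply, hy''v, h7]
    by_cases h8 : r = PrimeSpectrum.comap (ext k L n) q
    · rw [if_pos h8, if_pos h8.symm, smul_eq_mul, mul_one, sub_self]
    · rw [if_neg h8, if_neg (fun h9 => h8 h9.symm), smul_zero, sub_zero]
  obtain ⟨P, rfl, hP⟩ := hex
  obtain ⟨h1, h2, h3⟩ := A2c_Cy_supp _ _ _ w hw P hP
  refine ⟨h1, ?_, P, rfl, h3⟩
  rw [← h2]
  exact dm_alg P.asIdeal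

end Pool.Agent.HCR
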