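import Pool.Agent.HCR.A2a
import Pool.Agent.HCH.Main

namespace Pool.Agent.HCR

open Pool.Agent.HCH Pool.Agent.HCF MvPolynomial

/-
PROOF. Let A = MvPolynomial (Fin n) K' be a K-algebra through a ↦ C (ε a) (letI := RingHom.toAlgebra ..). For this structure
Φ = MvPolynomial.mapEquiv ε : MvPolynomial (Fin n) K ≃ₐ[K] A, and dm K = dm K' on A (dm_semi ε (RingEquiv.refl A)). Gen K' (Φ f) e S → (Gen_congr)
Gen K (Φ f) e S → (Gen.equiv) the claim. (A is of finite type over K through Φ.)
-/
theorem gen_semi {K K' : Type} [Field K] [Field K'] (ε : K ≃+* K') {n : ℕ}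
    (f : MvPolynomial (Fin n) K) (e : ℕ) (S : PrimeSpectrum (MvPolynomial (Fin n) K') → Prop)
    (h : Gen K' (MvPolynomial.map (ε : K →+* K') f) e S) :
    Gen K f e (fun q => ∃ Q, PrimeSpectrum.comap (MvPolynomial.map (ε : K →+* K')) Q = q ∧ S Q) := by
  let : Algebra K (MvPolynomial (Fin n) K') :=
    ((C : K' →+* MvPolynomial (Fin n) K').comp (ε : K →+* K')).toAlgebra
  let φ : MvPolynomial (Fin n) K ≃ₐ[K] MvPolynomial (Fin n) K' :=
    AlgEquiv.ofRingEquiv (f := MvPolynomial.mapEquiv (Fin n) ε) (by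
      intro r
      change MvPolynomial.map (ε : K →+* K') (C r) = C (ε r)
      rw [MvPolynomial.map_C]
      rfl)
  have : Algebra.FiniteType K (MvPolynomial (Fin n) K') :=
    Algebra.FiniteType.equiv (inferInstance : Algebra.FiniteType K (MvPolynomial (Fin n) K)) φ
  have h1 : Gen K (MvPolynomial.map (ε : K →+* K') f) e S := by
    refine Gen_congr (K := K') ?_ _ e S h
    intro P
    exact (dm_semi ε (RingEquiv.refl (MvPolynomial (Fin n) K')) (fun a => rfl) P.asIdeal).symm
  have h2 := Gen.equiv (S' := S) (f := f) (e := e) φ h1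
  have h3 : (((φ : MvPolynomial (Fin n) K →ₐ[K] MvPolynomial (Fin n) K') :
      MvPolynomial (Fin n) K →+* MvPolynomial (Fin n) K')) = MvPolynomial.map (ε : K →+* K') :=
    RingHom.ext fun _ => rfl
  rw [h3] at h2
  exact h2

end Pool.Agent.HCR
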