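import Pool.Agent.HCR.A1

namespace Pool.Agent.HCR

open Pool.Agent.HCH Pool.Agent.HCF Polynomial

/-
PROOF. Let p = E ∩ B, pB[X] = p.map C. Among the elements of E not in pB[X] choose P of minimal
degree n, l = leadingCoeff P. If l ∈ p then P - C l * X ^ n ∈ E, not in pB[X] (C l * X ^ n ∈ pB[X]) and
of smaller degree (it is nonzero as P ∉ pB[X]): contradiction. So l ∉ p, i.e. C l ∉ E.
Pseudo-division, by strong induction on natDegree r: for r ∈ E there is k with
C l ^ k * r ∈ pB[X] ⊔ span {P}. If r ∈ pB[X]: k = 0. Otherwise natDegree r ≥ n (minimality; n = 0 is impossible? not needed)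
and r' = C l * r - C (leadingCoeff r) * X ^ (natDegree r - n) * P ∈ E has smaller degree than r
(or is in pB[X], e.g. 0). If natDegree r = 0 treat directly: then n = 0 and C l * r = C (r.coeff 0) * P... the
same formula: r' = 0.
-/
theorem exists_min_poly {B : Type} [CommRing B] (E : PrimeSpectrum (Polynomial B))
    (h : ¬ E.asIdeal ≤ (E.asIdeal.comap (C : B →+* Polynomial B)).map C) :
    ∃ P ∈ E.asIdeal, P ∉ (E.asIdeal.comap (C : B →+* Polynomial B)).map C ∧
      ∃ l : B, C l ∉ E.asIdeal ∧ ∀ r ∈ E.asIdeal, ∃ k : ℕ,
        C l ^ k * r ∈ (E.asIdeal.comap (C : B →+* Polynomial B)).map C ⊔ Ideal.span {P} := by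
  classical
  obtain ⟨J, hJ⟩ : ∃ J, J = (E.asIdeal.comap (C : B →+* Polynomial B)).map C := ⟨_, rfl⟩
  rw [← hJ] at h ⊢
  have hJE : J ≤ E.asIdeal := by
    rw [hJ]
    exact Ideal.map_comap_le
  have hne : ∃ n, ∃ P ∈ E.asIdeal, P ∉ J ∧ P.natDegree = n := by
    obtain ⟨P, hP, hPJ⟩ := Set.not_subset.mp h
    exact ⟨_, P, hP, hPJ, rfl⟩
  obtain ⟨P, hP, hPJ, hPn⟩ := Nat.find_spec hne
  have hmin : ∀ Q ∈ E.asIdeal, Q ∉ J → P.natDegree ≤ Q.natDegree := by
    intro Q hQ hQJ
    rw [hPn]
    exact Nat.find_min' hne ⟨Q, hQ, hQJ, rfl⟩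
  have hl : C P.leadingCoeff ∉ E.asIdeal := by
    intro hl
    have h1 : C P.leadingCoeff * X ^ P.natDegree ∈ J := by
      rw [hJ]
      exact Ideal.mul_mem_right _ _ (Ideal.mem_map_of_mem C hl)
    have h2 : P.eraseLead = P - C P.leadingCoeff * X ^ P.natDegree := by
      rw [eq_sub_iff_add_eq]
      exact P.eraseLead_add_C_mul_X_pow
    have h3 : P.eraseLead ∈ E.asIdeal := by
      rw [h2]
      exact E.asIdeal.sub_mem hP (hJE h1)
    have h4 : P.eraseLead ∉ J := by
      intro h5
      apply hPJ
      have h6 := J.add_mem h5 h1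
      rwa [P.eraseLead_add_C_mul_X_pow] at h6
    have h7 := hmin _ h3 h4
    rcases P.eraseLead_natDegree_lt_or_eraseLead_eq_zero with h8 | h8
    · omega
    · rw [h8] at h4
      exact h4 J.zero_mem
  refine ⟨P, hP, hPJ, P.leadingCoeff, hl, ?_⟩
  have key : ∀ m : ℕ, ∀ r ∈ E.asIdeal, r.natDegree ≤ m → ∃ k : ℕ,
      C P.leadingCoeff ^ k * r ∈ J ⊔ Ideal.span {P} := by
    intro m
    induction m with
    | zero =>
      intro r hr hm
      by_cases hrJ : r ∈ J
      · exact ⟨0, by rw [pow_zero, one_mul]; exact Ideal.mem_sup_left hrJ⟩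
      · have h1 := hmin r hr hrJ
        have h2 : P.natDegree = 0 := by omega
        have h3 : r.natDegree = 0 := by omega
        refine ⟨1, ?_⟩
        have h4 : C P.leadingCoeff ^ 1 * r = r * P := by
          rw [pow_one, leadingCoeff, h2, ← eq_C_of_natDegree_eq_zero h2, mul_comm]
        rw [h4]
        exact Ideal.mem_sup_right (Ideal.mul_mem_left _ _ (Ideal.mem_span_singleton_self P))
    | succ m ih =>
      intro r hr hm
      by_cases hrJ : r ∈ J
      · exact ⟨0, by rw [pow_zero, one_mul]; exact Ideal.mem_sup_left hrJ⟩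
      · by_cases hd : r.natDegree ≤ m
        · exact ih r hr hd
        · have hd' : r.natDegree = m + 1 := by omega
          have h1 := hmin r hr hrJ
          let r' : Polynomial B := C P.leadingCoeff * r -
            C r.leadingCoeff * X ^ (r.natDegree - P.natDegree) * P
          have hr' : r' ∈ E.asIdeal :=
            E.asIdeal.sub_mem (Ideal.mul_mem_left _ _ hr) (Ideal.mul_mem_left _ _ hP)
          have hdeg : r'.natDegree ≤ m := by
            have h2 : r'.natDegree ≤ m + 1 := by
              refine (natDegree_sub_le _ _).trans (max_le ?_ ?_)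
              · exact (natDegree_C_mul_le _ _).trans hm
              · refine (natDegree_mul_le).trans ?_
                have h3 := natDegree_C_mul_X_pow_le r.leadingCoeff (r.natDegree - P.natDegree)
                omega
            have h4 : r'.coeff (m + 1) = 0 := by
              have h5 : (C r.leadingCoeff * X ^ (r.natDegree - P.natDegree) * P).coeff (m + 1) =
                  r.leadingCoeff * P.leadingCoeff := by
                rw [mul_assoc, coeff_C_mul]
                have h6 : m + 1 = P.natDegree + (r.natDegree - P.natDegree) := by omega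
                rw [h6, coeff_X_pow_mul]
                rfl
              have h7 : (C P.leadingCoeff * r).coeff (m + 1) = P.leadingCoeff * r.leadingCoeff := by
                rw [coeff_C_mul, ← hd']
                rfl
              rw [coeff_sub, h5, h7, mul_comm, sub_self]
            by_contra h8
            have h9 : r'.natDegree = m + 1 := by omega
            have h10 : r' = 0 := by
              rw [← leadingCoeff_eq_zero, leadingCoeff, h9]
              exact h4
            rw [h10, natDegree_zero] at h9
            omega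
          obtain ⟨k, hk⟩ := ih r' hr' hdeg
          refine ⟨k + 1, ?_⟩
          have h11 : C P.leadingCoeff ^ (k + 1) * r = C P.leadingCoeff ^ k * r' +
              (C P.leadingCoeff ^ k * (C r.leadingCoeff * X ^ (r.natDegree - P.natDegree))) * P := by
            ring
          rw [h11]
          exact Ideal.add_mem _ hk (Ideal.mem_sup_right
            (Ideal.mul_mem_left _ _ (Ideal.mem_span_singleton_self P)))
  intro r hr
  exact key _ r hr le_rfl

end Pool.Agent.HCR
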