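import Pool.Agent.HCR.B1c

namespace Pool.Agent.HCR

open Pool.Agent.HCH Pool.Agent.HCF Polynomial

variable {K B : Type} [Field K] [CommRing B] [Algebra K B] [Algebra.FiniteType K B]

/-
PROOF. If E = cylP p, p = E ∩ B: w = - single E 1, sum 0; h ∈ p, dm_cylP. Otherwise div_noncyl and Rt_mono
(span {C h} ≤ cylP p as h ∈ p), h ∈ p ≤ q.
-/
/-- Every cycle on `V(h) × 𝔸¹` is a combination of cylinders. -/
theorem cyl_gen (h : B) (E : PrimeSpectrum (Polynomial B)) (hE : C h ∈ E.asIdeal) :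
    ∃ w : PrimeSpectrum (Polynomial B) →₀ ℤ, (∀ Q, w Q ≠ 0 → ∃ q : PrimeSpectrum B, Q = cylP q ∧
      h ∈ q.asIdeal ∧ dm K q.asIdeal + 1 = dm K E.asIdeal) ∧
      Finsupp.single E 1 + w ∈ Rt K (Ideal.span {C h}) (dm K E.asIdeal) := by
  have hp : h ∈ (PrimeSpectrum.comap (C : B →+* Polynomial B) E).asIdeal := hE
  by_cases hc : E = cylP (PrimeSpectrum.comap (C : B →+* Polynomial B) E)
  · refine ⟨-Finsupp.single E 1, ?_, ?_⟩
    · intro Q hQ
      have hQE : Q = E := by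
        by_contra hne
        apply hQ
        rw [Finsupp.neg_apply, Finsupp.single_eq_of_ne hne, neg_zero]
      refine ⟨PrimeSpectrum.comap (C : B →+* Polynomial B) E, hQE.trans hc, hp, ?_⟩
      have h1 := dm_cylP (K := K) _ (PrimeSpectrum.comap (C : B →+* Polynomial B) E) rfl
      rw [← hc] at h1
      exact h1.symm
    · rw [add_neg_cancel]
      exact AddSubgroup.zero_mem _
  · obtain ⟨w, hw, hR⟩ := div_noncyl (K := K) E hc
    refine ⟨w, ?_, ?_⟩
    · intro Q hQ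
      obtain ⟨q, h1, h2, h3⟩ := hw Q hQ
      exact ⟨q, h1, h2 hp, h3⟩
    · refine Rt_mono _ _ ?_ _ hR
      rw [Ideal.span_le, Set.singleton_subset_iff]
      exact Ideal.mem_map_of_mem _ hp

end Pool.Agent.HCR
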