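import Pool.Agent.HCR.B1d

namespace Pool.Agent.HCR

open Pool.Agent.HCH Pool.Agent.HCF Polynomial

variable {K B : Type} [Field K] [CommRing B] [Algebra K B] [Algebra.FiniteType K B]

/-
PROOF. w from cyl_gen. g fixes cylinders: comap g (cylP q) = cylP q, because g maps q.map C onto itself
(g (C b) = C b; the same for g.symm). map_Rt for φ = g (surjective, (span {C h}).map g = span {C h}):
mapDomain (comap g) (single E 1 + w) = single (comap g E) 1 + w ∈ Rt. Subtract.
-/
/-- Automorphisms over `B` act trivially on the cycles of `V(h) × 𝔸¹`. -/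
theorem scale_Rt (g : Polynomial B ≃ₐ[K] Polynomial B) (hg : ∀ b : B, g (C b) = C b) (h : B)
    (E : PrimeSpectrum (Polynomial B)) (hE : C h ∈ E.asIdeal) :
    Finsupp.single E (1 : ℤ) - Finsupp.single
      (PrimeSpectrum.comap ((g : Polynomial B →ₐ[K] Polynomial B) : Polynomial B →+* Polynomial B) E)
        1 ∈ Rt K (Ideal.span {C h}) (dm K E.asIdeal) := by
  classical
  obtain ⟨w, hw1, hw2⟩ := cyl_gen (K := K) h E hE
  let φ : Polynomial B →ₐ[K] Polynomial B := (g : Polynomial B →ₐ[K] Polynomial B)
  have hφ : Function.Surjective φ := g.surjective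
  have hgs : ∀ b : B, g.symm (C b) = C b := by
    intro b
    rw [AlgEquiv.symm_apply_eq, hg]
  have hmap : (Ideal.span {C h} : Ideal (Polynomial B)).map (φ : Polynomial B →+* Polynomial B) =
      Ideal.span {C h} := by
    rw [Ideal.map_span, Set.image_singleton]
    congr 2
    exact hg h
  have hcyl : ∀ q : PrimeSpectrum B,
      PrimeSpectrum.comap (φ : Polynomial B →+* Polynomial B) (cylP q) = cylP q := by
    intro q
    have hle : ∀ (g' : Polynomial B →+* Polynomial B), (∀ b : B, g' (C b) = C b) →
        ∀ y ∈ (cylP q).asIdeal, g' y ∈ (cylP q).asIdeal := by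
      intro g' hg' y hy
      have h1 : (q.asIdeal.map (C : B →+* Polynomial B)) ≤
          (q.asIdeal.map (C : B →+* Polynomial B)).comap g' := by
        rw [Ideal.map_le_iff_le_comap]
        intro b hb
        rw [Ideal.mem_comap, Ideal.mem_comap, hg']
        exact Ideal.mem_map_of_mem C hb
      exact h1 hy
    apply PrimeSpectrum.ext
    apply le_antisymm
    · intro y hy
      have hy' : g y ∈ (cylP q).asIdeal := hy
      have h2 := hle ((g.symm : Polynomial B →ₐ[K] Polynomial B) : Polynomial B →+* Polynomial B)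
        hgs (g y) hy'
      have h3 : ((g.symm : Polynomial B →ₐ[K] Polynomial B) : Polynomial B →+* Polynomial B)
        (g y) = y := g.symm_apply_apply y
      rwa [h3] at h2
    · intro y hy
      exact hle (φ : Polynomial B →+* Polynomial B) hg y hy
  have hwmap : w.mapDomain (PrimeSpectrum.comap (φ : Polynomial B →+* Polynomial B)) = w := by
    conv_rhs => rw [← Finsupp.mapDomain_id (v := w)]
    refine Finsupp.mapDomain_congr fun Q hQ => ?_
    obtain ⟨q, rfl, _⟩ := hw1 Q (Finsupp.mem_support_iff.mp hQ)
    exact hcyl q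
  have h4 := map_Rt φ hφ (Ideal.span {C h}) (dm K E.asIdeal) (Finsupp.single E 1 + w) (by
    rw [hmap]
    exact hw2)
  rw [Finsupp.mapDomain_add, hwmap, Finsupp.mapDomain_single] at h4
  have h5 := AddSubgroup.sub_mem _ hw2 h4
  rwa [add_sub_add_right_eq_sub] at h5

end Pool.Agent.HCR
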