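import Pool.Agent.HCR.B1e

namespace Pool.Agent.HCR

open Pool.Agent.HCH Pool.Agent.HCF Polynomial

variable {K B : Type} [Field K] [CommRing B] [Algebra K B] [Algebra.FiniteType K B]

/-
PROOF. q = comap π E (exists_comap). scale_Rt for E (C h = π f ∈ E): u := single E 1 - single (comap g E) 1 ∈
Rt K (span {C h}) (dm E), span {C h} = (span {f}).map π, dm E = dm q (dm_comap). map_Rt π: mapDomain (comap π) u =
single q 1 - single (comap π (comap g E)) 1, and comap π (comap g E) = comap G (comap π E) since g ∘ π = π ∘ G.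
-/
theorem scale_push {R : Type} [CommRing R] [Algebra K R] [Algebra.FiniteType K R]
    (π : R →ₐ[K] Polynomial B) (hπ : Function.Surjective π) (f : R) (h : B) (hf : π f = C h)
    (G : R ≃ₐ[K] R) (g : Polynomial B ≃ₐ[K] Polynomial B) (hg : ∀ b : B, g (C b) = C b)
    (hGg : ∀ r, π (G r) = g (π r)) (q : PrimeSpectrum R)
    (hk : RingHom.ker (π : R →+* Polynomial B) ≤ q.asIdeal) (hq : f ∈ q.asIdeal) :
    Finsupp.single q (1 : ℤ) - Finsupp.single
      (PrimeSpectrum.comap ((G : R →ₐ[K] R) : R →+* R) q) 1 ∈ Rt K (Ideal.span {f})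
        (dm K q.asIdeal) := by
  obtain ⟨E, rfl⟩ := exists_comap π q hk hπ
  have hπf : (π : R →+* Polynomial B) f = C h := hf
  have hE : C h ∈ E.asIdeal := by
    rw [← hπf]
    exact hq
  have h1 := scale_Rt (K := K) g hg h E hE
  have h2 : (Ideal.span {f}).map (π : R →+* Polynomial B) = Ideal.span {C h} := by
    rw [Ideal.map_span, Set.image_singleton, hπf]
  rw [← h2] at h1
  have h3 := map_Rt π hπ (Ideal.span {f}) (dm K E.asIdeal) _ h1
  rw [Finsupp.mapDomain_sub, Finsupp.mapDomain_single, Finsupp.mapDomain_single] at h3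
  have h4 : dm K (PrimeSpectrum.comap (π : R →+* Polynomial B) E).asIdeal = dm K E.asIdeal :=
    dm_comap π hπ E.asIdeal
  have h5 : PrimeSpectrum.comap (π : R →+* Polynomial B)
      (PrimeSpectrum.comap ((g : Polynomial B →ₐ[K] Polynomial B) :
        Polynomial B →+* Polynomial B) E) =
      PrimeSpectrum.comap ((G : R →ₐ[K] R) : R →+* R)
        (PrimeSpectrum.comap (π : R →+* Polynomial B) E) := by
    apply PrimeSpectrum.ext
    ext r
    change g (π r) ∈ E.asIdeal ↔ π (G r) ∈ E.asIdeal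
    rw [hGg]
  rw [h4, ← h5]
  exact h3

end Pool.Agent.HCR
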