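import Pool.Agent.HCR.A1

namespace Pool.Agent.HCR

open Pool.Agent.HCH Pool.Agent.HCF

/-- The action of an automorphism on the spectrum. -/
noncomputable def cm {K R : Type} [Field K] [CommRing R] [Algebra K R] (G : R ≃ₐ[K] R) :
    PrimeSpectrum R → PrimeSpectrum R :=
  PrimeSpectrum.comap ((G : R →ₐ[K] R) : R →+* R)

/-
PROOF. Let T1 z = z - z.mapDomain (cm G1) and T2 z = z - z.mapDomain (cm G2), additive endomorphisms of
PrimeSpectrum R →₀ ℤ. They preserve Rt K (span {f}) e (map_Rt with φ = G_i: (span {f}).map G_i = span {f})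
and commute (cm G1 ∘ cm G2 = cm G2 ∘ cm G1 by hc). From hG: N • single p 1 = y + w, y ∈ Rt, w ∈ Cy K f e (S1 ∨ S2).
Claim T1 (T2 w) ∈ Rt: AddSubgroup.closure_induction: for a generator single q 1 with S1 q: T1 (single q 1) ∈ Rt
by h1, so T1 (T2 ..) = T2 (T1 ..) ∈ Rt; with S2 q: T2 (single q 1) ∈ Rt, T1 of it ∈ Rt.
So N • T1 (T2 (single p 1)) ∈ Rt and T1 (T2 (single p 1)) is the displayed element (Finsupp.mapDomain_single).
-/
theorem omega {K R : Type} [Field K] [CommRing R] [Algebra K R] [Algebra.FiniteType K R]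
    (f : R) (e : ℕ) (G1 G2 : R ≃ₐ[K] R) (hf1 : G1 f = f) (hf2 : G2 f = f)
    (hc : ∀ r, G1 (G2 r) = G2 (G1 r)) (S1 S2 : PrimeSpectrum R → Prop)
    (h1 : ∀ q, f ∈ q.asIdeal → dm K q.asIdeal = e → S1 q →
      Finsupp.single q (1 : ℤ) - Finsupp.single (cm G1 q) 1 ∈ Rt K (Ideal.span {f}) e)
    (h2 : ∀ q, f ∈ q.asIdeal → dm K q.asIdeal = e → S2 q →
      Finsupp.single q (1 : ℤ) - Finsupp.single (cm G2 q) 1 ∈ Rt K (Ideal.span {f}) e)
    (hG : Gen K f e (fun q => S1 q ∨ S2 q)) (p : PrimeSpectrum R) (hp : f ∈ p.asIdeal)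
    (hd : dm K p.asIdeal = e) :
    ∃ N : ℕ, 0 < N ∧ (N : ℤ) • (Finsupp.single p (1 : ℤ) - Finsupp.single (cm G1 p) 1 -
      Finsupp.single (cm G2 p) 1 + Finsupp.single (cm G1 (cm G2 p)) 1) ∈
        Rt K (Ideal.span {f}) e := by
  classical
  have hcc : ∀ q, cm G1 (cm G2 q) = cm G2 (cm G1 q) := by
    intro q
    apply PrimeSpectrum.ext
    ext r
    change G2 (G1 r) ∈ q.asIdeal ↔ G1 (G2 r) ∈ q.asIdeal
    rw [hc]
  let T1 : (PrimeSpectrum R →₀ ℤ) →+ (PrimeSpectrum R →₀ ℤ) :=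
    AddMonoidHom.id _ - Finsupp.mapDomain.addMonoidHom (cm G1)
  let T2 : (PrimeSpectrum R →₀ ℤ) →+ (PrimeSpectrum R →₀ ℤ) :=
    AddMonoidHom.id _ - Finsupp.mapDomain.addMonoidHom (cm G2)
  have hT1 : ∀ z, T1 z = z - Finsupp.mapDomain (cm G1) z := fun _ => rfl
  have hT2 : ∀ z, T2 z = z - Finsupp.mapDomain (cm G2) z := fun _ => rfl
  have hmap : ∀ (G : R ≃ₐ[K] R), G f = f → ∀ z ∈ Rt K (Ideal.span {f}) e,
      Finsupp.mapDomain (cm G) z ∈ Rt K (Ideal.span {f}) e := by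
    intro G hG z hz
    apply map_Rt (G : R →ₐ[K] R) G.surjective
    rw [Ideal.map_span, Set.image_singleton]
    have h3 : ((G : R →ₐ[K] R) : R →+* R) f = f := hG
    rw [h3]
    exact hz
  have hR1 : ∀ z ∈ Rt K (Ideal.span {f}) e, T1 z ∈ Rt K (Ideal.span {f}) e := by
    intro z hz
    rw [hT1]
    exact sub_mem hz (hmap G1 hf1 z hz)
  have hR2 : ∀ z ∈ Rt K (Ideal.span {f}) e, T2 z ∈ Rt K (Ideal.span {f}) e := by
    intro z hz
    rw [hT2]
    exact sub_mem hz (hmap G2 hf2 z hz)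
  have hcom : ∀ z, T1 (T2 z) = T2 (T1 z) := by
    intro z
    have h3 : Finsupp.mapDomain (cm G1) (Finsupp.mapDomain (cm G2) z) =
        Finsupp.mapDomain (cm G2) (Finsupp.mapDomain (cm G1) z) := by
      rw [← Finsupp.mapDomain_comp, ← Finsupp.mapDomain_comp]
      congr 1
      funext q
      exact hcc q
    have h4 : ∀ x y : PrimeSpectrum R →₀ ℤ, ∀ G : R ≃ₐ[K] R, Finsupp.mapDomain (cm G) (x - y) =
        Finsupp.mapDomain (cm G) x - Finsupp.mapDomain (cm G) y := fun x y G =>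
      map_sub (Finsupp.mapDomain.addMonoidHom (cm G)) x y
    rw [hT1, hT2, hT2, hT1, h4, h4, h3]
    abel
  obtain ⟨N, hN, hz⟩ := hG p hp hd
  refine ⟨N, hN, ?_⟩
  rw [AddSubgroup.mem_sup] at hz
  obtain ⟨y, hy, w, hw, hyw⟩ := hz
  have hwT : T1 (T2 w) ∈ Rt K (Ideal.span {f}) e := by
    clear hyw
    unfold Cy at hw
    induction hw using AddSubgroup.closure_induction with
    | mem z hz =>
      obtain ⟨q, h3, h4, h5, rfl⟩ := hz
      rcases h5 with h5 | h5
      · rw [hcom]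
        apply hR2
        rw [hT1, Finsupp.mapDomain_single]
        exact h1 q h3 h4 h5
      · apply hR1
        rw [hT2, Finsupp.mapDomain_single]
        exact h2 q h3 h4 h5
    | zero => simp
    | add a b _ _ ha hb =>
      rw [map_add, map_add]
      exact add_mem ha hb
    | neg a _ ha =>
      rw [map_neg, map_neg]
      exact neg_mem ha
  have hT : T1 (T2 ((N : ℤ) • Finsupp.single p (1 : ℤ))) ∈ Rt K (Ideal.span {f}) e := by
    rw [← hyw, map_add, map_add]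
    exact add_mem (hR1 _ (hR2 _ hy)) hwT
  rw [map_zsmul, map_zsmul] at hT
  have h3 : T1 (T2 (Finsupp.single p (1 : ℤ))) = Finsupp.single p (1 : ℤ) -
      Finsupp.single (cm G1 p) 1 - Finsupp.single (cm G2 p) 1 +
        Finsupp.single (cm G1 (cm G2 p)) 1 := by
    rw [hT2, map_sub, hT1, hT1, Finsupp.mapDomain_single, Finsupp.mapDomain_single,
      Finsupp.mapDomain_single]
    abel
  rw [← h3]
  exact hT

end Pool.Agent.HCR
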