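import Pool.Agent.HCR.Defs

namespace Pool.Agent.HCR

open Pool.Agent.HCH Pool.Agent.HCF MvPolynomial

/-- `X 0 ↦ u`, `X 1 ↦ a u`, the other variables are constants. -/
noncomputable def zhom {K : Type} [Field K] {m : ℕ} (a : K) :
    MvPolynomial (Fin (m + 2)) K →ₐ[K] Polynomial (MvPolynomial (Fin m) K) :=
  aeval (Fin.cons (α := fun _ => Polynomial (MvPolynomial (Fin m) K)) Polynomial.X
    (Fin.cons (α := fun _ => Polynomial (MvPolynomial (Fin m) K))
      (Polynomial.C (C a) * Polynomial.X) (fun k => Polynomial.C (X k))))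

theorem zhom_X0 {K : Type} [Field K] {m : ℕ} (a : K) :
    zhom a (X 0 : MvPolynomial (Fin (m + 2)) K) = Polynomial.X := by
  unfold zhom
  rw [aeval_X]
  rfl

theorem zhom_X1 {K : Type} [Field K] {m : ℕ} (a : K) :
    zhom a (X 1 : MvPolynomial (Fin (m + 2)) K) = Polynomial.C (C a) * Polynomial.X := by
  unfold zhom
  rw [aeval_X]
  rfl

theorem zhom_Xs {K : Type} [Field K] {m : ℕ} (a : K) (k : Fin m) :
    zhom a (X k.succ.succ : MvPolynomial (Fin (m + 2)) K) = Polynomial.C (X k) := by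
  unfold zhom
  rw [aeval_X]
  rfl

theorem zhom_C {K : Type} [Field K] {m : ℕ} (a b : K) :
    zhom a (C b : MvPolynomial (Fin (m + 2)) K) = Polynomial.C (C b) := (zhom a).commutes b

theorem zhom_ren {K : Type} [Field K] {m : ℕ} (a : K) (f : MvPolynomial (Fin m) K) :
    zhom a (rename (Fin.succ ∘ Fin.succ) f) = Polynomial.C f := by
  induction f using MvPolynomial.induction_on with
  | C b => rw [rename_C, zhom_C]
  | add p q hp hq => rw [map_add, map_add, hp, hq, Polynomial.C_add]
  | mul_X p k hp =>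
    rw [map_mul, map_mul, hp, rename_X, Polynomial.C_mul]
    congr 1
    exact zhom_Xs a k

/-- The prime `x ∈ p`, `x_1 = a x_0`. -/
noncomputable def mz {K : Type} [Field K] {m : ℕ} (a : K)
    (p : PrimeSpectrum (MvPolynomial (Fin m) K)) : PrimeSpectrum (MvPolynomial (Fin (m + 2)) K) :=
  PrimeSpectrum.comap
    ((zhom a : MvPolynomial (Fin (m + 2)) K →ₐ[K] Polynomial (MvPolynomial (Fin m) K)) :
      MvPolynomial (Fin (m + 2)) K →+* Polynomial (MvPolynomial (Fin m) K)) (cylP p)

/-
PROOF. zhom is surjective (X, C (X k) are in the image), dm_comap, dm_cylP.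
-/
theorem dm_mz {K : Type} [Field K] {m : ℕ} (a : K) (p : PrimeSpectrum (MvPolynomial (Fin m) K)) :
    dm K (mz a p).asIdeal = dm K p.asIdeal + 1 := by
  have h0 : Function.Surjective (zhom a : MvPolynomial (Fin (m + 2)) K →ₐ[K]
      Polynomial (MvPolynomial (Fin m) K)) := by
    intro q
    induction q using Polynomial.induction_on with
    | C r =>
      refine ⟨rename (Fin.succ ∘ Fin.succ) r, ?_⟩
      exact zhom_ren a r
    | add p q hp hq =>
      obtain ⟨x, rfl⟩ := hp
      obtain ⟨y, rfl⟩ := hq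
      exact ⟨x + y, map_add _ _ _⟩
    | monomial n r hr =>
      obtain ⟨x, hx⟩ := hr
      refine ⟨x * X 0, ?_⟩
      rw [map_mul, hx, zhom_X0, pow_succ, mul_assoc]
  exact (dm_comap (zhom a) h0 (cylP p).asIdeal).trans (dm_cylP _ p rfl)

/-
PROOF. zhom a (suspA D f) = C f + X ^ D + (C (C a) * X) ^ D = C f, because a ^ D = - 1
(zhom a (rename (succ ∘ succ) f) = C f: algHom_ext / induction on f).
-/
theorem susp_mem_mz {K : Type} [Field K] {m : ℕ} (D : ℕ) (f : MvPolynomial (Fin m) K) (a : K)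
    (ha : a ^ D = -1) (p : PrimeSpectrum (MvPolynomial (Fin m) K)) (hp : f ∈ p.asIdeal) :
    suspA D f ∈ (mz a p).asIdeal := by
  change zhom a (suspA D f) ∈ (cylP p).asIdeal
  have h : zhom a (suspA D f) = Polynomial.C f := by
    unfold suspA
    rw [map_add, map_add, map_pow, map_pow, zhom_X0, zhom_X1, zhom_ren, mul_pow,
      ← Polynomial.C_pow, ← C_pow, ha, C_neg, C_1, Polynomial.C_neg, Polynomial.C_1]
    ring
  rw [h]
  exact Ideal.mem_map_of_mem _ hp

end Pool.Agent.HCR
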