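import Pool.Agent.HCR.Defs

namespace Pool.Agent.HCR

open Pool.Agent.HCH Pool.Agent.HCF Polynomial

/-
PROOF. Copy of the proof of push_sum (HCF/Y6): algebraic closedness is used there only for Infinite K.
-/
theorem push_sum' {K A : Type} [Field K] [Infinite K] [CommRing A] [IsDomain A] [Algebra K A]
    [Algebra.FiniteType K A] [DecidableEq K] (f : A) (d : ℕ) (S : Finset K) (hc : 2 ≤ S.card)
    (hS : ∏ ζ ∈ S, (Polynomial.C Polynomial.X - Polynomial.C (Polynomial.C (algebraMap K A ζ)) *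
      Polynomial.X : Polynomial (Polynomial A)) = Polynomial.C Polynomial.X ^ d + Polynomial.X ^ d)
    (e : ℕ) (w : K → (PrimeSpectrum A →₀ ℤ)) (hw : ∀ ζ p, w ζ p ≠ 0 → dm K p.asIdeal = e)
    (hR : ∑ ζ ∈ S, Finsupp.mapDomain (PZ (algebraMap K A ζ)) (w ζ) ∈
      Rt K (Ideal.span {(Polynomial.C (Polynomial.C f) + Polynomial.C Polynomial.X ^ d +
        Polynomial.X ^ d : Polynomial (Polynomial A))}) (e + 1)) (η : K) (hη : η ∈ S) :
    ∑ ζ ∈ S.erase η, w ζ - (S.card - 1) • w η ∈ JJ K f e := by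
  obtain ⟨Θ, hfin, h0, h1, h2⟩ := exists_theta (K := K) A S hc η hη
  have hrel : Θ (rel f) = C (C f) + C X ^ d + X ^ d := by
    unfold rel
    rw [map_sub, map_mul, h0, h1, h2, add_assoc, ← hS, ← Finset.mul_prod_erase S _ hη]
    ring
  have hmap : (Ideal.span {rel f}).map (Θ : Polynomial (Polynomial A) →+*
      Polynomial (Polynomial A)) =
      Ideal.span {(C (C f) + C X ^ d + X ^ d : Polynomial (Polynomial A))} := by
    rw [Ideal.map_span, Set.image_singleton, ← hrel]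
    rfl
  rw [← hmap] at hR
  have h3 := psh_Rt_hom Θ hfin (Ideal.span {rel f}) (e + 1) _ hR
  obtain ⟨T, hT⟩ := rho_Rt f e _ h3
  obtain ⟨c, hc'⟩ := Infinite.exists_notMem_finset (insert 0 T)
  rw [Finset.mem_insert, not_or] at hc'
  have h4 := hT c hc'.1 hc'.2
  rw [map_sum, ← Finset.add_sum_erase S _ hη] at h4
  have h5 : ∀ ζ ∈ S.erase η, @psh (Polynomial (Polynomial A)) (Polynomial (Polynomial A)) _ _
      (Θ : Polynomial (Polynomial A) →+* Polynomial (Polynomial A)).toAlgebra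
      (Finsupp.mapDomain (PZ (algebraMap K A ζ)) (w ζ)) = Finsupp.mapDomain P0 (w ζ) :=
    fun ζ hζ => psh_ne (Θ : Polynomial (Polynomial A) →+* Polynomial (Polynomial A)) S η h0 h1 h2
      ζ hζ (w ζ)
  have h6 : @psh (Polynomial (Polynomial A)) (Polynomial (Polynomial A)) _ _
      (Θ : Polynomial (Polynomial A) →+* Polynomial (Polynomial A)).toAlgebra
      (Finsupp.mapDomain (PZ (algebraMap K A η)) (w η)) =
      (S.card - 1) • Finsupp.mapDomain P1 (w η) :=
    psh_eta (Θ : Polynomial (Polynomial A) →+* Polynomial (Polynomial A)) S η h0 h1 h2 hη hc (w η)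
  rw [Finset.sum_congr rfl h5, h6, map_add, map_sum, map_nsmul, rho_map1 f c e _ (hw η)] at h4
  have h7 : ∀ ζ ∈ S.erase η, rho K f c e (Finsupp.mapDomain P0 (w ζ)) = w ζ :=
    fun ζ _ => rho_map0 f c e _ (hw ζ)
  rw [Finset.sum_congr rfl h7] at h4
  have h8 : ∑ ζ ∈ S.erase η, w ζ - (S.card - 1) • w η =
      (S.card - 1) • (-w η) + ∑ ζ ∈ S.erase η, w ζ := by
    rw [smul_neg]
    abel
  rw [h8]
  exact h4


end Pool.Agent.HCR
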