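import Pool.Agent.HCR.C2a

namespace Pool.Agent.HCR

open Pool.Agent.HCH Pool.Agent.HCF MvPolynomial

/-
PROOF. As exists_equiv (HCF/W3a): φ = (finSuccEquiv K (m + 1)).trans (mapAlgEquiv (finSuccEquiv K m)) satisfies
φ (X 0) = X (outer), φ (X 1) = C X (inner), φ (X k.succ.succ) = C (C (X k)). Then
hh (C ζ * X) X ∘ φ = zhom ζ on variables (hh_X, hh_CX, hh_CC), so comap φ (PZ (C ζ) p) = mz ζ p.
-/
theorem exists_equiv2 {K : Type} [Field K] (m : ℕ) :
    ∃ φ : MvPolynomial (Fin (m + 2)) K ≃ₐ[K] Polynomial (Polynomial (MvPolynomial (Fin m) K)),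
      (∀ (D : ℕ) (f : MvPolynomial (Fin m) K), φ (suspA D f) = Polynomial.C (Polynomial.C f) +
        Polynomial.C Polynomial.X ^ D + Polynomial.X ^ D) ∧
      ∀ (ζ : K) (p : PrimeSpectrum (MvPolynomial (Fin m) K)), PrimeSpectrum.comap
        ((φ : MvPolynomial (Fin (m + 2)) K →ₐ[K] Polynomial (Polynomial (MvPolynomial (Fin m) K))) :
          MvPolynomial (Fin (m + 2)) K →+* Polynomial (Polynomial (MvPolynomial (Fin m) K)))
        (PZ (algebraMap K (MvPolynomial (Fin m) K) ζ) p) = mz ζ p := by
  let φ : MvPolynomial (Fin (m + 2)) K ≃ₐ[K] Polynomial (Polynomial (MvPolynomial (Fin m) K)) :=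
    (MvPolynomial.finSuccEquiv K (m + 1)).trans
      (Polynomial.mapAlgEquiv (MvPolynomial.finSuccEquiv K m))
  have h0 : φ (X 0) = Polynomial.X := by
    change Polynomial.map _ (MvPolynomial.finSuccEquiv K (m + 1) (X 0)) = _
    rw [MvPolynomial.finSuccEquiv_X_zero, Polynomial.map_X]
  have h1 : φ (X 1) = Polynomial.C Polynomial.X := by
    have h2 : (1 : Fin (m + 2)) = (0 : Fin (m + 1)).succ := rfl
    change Polynomial.map _ (MvPolynomial.finSuccEquiv K (m + 1) (X 1)) = _
    rw [h2, MvPolynomial.finSuccEquiv_X_succ, Polynomial.map_C]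
    congr 1
    exact MvPolynomial.finSuccEquiv_X_zero
  have hs : ∀ k : Fin m, φ (X k.succ.succ) = Polynomial.C (Polynomial.C (X k)) := by
    intro k
    change Polynomial.map _ (MvPolynomial.finSuccEquiv K (m + 1) (X k.succ.succ)) = _
    rw [MvPolynomial.finSuccEquiv_X_succ, Polynomial.map_C]
    congr 1
    exact MvPolynomial.finSuccEquiv_X_succ
  have hC : ∀ a : K, φ (C a) = Polynomial.C (Polynomial.C (C a)) := fun a => φ.commutes a
  have hren : ∀ f : MvPolynomial (Fin m) K, φ (rename (Fin.succ ∘ Fin.succ) f) =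
      Polynomial.C (Polynomial.C f) := by
    intro f
    induction f using MvPolynomial.induction_on with
    | C b => rw [rename_C, hC]
    | add p q hp hq => rw [map_add, map_add, hp, hq, Polynomial.C_add, Polynomial.C_add]
    | mul_X p k hp =>
      rw [map_mul, map_mul, hp, rename_X, Polynomial.C_mul, Polynomial.C_mul]
      congr 1
      exact hs k
  refine ⟨φ, ?_, ?_⟩
  · intro D f
    unfold suspA
    rw [map_add, map_add, map_pow, map_pow, h0, h1, hren]
    ring
  · intro ζ p
    have hz : ∀ g, hh (Polynomial.C (algebraMap K (MvPolynomial (Fin m) K) ζ) * Polynomial.X)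
        Polynomial.X (φ g) = zhom ζ g := by
      intro g
      have h : ((hh (Polynomial.C (algebraMap K (MvPolynomial (Fin m) K) ζ) * Polynomial.X)
          Polynomial.X).comp ((φ : MvPolynomial (Fin (m + 2)) K →ₐ[K]
            Polynomial (Polynomial (MvPolynomial (Fin m) K))) : MvPolynomial (Fin (m + 2)) K →+*
            Polynomial (Polynomial (MvPolynomial (Fin m) K)))) =
          ((zhom ζ : MvPolynomial (Fin (m + 2)) K →ₐ[K] Polynomial (MvPolynomial (Fin m) K)) :
            MvPolynomial (Fin (m + 2)) K →+* Polynomial (MvPolynomial (Fin m) K)) := by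
        apply MvPolynomial.ringHom_ext
        · intro a
          change hh _ _ (φ (C a)) = zhom ζ (C a)
          rw [hC, hh_CC, zhom_C]
        · intro k
          change hh _ _ (φ (X k)) = zhom ζ (X k)
          refine Fin.cases ?_ (fun k => ?_) k
          · rw [h0, hh_X, zhom_X0]
          · refine Fin.cases ?_ (fun k => ?_) k
            · change hh _ _ (φ (X 1)) = zhom ζ (X 1)
              rw [h1, hh_CX, zhom_X1]
              rfl
            · rw [hs, hh_CC, zhom_Xs]
      exact congrArg (fun ψ : MvPolynomial (Fin (m + 2)) K →+*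
        Polynomial (MvPolynomial (Fin m) K) => ψ g) h
    apply PrimeSpectrum.ext
    ext g
    change hh _ _ (φ g) ∈ (cylP p).asIdeal ↔ zhom ζ g ∈ (cylP p).asIdeal
    rw [hz]

end Pool.Agent.HCR
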