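import Pool.Agent.HCR.A1
import Pool.Agent.HCR.C2b
import Pool.Agent.HCR.C2c

namespace Pool.Agent.HCR

open Pool.Agent.HCH Pool.Agent.HCF MvPolynomial

/-
PROOF. φ from exists_equiv2. hR: apply map_Rt to φ.symm (surjective; (span {suspA D f}) = (span {φ (suspA D f)}).map φ.symm):
mapDomain (comap φ.symm) (Σ mapDomain (mz ζ) (w ζ)) = Σ mapDomain (PZ ζ) (w ζ), because comap φ.symm (mz ζ p) = PZ ζ p
(mz ζ p = comap φ (PZ ζ p) and comap φ.symm ∘ comap φ = id). Then push_sum'.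
-/
/-- `push_sum` for polynomial rings. -/
theorem push_mz {K : Type} [Field K] [Infinite K] [DecidableEq K] {m : ℕ}
    (f : MvPolynomial (Fin m) K) (d : ℕ) (S : Finset K) (hc : 2 ≤ S.card)
    (hS : ∏ ζ ∈ S, (Polynomial.C Polynomial.X - Polynomial.C (Polynomial.C (algebraMap K
      (MvPolynomial (Fin m) K) ζ)) * Polynomial.X :
        Polynomial (Polynomial (MvPolynomial (Fin m) K))) =
          Polynomial.C Polynomial.X ^ d + Polynomial.X ^ d)
    (e : ℕ) (w : K → (PrimeSpectrum (MvPolynomial (Fin m) K) →₀ ℤ))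
    (hw : ∀ ζ p, w ζ p ≠ 0 → dm K p.asIdeal = e)
    (hR : ∑ ζ ∈ S, Finsupp.mapDomain (mz ζ) (w ζ) ∈ Rt K (Ideal.span {suspA d f}) (e + 1))
    (η : K) (hη : η ∈ S) : ∑ ζ ∈ S.erase η, w ζ - (S.card - 1) • w η ∈ JJ K f e := by
  obtain ⟨φ, hφ1, hφ2⟩ := exists_equiv2 (K := K) m
  have h1 := @map_Rt K (Polynomial (Polynomial (MvPolynomial (Fin m) K)))
    (MvPolynomial (Fin (m + 2)) K) _ _ _ _ _ _ _
    (φ.symm : Polynomial (Polynomial (MvPolynomial (Fin m) K)) →ₐ[K] MvPolynomial (Fin (m + 2)) K)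
    φ.symm.surjective (Ideal.span {(Polynomial.C (Polynomial.C f) +
      Polynomial.C Polynomial.X ^ d + Polynomial.X ^ d :
        Polynomial (Polynomial (MvPolynomial (Fin m) K)))}) (e + 1)
    (∑ ζ ∈ S, Finsupp.mapDomain (mz ζ) (w ζ)) (by
      rw [Ideal.map_span, Set.image_singleton]
      have h2 : (((φ.symm : Polynomial (Polynomial (MvPolynomial (Fin m) K)) →ₐ[K]
          MvPolynomial (Fin (m + 2)) K)) : Polynomial (Polynomial (MvPolynomial (Fin m) K)) →+*
          MvPolynomial (Fin (m + 2)) K) (Polynomial.C (Polynomial.C f) +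
          Polynomial.C Polynomial.X ^ d + Polynomial.X ^ d) = suspA d f := by
        rw [← hφ1]
        exact φ.symm_apply_apply _
      rw [h2]
      exact hR)
  have h4 : Finsupp.mapDomain (PrimeSpectrum.comap (((φ.symm :
      Polynomial (Polynomial (MvPolynomial (Fin m) K)) →ₐ[K] MvPolynomial (Fin (m + 2)) K)) :
        Polynomial (Polynomial (MvPolynomial (Fin m) K)) →+* MvPolynomial (Fin (m + 2)) K))
        (∑ ζ ∈ S, Finsupp.mapDomain (mz ζ) (w ζ)) =
      ∑ ζ ∈ S, Finsupp.mapDomain (PZ (algebraMap K (MvPolynomial (Fin m) K) ζ)) (w ζ) := by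
    rw [Finsupp.mapDomain_finsetSum]
    refine Finset.sum_congr rfl fun z _ => ?_
    rw [← Finsupp.mapDomain_comp]
    congr 1
    funext P
    rw [Function.comp_apply, ← hφ2]
    apply PrimeSpectrum.ext
    ext x
    change φ (φ.symm x) ∈ (PZ (algebraMap K (MvPolynomial (Fin m) K) z) P).asIdeal ↔
      x ∈ (PZ (algebraMap K (MvPolynomial (Fin m) K) z) P).asIdeal
    rw [AlgEquiv.apply_symm_apply]
  rw [h4] at h1
  exact push_sum' f d S hc hS e w hw h1 η hη

end Pool.Agent.HCR
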