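import Pool.Agent.HCR.Defs

namespace Pool.Agent.HCR

open Pool.Agent.HCH Pool.Agent.HCF MvPolynomial

/-
PROOF. algHom_ext on variables (aeval_X, rename_X).
-/
theorem sus_sus {K : Type} [Field K] {m : ℕ} (D : ℕ) (f : MvPolynomial (Fin m) K) :
    sus D (sus D f) = suspA D f := by
  unfold sus suspA
  rw [map_add, map_pow, rename_rename, rename_X]
  have h1 : (Fin.succ 0 : Fin (m + 2)) = 1 := rfl
  rw [h1]
  ring

theorem sus_suspA {K : Type} [Field K] {m : ℕ} (D : ℕ) (f : MvPolynomial (Fin m) K) :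
    sus D (suspA D f) = suspA D (sus D f) := by
  rw [← sus_sus, ← sus_sus]

end Pool.Agent.HCR
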