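import Pool.Agent.HCR.C1
import Pool.Agent.HCR.C2a

namespace Pool.Agent.HCR

open Pool.Agent.HCH Pool.Agent.HCF MvPolynomial

/-- The diagonal automorphism `x_k ↦ α_k x_k`. -/
noncomputable def dg {K : Type} [Field K] {m : ℕ} (α : Fin m → Kˣ) :
    MvPolynomial (Fin m) K ≃ₐ[K] MvPolynomial (Fin m) K :=
  AlgEquiv.ofAlgHom (aeval fun k => C (α k : K) * X k)
    (aeval fun k => C (((α k)⁻¹ : Kˣ) : K) * X k)
    (by
      apply algHom_ext
      intro k
      simp only [AlgHom.comp_apply, aeval_X, map_mul, AlgHom.id_apply]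
      rw [algHom_C, ← mul_assoc, algebraMap_eq, ← C_mul, Units.inv_mul, C_1, one_mul])
    (by
      apply algHom_ext
      intro k
      simp only [AlgHom.comp_apply, aeval_X, map_mul, AlgHom.id_apply]
      rw [algHom_C, ← mul_assoc, algebraMap_eq, ← C_mul, Units.mul_inv, C_1, one_mul])

theorem dg_X {K : Type} [Field K] {m : ℕ} (α : Fin m → Kˣ) (k : Fin m) :
    dg α (X k) = C (α k : K) * X k := aeval_X _ k

/-
PROOF. dg (fun _ => 1) = identity on variables.
-/
theorem cm_dg_one {K : Type} [Field K] {m : ℕ} (p : PrimeSpectrum (MvPolynomial (Fin m) K)) :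
    cm (dg (fun _ => (1 : Kˣ))) p = p := by
  apply PrimeSpectrum.ext
  ext r
  change dg (fun _ => (1 : Kˣ)) r ∈ p.asIdeal ↔ r ∈ p.asIdeal
  have h : ((dg (fun _ => (1 : Kˣ)) : MvPolynomial (Fin m) K ≃ₐ[K] MvPolynomial (Fin m) K) :
      MvPolynomial (Fin m) K →ₐ[K] MvPolynomial (Fin m) K) = AlgHom.id K _ := by
    apply MvPolynomial.algHom_ext
    intro k
    change dg (fun _ => (1 : Kˣ)) (X k) = X k
    rw [dg_X, Units.val_one, C_1, one_mul]
  have h2 : dg (fun _ => (1 : Kˣ)) r = r :=
    congrArg (fun ψ : MvPolynomial (Fin m) K →ₐ[K] MvPolynomial (Fin m) K => ψ r) h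
  rw [h2]

/-
PROOF. Let s = the automorphism of Polynomial (MvPolynomial (Fin m) K) given by X ↦ C (C (α 0)) * X and dg α' on the
coefficients, α' k = α k.succ.succ. On variables zhom a (dg α r) = s (zhom (a * α 1 / α 0) r). So
comap (dg α) (comap (zhom a) (cylP q)) = comap (zhom (a * α 1 / α 0)) (comap s (cylP q)) and comap s (cylP q) = cylP (cm (dg α') q):
P ∈ comap s (cylP q) iff all coefficients of s P, which are α_0 ^ n * dg α' (P.coeff n), lie in q.
-/
theorem cm_dg_mz {K : Type} [Field K] {m : ℕ} (α : Fin (m + 2) → Kˣ) (a : K)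
    (q : PrimeSpectrum (MvPolynomial (Fin m) K)) :
    cm (dg α) (mz a q) = mz (a * (α 1 : K) * ((α 0)⁻¹ : Kˣ))
      (cm (dg (fun k => α k.succ.succ)) q) := by
  classical
  set c : K := a * (α 1 : K) * ((α 0)⁻¹ : Kˣ) with hc
  set α' : Fin m → Kˣ := fun k => α k.succ.succ with hα'
  let s : Polynomial (MvPolynomial (Fin m) K) →+* Polynomial (MvPolynomial (Fin m) K) :=
    (Polynomial.compRingHom (Polynomial.C (C (α 0 : K)) * Polynomial.X)).comp
      (Polynomial.mapRingHom (((dg α' : MvPolynomial (Fin m) K ≃ₐ[K] MvPolynomial (Fin m) K) :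
        MvPolynomial (Fin m) K →ₐ[K] MvPolynomial (Fin m) K) :
        MvPolynomial (Fin m) K →+* MvPolynomial (Fin m) K))
  have hsC : ∀ f, s (Polynomial.C f) = Polynomial.C (dg α' f) := by
    intro f
    change ((Polynomial.C f).map _).comp _ = _
    rw [Polynomial.map_C, Polynomial.C_comp]
    rfl
  have hsX : s Polynomial.X = Polynomial.C (C (α 0 : K)) * Polynomial.X := by
    change (Polynomial.X.map _).comp _ = _
    rw [Polynomial.map_X, Polynomial.X_comp]
  have hsc : ∀ (P : Polynomial (MvPolynomial (Fin m) K)) (n : ℕ),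
      (s P).coeff n = dg α' (P.coeff n) * C (α 0 : K) ^ n := by
    intro P n
    change ((P.map _).comp (Polynomial.C (C (α 0 : K)) * Polynomial.X)).coeff n = _
    rw [Polynomial.comp_C_mul_X_coeff, Polynomial.coeff_map]
    rfl
  have hdC : ∀ {n : ℕ} (β : Fin n → Kˣ) (b : K),
      dg β (C b : MvPolynomial (Fin n) K) = C b := fun β b => (dg β).commutes b
  have key : ∀ r, zhom a (dg α r) = s (zhom c r) := by
    intro r
    have h : ((zhom a : MvPolynomial (Fin (m + 2)) K →ₐ[K] Polynomial (MvPolynomial (Fin m) K)) :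
        MvPolynomial (Fin (m + 2)) K →+* Polynomial (MvPolynomial (Fin m) K)).comp
        (((dg α : MvPolynomial (Fin (m + 2)) K ≃ₐ[K] MvPolynomial (Fin (m + 2)) K) :
          MvPolynomial (Fin (m + 2)) K →ₐ[K] MvPolynomial (Fin (m + 2)) K) :
          MvPolynomial (Fin (m + 2)) K →+* MvPolynomial (Fin (m + 2)) K) =
        s.comp ((zhom c : MvPolynomial (Fin (m + 2)) K →ₐ[K]
          Polynomial (MvPolynomial (Fin m) K)) :
          MvPolynomial (Fin (m + 2)) K →+* Polynomial (MvPolynomial (Fin m) K)) := by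
      apply MvPolynomial.ringHom_ext
      · intro b
        change zhom a (dg α (C b)) = s (zhom c (C b))
        rw [hdC, zhom_C, zhom_C, hsC, hdC]
      · intro k
        change zhom a (dg α (X k)) = s (zhom c (X k))
        rw [dg_X, map_mul, zhom_C]
        refine Fin.cases ?_ (fun k => ?_) k
        · rw [zhom_X0, zhom_X0, hsX]
        · refine Fin.cases ?_ (fun k => ?_) k
          · change Polynomial.C (C (α 1 : K)) * zhom a (X 1) = s (zhom c (X 1))
            rw [zhom_X1, zhom_X1, map_mul, hsC, hsX, hdC, ← mul_assoc, ← mul_assoc,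
              ← Polynomial.C_mul, ← Polynomial.C_mul, ← C_mul, ← C_mul]
            congr 3
            rw [hc, Units.inv_mul_cancel_right, mul_comm]
          · rw [zhom_Xs, zhom_Xs, hsC, dg_X, Polynomial.C_mul]
    exact congrArg (fun ψ : MvPolynomial (Fin (m + 2)) K →+*
      Polynomial (MvPolynomial (Fin m) K) => ψ r) h
  apply PrimeSpectrum.ext
  ext r
  change zhom a (dg α r) ∈ (cylP q).asIdeal ↔ zhom c r ∈ (cylP (cm (dg α') q)).asIdeal
  rw [key, mem_cylP, mem_cylP]
  refine forall_congr' fun n => ?_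
  rw [hsc]
  have hu : IsUnit ((C (α 0 : K) : MvPolynomial (Fin m) K) ^ n) :=
    ((α 0).isUnit.map (C : K →+* MvPolynomial (Fin m) K)).pow n
  exact Ideal.mul_unit_mem_iff_mem _ hu

end Pool.Agent.HCR
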