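import Pool.Agent.HCR.B1f
import Pool.Agent.HCR.C3b

namespace Pool.Agent.HCR

open Pool.Agent.HCH Pool.Agent.HCF MvPolynomial

/-- The scaling of the variable of a polynomial ring. -/
noncomputable def sclE {K B : Type} [Field K] [CommRing B] [Algebra K B] (u : Kˣ) :
    Polynomial B ≃ₐ[K] Polynomial B :=
  AlgEquiv.ofRingEquiv (f := RingEquiv.ofRingHom
    (Polynomial.compRingHom (Polynomial.C (algebraMap K B (u : K)) * Polynomial.X))
    (Polynomial.compRingHom (Polynomial.C (algebraMap K B ((u⁻¹ : Kˣ) : K)) * Polynomial.X))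
    (by
      apply Polynomial.ringHom_ext
      · intro b
        change ((Polynomial.C b).comp _).comp _ = Polynomial.C b
        rw [Polynomial.C_comp, Polynomial.C_comp]
      · change (Polynomial.X.comp _).comp _ = Polynomial.X
        rw [Polynomial.X_comp, Polynomial.mul_comp, Polynomial.C_comp, Polynomial.X_comp,
          ← mul_assoc, ← Polynomial.C_mul, ← map_mul, Units.inv_mul, map_one, Polynomial.C_1,
          one_mul])
    (by
      apply Polynomial.ringHom_ext
      · intro b
        change ((Polynomial.C b).comp _).comp _ = Polynomial.C b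
        rw [Polynomial.C_comp, Polynomial.C_comp]
      · change (Polynomial.X.comp _).comp _ = Polynomial.X
        rw [Polynomial.X_comp, Polynomial.mul_comp, Polynomial.C_comp, Polynomial.X_comp,
          ← mul_assoc, ← Polynomial.C_mul, ← map_mul, Units.mul_inv, map_one, Polynomial.C_1,
          one_mul]))
    (by
      intro r
      change (Polynomial.C (algebraMap K B r)).comp _ = Polynomial.C (algebraMap K B r)
      rw [Polynomial.C_comp])

theorem sclE_C {K B : Type} [Field K] [CommRing B] [Algebra K B] (u : Kˣ) (b : B) :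
    sclE (K := K) u (Polynomial.C b) = Polynomial.C b := by
  change (Polynomial.C b).comp _ = _
  rw [Polynomial.C_comp]

theorem sclE_X {K B : Type} [Field K] [CommRing B] [Algebra K B] (u : Kˣ) :
    sclE (K := K) (B := B) u Polynomial.X =
      Polynomial.C (algebraMap K B (u : K)) * Polynomial.X := by
  change Polynomial.X.comp _ = _
  rw [Polynomial.X_comp]

theorem scale_type {K : Type} [Field K] {n m : ℕ}
    (π : MvPolynomial (Fin n) K →ₐ[K] Polynomial (MvPolynomial (Fin m) K))
    (τ : Polynomial (MvPolynomial (Fin m) K) →+* MvPolynomial (Fin n) K)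
    (hτ : ∀ c : K, τ (Polynomial.C (C c)) = C c) (hπ : Function.Surjective π)
    (f : MvPolynomial (Fin n) K) (h : MvPolynomial (Fin m) K) (hf : π f = Polynomial.C h)
    (ζ : Kˣ) (α : Fin n → Kˣ)
    (hα : ∀ k, Polynomial.C (C (α k : K)) * π (X k) = sclE (K := K) ζ (π (X k)))
    (q : PrimeSpectrum (MvPolynomial (Fin n) K))
    (hτq : ∀ k, X k - τ (π (X k)) ∈ q.asIdeal) (hq : f ∈ q.asIdeal) :
    Finsupp.single q (1 : ℤ) - Finsupp.single (cm (dg α) q) 1 ∈
      Rt K (Ideal.span {f}) (dm K q.asIdeal) := by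
  have hπC : ∀ c : K, π (C c) = Polynomial.C (C c) := fun c => π.commutes c
  refine scale_push π hπ f h hf (dg α) (sclE (K := K) ζ) (sclE_C (K := K) ζ) ?_ q ?_ hq
  · intro r
    have h1 : ((π : MvPolynomial (Fin n) K →+* Polynomial (MvPolynomial (Fin m) K))).comp
        (((dg α : MvPolynomial (Fin n) K ≃ₐ[K] MvPolynomial (Fin n) K) :
          MvPolynomial (Fin n) K →ₐ[K] MvPolynomial (Fin n) K) :
          MvPolynomial (Fin n) K →+* MvPolynomial (Fin n) K) =
        ((((sclE (K := K) ζ : Polynomial (MvPolynomial (Fin m) K) ≃ₐ[K]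
          Polynomial (MvPolynomial (Fin m) K)) : Polynomial (MvPolynomial (Fin m) K) →ₐ[K]
            Polynomial (MvPolynomial (Fin m) K))) : Polynomial (MvPolynomial (Fin m) K) →+*
            Polynomial (MvPolynomial (Fin m) K)).comp
          (π : MvPolynomial (Fin n) K →+* Polynomial (MvPolynomial (Fin m) K)) := by
      apply MvPolynomial.ringHom_ext
      · intro b
        change π (dg α (C b)) = sclE (K := K) ζ (π (C b))
        have h2 : dg α (C b : MvPolynomial (Fin n) K) = C b := (dg α).commutes b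
        rw [h2, hπC, sclE_C]
      · intro k
        change π (dg α (X k)) = sclE (K := K) ζ (π (X k))
        rw [dg_X, map_mul, hπC, hα]
    exact congrArg (fun ψ : MvPolynomial (Fin n) K →+* Polynomial (MvPolynomial (Fin m) K) =>
      ψ r) h1
  · intro r hr
    rw [RingHom.mem_ker] at hr
    have h1 : (Ideal.Quotient.mk q.asIdeal) = ((Ideal.Quotient.mk q.asIdeal).comp τ).comp
        (π : MvPolynomial (Fin n) K →+* Polynomial (MvPolynomial (Fin m) K)) := by
      apply MvPolynomial.ringHom_ext
      · intro b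
        change _ = Ideal.Quotient.mk q.asIdeal (τ (π (C b)))
        rw [hπC, hτ]
      · intro k
        exact Ideal.Quotient.eq.2 (hτq k)
    have h2 : Ideal.Quotient.mk q.asIdeal r = 0 := by
      rw [h1]
      change Ideal.Quotient.mk q.asIdeal (τ (π r)) = 0
      have h3 : π r = 0 := hr
      rw [h3, map_zero, map_zero]
    exact Ideal.Quotient.eq_zero_iff_mem.1 h2

theorem zhom_surj {K : Type} [Field K] {m : ℕ} (a : K) :
    Function.Surjective (zhom a : MvPolynomial (Fin (m + 2)) K →ₐ[K]
      Polynomial (MvPolynomial (Fin m) K)) := by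
  intro q
  induction q using Polynomial.induction_on with
  | C r => exact ⟨rename (Fin.succ ∘ Fin.succ) r, zhom_ren a r⟩
  | add p q hp hq =>
    obtain ⟨x, rfl⟩ := hp
    obtain ⟨y, rfl⟩ := hq
    exact ⟨x + y, map_add _ _ _⟩
  | monomial n r hr =>
    obtain ⟨x, hx⟩ := hr
    refine ⟨x * X 0, ?_⟩
    rw [map_mul, hx, zhom_X0, pow_succ, mul_assoc]

/-
PROOF. scale_push with π = zhom a (surjective; π (suspA D g) = C g as in susp_mem_mz; ker π = span {X 1 - C a * X 0}: for every
r, r - τ (π r) ∈ span {X 1 - C a * X 0}, τ the section X ↦ X 0, C (X k) ↦ X k.succ.succ, cf. ker_of_vars), G = dg α,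
g : X ↦ C (C ζ) * X (an AlgEquiv with inverse X ↦ C (C ζ⁻¹) * X, fixing the constants).
-/
theorem typeI {K : Type} [Field K] {m : ℕ} (D : ℕ) (g : MvPolynomial (Fin m) K) (a : K)
    (ha : a ^ D = -1) (ζ : Kˣ) (α : Fin (m + 2) → Kˣ) (h0 : α 0 = ζ) (h1 : α 1 = ζ)
    (h2 : ∀ k : Fin m, α k.succ.succ = 1)
    (q : PrimeSpectrum (MvPolynomial (Fin (m + 2)) K)) (hq : suspA D g ∈ q.asIdeal)
    (hs : X 1 - C a * X 0 ∈ q.asIdeal) :
    Finsupp.single q (1 : ℤ) - Finsupp.single (cm (dg α) q) 1 ∈
      Rt K (Ideal.span {suspA D g}) (dm K q.asIdeal) := by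
  let τ : Polynomial (MvPolynomial (Fin m) K) →+* MvPolynomial (Fin (m + 2)) K :=
    Polynomial.eval₂RingHom ((rename (Fin.succ ∘ Fin.succ) : MvPolynomial (Fin m) K →ₐ[K]
      MvPolynomial (Fin (m + 2)) K) : MvPolynomial (Fin m) K →+* MvPolynomial (Fin (m + 2)) K)
      (X 0)
  have hτC : ∀ b, τ (Polynomial.C b) = rename (Fin.succ ∘ Fin.succ) b := fun b =>
    Polynomial.eval₂_C _ _
  have hτX : τ Polynomial.X = X 0 := Polynomial.eval₂_X _ _
  refine scale_type (zhom a) τ ?_ (zhom_surj a) (suspA D g) g ?_ ζ α ?_ q ?_ hq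
  · intro c
    rw [hτC, rename_C]
  · unfold suspA
    rw [map_add, map_add, map_pow, map_pow, zhom_X0, zhom_X1, zhom_ren, mul_pow,
      ← Polynomial.C_pow, ← C_pow, ha, C_neg, C_1, Polynomial.C_neg, Polynomial.C_1]
    ring
  · intro k
    refine Fin.cases ?_ (fun k => ?_) k
    · rw [zhom_X0, sclE_X, h0]
      rfl
    · refine Fin.cases ?_ (fun k => ?_) k
      · change Polynomial.C (C (α 1 : K)) * zhom a (X 1) = sclE (K := K) ζ (zhom a (X 1))
        rw [zhom_X1, map_mul, sclE_C, sclE_X, h1]
        change _ = _ * (Polynomial.C (C (ζ : K)) * _)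
        ring
      · rw [zhom_Xs, sclE_C, h2, Units.val_one, C_1, Polynomial.C_1, one_mul]
  · intro k
    refine Fin.cases ?_ (fun k => ?_) k
    · rw [zhom_X0, hτX, sub_self]
      exact q.asIdeal.zero_mem
    · refine Fin.cases ?_ (fun k => ?_) k
      · change X 1 - τ (zhom a (X 1)) ∈ _
        rw [zhom_X1, map_mul, hτC, hτX, rename_C]
        exact hs
      · rw [zhom_Xs, hτC, rename_X]
        change X k.succ.succ - X k.succ.succ ∈ _
        rw [sub_self]
        exact q.asIdeal.zero_mem

end Pool.Agent.HCR
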