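import Pool.Agent.HCR.B1f
import Pool.Agent.HCR.C3b
import Pool.Agent.HCR.C3a
import Pool.Agent.HCR.C3c

namespace Pool.Agent.HCR

open Pool.Agent.HCH Pool.Agent.HCF MvPolynomial

/-- The projection of a cone whose vertex has its three first coordinates on a line. -/
noncomputable def zhom3 {K : Type} [Field K] {m : ℕ} (a b : K) :
    MvPolynomial (Fin (m + 3)) K →ₐ[K] Polynomial (MvPolynomial (Fin m) K) :=
  aeval (Fin.cases (Polynomial.C (C a) * Polynomial.X)
    (Fin.cases (Polynomial.C (C b) * Polynomial.X)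
      (Fin.cases Polynomial.X (fun k => Polynomial.C (X k)))))

theorem zhom3_X0 {K : Type} [Field K] {m : ℕ} (a b : K) :
    (zhom3 a b : MvPolynomial (Fin (m + 3)) K →ₐ[K] _) (X 0) =
      Polynomial.C (C a) * Polynomial.X := by
  unfold zhom3
  rw [aeval_X]
  rfl

theorem zhom3_X1 {K : Type} [Field K] {m : ℕ} (a b : K) :
    (zhom3 a b : MvPolynomial (Fin (m + 3)) K →ₐ[K] _) (X 1) =
      Polynomial.C (C b) * Polynomial.X := by
  unfold zhom3
  rw [aeval_X]
  rfl

theorem zhom3_X2 {K : Type} [Field K] {m : ℕ} (a b : K) :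
    (zhom3 a b : MvPolynomial (Fin (m + 3)) K →ₐ[K] _) (X 2) = Polynomial.X := by
  unfold zhom3
  rw [aeval_X]
  rfl

theorem zhom3_Xs {K : Type} [Field K] {m : ℕ} (a b : K) (k : Fin m) :
    (zhom3 a b : MvPolynomial (Fin (m + 3)) K →ₐ[K] _) (X k.succ.succ.succ) =
      Polynomial.C (X k) := by
  unfold zhom3
  rw [aeval_X]
  rfl

theorem zhom3_C {K : Type} [Field K] {m : ℕ} (a b c : K) :
    (zhom3 a b : MvPolynomial (Fin (m + 3)) K →ₐ[K] _) (C c) = Polynomial.C (C c) :=
  (zhom3 a b).commutes c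

theorem zhom3_ren {K : Type} [Field K] {m : ℕ} (a b : K) (r : MvPolynomial (Fin m) K) :
    (zhom3 a b : MvPolynomial (Fin (m + 3)) K →ₐ[K] _)
      (rename (fun k : Fin m => k.succ.succ.succ) r) = Polynomial.C r := by
  have h : ((zhom3 a b : MvPolynomial (Fin (m + 3)) K →ₐ[K] Polynomial (MvPolynomial (Fin m) K)) :
      MvPolynomial (Fin (m + 3)) K →+* Polynomial (MvPolynomial (Fin m) K)).comp
      ((rename (fun k : Fin m => k.succ.succ.succ) : MvPolynomial (Fin m) K →ₐ[K]
        MvPolynomial (Fin (m + 3)) K) : MvPolynomial (Fin m) K →+* MvPolynomial (Fin (m + 3)) K) =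
      Polynomial.C := by
    apply MvPolynomial.ringHom_ext
    · intro c
      change zhom3 a b (rename _ (C c)) = _
      rw [rename_C, zhom3_C]
    · intro k
      change zhom3 a b (rename _ (X k)) = _
      rw [rename_X, zhom3_Xs]
  exact congrArg (fun ψ : MvPolynomial (Fin m) K →+* Polynomial (MvPolynomial (Fin m) K) =>
    ψ r) h

/-
PROOF. As typeI with π : X 0 ↦ C (C a) * X, X 1 ↦ C (C b) * X, X 2 ↦ X, X k.succ.succ.succ ↦ C (X k);
π (suspA D (sus D g)) = C g + (a ^ D + b ^ D + 1) * X ^ D = C g; ker π = span {X 0 - C a * X 2, X 1 - C b * X 2}.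
-/
theorem typeII {K : Type} [Field K] {m : ℕ} (D : ℕ) (g : MvPolynomial (Fin m) K) (a b : K)
    (hab : a ^ D + b ^ D = -1) (ζ : Kˣ) (α : Fin (m + 3) → Kˣ) (h0 : α 0 = ζ)
    (h1 : α 1 = ζ) (h2 : α 2 = ζ) (h3 : ∀ k : Fin m, α k.succ.succ.succ = 1)
    (q : PrimeSpectrum (MvPolynomial (Fin (m + 3)) K))
    (hq : suspA D (sus D g) ∈ q.asIdeal) (hs : X 0 - C a * X 2 ∈ q.asIdeal)
    (hs' : X 1 - C b * X 2 ∈ q.asIdeal) :
    Finsupp.single q (1 : ℤ) - Finsupp.single (cm (dg α) q) 1 ∈
      Rt K (Ideal.span {suspA D (sus D g)}) (dm K q.asIdeal) := by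
  let τ : Polynomial (MvPolynomial (Fin m) K) →+* MvPolynomial (Fin (m + 3)) K :=
    Polynomial.eval₂RingHom ((rename (fun k : Fin m => k.succ.succ.succ) :
      MvPolynomial (Fin m) K →ₐ[K]
      MvPolynomial (Fin (m + 3)) K) : MvPolynomial (Fin m) K →+* MvPolynomial (Fin (m + 3)) K)
      (X 2)
  have hτC : ∀ c, τ (Polynomial.C c) = rename (fun k : Fin m => k.succ.succ.succ) c := fun c =>
    Polynomial.eval₂_C _ _
  have hτX : τ Polynomial.X = X 2 := Polynomial.eval₂_X _ _
  have hsurj : Function.Surjective (zhom3 a b : MvPolynomial (Fin (m + 3)) K →ₐ[K]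
      Polynomial (MvPolynomial (Fin m) K)) := by
    intro q
    induction q using Polynomial.induction_on with
    | C r => exact ⟨rename (fun k : Fin m => k.succ.succ.succ) r, zhom3_ren a b r⟩
    | add p q hp hq =>
      obtain ⟨x, rfl⟩ := hp
      obtain ⟨y, rfl⟩ := hq
      exact ⟨x + y, map_add _ _ _⟩
    | monomial n r hr =>
      obtain ⟨x, hx⟩ := hr
      refine ⟨x * X 2, ?_⟩
      rw [map_mul, hx, zhom3_X2, pow_succ, mul_assoc]
  refine scale_type (zhom3 a b) τ ?_ hsurj (suspA D (sus D g)) g ?_ ζ α ?_ q ?_ hq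
  · intro c
    rw [hτC, rename_C]
  · have e1 : rename (Fin.succ ∘ Fin.succ) (sus D g) =
        rename (fun k : Fin m => k.succ.succ.succ) g + (X 2 : MvPolynomial (Fin (m + 3)) K) ^ D := by
      unfold sus
      rw [map_add, map_pow, rename_rename, rename_X]
      rfl
    unfold suspA
    rw [e1, map_add, map_add, map_add, map_pow, map_pow, map_pow, zhom3_X0, zhom3_X1, zhom3_X2,
      zhom3_ren, mul_pow, mul_pow, ← Polynomial.C_pow, ← Polynomial.C_pow, ← C_pow, ← C_pow]
    have e2 : (C (a ^ D) : MvPolynomial (Fin m) K) = - C (b ^ D) - 1 := by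
      have h := congrArg (C : K →+* MvPolynomial (Fin m) K) hab
      rw [map_add, map_neg, map_one] at h
      linear_combination h
    rw [e2, Polynomial.C_sub, Polynomial.C_neg, Polynomial.C_1]
    ring
  · intro k
    refine Fin.cases ?_ (fun k => ?_) k
    · rw [zhom3_X0, map_mul, sclE_C, sclE_X, h0]
      change _ = _ * (Polynomial.C (C (ζ : K)) * _)
      ring
    · refine Fin.cases ?_ (fun k => ?_) k
      · change Polynomial.C (C (α 1 : K)) * zhom3 a b (X 1) = sclE (K := K) ζ (zhom3 a b (X 1))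
        rw [zhom3_X1, map_mul, sclE_C, sclE_X, h1]
        change _ = _ * (Polynomial.C (C (ζ : K)) * _)
        ring
      · refine Fin.cases ?_ (fun k => ?_) k
        · change Polynomial.C (C (α 2 : K)) * zhom3 a b (X 2) = sclE (K := K) ζ (zhom3 a b (X 2))
          rw [zhom3_X2, sclE_X, h2]
          rfl
        · rw [zhom3_Xs, sclE_C, h3, Units.val_one, C_1, Polynomial.C_1, one_mul]
  · intro k
    refine Fin.cases ?_ (fun k => ?_) k
    · rw [zhom3_X0, map_mul, hτC, hτX, rename_C]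
      exact hs
    · refine Fin.cases ?_ (fun k => ?_) k
      · change X 1 - τ (zhom3 a b (X 1)) ∈ _
        rw [zhom3_X1, map_mul, hτC, hτX, rename_C]
        exact hs'
      · refine Fin.cases ?_ (fun k => ?_) k
        · change X 2 - τ (zhom3 a b (X 2)) ∈ _
          rw [zhom3_X2, hτX, sub_self]
          exact q.asIdeal.zero_mem
        · rw [zhom3_Xs, hτC, rename_X, sub_self]
          exact q.asIdeal.zero_mem

end Pool.Agent.HCR
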