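import Pool.Agent.HCR.C3a

namespace Pool.Agent.HCR

open Pool.Agent.HCH Pool.Agent.HCF MvPolynomial

theorem mem_X0 {K : Type} [Field K] {m : ℕ} (a b : K) :
    (mem a b : MvPolynomial (Fin (m + 2)) K →ₐ[K] MvPolynomial (Fin (m + 1)) K) (X 0) =
      C a * X 0 := by
  unfold mem
  rw [aeval_X]
  rfl

theorem mem_X1 {K : Type} [Field K] {m : ℕ} (a b : K) :
    (mem a b : MvPolynomial (Fin (m + 2)) K →ₐ[K] MvPolynomial (Fin (m + 1)) K) (X 1) =
      C b * X 0 := by
  unfold mem
  rw [aeval_X]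
  rfl

theorem mem_Xs {K : Type} [Field K] {m : ℕ} (a b : K) (k : Fin m) :
    (mem a b : MvPolynomial (Fin (m + 2)) K →ₐ[K] MvPolynomial (Fin (m + 1)) K)
      (X k.succ.succ) = X k.succ := by
  unfold mem
  rw [aeval_X]
  rfl

theorem mem_C {K : Type} [Field K] {m : ℕ} (a b c : K) :
    (mem a b : MvPolynomial (Fin (m + 2)) K →ₐ[K] MvPolynomial (Fin (m + 1)) K) (C c) = C c :=
  (mem a b).commutes c

theorem mem_ren {K : Type} [Field K] {m : ℕ} (a b : K) (g : MvPolynomial (Fin m) K) :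
    mem a b (rename (Fin.succ ∘ Fin.succ) g) = rename Fin.succ g := by
  have h : ((mem a b : MvPolynomial (Fin (m + 2)) K →ₐ[K] MvPolynomial (Fin (m + 1)) K)).comp
      (rename (Fin.succ ∘ Fin.succ)) = rename Fin.succ := by
    apply MvPolynomial.algHom_ext
    intro k
    rw [AlgHom.comp_apply, rename_X, rename_X]
    exact mem_Xs a b k
  exact congrArg (fun ψ : MvPolynomial (Fin m) K →ₐ[K] MvPolynomial (Fin (m + 1)) K => ψ g) h

/-- A section of `mem a b`. -/
noncomputable def memS {K : Type} [Field K] {m : ℕ} (u v : K) :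
    MvPolynomial (Fin (m + 1)) K →ₐ[K] MvPolynomial (Fin (m + 2)) K :=
  aeval (Fin.cons (α := fun _ => MvPolynomial (Fin (m + 2)) K) (C u * X 0 + C v * X 1)
    (fun k => X k.succ.succ))

theorem memS_X0 {K : Type} [Field K] {m : ℕ} (u v : K) :
    (memS u v : MvPolynomial (Fin (m + 1)) K →ₐ[K] MvPolynomial (Fin (m + 2)) K) (X 0) =
      C u * X 0 + C v * X 1 := by
  unfold memS
  rw [aeval_X]
  rfl

theorem memS_Xs {K : Type} [Field K] {m : ℕ} (u v : K) (k : Fin m) :
    (memS u v : MvPolynomial (Fin (m + 1)) K →ₐ[K] MvPolynomial (Fin (m + 2)) K) (X k.succ) =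
      X k.succ.succ := by
  unfold memS
  rw [aeval_X]
  rfl

theorem memS_C {K : Type} [Field K] {m : ℕ} (u v c : K) :
    (memS u v : MvPolynomial (Fin (m + 1)) K →ₐ[K] MvPolynomial (Fin (m + 2)) K) (C c) = C c :=
  (memS u v).commutes c

theorem exists_uv {K : Type} [Field K] (a b : K) (h : a ≠ 0 ∨ b ≠ 0) :
    ∃ u v : K, u * a + v * b = 1 := by
  rcases h with h | h
  · exact ⟨a⁻¹, 0, by rw [inv_mul_cancel₀ h, zero_mul, add_zero]⟩
  · exact ⟨0, b⁻¹, by rw [inv_mul_cancel₀ h, zero_mul, zero_add]⟩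

theorem mem_memS {K : Type} [Field K] {m : ℕ} (a b u v : K) (h : u * a + v * b = 1)
    (r : MvPolynomial (Fin (m + 1)) K) : mem a b (memS u v r) = r := by
  have h1 : (mem a b : MvPolynomial (Fin (m + 2)) K →ₐ[K] MvPolynomial (Fin (m + 1)) K).comp
      (memS u v) = AlgHom.id K _ := by
    apply MvPolynomial.algHom_ext
    intro k
    rw [AlgHom.comp_apply, AlgHom.id_apply]
    refine Fin.cases ?_ (fun k => ?_) k
    · rw [memS_X0, map_add, map_mul, map_mul, mem_C, mem_C, mem_X0, mem_X1, ← mul_assoc,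
        ← mul_assoc, ← C_mul, ← C_mul, ← add_mul, ← C_add, h, C_1, one_mul]
    · rw [memS_Xs, mem_Xs]
  exact congrArg (fun ψ : MvPolynomial (Fin (m + 1)) K →ₐ[K] MvPolynomial (Fin (m + 1)) K =>
    ψ r) h1

/-
PROOF. X (k + 1) is the image of X (k + 2), and X 0 the image of C a⁻¹ * X 0 or C b⁻¹ * X 1.
-/
theorem mem_surj {K : Type} [Field K] {m : ℕ} (a b : K) (h : a ≠ 0 ∨ b ≠ 0) :
    Function.Surjective (mem a b : MvPolynomial (Fin (m + 2)) K →ₐ[K] MvPolynomial (Fin (m + 1)) K) := by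
  obtain ⟨u, v, huv⟩ := exists_uv a b h
  intro r
  exact ⟨memS u v r, mem_memS a b u v huv r⟩

/-
PROOF. ker_of_vars needs a section: τ : X 0 ↦ C a⁻¹ * X 0 (a ≠ 0) or C b⁻¹ * X 1 (b ≠ 0), X k.succ ↦ X k.succ.succ; then
X k - τ (mem (X k)) ∈ span {C b * X 0 - C a * X 1}.
-/
theorem ker_mem {K : Type} [Field K] {m : ℕ} (a b : K) (h : a ≠ 0 ∨ b ≠ 0) :
    RingHom.ker ((mem a b : MvPolynomial (Fin (m + 2)) K →ₐ[K] MvPolynomial (Fin (m + 1)) K) :
      MvPolynomial (Fin (m + 2)) K →+* MvPolynomial (Fin (m + 1)) K) =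
      Ideal.span {C b * X 0 - C a * X 1} := by
  obtain ⟨u, v, huv⟩ := exists_uv a b h
  apply le_antisymm
  · intro r hr
    set I : Ideal (MvPolynomial (Fin (m + 2)) K) := Ideal.span {C b * X 0 - C a * X 1} with hI
    have hx : C b * X 0 - C a * X 1 ∈ I := Ideal.subset_span rfl
    have hc : (C u * C a + C v * C b : MvPolynomial (Fin (m + 2)) K) = 1 := by
      rw [← C_mul, ← C_mul, ← C_add, huv, C_1]
    have h1 : (Ideal.Quotient.mkₐ K I) = ((Ideal.Quotient.mkₐ K I).comp (memS u v)).comp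
        (mem a b) := by
      apply MvPolynomial.algHom_ext
      intro k
      change Ideal.Quotient.mk I (X k) = Ideal.Quotient.mk I (memS u v (mem a b (X k)))
      refine Ideal.Quotient.eq.2 ?_
      refine Fin.cases ?_ (fun k => ?_) k
      · rw [mem_X0, map_mul, memS_C, memS_X0]
        have e : (X 0 - C a * (C u * X 0 + C v * X 1) : MvPolynomial (Fin (m + 2)) K) =
            C v * (C b * X 0 - C a * X 1) := by
          linear_combination (- X 0 : MvPolynomial (Fin (m + 2)) K) * hc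
        rw [e]
        exact I.mul_mem_left _ hx
      · refine Fin.cases ?_ (fun k => ?_) k
        · change X 1 - memS u v (mem a b (X 1)) ∈ I
          rw [mem_X1, map_mul, memS_C, memS_X0]
          have e : (X 1 - C b * (C u * X 0 + C v * X 1) : MvPolynomial (Fin (m + 2)) K) =
              - C u * (C b * X 0 - C a * X 1) := by
            linear_combination (- X 1 : MvPolynomial (Fin (m + 2)) K) * hc
          rw [e]
          exact I.mul_mem_left _ hx
        · rw [mem_Xs, memS_Xs, sub_self]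
          exact I.zero_mem
    have h2 : Ideal.Quotient.mkₐ K I r = 0 := by
      rw [h1]
      change Ideal.Quotient.mkₐ K I (memS u v (mem a b r)) = 0
      have h3 : mem a b r = 0 := hr
      rw [h3, map_zero, map_zero]
    exact Ideal.Quotient.eq_zero_iff_mem.1 h2
  · rw [Ideal.span_le, Set.singleton_subset_iff, SetLike.mem_coe, RingHom.mem_ker]
    change mem a b (C b * X 0 - C a * X 1) = 0
    rw [map_sub, map_mul, map_mul, mem_C, mem_C, mem_X0, mem_X1]
    ring

/-
PROOF. On variables.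
-/
theorem mem_suspA {K : Type} [Field K] {m : ℕ} (D : ℕ) (g : MvPolynomial (Fin m) K) (a b : K) :
    mem a b (suspA D g) = rename Fin.succ g + C (a ^ D + b ^ D) * X 0 ^ D := by
  unfold suspA
  rw [map_add, map_add, map_pow, map_pow, mem_X0, mem_X1, mem_ren, mul_pow, mul_pow, C_add,
    C_pow, C_pow]
  ring

end Pool.Agent.HCR
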