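import Pool.Agent.HCR.Defs

namespace Pool.Agent.HCR

open Pool.Agent.HCH Pool.Agent.HCF MvPolynomial

/-
PROOF. (s, t) from MemP 0 1 q: C s * X 0 - C t * X 1 ∈ q. If s ^ D + t ^ D = 0 then s ≠ 0, t ≠ 0 and ε = t / s works for SpP (left
alternative), q ∋ C s⁻¹ * (..). Otherwise c with c ^ D * (s ^ D + t ^ D) = 1 (IsAlgClosed.exists_pow_nat_eq), a = c t, b = c s.
-/
/-- The members of the pencil through a prime: special or isomorphic to the standard one. -/
theorem mem_cases {K : Type} [Field K] [IsAlgClosed K] {m : ℕ} (D : ℕ) (hD : 1 ≤ D)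
    (q : PrimeSpectrum (MvPolynomial (Fin (m + 2)) K)) (hq : MemP 0 1 q) :
    SpP D 0 1 q ∨ ∃ a b : K, a ^ D + b ^ D = 1 ∧ C b * X 0 - C a * X 1 ∈ q.asIdeal := by
  obtain ⟨s, t, hst, h⟩ := hq
  by_cases h0 : s ^ D + t ^ D = 0
  · left
    have hs : s ≠ 0 := by
      intro hs
      rw [hs, zero_pow (by omega), zero_add] at h0
      have ht : t = 0 := pow_eq_zero_iff (by omega) |>.1 h0
      rcases hst with h1 | h1
      · exact h1 hs
      · exact h1 ht
    refine ⟨t / s, ?_, ?_⟩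
    · rw [div_pow, div_eq_iff (pow_ne_zero _ hs)]
      linear_combination h0
    · have e : (X 0 - C (t / s) * X 1 : MvPolynomial (Fin (m + 2)) K) =
          C s⁻¹ * (C s * X 0 - C t * X 1) := by
        rw [mul_sub, ← mul_assoc, ← mul_assoc, ← C_mul, ← C_mul, inv_mul_cancel₀ hs, C_1, one_mul,
          div_eq_mul_inv, mul_comm t]
      rw [e]
      exact q.asIdeal.mul_mem_left _ h
  · right
    obtain ⟨c, hc⟩ := IsAlgClosed.exists_pow_nat_eq (s ^ D + t ^ D)⁻¹ (n := D) (by omega)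
    refine ⟨c * t, c * s, ?_, ?_⟩
    · rw [mul_pow, mul_pow, ← mul_add, add_comm, hc, inv_mul_cancel₀ h0]
    · have e : (C (c * s) * X 0 - C (c * t) * X 1 : MvPolynomial (Fin (m + 2)) K) =
          C c * (C s * X 0 - C t * X 1) := by
        rw [C_mul, C_mul]
        ring
      rw [e]
      exact q.asIdeal.mul_mem_left _ h

end Pool.Agent.HCR
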