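import Pool.Agent.HCR.A1
import Pool.Agent.HCR.C4a
import Pool.Agent.HCR.C4b

namespace Pool.Agent.HCR

open Pool.Agent.HCH Pool.Agent.HCF MvPolynomial

/-
PROOF. H4.trans: let q with MemP 0 1 q. mem_cases: if SpP D 0 1 q: S1 holds (X 0 - C ε * X 1 ∈ q gives X 1 - C ε⁻¹ * X 0 ∈ q,
(ε⁻¹) ^ D = - 1): N = 1, single q 1 ∈ Cy. Otherwise a, b: φ = mem a b, ker φ = span {C b * X 0 - C a * X 1} ≤ q, and
φ (suspA D (sus D g)) = sus D (sus D g) = suspA D g (mem_suspA with a ^ D + b ^ D = 1, sus_sus). Gen.push φ with H3: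
N • single q ∈ Rt ⊔ Cy (∃ q', comap φ q' = q'' ∧ SpP D 0 1 q'). Cy_mono: q' ∋ X 0 - C ε * X 1 (ε ^ D = -1), so
q'' = comap φ q' contains X 0 - C (a ε) * X 2 and X 1 - C (b ε) * X 2 (their images are C a * (X 0 - C ε * X 1), ..),
(a ε) ^ D + (b ε) ^ D = - 1: S2.
-/
theorem gen_types {K : Type} [Field K] [IsAlgClosed K] {m : ℕ} (D : ℕ) (hD : 1 ≤ D)
    (g : MvPolynomial (Fin m) K) (e : ℕ) (H4 : Gen K (suspA D (sus D g)) e (MemP 0 1))
    (H3 : Gen K (suspA D g) e (SpP D 0 1)) :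
    Gen K (suspA D (sus D g)) e (fun q => (∃ a : K, a ^ D = -1 ∧ X 1 - C a * X 0 ∈ q.asIdeal) ∨
      ∃ a b : K, a ^ D + b ^ D = -1 ∧ X 0 - C a * X 2 ∈ q.asIdeal ∧
        X 1 - C b * X 2 ∈ q.asIdeal) := by
  refine H4.trans ?_
  intro q hq hd hM
  rcases mem_cases D hD q hM with ⟨ε, hε, hx⟩ | ⟨a, b, hab, hx⟩
  · have hε0 : ε ≠ 0 := by
      intro h
      rw [h, zero_pow (by omega)] at hε
      exact neg_ne_zero.2 one_ne_zero hε.symm
    refine ⟨1, one_pos, ?_⟩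
    rw [Nat.cast_one, one_smul]
    refine (le_sup_right : _ ≤ Rt K (Ideal.span {suspA D (sus D g)}) e ⊔ _) ?_
    refine AddSubgroup.subset_closure ⟨q, hq, hd, Or.inl ⟨ε⁻¹, ?_, ?_⟩, rfl⟩
    · rw [inv_pow, hε, inv_neg, inv_one]
    · have e1 : (X 1 - C ε⁻¹ * X 0 : MvPolynomial (Fin (m + 1 + 2)) K) =
          - C ε⁻¹ * (X 0 - C ε * X 1) := by
        have h2 : (C ε⁻¹ * C ε : MvPolynomial (Fin (m + 1 + 2)) K) = 1 := by
          rw [← C_mul, inv_mul_cancel₀ hε0, C_1]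
        linear_combination (- X 1 : MvPolynomial (Fin (m + 1 + 2)) K) * h2
      rw [e1]
      exact q.asIdeal.mul_mem_left _ hx
  · have hab0 : a ≠ 0 ∨ b ≠ 0 := by
      by_contra hcon
      push Not at hcon
      rw [hcon.1, hcon.2, zero_pow (by omega), add_zero] at hab
      exact zero_ne_one hab
    have hk : RingHom.ker ((mem a b : MvPolynomial (Fin (m + 1 + 2)) K →ₐ[K]
        MvPolynomial (Fin (m + 1 + 1)) K) :
        MvPolynomial (Fin (m + 1 + 2)) K →+* MvPolynomial (Fin (m + 1 + 1)) K) ≤ q.asIdeal := by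
      rw [ker_mem a b hab0, Ideal.span_le, Set.singleton_subset_iff]
      exact hx
    have himg : mem a b (suspA D (sus D g)) = suspA D g := by
      rw [mem_suspA, hab, C_1, one_mul, ← sus_sus]
      rfl
    have H3' : Gen K (mem a b (suspA D (sus D g))) e (SpP D 0 1) := by
      rw [himg]
      exact H3
    obtain ⟨N, hN, hz⟩ := Gen.push (mem a b) (mem_surj a b hab0) H3' q hq hk hd
    refine ⟨N, hN, sup_le_sup_left (Cy_mono _ e ?_) _ hz⟩
    rintro q1 - - ⟨q2, rfl, ε, hε, hx2⟩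
    right
    have himg2 : ∀ c : K, mem a b (X 2 : MvPolynomial (Fin (m + 1 + 2)) K) = X 1 := by
      intro c
      exact mem_Xs a b (0 : Fin (m + 1))
    refine ⟨a * ε, b * ε, ?_, ?_, ?_⟩
    · rw [mul_pow, mul_pow, ← add_mul, hab, hε, one_mul]
    · change mem a b (X 0 - C (a * ε) * X 2) ∈ q2.asIdeal
      rw [map_sub, map_mul, mem_C, mem_X0, himg2 0, C_mul]
      have e1 : (C a * X 0 - C a * C ε * X 1 : MvPolynomial (Fin (m + 1 + 1)) K) =
          C a * (X 0 - C ε * X 1) := by ring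
      rw [e1]
      exact q2.asIdeal.mul_mem_left _ hx2
    · change mem a b (X 1 - C (b * ε) * X 2) ∈ q2.asIdeal
      rw [map_sub, map_mul, mem_C, mem_X1, himg2 0, C_mul]
      have e1 : (C b * X 0 - C b * C ε * X 1 : MvPolynomial (Fin (m + 1 + 1)) K) =
          C b * (X 0 - C ε * X 1) := by ring
      rw [e1]
      exact q2.asIdeal.mul_mem_left _ hx2

end Pool.Agent.HCR
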