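import Pool.Agent.HCR.C3b

namespace Pool.Agent.HCR

open Pool.Agent.HCH Pool.Agent.HCF MvPolynomial

/-- The exchange of the second and the third variable. -/
noncomputable def sw12 (K : Type) [Field K] (m : ℕ) :
    MvPolynomial (Fin (m + 4)) K ≃ₐ[K] MvPolynomial (Fin (m + 4)) K :=
  renameEquiv K (Equiv.swap 1 2)

theorem sw12_X {K : Type} [Field K] {m : ℕ} (k : Fin (m + 4)) :
    sw12 K m (X k) = X (Equiv.swap 1 2 k) := rename_X _ _

theorem swap12_zero {m : ℕ} : Equiv.swap (1 : Fin (m + 4)) 2 0 = 0 := by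
  apply Equiv.swap_apply_of_ne_of_ne
  · intro h
    have := congrArg Fin.val h
    simp at this
  · intro h
    have := congrArg Fin.val h
    rw [Fin.val_zero, Fin.val_two] at this
    omega

theorem swap12_three {m : ℕ} : Equiv.swap (1 : Fin (m + 4)) 2 3 = 3 := by
  have h3 : ((3 : Fin (m + 4)) : ℕ) = 3 := rfl
  apply Equiv.swap_apply_of_ne_of_ne
  · intro h
    have := congrArg Fin.val h
    rw [h3, Fin.val_one] at this
    omega
  · intro h
    have := congrArg Fin.val h
    rw [h3, Fin.val_two] at this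
    omega

theorem swap12_big {m : ℕ} (k : Fin m) : Equiv.swap (1 : Fin (m + 4)) 2 k.succ.succ.succ.succ =
    k.succ.succ.succ.succ := by
  apply Equiv.swap_apply_of_ne_of_ne
  · intro h
    have := congrArg Fin.val h
    rw [Fin.val_one] at this
    simp only [Fin.val_succ] at this
    omega
  · intro h
    have := congrArg Fin.val h
    rw [Fin.val_two] at this
    simp only [Fin.val_succ] at this
    omega

/-- The prime `x ∈ p`, `x_2 = a x_0`, `x_3 = b x_1`. -/
noncomputable def jz {K : Type} [Field K] {m : ℕ} (a b : K)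
    (p : PrimeSpectrum (MvPolynomial (Fin m) K)) : PrimeSpectrum (MvPolynomial (Fin (m + 4)) K) :=
  cm (sw12 K m) (mz a (mz b p))

/-
PROOF. suspA D (suspA D f) = rename (succ ^ 4) f + X 2 ^ D + X 3 ^ D + X 0 ^ D + X 1 ^ D, on variables.
-/
theorem sw12_susp {K : Type} [Field K] {m : ℕ} (D : ℕ) (f : MvPolynomial (Fin m) K) :
    sw12 K m (suspA D (suspA D f)) = suspA D (suspA D f) := by
  have e1 : suspA D (suspA D f) = rename (fun k : Fin m => k.succ.succ.succ.succ) f +
      X 2 ^ D + X 3 ^ D + X 0 ^ D + X 1 ^ D := by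
    unfold suspA
    rw [map_add, map_add, map_pow, map_pow, rename_rename, rename_X, rename_X]
    rfl
  have e2 : sw12 K m (rename (fun k : Fin m => k.succ.succ.succ.succ) f) =
      rename (fun k : Fin m => k.succ.succ.succ.succ) f := by
    change rename (Equiv.swap 1 2) (rename _ f) = _
    rw [rename_rename]
    have e3 : (Equiv.swap (1 : Fin (m + 4)) 2 : Fin (m + 4) → Fin (m + 4)) ∘
        (fun k : Fin m => k.succ.succ.succ.succ) = fun k : Fin m => k.succ.succ.succ.succ := by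
      funext k
      exact swap12_big k
    rw [e3]
  rw [e1, map_add, map_add, map_add, map_add, map_pow, map_pow, map_pow, map_pow, e2, sw12_X,
    sw12_X, sw12_X, sw12_X, Equiv.swap_apply_right, Equiv.swap_apply_left,
    swap12_zero, swap12_three]
  ring

/-
PROOF. sw12 (suspA D (suspA D f)) = suspA D (suspA D f) ∈ mz a (mz b p) by susp_mem_mz twice; dm: comap along an
isomorphism (dm_comap) and dm_mz twice.
-/
theorem jz_mem {K : Type} [Field K] {m : ℕ} (D : ℕ) (f : MvPolynomial (Fin m) K) (a b : K)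
    (ha : a ^ D = -1) (hb : b ^ D = -1) (p : PrimeSpectrum (MvPolynomial (Fin m) K))
    (hp : f ∈ p.asIdeal) :
    suspA D (suspA D f) ∈ (jz a b p).asIdeal ∧ dm K (jz a b p).asIdeal = dm K p.asIdeal + 2 := by
  constructor
  · change sw12 K m (suspA D (suspA D f)) ∈ (mz a (mz b p)).asIdeal
    rw [sw12_susp]
    exact susp_mem_mz D _ a ha _ (susp_mem_mz D f b hb p hp)
  · have h := dm_comap ((sw12 K m : MvPolynomial (Fin (m + 4)) K ≃ₐ[K]
      MvPolynomial (Fin (m + 4)) K) : MvPolynomial (Fin (m + 4)) K →ₐ[K]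
      MvPolynomial (Fin (m + 4)) K) (sw12 K m).surjective (mz a (mz b p)).asIdeal
    change dm K (Ideal.comap _ (mz a (mz b p)).asIdeal) = _
    rw [h, dm_mz, dm_mz]

/-
PROOF. dg α (sw12 r) = sw12 (dg (α ∘ swap) r) on variables (α ∘ swap 1 2), so
cm (dg α) (cm sw12 Q) = cm sw12 (cm (dg (α ∘ swap 1 2)) Q); cm_dg_mz twice, cm_dg_one.
Here α 0 = α 1 = ζ, α 2 = η, α 3 = 1: α ∘ swap = (ζ, η, ζ, 1): a * η / ζ, b / ζ.
-/
theorem cm_jz {K : Type} [Field K] {m : ℕ} (α : Fin (m + 4) → Kˣ) (ζ η : Kˣ) (h0 : α 0 = ζ)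
    (h1 : α 1 = ζ) (h2 : α 2 = η) (h3 : ∀ k : Fin (m + 1), α k.succ.succ.succ = 1) (a b : K)
    (p : PrimeSpectrum (MvPolynomial (Fin m) K)) :
    cm (dg α) (jz a b p) = jz (a * (η : K) * ((ζ⁻¹ : Kˣ) : K)) (b * ((ζ⁻¹ : Kˣ) : K)) p := by
  set β : Fin (m + 4) → Kˣ := fun k => α (Equiv.swap 1 2 k) with hβ
  have key : ∀ Q : PrimeSpectrum (MvPolynomial (Fin (m + 4)) K),
      cm (dg α) (cm (sw12 K m) Q) = cm (sw12 K m) (cm (dg β) Q) := by
    intro Q
    apply PrimeSpectrum.ext
    ext r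
    change sw12 K m (dg α r) ∈ Q.asIdeal ↔ dg β (sw12 K m r) ∈ Q.asIdeal
    have h : ((sw12 K m : MvPolynomial (Fin (m + 4)) K →ₐ[K] MvPolynomial (Fin (m + 4)) K)).comp
        (dg α : MvPolynomial (Fin (m + 4)) K →ₐ[K] MvPolynomial (Fin (m + 4)) K) =
        (dg β : MvPolynomial (Fin (m + 4)) K →ₐ[K] MvPolynomial (Fin (m + 4)) K).comp
          (sw12 K m : MvPolynomial (Fin (m + 4)) K →ₐ[K] MvPolynomial (Fin (m + 4)) K) := by
      apply MvPolynomial.algHom_ext
      intro k
      change sw12 K m (dg α (X k)) = dg β (sw12 K m (X k))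
      have hC : sw12 K m (C (α k : K)) = C (α k : K) := (sw12 K m).commutes _
      rw [dg_X, sw12_X, dg_X, map_mul, hC, sw12_X, hβ]
      simp only [Equiv.swap_apply_self]
    have h2 : sw12 K m (dg α r) = dg β (sw12 K m r) :=
      congrArg (fun ψ : MvPolynomial (Fin (m + 4)) K →ₐ[K] MvPolynomial (Fin (m + 4)) K => ψ r) h
    rw [h2]
  have hb0 : β 0 = ζ := by
    rw [hβ]
    simp only [swap12_zero, h0]
  have hb1 : β 1 = η := by
    rw [hβ]
    simp only [Equiv.swap_apply_left, h2]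
  have hb2 : β 2 = ζ := by
    rw [hβ]
    simp only [Equiv.swap_apply_right, h1]
  have hb3 : β 3 = 1 := by
    rw [hβ]
    simp only [swap12_three]
    exact h3 0
  have hb4 : ∀ k : Fin m, β k.succ.succ.succ.succ = 1 := by
    intro k
    rw [hβ]
    simp only [swap12_big]
    exact h3 k.succ
  change cm (dg α) (cm (sw12 K m) (mz a (mz b p))) = cm (sw12 K m) _
  rw [key]
  congr 1
  have e1 := cm_dg_mz (m := m + 2) β a (mz b p)
  have e2 := cm_dg_mz (m := m) (fun k => β k.succ.succ) b p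
  have e3 : (fun k : Fin m => (fun k : Fin (m + 2) => β k.succ.succ) k.succ.succ) =
      fun _ => (1 : Kˣ) := by
    funext k
    exact hb4 k
  have e4 : β (Fin.succ 1).succ = 1 := hb3
  have e5 : β (Fin.succ 0).succ = ζ := hb2
  rw [e3, cm_dg_one, e4, e5, Units.val_one, mul_one] at e2
  rw [hb0, hb1, e2] at e1
  exact e1

end Pool.Agent.HCR
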