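import Pool.Agent.HCR.C2d

namespace Pool.Agent.HCR

open Pool.Agent.HCH Pool.Agent.HCF MvPolynomial

theorem mem_roots {K : Type} [Field K] (d : ℕ) (S : Finset K)
    (hS : ∏ ζ ∈ S, (Polynomial.C Polynomial.X - Polynomial.C (Polynomial.C (algebraMap K K ζ)) *
      Polynomial.X : Polynomial (Polynomial K)) = Polynomial.C Polynomial.X ^ d + Polynomial.X ^ d)
    (a : K) (ha : a ^ d = -1) : a ∈ S := by
  have h := congrArg (fun P : Polynomial (Polynomial K) =>
    Polynomial.eval a (Polynomial.eval 1 P)) hS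
  simp only [Polynomial.eval_prod, Polynomial.eval_sub, Polynomial.eval_mul, Polynomial.eval_C,
    Polynomial.eval_X, Polynomial.eval_add, Polynomial.eval_pow, Polynomial.eval_one,
    one_pow, mul_one, ha, Algebra.algebraMap_self, RingHom.id_apply, neg_add_cancel] at h
  obtain ⟨ζ, hζ, h2⟩ := Finset.prod_eq_zero_iff.1 h
  rw [sub_eq_zero.1 h2]
  exact hζ

/-- `push_mz` for a family of coefficients. -/
theorem push_fam {K : Type} [Field K] [IsAlgClosed K] [CharZero K] {m : ℕ} (D : ℕ) (hD : 2 ≤ D)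
    (f : MvPolynomial (Fin m) K) (e : ℕ) (he : e + 1 < m) {I : Type} [Fintype I]
    [DecidableEq K] (a : I → K) (ha : ∀ i, a i ^ D = -1)
    (v : I → (PrimeSpectrum (MvPolynomial (Fin m) K) →₀ ℤ))
    (hv : ∀ i p, v i p ≠ 0 → dm K p.asIdeal = e)
    (hR : ∑ i, Finsupp.mapDomain (mz (a i)) (v i) ∈ Rt K (Ideal.span {suspA D f}) (e + 1))
    (η : K) (hη : η ^ D = -1) :
    ∃ N : ℕ, 0 < N ∧ (N : ℤ) • (∑ i, v i - D • ∑ i, if a i = η then v i else 0) ∈
      Rt K (Ideal.span {f}) e := by
  obtain ⟨S, hcard, hS⟩ := exists_roots (K := K) D hD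
  have hm : ∀ x : K, x ^ D = -1 → x ∈ S := fun x hx => mem_roots D S (hS K) x hx
  have hc : 2 ≤ S.card := hcard ▸ hD
  set w : K → (PrimeSpectrum (MvPolynomial (Fin m) K) →₀ ℤ) := fun x =>
    ∑ i, if a i = x then v i else 0 with hw
  have h1 := push_mz f D S hc (hS (MvPolynomial (Fin m) K)) e w
    (by
      intro ζ p hp
      rw [hw] at hp
      simp only [Finsupp.finsetSum_apply] at hp
      obtain ⟨i, -, hi⟩ := Finset.exists_ne_zero_of_sum_ne_zero hp
      by_cases hc : a i = ζ
      · rw [if_pos hc] at hi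
        exact hv i p hi
      · rw [if_neg hc] at hi
        exact absurd rfl hi)
    (by
      have h2 : ∑ ζ ∈ S, Finsupp.mapDomain (mz ζ) (w ζ) =
          ∑ i, Finsupp.mapDomain (mz (a i)) (v i) := by
        have h3 : ∀ ζ, Finsupp.mapDomain (mz ζ) (w ζ) =
            ∑ i, if a i = ζ then Finsupp.mapDomain (mz ζ) (v i) else 0 := by
          intro ζ
          rw [hw]
          simp only [Finsupp.mapDomain_finsetSum]
          refine Finset.sum_congr rfl fun i _ => ?_
          split_ifs with hc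
          · rfl
          · rw [Finsupp.mapDomain_zero]
        rw [Finset.sum_congr rfl fun ζ _ => h3 ζ, Finset.sum_comm]
        refine Finset.sum_congr rfl fun i _ => ?_
        rw [Finset.sum_ite_eq, if_pos (hm _ (ha i))]
      rw [h2]
      exact hR) η (hm η hη)
  obtain ⟨N, hN, h2⟩ := JJ_tors he f _ h1
  refine ⟨N, hN, ?_⟩
  have h3 : ∑ i, v i - D • (∑ i, if a i = η then v i else 0) =
      ∑ ζ ∈ S.erase η, w ζ - (S.card - 1) • w η := by
    have h4 : ∑ ζ ∈ S, w ζ = ∑ i, v i := by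
      rw [hw]
      simp only []
      rw [Finset.sum_comm]
      refine Finset.sum_congr rfl fun i _ => ?_
      rw [Finset.sum_ite_eq, if_pos (hm _ (ha i))]
    have h5 : w η + ∑ ζ ∈ S.erase η, w ζ = ∑ ζ ∈ S, w ζ := Finset.add_sum_erase S w (hm η hη)
    have h6 : D • w η = (S.card - 1) • w η + w η := by
      rw [← succ_nsmul, hcard, Nat.sub_add_cancel (by omega)]
    change ∑ i, v i - D • w η = _
    rw [← h4, ← h5, h6]
    abel
  rw [h3]
  exact h2

/-
PROOF. exists_roots D: S, card D, with the product formula. w : K → cycles on Spec K[x, y_2, y_3] (dimension e + 1):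
w a = N • (single (mz b p) - single (mz (b θ) p)), w (a θ) = N • (single (mz (b θ²) p) - single (mz (b θ) p)), 0 otherwise
(a ≠ a θ). Then Σ_{ζ ∈ S} mapDomain (mz ζ) (w ζ) is N • (the given element). push_mz (f := suspA D f, e + 1) at η = a:
w (a θ) - (D - 1) • w a ∈ JJ K (suspA D f) (e + 1); JJ_tors (e + 2 < m + 2): N₁ • (..) ∈ Rt K (span {suspA D f}) (e + 1).
This element is N₁ N • ((D - 2) single (mz (b θ) p) + single (mz (b θ²) p) - (D - 1) single (mz b p)). Second push_mz (f, e) with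
w' b = - N₁ N (D - 1) • single p 1, w' (b θ) = N₁ N (D - 2) • single p 1, w' (b θ²) = N₁ N • single p 1 (b, b θ, b θ² distinct) at η = b:
N₁ N ((D - 2) + 1 + (D - 1)²) • single p 1 = N₁ N D (D - 1) • single p 1 ∈ JJ K f e; JJ_tors again.
-/
theorem double_push {K : Type} [Field K] [IsAlgClosed K] [CharZero K] {m : ℕ} (D : ℕ) (hD : 3 ≤ D)
    (f : MvPolynomial (Fin m) K) (e : ℕ) (he : e + 1 < m)
    (p : PrimeSpectrum (MvPolynomial (Fin m) K)) (hd : dm K p.asIdeal = e)
    (a b θ : K) (ha : a ^ D = -1) (hb : b ^ D = -1) (hθ : θ ^ D = 1) (h1 : θ ≠ 1) (h2 : θ * θ ≠ 1)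
    (N : ℕ) (hN : 0 < N)
    (h : (N : ℤ) • (Finsupp.single (mz a (mz b p)) (1 : ℤ) -
      Finsupp.single (mz (a * θ) (mz (b * θ) p)) 1 - Finsupp.single (mz a (mz (b * θ) p)) 1 +
      Finsupp.single (mz (a * θ) (mz (b * θ * θ) p)) 1) ∈
        Rt K (Ideal.span {suspA D (suspA D f)}) (e + 2)) :
    ∃ N' : ℕ, 0 < N' ∧ (N' : ℤ) • Finsupp.single p (1 : ℤ) ∈ Rt K (Ideal.span {f}) e := by
  classical
  have hne : ∀ x : K, x ^ D = -1 → x ≠ 0 := by
    intro x hx h0
    rw [h0, zero_pow (by omega)] at hx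
    exact neg_ne_zero.2 one_ne_zero hx.symm
  have ha0 := hne a ha
  have hb0 := hne b hb
  have hθ2 : (θ * θ) ^ D = 1 := by rw [mul_pow, hθ, one_mul]
  have hsup : ∀ (x : K) (q : PrimeSpectrum (MvPolynomial (Fin (m + 2)) K)),
      Finsupp.single (mz x p) (1 : ℤ) q ≠ 0 → q = mz x p := by
    intro x q hq
    by_contra hc
    exact hq (Finsupp.single_eq_of_ne hc)
  -- the first step
  obtain ⟨N₁, hN₁, hz₁⟩ := push_fam (I := Bool) D (by omega) (suspA D f) (e + 1) (by omega)
    (fun i => if i then a * θ else a)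
    (by
      intro i
      cases i
      · exact ha
      · change (a * θ) ^ D = -1
        rw [mul_pow, ha, hθ, mul_one])
    (fun i => if i then (N : ℤ) • (Finsupp.single (mz (b * θ * θ) p) 1 -
        Finsupp.single (mz (b * θ) p) 1) else
      (N : ℤ) • (Finsupp.single (mz b p) 1 - Finsupp.single (mz (b * θ) p) 1))
    (by
      intro i q hq
      have hdm : ∀ x, q = mz x p → dm K q.asIdeal = e + 1 := by
        rintro x rfl
        rw [dm_mz, hd]
      cases i
      · change ((N : ℤ) • (Finsupp.single (mz b p) (1 : ℤ) -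
          Finsupp.single (mz (b * θ) p) (1 : ℤ))) q ≠ 0 at hq
        rw [Finsupp.smul_apply, Finsupp.sub_apply] at hq
        by_cases hc : Finsupp.single (mz b p) (1 : ℤ) q ≠ 0
        · exact hdm _ (hsup _ _ hc)
        · push Not at hc
          refine hdm (b * θ) (hsup _ _ ?_)
          intro h0
          rw [hc, h0, sub_zero, smul_zero] at hq
          exact hq rfl
      · change ((N : ℤ) • (Finsupp.single (mz (b * θ * θ) p) (1 : ℤ) -
          Finsupp.single (mz (b * θ) p) (1 : ℤ))) q ≠ 0 at hq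
        rw [Finsupp.smul_apply, Finsupp.sub_apply] at hq
        by_cases hc : Finsupp.single (mz (b * θ * θ) p) (1 : ℤ) q ≠ 0
        · exact hdm _ (hsup _ _ hc)
        · push Not at hc
          refine hdm (b * θ) (hsup _ _ ?_)
          intro h0
          rw [hc, h0, sub_zero, smul_zero] at hq
          exact hq rfl)
    (by
      rw [Fintype.sum_bool]
      simp only [if_true, Bool.false_eq_true, if_false]
      rw [Finsupp.mapDomain_smul, Finsupp.mapDomain_smul, Finsupp.mapDomain_sub,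
        Finsupp.mapDomain_sub, Finsupp.mapDomain_single, Finsupp.mapDomain_single,
        Finsupp.mapDomain_single, Finsupp.mapDomain_single]
      have e1 : (N : ℤ) • (Finsupp.single (mz a (mz b p)) (1 : ℤ) -
          Finsupp.single (mz (a * θ) (mz (b * θ) p)) 1 - Finsupp.single (mz a (mz (b * θ) p)) 1 +
          Finsupp.single (mz (a * θ) (mz (b * θ * θ) p)) 1) =
          (N : ℤ) • (Finsupp.single (mz (a * θ) (mz (b * θ * θ) p)) 1 -
            Finsupp.single (mz (a * θ) (mz (b * θ) p)) 1) +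
          (N : ℤ) • (Finsupp.single (mz a (mz b p)) 1 -
            Finsupp.single (mz a (mz (b * θ) p)) 1) := by
        rw [← smul_add]
        congr 1
        abel
      rw [← e1]
      exact h) a ha
  have haθ : a * θ ≠ a := by
    intro hc
    apply h1
    have : a * (θ - 1) = 0 := by rw [mul_sub, hc, mul_one, sub_self]
    rcases mul_eq_zero.1 this with h3 | h3
    · exact absurd h3 ha0
    · exact sub_eq_zero.1 h3
  have hbθ : b * θ ≠ b := by
    intro hc
    apply h1
    have : b * (θ - 1) = 0 := by rw [mul_sub, hc, mul_one, sub_self]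
    rcases mul_eq_zero.1 this with h3 | h3
    · exact absurd h3 hb0
    · exact sub_eq_zero.1 h3
  have hbθθ : b * θ * θ ≠ b := by
    intro hc
    apply h2
    have : b * (θ * θ - 1) = 0 := by rw [mul_sub, ← mul_assoc, hc, mul_one, sub_self]
    rcases mul_eq_zero.1 this with h3 | h3
    · exact absurd h3 hb0
    · exact sub_eq_zero.1 h3
  rw [Fintype.sum_bool, Fintype.sum_bool] at hz₁
  simp only [if_true, Bool.false_eq_true, if_false, if_neg haθ, zero_add] at hz₁
  -- the second step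
  have hsup2 : ∀ (c : ℤ) (q : PrimeSpectrum (MvPolynomial (Fin m) K)),
      (c • Finsupp.single p (1 : ℤ)) q ≠ 0 → dm K q.asIdeal = e := by
    intro c q hq
    have : q = p := by
      by_contra hc
      apply hq
      rw [Finsupp.smul_apply, Finsupp.single_eq_of_ne hc, smul_zero]
    rw [this, hd]
  obtain ⟨N₂, hN₂, hz₂⟩ := push_fam (I := Fin 3) D (by omega) f e he
    ![b, b * θ, b * θ * θ]
    (by
      intro i
      fin_cases i
      · exact hb
      · change (b * θ) ^ D = -1
        rw [mul_pow, hb, hθ, mul_one]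
      · change (b * θ * θ) ^ D = -1
        rw [mul_pow, mul_pow, hb, hθ, mul_one, mul_one])
    ![((N₁ : ℤ) * N * (1 - D)) • Finsupp.single p (1 : ℤ),
      ((N₁ : ℤ) * N * (D - 2)) • Finsupp.single p (1 : ℤ),
      ((N₁ : ℤ) * N) • Finsupp.single p (1 : ℤ)]
    (by
      intro i q hq
      fin_cases i
      · exact hsup2 _ q hq
      · exact hsup2 _ q hq
      · exact hsup2 _ q hq)
    (by
      rw [Fin.sum_univ_three]
      change Finsupp.mapDomain (mz b) (((N₁ : ℤ) * N * (1 - D)) • Finsupp.single p (1 : ℤ)) +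
        Finsupp.mapDomain (mz (b * θ)) (((N₁ : ℤ) * N * (D - 2)) • Finsupp.single p (1 : ℤ)) +
        Finsupp.mapDomain (mz (b * θ * θ)) (((N₁ : ℤ) * N) • Finsupp.single p (1 : ℤ)) ∈ _
      rw [Finsupp.mapDomain_smul, Finsupp.mapDomain_smul, Finsupp.mapDomain_smul,
        Finsupp.mapDomain_single, Finsupp.mapDomain_single, Finsupp.mapDomain_single]
      have e1 : (N₁ : ℤ) • ((N : ℤ) • (Finsupp.single (mz (b * θ * θ) p) (1 : ℤ) -
          Finsupp.single (mz (b * θ) p) 1) +
          (N : ℤ) • (Finsupp.single (mz b p) 1 - Finsupp.single (mz (b * θ) p) 1) -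
          D • ((N : ℤ) • (Finsupp.single (mz b p) (1 : ℤ) - Finsupp.single (mz (b * θ) p) 1))) =
          ((N₁ : ℤ) * N * (1 - D)) • Finsupp.single (mz b p) (1 : ℤ) +
          ((N₁ : ℤ) * N * (D - 2)) • Finsupp.single (mz (b * θ) p) (1 : ℤ) +
          ((N₁ : ℤ) * N) • Finsupp.single (mz (b * θ * θ) p) (1 : ℤ) := by
        rw [← natCast_zsmul]
        module
      rw [← e1]
      exact hz₁) b hb
  rw [Fin.sum_univ_three, Fin.sum_univ_three] at hz₂
  change (N₂ : ℤ) • (((N₁ : ℤ) * N * (1 - D)) • Finsupp.single p (1 : ℤ) +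
      ((N₁ : ℤ) * N * (D - 2)) • Finsupp.single p (1 : ℤ) +
      ((N₁ : ℤ) * N) • Finsupp.single p (1 : ℤ) -
      D • ((if b = b then ((N₁ : ℤ) * N * (1 - D)) • Finsupp.single p (1 : ℤ) else 0) +
        (if b * θ = b then ((N₁ : ℤ) * N * (D - 2)) • Finsupp.single p (1 : ℤ) else 0) +
        (if b * θ * θ = b then ((N₁ : ℤ) * N) • Finsupp.single p (1 : ℤ) else 0))) ∈ _ at hz₂
  rw [if_pos rfl, if_neg hbθ, if_neg hbθθ, add_zero, add_zero] at hz₂
  refine ⟨N₂ * (N₁ * N * (D * (D - 1))), ?_, ?_⟩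
  · have h3 : 0 < D - 1 := by omega
    have h4 : 0 < D := by omega
    positivity
  · have e1 : ((N₂ * (N₁ * N * (D * (D - 1))) : ℕ) : ℤ) • Finsupp.single p (1 : ℤ) =
        (N₂ : ℤ) • (((N₁ : ℤ) * N * (1 - D)) • Finsupp.single p (1 : ℤ) +
        ((N₁ : ℤ) * N * (D - 2)) • Finsupp.single p (1 : ℤ) +
        ((N₁ : ℤ) * N) • Finsupp.single p (1 : ℤ) -
        D • (((N₁ : ℤ) * N * (1 - D)) • Finsupp.single p (1 : ℤ))) := by
      have h5 : ((D - 1 : ℕ) : ℤ) = D - 1 := by
        rw [Nat.cast_sub (by omega), Nat.cast_one]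
      rw [← natCast_zsmul]
      push_cast
      rw [h5]
      module
    rw [e1]
    exact hz₂

end Pool.Agent.HCR
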