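import Pool.Agent.HCR.C3c
import Pool.Agent.HCR.C3d
import Pool.Agent.HCR.C4c
import Pool.Agent.HCR.C4d
import Pool.Agent.HCR.C5a

namespace Pool.Agent.HCR

open Pool.Agent.HCH Pool.Agent.HCF MvPolynomial

theorem dg_one {K : Type} [Field K] {m : ℕ} (r : MvPolynomial (Fin m) K) :
    dg (fun _ => (1 : Kˣ)) r = r := by
  have h : ((dg (fun _ => (1 : Kˣ)) : MvPolynomial (Fin m) K ≃ₐ[K] MvPolynomial (Fin m) K) :
      MvPolynomial (Fin m) K →ₐ[K] MvPolynomial (Fin m) K) = AlgHom.id K _ := by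
    apply MvPolynomial.algHom_ext
    intro k
    change dg (fun _ => (1 : Kˣ)) (X k) = X k
    rw [dg_X, Units.val_one, C_1, one_mul]
  exact congrArg (fun ψ : MvPolynomial (Fin m) K →ₐ[K] MvPolynomial (Fin m) K => ψ r) h

theorem dg_comm {K : Type} [Field K] {m : ℕ} (α β : Fin m → Kˣ) (r : MvPolynomial (Fin m) K) :
    dg α (dg β r) = dg β (dg α r) := by
  have h : ((dg α : MvPolynomial (Fin m) K ≃ₐ[K] MvPolynomial (Fin m) K) :
      MvPolynomial (Fin m) K →ₐ[K] MvPolynomial (Fin m) K).comp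
      ((dg β : MvPolynomial (Fin m) K ≃ₐ[K] MvPolynomial (Fin m) K) :
      MvPolynomial (Fin m) K →ₐ[K] MvPolynomial (Fin m) K) =
      ((dg β : MvPolynomial (Fin m) K ≃ₐ[K] MvPolynomial (Fin m) K) :
      MvPolynomial (Fin m) K →ₐ[K] MvPolynomial (Fin m) K).comp
      ((dg α : MvPolynomial (Fin m) K ≃ₐ[K] MvPolynomial (Fin m) K) :
      MvPolynomial (Fin m) K →ₐ[K] MvPolynomial (Fin m) K) := by
    apply MvPolynomial.algHom_ext
    intro k
    change dg α (dg β (X k)) = dg β (dg α (X k))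
    have h1 : dg α (C (β k : K)) = C (β k : K) := (dg α).commutes _
    have h2 : dg β (C (α k : K)) = C (α k : K) := (dg β).commutes _
    rw [dg_X, dg_X, map_mul, map_mul, h1, h2, dg_X, dg_X]
    ring
  exact congrArg (fun ψ : MvPolynomial (Fin m) K →ₐ[K] MvPolynomial (Fin m) K => ψ r) h

theorem dg_suspA {K : Type} [Field K] {m : ℕ} (D : ℕ) (g : MvPolynomial (Fin m) K)
    (α : Fin (m + 2) → Kˣ) (h0 : (α 0 : K) ^ D = 1) (h1 : (α 1 : K) ^ D = 1) :
    dg α (suspA D g) = suspA D (dg (fun k => α k.succ.succ) g) := by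
  have h : ((dg α : MvPolynomial (Fin (m + 2)) K ≃ₐ[K] MvPolynomial (Fin (m + 2)) K) :
      MvPolynomial (Fin (m + 2)) K →ₐ[K] MvPolynomial (Fin (m + 2)) K).comp
      (rename (Fin.succ ∘ Fin.succ)) = (rename (Fin.succ ∘ Fin.succ)).comp
      ((dg (fun k => α k.succ.succ) : MvPolynomial (Fin m) K ≃ₐ[K] MvPolynomial (Fin m) K) :
      MvPolynomial (Fin m) K →ₐ[K] MvPolynomial (Fin m) K) := by
    apply MvPolynomial.algHom_ext
    intro k
    change dg α (rename _ (X k)) = rename _ (dg (fun k => α k.succ.succ) (X k))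
    rw [rename_X, dg_X, dg_X, map_mul, rename_C, rename_X]
    rfl
  have h2 : dg α (rename (Fin.succ ∘ Fin.succ) g) =
      rename (Fin.succ ∘ Fin.succ) (dg (fun k => α k.succ.succ) g) :=
    congrArg (fun ψ : MvPolynomial (Fin m) K →ₐ[K] MvPolynomial (Fin (m + 2)) K => ψ g) h
  unfold suspA
  rw [map_add, map_add, map_pow, map_pow, h2, dg_X, dg_X, mul_pow, mul_pow, ← C_pow, ← C_pow,
    h0, h1, C_1, one_mul, one_mul]

/-
PROOF. AT_iff. p with f ∈ p, dm p = e. a ^ D = -1 (IsAlgClosed.exists_pow_nat_eq), b = a; ζ a primitive D-th root of unity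
(D ≥ 3: ζ ≠ 1, ζ² ≠ 1), θ = ζ⁻¹. G1 = dg (ζ, ζ, 1, 1, ..), G2 = dg (ζ, ζ, ζ, 1, ..); both fix suspA D (suspA D f) and commute. omega with
S1, S2 of gen_types (g = sus D f, so suspA D (sus D g) = suspA D (suspA D f) by sus_sus, and suspA D g = suspA D (sus D f) for H3),
h1 from typeI (with g = suspA D f), h2 from typeII (with g = sus D f), for the prime jz a a p (jz_mem):
N • (jz a a - jz (a θ) (a θ) - jz a (a θ) + jz (a θ) (a θ θ)) ∈ Rt (cm_jz). map_Rt for sw12 (fixes the equation, involution):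
cm sw12 (jz a b p) = mz a (mz b p). Then double_push.
-/
theorem core {K : Type} [Field K] [IsAlgClosed K] [CharZero K] {m : ℕ} (D : ℕ) (hD : 3 ≤ D)
    (f : MvPolynomial (Fin m) K) (e : ℕ) (he : e + 1 < m)
    (H4 : Gen K (suspA D (suspA D f)) (e + 2) (MemP 0 1))
    (H3 : Gen K (suspA D (sus D f)) (e + 2) (SpP D 0 1)) : AT K f e := by
  rw [AT_iff]
  intro p hp hd
  have hdK : NeZero ((D : ℕ) : K) := ⟨by exact_mod_cast (by omega : D ≠ 0)⟩
  obtain ⟨a, ha⟩ := IsAlgClosed.exists_pow_nat_eq (-1 : K) (n := D) (by omega)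
  obtain ⟨ζ, hζ⟩ : ∃ z : K, IsPrimitiveRoot z D := HasEnoughRootsOfUnity.exists_primitiveRoot K D
  have hζ0 : ζ ≠ 0 := hζ.ne_zero (by omega)
  set u : Kˣ := Units.mk0 ζ hζ0 with hu
  have huv : (u : K) = ζ := rfl
  have huD : (u : K) ^ D = 1 := hζ.pow_eq_one
  have hiD : ((u⁻¹ : Kˣ) : K) ^ D = 1 := by
    rw [← Units.val_pow_eq_pow_val, inv_pow, Units.val_inv_eq_inv_val, Units.val_pow_eq_pow_val,
      huD, inv_one]
  have hi1 : ((u⁻¹ : Kˣ) : K) ≠ 1 := by
    rw [Units.val_inv_eq_inv_val, huv]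
    intro h
    exact hζ.ne_one (by omega) (inv_eq_one.1 h)
  have hi2 : ((u⁻¹ : Kˣ) : K) * ((u⁻¹ : Kˣ) : K) ≠ 1 := by
    rw [Units.val_inv_eq_inv_val, huv, ← mul_inv]
    intro h
    have h2 := inv_eq_one.1 h
    rw [← pow_two] at h2
    exact hζ.pow_ne_one_of_pos_of_lt (by omega) (by omega) h2
  -- the automorphisms
  set α : Fin (m + 4) → Kˣ := Fin.cases u (Fin.cases u (fun _ => 1)) with hα
  set β : Fin (m + 4) → Kˣ := Fin.cases u (Fin.cases u (Fin.cases u (fun _ => 1))) with hβ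
  have hα0 : α 0 = u := rfl
  have hα1 : α 1 = u := rfl
  have hα2 : ∀ k : Fin (m + 2), α k.succ.succ = 1 := fun k => rfl
  have hβ0 : β 0 = u := rfl
  have hβ1 : β 1 = u := rfl
  have hβ2 : β 2 = u := rfl
  have hβ3 : ∀ k : Fin (m + 1), β k.succ.succ.succ = 1 := fun k => rfl
  have hf1 : dg α (suspA D (suspA D f)) = suspA D (suspA D f) := by
    rw [dg_suspA D (suspA D f) α (by rw [hα0, huD]) (by rw [hα1, huD])]
    congr 1
    exact dg_one _
  have hf2 : dg β (suspA D (suspA D f)) = suspA D (suspA D f) := by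
    rw [dg_suspA D (suspA D f) β (by rw [hβ0, huD]) (by rw [hβ1, huD])]
    congr 1
    rw [dg_suspA D f (fun k => β k.succ.succ) (by
      change (β 2 : K) ^ D = 1
      rw [hβ2, huD]) (by
      change ((β (Fin.succ (0 : Fin (m + 1))).succ.succ : Kˣ) : K) ^ D = 1
      rw [hβ3, Units.val_one, one_pow])]
    congr 1
    exact dg_one _
  have hG : Gen K (suspA D (suspA D f)) (e + 2) (fun q =>
      (∃ a : K, a ^ D = -1 ∧ X 1 - C a * X 0 ∈ q.asIdeal) ∨
      ∃ a b : K, a ^ D + b ^ D = -1 ∧ X 0 - C a * X 2 ∈ q.asIdeal ∧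
        X 1 - C b * X 2 ∈ q.asIdeal) := by
    have h := gen_types (m := m + 1) D (by omega) (sus D f) (e + 2)
      (by rw [sus_sus]; exact H4) H3
    rw [sus_sus] at h
    exact h
  obtain ⟨hj1, hj2⟩ := jz_mem D f a a ha ha p hp
  obtain ⟨N, hN, hz⟩ := omega (suspA D (suspA D f)) (e + 2) (dg α) (dg β) hf1 hf2 (dg_comm α β)
    (fun q => ∃ a : K, a ^ D = -1 ∧ X 1 - C a * X 0 ∈ q.asIdeal)
    (fun q => ∃ a b : K, a ^ D + b ^ D = -1 ∧ X 0 - C a * X 2 ∈ q.asIdeal ∧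
        X 1 - C b * X 2 ∈ q.asIdeal)
    (by
      rintro q hq hdq ⟨a', ha', hx⟩
      have h := typeI D (suspA D f) a' ha' u α hα0 hα1 hα2 q hq hx
      rw [hdq] at h
      exact h)
    (by
      rintro q hq hdq ⟨a', b', hab, hx, hy⟩
      have hs : suspA D (sus D (sus D f)) = suspA D (suspA D f) := by rw [sus_sus]
      have h := typeII (m := m + 1) D (sus D f) a' b' hab u β hβ0 hβ1 hβ2 hβ3 q
        (by rw [hs]; exact hq) hx hy
      rw [hs, hdq] at h
      exact h) hG (jz a a p) hj1 (by rw [hj2, hd])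
  have hc1 : cm (dg α) (jz a a p) = jz (a * ((u⁻¹ : Kˣ) : K)) (a * ((u⁻¹ : Kˣ) : K)) p := by
    rw [cm_jz α u 1 hα0 hα1 rfl (fun _ => rfl) a a p, Units.val_one, mul_one]
  have hc2 : cm (dg β) (jz a a p) = jz a (a * ((u⁻¹ : Kˣ) : K)) p := by
    rw [cm_jz β u u hβ0 hβ1 hβ2 hβ3 a a p, Units.mul_inv_cancel_right]
  have hc3 : cm (dg α) (cm (dg β) (jz a a p)) =
      jz (a * ((u⁻¹ : Kˣ) : K)) (a * ((u⁻¹ : Kˣ) : K) * ((u⁻¹ : Kˣ) : K)) p := by
    rw [hc2, cm_jz α u 1 hα0 hα1 rfl (fun _ => rfl), Units.val_one, mul_one]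
  rw [hc3, hc1, hc2] at hz
  have h5 := map_Rt (K := K) ((sw12 K m : MvPolynomial (Fin (m + 4)) K ≃ₐ[K]
    MvPolynomial (Fin (m + 4)) K) : MvPolynomial (Fin (m + 4)) K →ₐ[K] MvPolynomial (Fin (m + 4)) K)
    (sw12 K m).surjective (Ideal.span {suspA D (suspA D f)}) (e + 2) _ (by
      rw [Ideal.map_span, Set.image_singleton]
      have h6 : (((sw12 K m : MvPolynomial (Fin (m + 4)) K ≃ₐ[K]
          MvPolynomial (Fin (m + 4)) K) : MvPolynomial (Fin (m + 4)) K →ₐ[K]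
          MvPolynomial (Fin (m + 4)) K) : MvPolynomial (Fin (m + 4)) K →+*
          MvPolynomial (Fin (m + 4)) K) (suspA D (suspA D f)) = suspA D (suspA D f) :=
        sw12_susp D f
      rw [h6]
      exact hz)
  have h7 : ∀ a' b' : K, PrimeSpectrum.comap (((sw12 K m : MvPolynomial (Fin (m + 4)) K ≃ₐ[K]
      MvPolynomial (Fin (m + 4)) K) : MvPolynomial (Fin (m + 4)) K →ₐ[K]
      MvPolynomial (Fin (m + 4)) K) : MvPolynomial (Fin (m + 4)) K →+*
      MvPolynomial (Fin (m + 4)) K) (jz a' b' p) = mz a' (mz b' p) := by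
    intro a' b'
    apply PrimeSpectrum.ext
    ext r
    change sw12 K m (sw12 K m r) ∈ (mz a' (mz b' p)).asIdeal ↔ r ∈ (mz a' (mz b' p)).asIdeal
    have h8 : sw12 K m (sw12 K m r) = r := by
      change rename (Equiv.swap 1 2) (rename (Equiv.swap 1 2) r) = r
      rw [rename_rename]
      have h9 : (Equiv.swap (1 : Fin (m + 4)) 2 : Fin (m + 4) → Fin (m + 4)) ∘
          (Equiv.swap (1 : Fin (m + 4)) 2 : Fin (m + 4) → Fin (m + 4)) = id := by
        funext k
        exact Equiv.swap_apply_self _ _ k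
      rw [h9, rename_id]
      rfl
    rw [h8]
  rw [Finsupp.mapDomain_smul, Finsupp.mapDomain_add, Finsupp.mapDomain_sub, Finsupp.mapDomain_sub,
    Finsupp.mapDomain_single, Finsupp.mapDomain_single, Finsupp.mapDomain_single,
    Finsupp.mapDomain_single, h7, h7, h7, h7] at h5
  exact double_push D hD f e he p hd a a _ ha ha hiD hi1 hi2 N hN h5

end Pool.Agent.HCR
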