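import Pool.Agent.HCF.Y9
import Pool.Agent.HCF.N8

/-!
Definitions for the rigidity criterion: Hartshorne's conjecture on Chow groups of hypersurfaces of
degree `D` holds if the cycles of middle dimension do not vary along the Fermat curve of degree `D`.
-/

namespace Pool.Agent.HCR

open Pool.Agent.HCH Pool.Agent.HCF MvPolynomial

section Statements

/-- The function field of the Fermat curve `t ^ D + s ^ D + 1 = 0`. -/
noncomputable def FF (D : ℕ) : IntermediateField (RatFunc ℂ) (AlgebraicClosure (RatFunc ℂ)) :=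
  IntermediateField.adjoin (RatFunc ℂ) {s | s ^ D +
    (algebraMap (RatFunc ℂ) (AlgebraicClosure (RatFunc ℂ)) RatFunc.X) ^ D + 1 = 0}

/-- The base change `A(V(F)) → A(V(F)_L)` of Chow groups of cycles of dimension `e - 1` is
surjective: `A(V(F)_L)` is spanned by the classes of the base changes of the subvarieties
of `V(F)`. -/
def OntoL (L : Type) [Field L] [Algebra ℂ L] {m : ℕ} (F : MvPolynomial (Fin m) ℂ) (e : ℕ) : Prop :=
  ∀ x : Chow (ext ℂ L m F) e, x ∈ Submodule.span ℚ {y | ∃ (P : Sub F e) (Q : Sub (ext ℂ L m F) e),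
    Q.1.asIdeal = P.1.asIdeal.map (ext ℂ L m) ∧
      y = (RatEq (ext ℂ L m F) e).mkQ (Finsupp.single Q 1)}

/-- The Chow group of cycles of dimension `e - 1` of `V(V)` is spanned by the classes of the
subvarieties contained in members `s x_a = t x_b` of a pencil of hyperplane sections. -/
def PencilGen {m : ℕ} (V : MvPolynomial (Fin m) ℂ) (a b : Fin m) (e : ℕ) : Prop :=
  ∀ x : Chow V e, x ∈ Submodule.span ℚ {y | ∃ P : Sub V e,
    (∃ s t : ℂ, (s ≠ 0 ∨ t ≠ 0) ∧ C s * X a - C t * X b ∈ P.1.asIdeal) ∧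
      y = (RatEq V e).mkQ (Finsupp.single P 1)}

end Statements

section General

variable {K R : Type} [Field K] [CommRing R] [Algebra K R]

/-- The cycles of dimension `e` on `V(f)` with support in `S`. -/
noncomputable def Cy (K : Type) {R : Type} [Field K] [CommRing R] [Algebra K R] (f : R) (e : ℕ)
    (S : PrimeSpectrum R → Prop) : AddSubgroup (PrimeSpectrum R →₀ ℤ) :=
  AddSubgroup.closure {z | ∃ q : PrimeSpectrum R, f ∈ q.asIdeal ∧ dm K q.asIdeal = e ∧ S q ∧
    z = Finsupp.single q 1}

/-- Every cycle of dimension `e` on `V(f)` is, up to torsion and rational equivalence, a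
combination of subvarieties satisfying `S`. -/
def Gen (K : Type) {R : Type} [Field K] [CommRing R] [Algebra K R] (f : R) (e : ℕ)
    (S : PrimeSpectrum R → Prop) : Prop :=
  ∀ p : PrimeSpectrum R, f ∈ p.asIdeal → dm K p.asIdeal = e →
    ∃ N : ℕ, 0 < N ∧ (N : ℤ) • Finsupp.single p (1 : ℤ) ∈ Rt K (Ideal.span {f}) e ⊔ Cy K f e S

end General

section Poly

variable {K : Type} [Field K] {m : ℕ}

/-- `f + y ^ D`, with the new variable in the first place. -/
noncomputable def sus (D : ℕ) (f : MvPolynomial (Fin m) K) : MvPolynomial (Fin (m + 1)) K :=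
  rename Fin.succ f + X 0 ^ D

/-- `f + y ^ D`, with the new variable in the second place. -/
noncomputable def insr (D : ℕ) (f : MvPolynomial (Fin (m + 1)) K) :
    MvPolynomial (Fin (m + 2)) K :=
  rename (Fin.succAbove 1) f + X 1 ^ D

/-- The substitution `y_1 = a w`, `y_2 = b w` in the first two variables. -/
noncomputable def mem (a b : K) : MvPolynomial (Fin (m + 2)) K →ₐ[K] MvPolynomial (Fin (m + 1)) K :=
  aeval (Fin.cons (α := fun _ => MvPolynomial (Fin (m + 1)) K) (C a * X 0)
    (Fin.cons (α := fun _ => MvPolynomial (Fin (m + 1)) K) (C b * X 0) (fun k => X k.succ)))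

/-- The prime contains `s x_a - t x_b` for some point `(s : t)`. -/
def MemP (a b : Fin m) (q : PrimeSpectrum (MvPolynomial (Fin m) K)) : Prop :=
  ∃ s t : K, (s ≠ 0 ∨ t ≠ 0) ∧ C s * X a - C t * X b ∈ q.asIdeal

/-- The prime contains `x_a - ε x_b` with `ε ^ D = - 1`. -/
def SpP (D : ℕ) (a b : Fin m) (q : PrimeSpectrum (MvPolynomial (Fin m) K)) : Prop :=
  ∃ ε : K, ε ^ D = -1 ∧ X a - C ε * X b ∈ q.asIdeal

end Poly

/-- The support statement in the critical dimension over `K`, on affine charts. -/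
def GenCrit (D : ℕ) (K : Type) [Field K] : Prop :=
  ∀ j, 1 ≤ j → ∀ F : MvPolynomial (Fin (2 * j + 1)) K, F.IsHomogeneous D → SgLe F 0 →
    Gen K (suspA D (deh F)) (j + 1) (MemP 0 1)

/-- The twisted hypersurface `f + (1 + t ^ D) y ^ D` over `K(t)`. -/
noncomputable def tw {K : Type} [Field K] {m : ℕ} (D : ℕ) (f : MvPolynomial (Fin m) K) :
    MvPolynomial (Fin (m + 1)) (RatFunc K) :=
  rename Fin.succ (ext K (RatFunc K) m f) + C (1 + (RatFunc.X : RatFunc K) ^ D) * X 0 ^ D

end Pool.Agent.HCR
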