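import Pool.Agent.HCR.Defs

namespace Pool.Agent.HCR

open Pool.Agent.HCH Pool.Agent.HCF MvPolynomial

/-
PROOF. As special_tors (HCH/P4), with an arbitrary LQ structure instead of lq_rhoT t (there hl : l ∈ (hm p) from
deh l ∈ p by mem_hm p l 1 h.hl); everything else is the same.
-/
/-- Cycles contained in a hyperplane section are torsion in the affine chart. -/
theorem hyper_tors {K : Type} [Field K] {M d : ℕ} (F : MvPolynomial (Fin (M + 2)) K)
    (hF : F.IsHomogeneous d) (hprime : (Ideal.span {F}).IsPrime)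
    (hdm : dm K (Ideal.span {F}) = M + 1)
    {rho : MvPolynomial (Fin (M + 2)) K →ₐ[K] MvPolynomial (Fin (M + 1)) K}
    {tau : MvPolynomial (Fin (M + 1)) K →ₐ[K] MvPolynomial (Fin (M + 2)) K}
    {l : MvPolynomial (Fin (M + 2)) K} (hq : LQ rho tau l) (j : ℕ) (hj : 1 ≤ j) (hjM : j ≤ M)
    (h : Hart (rho F) (j - 1)) (p : PrimeSpectrum (MvPolynomial (Fin (M + 1)) K))
    (hp : deh F ∈ p.asIdeal) (hl : deh l ∈ p.asIdeal) (hd : dm K p.asIdeal = M - j) :
    ∃ N : ℕ, 0 < N ∧ (N : ℤ) • cls p ∈ ARat K (deh F) (M - j) := by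
  classical
  obtain ⟨j, rfl⟩ := Nat.exists_eq_add_of_le' hj
  simp only [Nat.add_sub_cancel] at h
  obtain ⟨ls, hls0, hls, hfl, hP⟩ := hart_push hq F j h
  have hl' : l ∈ (hm p).asIdeal := by
    rw [mem_hm p _ 1 hq.hl]
    exact hl
  have hFP : F ∈ (hm p).asIdeal := (mem_hm p F d hF).mpr hp
  have hdP : dm K (hm p).asIdeal = M + 1 - 1 - j := by
    rw [dm_hm, hd]
    omega
  obtain ⟨N, hN, c, Q, hQ, hz⟩ := hP (hm p) (hm_homog p) hFP hl' hdP
  have e1 : M + 1 - 1 - j = (M - (j + 1)) + 1 := by omega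
  rw [e1] at hz
  have h1 := res_PRat F (M - (j + 1)) _ hz
  -- the flag ideals are primes of the right dimension
  have hfl' : ∀ i ≤ j + 1, (flag F ls i).IsPrime ∧ dm K (flag F ls i) = M + 1 - i := by
    intro i hi
    cases i with
    | zero =>
      have : flag F ls 0 = Ideal.span {F} := by
        unfold flag
        simp
      rw [this]
      exact ⟨hprime, hdm⟩
    | succ i =>
      obtain ⟨h2, h3⟩ := hfl i (by omega)
      refine ⟨h2, ?_⟩
      rw [h3]
      omega
  obtain ⟨hfp, hfd⟩ := hfl' j (by omega)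
  have h2 : (fun p => cls Q (hm p)) ∈ ARat K (deh F) (M - (j + 1)) := by
    apply res_cls F (ls j) (M - (j + 1)) 1 ⟨flag F ls j, hfp⟩ Q
    · exact flag_homog F d hF ls hls j
    · rw [hQ]
      exact flag_homog F d hF ls hls (j + 1)
    · exact Ideal.subset_span (Or.inl rfl)
    · change dm K (flag F ls j) = _
      rw [hfd]
      omega
    · rw [hQ, (hfl' (j + 1) le_rfl).2]
      omega
    · exact hls j
    · rw [hQ]
      exact (flag_succ F ls j).symm
  refine ⟨N, hN, ?_⟩
  have h3 := (ARat K (deh F) (M - (j + 1))).add_mem h1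
    ((ARat K (deh F) (M - (j + 1))).zsmul_mem h2 c)
  convert! h3 using 1
  funext p'
  simp only [Pi.add_apply, Pi.smul_apply, Pi.sub_apply]
  have h4 : cls (hm p) (hm p') = cls p p' := by
    unfold cls
    by_cases h5 : p' = p
    · simp [h5]
    · rw [if_neg h5, if_neg]
      intro h6
      exact h5 (hm_inj h6)
  rw [h4]
  ring

end Pool.Agent.HCR
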