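import Pool.Agent.HCR.C4a

namespace Pool.Agent.HCR

open Pool.Agent.HCH Pool.Agent.HCF MvPolynomial

/-
PROOF. tau: X 0 ↦ C s⁻¹ * X 1 if s ≠ 0 and C t⁻¹ * X 0 otherwise, X k.succ ↦ X k.succ.succ; ker by ker_mem (or ker_of_vars),
homogeneity by aeval_homog.
-/
theorem lq_mem {K : Type} [Field K] {m : ℕ} (s t : K) (h : s ≠ 0 ∨ t ≠ 0) :
    ∃ tau : MvPolynomial (Fin (m + 1)) K →ₐ[K] MvPolynomial (Fin (m + 2)) K,
      LQ (mem t s) tau (C s * X 0 - C t * X 1) := by
  obtain ⟨g0, hg0, hg1⟩ : ∃ g0 : MvPolynomial (Fin (m + 2)) K, g0.IsHomogeneous 1 ∧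
      (mem t s : MvPolynomial (Fin (m + 2)) K →ₐ[K] MvPolynomial (Fin (m + 1)) K) g0 = X 0 := by
    have h0 : (mem t s : MvPolynomial (Fin (m + 2)) K →ₐ[K] MvPolynomial (Fin (m + 1)) K)
        (X 0) = C t * X 0 := by
      simp [mem]
    have h1 : (mem t s : MvPolynomial (Fin (m + 2)) K →ₐ[K] MvPolynomial (Fin (m + 1)) K)
        (X 1) = C s * X 0 := by
      rw [← Fin.succ_zero_eq_one]
      simp [mem]
    have hC : ∀ c : K, (mem t s : MvPolynomial (Fin (m + 2)) K →ₐ[K]
        MvPolynomial (Fin (m + 1)) K) (C c) = C c := fun c =>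
      (mem t s : MvPolynomial (Fin (m + 2)) K →ₐ[K] MvPolynomial (Fin (m + 1)) K).commutes c
    by_cases hs : s = 0
    · have ht : t ≠ 0 := by
        rcases h with h | h
        · exact absurd hs h
        · exact h
      refine ⟨C t⁻¹ * X 0, isHomogeneous_C_mul_X _ _, ?_⟩
      rw [map_mul, h0, hC, ← mul_assoc, ← C_mul, inv_mul_cancel₀ ht, C_1, one_mul]
    · refine ⟨C s⁻¹ * X 1, isHomogeneous_C_mul_X _ _, ?_⟩
      rw [map_mul, h1, hC, ← mul_assoc, ← C_mul, inv_mul_cancel₀ hs, C_1, one_mul]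
  refine ⟨aeval (Fin.cons (α := fun _ => MvPolynomial (Fin (m + 2)) K) g0
    (fun k => X k.succ.succ)), ?_, ?_, ?_, ?_, ?_⟩
  · intro x
    have : (mem t s : MvPolynomial (Fin (m + 2)) K →ₐ[K] MvPolynomial (Fin (m + 1)) K).comp
        (aeval (Fin.cons (α := fun _ => MvPolynomial (Fin (m + 2)) K) g0
          (fun k => X k.succ.succ))) = AlgHom.id K _ := by
      apply MvPolynomial.algHom_ext
      intro k
      rw [AlgHom.comp_apply, aeval_X, AlgHom.id_apply]
      induction k using Fin.cases with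
      | zero => rw [Fin.cons_zero, hg1]
      | succ k =>
        rw [Fin.cons_succ]
        simp [mem]
    exact congrArg (fun φ : MvPolynomial (Fin (m + 1)) K →ₐ[K] MvPolynomial (Fin (m + 1)) K =>
      φ x) this
  · exact ker_mem t s h.symm
  · intro f a hf
    apply aeval_homog _ _ f a hf
    intro k
    induction k using Fin.cases with
    | zero => simpa using isHomogeneous_C_mul_X t (0 : Fin (m + 1))
    | succ k =>
      induction k using Fin.cases with
      | zero => simpa using isHomogeneous_C_mul_X s (0 : Fin (m + 1))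
      | succ k => simpa using isHomogeneous_X K k.succ
  · intro f a hf
    apply aeval_homog _ _ f a hf
    intro k
    induction k using Fin.cases with
    | zero => simpa using hg0
    | succ k => simpa using isHomogeneous_X K k.succ.succ
  · exact (isHomogeneous_C_mul_X s _).sub (isHomogeneous_C_mul_X t _)

end Pool.Agent.HCR
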