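import Pool.Agent.HCR.Defs

namespace Pool.Agent.HCR

open Pool.Agent.HCH Pool.Agent.HCF MvPolynomial

theorem E1c_symm {K : Type} [Field K] {m : ℕ} (p : MvPolynomial (Fin m) K) :
    (finSuccEquiv K m).symm (Polynomial.C p) = rename Fin.succ p := by
  rw [AlgEquiv.symm_apply_eq]
  have h : (Polynomial.CAlgHom : MvPolynomial (Fin m) K →ₐ[K] Polynomial (MvPolynomial (Fin m) K)) =
      ((finSuccEquiv K m : MvPolynomial (Fin (m + 1)) K →ₐ[K]
        Polynomial (MvPolynomial (Fin m) K))).comp (rename Fin.succ) := by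
    apply MvPolynomial.algHom_ext
    intro i
    rw [AlgHom.comp_apply, rename_X]
    exact finSuccEquiv_X_succ.symm
  exact congrArg (fun f : MvPolynomial (Fin m) K →ₐ[K] Polynomial (MvPolynomial (Fin m) K) => f p) h

theorem E1c_dm {K : Type} [Field K] {m : ℕ} (P : PrimeSpectrum (MvPolynomial (Fin (m + 1)) K)) :
    dm K P.asIdeal ≤ dm K (PrimeSpectrum.comap
      (rename Fin.succ : MvPolynomial (Fin m) K →ₐ[K] MvPolynomial (Fin (m + 1)) K).toRingHom
        P).asIdeal + 1 := by
  have hft : Algebra.FiniteType K (Polynomial (MvPolynomial (Fin m) K)) :=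
    Algebra.FiniteType.trans (S := MvPolynomial (Fin m) K) inferInstance inferInstance
  let Q : PrimeSpectrum (Polynomial (MvPolynomial (Fin m) K)) :=
    PrimeSpectrum.comap ((finSuccEquiv K m).symm : Polynomial (MvPolynomial (Fin m) K) →+*
      MvPolynomial (Fin (m + 1)) K) P
  have hQ : dm K Q.asIdeal = dm K P.asIdeal :=
    dm_comap ((finSuccEquiv K m).symm : Polynomial (MvPolynomial (Fin m) K) →ₐ[K]
      MvPolynomial (Fin (m + 1)) K) (finSuccEquiv K m).symm.surjective P.asIdeal
  have hQp : Q.asIdeal.IsPrime := Q.isPrime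
  have hcp : (cylP (PrimeSpectrum.comap (Polynomial.C : MvPolynomial (Fin m) K →+*
      Polynomial (MvPolynomial (Fin m) K)) Q)).asIdeal.IsPrime := (cylP _).isPrime
  have h1 : (cylP (PrimeSpectrum.comap (Polynomial.C : MvPolynomial (Fin m) K →+*
      Polynomial (MvPolynomial (Fin m) K)) Q)).asIdeal ≤ Q.asIdeal := Ideal.map_comap_le
  have h2 := dm_le (K := K) _ _ h1
  rw [dm_cylP _ _ rfl, hQ] at h2
  have h3 : PrimeSpectrum.comap (Polynomial.C : MvPolynomial (Fin m) K →+*
      Polynomial (MvPolynomial (Fin m) K)) Q = PrimeSpectrum.comap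
      (rename Fin.succ : MvPolynomial (Fin m) K →ₐ[K] MvPolynomial (Fin (m + 1)) K).toRingHom P := by
    apply PrimeSpectrum.ext
    ext x
    change (finSuccEquiv K m).symm (Polynomial.C x) ∈ P.asIdeal ↔ rename Fin.succ x ∈ P.asIdeal
    rw [E1c_symm]
  rw [h3] at h2
  exact h2

/-
PROOF. P homogeneous prime with all partials of rename succ G + C c * X 0 ^ D. Then rename succ (pderiv k G) ∈ P
(pderiv k.succ), so P₀ = P.comap (rename succ) (homogeneous, e6_comap_homog) has dm P₀ ≤ r, and dm P ≤ dm P₀ + 1 (P is a prime of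
(K[x])[X 0]: trdeg of (K[x] ⧸ P₀)[X 0] image; e.g. finSuccEquiv and dm_le with cylP P₀ ≤ P, dm_cylP).
-/
theorem sg_cone {K : Type} [Field K] {m : ℕ} (D : ℕ) (hD : 1 ≤ D) (G : MvPolynomial (Fin m) K)
    (c : K) (r : ℕ) (h : SgLe G r) :
    SgLe (rename Fin.succ G + C c * X 0 ^ D) (r + 1) := by
  intro P hP hk
  have h1 := E1c_dm P
  have h2 : HgI (PrimeSpectrum.comap
      (rename Fin.succ : MvPolynomial (Fin m) K →ₐ[K] MvPolynomial (Fin (m + 1)) K).toRingHom
        P).asIdeal :=
    e6_comap_homog (rename Fin.succ : MvPolynomial (Fin m) K →ₐ[K]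
      MvPolynomial (Fin (m + 1)) K).toRingHom (fun f a hf => hf.rename_isHomogeneous) P hP
  have h3 := h (PrimeSpectrum.comap
      (rename Fin.succ : MvPolynomial (Fin m) K →ₐ[K] MvPolynomial (Fin (m + 1)) K).toRingHom P) h2
    (by
      intro k
      change rename Fin.succ (pderiv k G) ∈ P.asIdeal
      have h4 := hk k.succ
      rw [map_add, pderiv_rename (Fin.succ_injective m), Derivation.leibniz, pderiv_C, smul_zero,
        add_zero, Derivation.leibniz_pow, pderiv_X_of_ne (Fin.succ_ne_zero k).symm, smul_zero,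
        smul_zero, smul_zero, add_zero] at h4
      exact h4)
  omega

end Pool.Agent.HCR
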