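import Pool.Agent.HCR.C3a

namespace Pool.Agent.HCR

open Pool.Agent.HCH Pool.Agent.HCF MvPolynomial

/-
PROOF. As sg_cone, but D * X 0 ^ (D - 1) ∈ P (pderiv 0; the other summand does not involve X 0) gives X 0 ∈ P
(CharZero, D ≥ 2), so dm P = dm P₀ (K[x] → K[X 0, x] ⧸ P surjective: dm_comap).
-/
theorem sg_sus {K : Type} [Field K] [CharZero K] {m : ℕ} (D : ℕ) (hD : 2 ≤ D)
    (G : MvPolynomial (Fin m) K) (r : ℕ) (h : SgLe G r) : SgLe (sus D G) r := by
  intro P hP hd
  have hPp := P.isPrime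
  have hrn : Function.Injective (Fin.succ : Fin m → Fin (m + 1)) := Fin.succ_injective m
  -- X 0 lies in P
  have h0 : pderiv 0 (sus D G) = C (D : K) * X 0 ^ (D - 1) := by
    unfold sus
    rw [map_add, pderiv_pow, pderiv_X_self, mul_one]
    have h1 : pderiv (0 : Fin (m + 1)) (rename Fin.succ G) = 0 := by
      apply pderiv_eq_zero_of_notMem_vars
      intro hmem
      have h2 := vars_rename Fin.succ G hmem
      rw [Finset.mem_image] at h2
      obtain ⟨k, -, hk⟩ := h2
      exact Fin.succ_ne_zero k hk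
    rw [h1, zero_add]
    simp
  have hX : (X 0 : MvPolynomial (Fin (m + 1)) K) ∈ P.asIdeal := by
    have h1 := hd 0
    rw [h0] at h1
    rcases hPp.mem_or_mem h1 with h2 | h2
    · exfalso
      have hD0 : (D : K) ≠ 0 := by
        rw [Nat.cast_ne_zero]
        omega
      apply hPp.ne_top
      exact Ideal.eq_top_of_isUnit_mem _ h2 ((isUnit_iff_ne_zero.2 hD0).map C)
    · exact hPp.mem_of_pow_mem _ h2
  let P0 : PrimeSpectrum (MvPolynomial (Fin m) K) :=
    PrimeSpectrum.comap ((rename Fin.succ : MvPolynomial (Fin m) K →ₐ[K]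
      MvPolynomial (Fin (m + 1)) K) : MvPolynomial (Fin m) K →+* MvPolynomial (Fin (m + 1)) K) P
  have hP0 : HgI P0.asIdeal :=
    e6_comap_homog _ (fun f a hf => hf.rename_isHomogeneous) P hP
  have hd0 : ∀ k, pderiv k G ∈ P0.asIdeal := by
    intro k
    change rename Fin.succ (pderiv k G) ∈ P.asIdeal
    have h1 := hd k.succ
    unfold sus at h1
    rw [map_add, pderiv_rename hrn, pderiv_pow, pderiv_X_of_ne (Fin.succ_ne_zero k).symm,
      mul_zero, add_zero] at h1
    exact h1
  have h2 := h P0 hP0 hd0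
  -- the map X 0 to 0
  let φ : MvPolynomial (Fin (m + 1)) K →ₐ[K] MvPolynomial (Fin m) K :=
    aeval (Fin.cons (α := fun _ => MvPolynomial (Fin m) K) 0 X)
  have hφX0 : φ (X 0) = 0 := by
    change aeval _ (X 0) = 0
    rw [aeval_X]
    rfl
  have hφXs : ∀ k : Fin m, φ (X k.succ) = X k := by
    intro k
    change aeval _ (X k.succ) = X k
    rw [aeval_X]
    rfl
  have hφr : ∀ f : MvPolynomial (Fin m) K, φ (rename Fin.succ f) = f := by
    intro f
    have h3 : φ.comp (rename Fin.succ) = AlgHom.id K _ := by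
      apply algHom_ext
      intro i
      rw [AlgHom.comp_apply, rename_X, hφXs]
      rfl
    exact congrArg (fun g : MvPolynomial (Fin m) K →ₐ[K] MvPolynomial (Fin m) K => g f) h3
  have hsurj : Function.Surjective φ := fun f => ⟨rename Fin.succ f, hφr f⟩
  have hmk : ∀ f : MvPolynomial (Fin (m + 1)) K,
      Ideal.Quotient.mk P.asIdeal f = Ideal.Quotient.mk P.asIdeal (rename Fin.succ (φ f)) := by
    intro f
    have h3 : (Ideal.Quotient.mkₐ K P.asIdeal) =
        ((Ideal.Quotient.mkₐ K P.asIdeal).comp (rename Fin.succ)).comp φ := by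
      apply algHom_ext
      intro i
      refine Fin.cases ?_ (fun k => ?_) i
      · rw [AlgHom.comp_apply, hφX0, map_zero]
        exact Ideal.Quotient.eq_zero_iff_mem.2 hX
      · rw [AlgHom.comp_apply, hφXs, AlgHom.comp_apply, rename_X]
    exact congrArg (fun g : MvPolynomial (Fin (m + 1)) K →ₐ[K]
      (MvPolynomial (Fin (m + 1)) K ⧸ P.asIdeal) => g f) h3
  have hcomap : P0.asIdeal.comap (φ : MvPolynomial (Fin (m + 1)) K →+* MvPolynomial (Fin m) K) =
      P.asIdeal := by
    ext f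
    change rename Fin.succ (φ f) ∈ P.asIdeal ↔ f ∈ P.asIdeal
    rw [← Ideal.Quotient.eq_zero_iff_mem, ← Ideal.Quotient.eq_zero_iff_mem, hmk f]
  rw [← hcomap, dm_comap φ hsurj]
  exact h2

theorem sus_homog {K : Type} [Field K] {m : ℕ} (D : ℕ) (G : MvPolynomial (Fin m) K)
    (h : G.IsHomogeneous D) : (sus D G).IsHomogeneous D := by
  unfold sus
  apply IsHomogeneous.add
  · exact h.rename_isHomogeneous
  · simpa using (isHomogeneous_X K (0 : Fin (m + 1))).pow D

theorem suspA_homog {K : Type} [Field K] {m : ℕ} (D : ℕ) (G : MvPolynomial (Fin m) K)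
    (h : G.IsHomogeneous D) : (suspA D G).IsHomogeneous D := by
  rw [← sus_sus]
  exact sus_homog D _ (sus_homog D G h)

theorem sg_suspA {K : Type} [Field K] [CharZero K] {m : ℕ} (D : ℕ) (hD : 2 ≤ D)
    (G : MvPolynomial (Fin m) K) (r : ℕ) (h : SgLe G r) : SgLe (suspA D G) r := by
  rw [← sus_sus]
  exact sg_sus D hD _ r (sg_sus D hD G r h)

end Pool.Agent.HCR
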