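import Pool.Agent.HCR.C3a

namespace Pool.Agent.HCR

open Pool.Agent.HCH Pool.Agent.HCF MvPolynomial

/-
PROOF. On variables: deh (X 0) = X 0 (Fin.castSucc_zero, deh_castSucc), deh (rename succ F) = rename succ (deh F).
-/
theorem deh_sus {K : Type} [Field K] {m : ℕ} (D : ℕ) (F : MvPolynomial (Fin (m + 1)) K) :
    deh (sus D F) = sus D (deh F) := by
  have h : (deh : MvPolynomial (Fin (m + 2)) K →ₐ[K] MvPolynomial (Fin (m + 1)) K).comp
      (rename Fin.succ) = (rename Fin.succ).comp
        (deh : MvPolynomial (Fin (m + 1)) K →ₐ[K] MvPolynomial (Fin m) K) := by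
    apply MvPolynomial.algHom_ext
    intro i
    rw [AlgHom.comp_apply, AlgHom.comp_apply, rename_X]
    induction i using Fin.lastCases with
    | last => rw [Fin.succ_last, deh_last, deh_last, map_one]
    | cast i => rw [Fin.succ_castSucc, deh_castSucc, deh_castSucc, rename_X]
  have h1 : deh (rename Fin.succ F) = rename Fin.succ (deh F) :=
    congrArg (fun φ : MvPolynomial (Fin (m + 1)) K →ₐ[K] MvPolynomial (Fin (m + 1)) K => φ F) h
  have h2 : deh (X 0 : MvPolynomial (Fin (m + 2)) K) = X 0 := by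
    rw [← Fin.castSucc_zero, deh_castSucc]
  rw [sus, sus, map_add, map_pow, h1, h2]

theorem deh_suspA {K : Type} [Field K] {m : ℕ} (D : ℕ) (F : MvPolynomial (Fin (m + 1)) K) :
    deh (suspA D F) = suspA D (deh F) := by
  rw [← sus_sus, ← sus_sus]
  rw [deh_sus, deh_sus]

theorem rhoI_sus {K : Type} [Field K] {m : ℕ} (D : ℕ) (F : MvPolynomial (Fin (m + 1)) K) :
    rhoI (sus D F) = sus D (rhoI F) := by
  have hl : ∀ n : ℕ, rhoI (X (Fin.last n) : MvPolynomial (Fin (n + 1)) K) = 0 := by
    intro n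
    simp [rhoI]
  have hc : ∀ (n : ℕ) (i : Fin n), rhoI (X i.castSucc : MvPolynomial (Fin (n + 1)) K) = X i := by
    intro n i
    simp [rhoI]
  have h : (rhoI : MvPolynomial (Fin (m + 2)) K →ₐ[K] MvPolynomial (Fin (m + 1)) K).comp
      (rename Fin.succ) = (rename Fin.succ).comp
        (rhoI : MvPolynomial (Fin (m + 1)) K →ₐ[K] MvPolynomial (Fin m) K) := by
    apply MvPolynomial.algHom_ext
    intro i
    rw [AlgHom.comp_apply, AlgHom.comp_apply, rename_X]
    induction i using Fin.lastCases with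
    | last => rw [Fin.succ_last, hl, hl, map_zero]
    | cast i => rw [Fin.succ_castSucc, hc, hc, rename_X]
  have h1 : rhoI (rename Fin.succ F) = rename Fin.succ (rhoI F) :=
    congrArg (fun φ : MvPolynomial (Fin (m + 1)) K →ₐ[K] MvPolynomial (Fin (m + 1)) K => φ F) h
  have h2 : rhoI (X 0 : MvPolynomial (Fin (m + 2)) K) = X 0 := by
    rw [← Fin.castSucc_zero, hc]
  rw [sus, sus, map_add, map_pow, h1, h2]

theorem rhoI_suspA {K : Type} [Field K] {m : ℕ} (D : ℕ) (F : MvPolynomial (Fin (m + 1)) K) :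
    rhoI (suspA D F) = suspA D (rhoI F) := by
  rw [← sus_sus, ← sus_sus]
  rw [rhoI_sus, rhoI_sus]

theorem ext_sus {k E : Type} [Field k] [Field E] [Algebra k E] {m : ℕ} (D : ℕ)
    (f : MvPolynomial (Fin m) k) : ext k E (m + 1) (sus D f) = sus D (ext k E m f) := by
  unfold Pool.Agent.HCH.ext sus
  rw [map_add, map_pow, map_X, map_rename]

theorem ext_suspA {k E : Type} [Field k] [Field E] [Algebra k E] {m : ℕ} (D : ℕ)
    (f : MvPolynomial (Fin m) k) : ext k E (m + 2) (suspA D f) = suspA D (ext k E m f) := by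
  rw [← sus_sus, ← sus_sus]
  rw [ext_sus, ext_sus]

end Pool.Agent.HCR
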