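import Pool.Agent.HCR.Defs

namespace Pool.Agent.HCR

open Pool.Agent.HCH Pool.Agent.HCF MvPolynomial

theorem E1f_sA0 {n : ℕ} : (Fin.succAbove (1 : Fin (n + 2)) (0 : Fin (n + 1))) = 0 := by
  rw [Fin.succAbove_of_castSucc_lt]
  · rfl
  · exact Fin.zero_lt_one

theorem E1f_sAs {n : ℕ} (k : Fin n) :
    (Fin.succAbove (1 : Fin (n + 2)) k.succ) = k.succ.succ := by
  apply Fin.succAbove_of_le_castSucc
  rw [Fin.le_def]
  show (1 : Fin (n + 2)).val ≤ k.val + 1
  rw [Fin.val_one]
  omega

/-
PROOF. rename (Equiv.swap 0 1) on variables: succ ↦ succAbove 1, 0 ↦ 1.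
-/
theorem insr_eq {K : Type} [Field K] {m : ℕ} (D : ℕ) (F : MvPolynomial (Fin (m + 1)) K) :
    insr D F = rename (Equiv.swap 0 1) (sus D F) := by
  unfold insr sus
  rw [map_add, map_pow, rename_X, Equiv.swap_apply_left, rename_rename]
  congr 2
  congr 1
  funext i
  refine Fin.cases ?_ (fun k => ?_) i
  · rw [E1f_sA0]
    show 0 = Equiv.swap (0 : Fin (m + 2)) 1 (Fin.succ 0)
    rw [Fin.succ_zero_eq_one, Equiv.swap_apply_right]
  · rw [E1f_sAs]
    show k.succ.succ = Equiv.swap (0 : Fin (m + 2)) 1 k.succ.succ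
    rw [Equiv.swap_apply_of_ne_of_ne (Fin.succ_ne_zero _)]
    intro h
    have h2 := congrArg Fin.val h
    rw [Fin.val_succ, Fin.val_succ, Fin.val_one] at h2
    omega

/-
PROOF. On variables; F has the variables X 0 (pencil) and X k.succ; rename (succAbove 1): X 0 ↦ X 0, X k.succ ↦ X k.succ.succ.
-/
theorem psi_insr {K : Type} [Field K] {m : ℕ} (D : ℕ) (F : MvPolynomial (Fin (m + 2)) K) :
    psi (insr D F) = sus D (psi F) := by
  unfold insr sus
  have h1 : ∀ F : MvPolynomial (Fin (m + 2)) K,
      psi (rename (Fin.succAbove 1) F) = rename Fin.succ (psi F) := by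
    intro F
    induction F using MvPolynomial.induction_on with
    | C a =>
      rw [rename_C]
      unfold psi
      rw [aeval_C, aeval_C, MvPolynomial.algebraMap_apply, MvPolynomial.algebraMap_apply, rename_C]
    | add p q hp hq => rw [map_add, map_add, hp, hq, map_add, map_add]
    | mul_X p i hp =>
      rw [map_mul, map_mul, hp, map_mul, map_mul, rename_X]
      congr 1
      unfold psi
      rw [aeval_X, aeval_X]
      refine Fin.cases ?_ (fun k => ?_) i
      · rw [E1f_sA0, Fin.cons_zero, Fin.cons_zero, map_mul, rename_C, rename_X, Fin.succ_last]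
      · rw [E1f_sAs, Fin.cons_succ, Fin.cons_succ, rename_X]
  rw [map_add, map_pow, h1]
  congr 2
  unfold psi
  rw [aeval_X]
  exact Fin.cons_succ _ _ 0

theorem rhoT_insr {K : Type} [Field K] {m : ℕ} (D : ℕ) (t : K) (F : MvPolynomial (Fin (m + 2)) K) :
    rhoT t (insr D F) = sus D (rhoT t F) := by
  unfold insr sus
  have h1 : ∀ F : MvPolynomial (Fin (m + 2)) K,
      rhoT t (rename (Fin.succAbove 1) F) = rename Fin.succ (rhoT t F) := by
    intro F
    induction F using MvPolynomial.induction_on with
    | C a =>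
      rw [rename_C]
      unfold rhoT
      rw [aeval_C, aeval_C, MvPolynomial.algebraMap_apply, MvPolynomial.algebraMap_apply, rename_C]
    | add p q hp hq => rw [map_add, map_add, hp, hq, map_add, map_add]
    | mul_X p i hp =>
      rw [map_mul, map_mul, hp, map_mul, map_mul, rename_X]
      congr 1
      unfold rhoT
      rw [aeval_X, aeval_X]
      refine Fin.cases ?_ (fun k => ?_) i
      · rw [E1f_sA0, Fin.cons_zero, Fin.cons_zero, map_mul, rename_C, rename_X, Fin.succ_last]
      · rw [E1f_sAs, Fin.cons_succ, Fin.cons_succ, rename_X]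
  rw [map_add, map_pow, h1]
  congr 2
  unfold rhoT
  rw [aeval_X]
  exact Fin.cons_succ _ _ 0

theorem E1f_sAl {n : ℕ} :
    (Fin.succAbove (1 : Fin (n + 3)) (Fin.last (n + 1))) = Fin.last (n + 2) := by
  have h1 : Fin.last (n + 1) = (Fin.last n).succ := (Fin.succ_last n).symm
  rw [h1, E1f_sAs, Fin.succ_last, Fin.succ_last]

theorem E1f_sAc {n : ℕ} (k : Fin (n + 1)) :
    (Fin.succAbove (1 : Fin (n + 3)) k.castSucc) =
      (Fin.succAbove (1 : Fin (n + 2)) k).castSucc := by
  refine Fin.cases ?_ (fun j => ?_) k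
  · rw [E1f_sA0]
    exact E1f_sA0
  · rw [E1f_sAs]
    have h1 : (j.succ).castSucc = (j.castSucc).succ := rfl
    rw [h1, E1f_sAs]
    rfl

theorem rhoI_insr {K : Type} [Field K] {m : ℕ} (D : ℕ) (F : MvPolynomial (Fin (m + 2)) K) :
    rhoI (insr D F) = insr D (rhoI F) := by
  unfold insr
  have h1 : ∀ F : MvPolynomial (Fin (m + 2)) K,
      rhoI (rename (Fin.succAbove 1) F) = rename (Fin.succAbove 1) (rhoI F) := by
    intro F
    induction F using MvPolynomial.induction_on with
    | C a =>
      rw [rename_C]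
      unfold rhoI
      rw [aeval_C, aeval_C, MvPolynomial.algebraMap_apply, MvPolynomial.algebraMap_apply, rename_C]
    | add p q hp hq => rw [map_add, map_add, hp, hq, map_add, map_add]
    | mul_X p i hp =>
      rw [map_mul, map_mul, hp, map_mul, map_mul, rename_X]
      congr 1
      unfold rhoI
      rw [aeval_X, aeval_X]
      refine Fin.lastCases ?_ (fun k => ?_) i
      · rw [E1f_sAl, Fin.snoc_last, Fin.snoc_last]
        exact (map_zero _).symm
      · rw [E1f_sAc, Fin.snoc_castSucc, Fin.snoc_castSucc, rename_X]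
  rw [map_add, map_pow, h1]
  congr 2
  unfold rhoI
  rw [aeval_X]
  exact Fin.snoc_castSucc (α := fun _ => MvPolynomial (Fin (m + 2)) K) _ _ 1

theorem deh_insr {K : Type} [Field K] {m : ℕ} (D : ℕ) (F : MvPolynomial (Fin (m + 2)) K) :
    deh (insr D F) = insr D (deh F) := by
  unfold insr
  have h1 : ∀ F : MvPolynomial (Fin (m + 2)) K,
      deh (rename (Fin.succAbove 1) F) = rename (Fin.succAbove 1) (deh F) := by
    intro F
    induction F using MvPolynomial.induction_on with
    | C a =>
      rw [rename_C]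
      unfold deh
      rw [aeval_C, aeval_C, MvPolynomial.algebraMap_apply, MvPolynomial.algebraMap_apply, rename_C]
    | add p q hp hq => rw [map_add, map_add, hp, hq, map_add, map_add]
    | mul_X p i hp =>
      rw [map_mul, map_mul, hp, map_mul, map_mul, rename_X]
      congr 1
      unfold deh
      rw [aeval_X, aeval_X]
      refine Fin.lastCases ?_ (fun k => ?_) i
      · rw [E1f_sAl, Fin.snoc_last, Fin.snoc_last]
        exact (map_one _).symm
      · rw [E1f_sAc, Fin.snoc_castSucc, Fin.snoc_castSucc, rename_X]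
  rw [map_add, map_pow, h1]
  congr 2
  unfold deh
  rw [aeval_X]
  exact Fin.snoc_castSucc (α := fun _ => MvPolynomial (Fin (m + 2)) K) _ _ 1

theorem lam_insr {K : Type} [Field K] {m : ℕ} (D : ℕ) (f : MvPolynomial (Fin (m + 1)) K) :
    lamR K (m + 1) (insr D f) = sus D (lamR K m f) := by
  show lam (insr D f) = sus D (lam f)
  unfold insr sus
  have h1 : ∀ F : MvPolynomial (Fin (m + 1)) K,
      lam (rename (Fin.succAbove 1) F) = rename Fin.succ (lam F) := by
    intro F
    induction F using MvPolynomial.induction_on with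
    | C a =>
      rw [rename_C]
      unfold lam
      rw [aeval_C, aeval_C, MvPolynomial.algebraMap_apply, MvPolynomial.algebraMap_apply, rename_C]
    | add p q hp hq => rw [map_add, map_add, hp, hq, map_add, map_add]
    | mul_X p i hp =>
      rw [map_mul, map_mul, hp, map_mul, map_mul, rename_X]
      congr 1
      unfold lam
      rw [aeval_X, aeval_X]
      refine Fin.cases ?_ (fun k => ?_) i
      · rw [E1f_sA0, Fin.cons_zero, Fin.cons_zero, rename_C]
      · rw [E1f_sAs, Fin.cons_succ, Fin.cons_succ, rename_X]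
  rw [map_add, map_pow, h1]
  congr 2
  unfold lam
  rw [aeval_X]
  exact Fin.cons_succ _ _ 0

end Pool.Agent.HCR
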