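import Pool.Agent.HCR.C3a

namespace Pool.Agent.HCR

open Pool.Agent.HCH Pool.Agent.HCF MvPolynomial

/-
PROOF. On variables: phi (cons 0 a) fixes X 0 and maps the last variable to X last - Σ a_k X k.succ.castSucc.
-/
theorem phi_sus {K : Type} [Field K] {m : ℕ} (D : ℕ) (a : Fin m → K)
    (G : MvPolynomial (Fin (m + 1)) K) :
    phi (Fin.cons (α := fun _ => K) 0 a) (sus D G) = sus D (phi a G) := by
  have h0 : phi (Fin.cons (α := fun _ => K) 0 a) (X 0 : MvPolynomial (Fin (m + 1 + 1)) K) = X 0 :=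
    e0_phi_cast (Fin.cons (α := fun _ => K) 0 a) 0
  have h1 : (phi (Fin.cons (α := fun _ => K) 0 a)).comp
      (rename Fin.succ : MvPolynomial (Fin (m + 1)) K →ₐ[K] MvPolynomial (Fin (m + 1 + 1)) K) =
      (rename Fin.succ).comp (phi a) := by
    apply MvPolynomial.algHom_ext
    intro i
    refine Fin.lastCases ?_ (fun k => ?_) i
    · rw [AlgHom.comp_apply, AlgHom.comp_apply, rename_X, Fin.succ_last, e0_phi_last,
        e0_phi_last, Fin.sum_univ_succ, map_sub, rename_X, Fin.succ_last, map_sum,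
        Fin.cons_zero, C_0, zero_mul, zero_add]
      congr 1
      apply Finset.sum_congr rfl
      intro k _
      rw [Fin.cons_succ, map_mul, rename_C, rename_X, Fin.succ_castSucc]
    · rw [AlgHom.comp_apply, AlgHom.comp_apply, rename_X, Fin.succ_castSucc, e0_phi_cast,
        e0_phi_cast, rename_X, Fin.succ_castSucc]
  have h2 : phi (Fin.cons (α := fun _ => K) 0 a) (rename Fin.succ G) =
      rename Fin.succ (phi a G) := DFunLike.congr_fun h1 G
  unfold sus
  rw [map_add, map_pow, h0, h2]

theorem hart_phi_suspA {K : Type} [Field K] {m : ℕ} (D : ℕ) (a : Fin m → K)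
    (G : MvPolynomial (Fin (m + 1)) K) (j : ℕ) (h : Hart (suspA D (phi a G)) j) :
    Hart (suspA D G) j := by
  apply hart_phi (Fin.cons (α := fun _ => K) 0 (Fin.cons (α := fun _ => K) 0 a))
  rw [← sus_sus, phi_sus, phi_sus, sus_sus]
  exact h

end Pool.Agent.HCR
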