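import Pool.Agent.HCR.E1d
import Pool.Agent.HCR.E1f

namespace Pool.Agent.HCR

open Pool.Agent.HCH Pool.Agent.HCF MvPolynomial

theorem E2b_sg_rename {K : Type} [Field K] {m : ℕ} (σ : Equiv.Perm (Fin m))
    (F : MvPolynomial (Fin m) K) (r : ℕ) (h : SgLe F r) : SgLe (rename σ F) r := by
  intro P hP hk
  have := P.isPrime
  let P' : PrimeSpectrum (MvPolynomial (Fin m) K) :=
    PrimeSpectrum.comap ((renameEquiv K σ).toRingEquiv :
      MvPolynomial (Fin m) K →+* MvPolynomial (Fin m) K) P
  have h1 : HgI P'.asIdeal := by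
    apply h1_hg (renameEquiv K σ).toRingEquiv
    · intro f a hf
      exact hf.rename_isHomogeneous
    · exact hP
  have h2 : ∀ k, pderiv k F ∈ P'.asIdeal := by
    intro k
    change rename σ (pderiv k F) ∈ P.asIdeal
    rw [← pderiv_rename σ.injective]
    exact hk _
  have h3 := h P' h1 h2
  have h4 : dm K P'.asIdeal = dm K P.asIdeal :=
    dm_comap (renameEquiv K σ : MvPolynomial (Fin m) K →ₐ[K] MvPolynomial (Fin m) K)
      (renameEquiv K σ).surjective P.asIdeal
  rw [← h4]
  exact h3

/-
PROOF. P homogeneous prime containing all partials of insr D G. As sg_sus (pderiv k.succAbove.. of rename (succAbove 1) G), or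
insr_eq and invariance of SgLe under rename (Equiv.swap 0 1).
-/
theorem sg_insr {K : Type} [Field K] [CharZero K] {m : ℕ} (D : ℕ) (hD : 2 ≤ D)
    (G : MvPolynomial (Fin (m + 1)) K) (r : ℕ) (h : SgLe G r) : SgLe (insr D G) r := by
  rw [insr_eq]
  exact E2b_sg_rename (Equiv.swap 0 1) _ r (sg_sus D hD G r h)

theorem insr_homog {K : Type} [Field K] {m : ℕ} (D : ℕ) (G : MvPolynomial (Fin (m + 1)) K)
    (h : G.IsHomogeneous D) : (insr D G).IsHomogeneous D := by
  rw [insr_eq]
  exact (sus_homog D G h).rename_isHomogeneous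

/-
PROOF. insr_eq twice: insr D (insr D G) = rename (swap 0 1) (sus D (rename (swap 0 1) (sus D G))) = rename σ (suspA D G) for a permutation σ;
hart_rename for σ⁻¹.
-/
theorem hart_insr {K : Type} [Field K] {m : ℕ} (D : ℕ) (G : MvPolynomial (Fin (m + 1)) K) (j : ℕ)
    (h : Hart (insr D (insr D G)) j) : Hart (suspA D G) j := by
  have h1 := hart_rename (Equiv.swap (0 : Fin (m + 1 + 2)) 2) _ j h
  have h2 : rename (Equiv.swap (0 : Fin (m + 1 + 2)) 2) (insr D (insr D G)) = suspA D G := by
    have e1 : ((⇑(Equiv.swap (0 : Fin (m + 1 + 2)) 2) ∘ Fin.succAbove (n := m + 2) 1) ∘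
        Fin.succAbove (n := m + 1) 1) = (Fin.succ ∘ Fin.succ : Fin (m + 1) → Fin (m + 1 + 2)) := by
      funext k
      refine Fin.cases ?_ (fun j => ?_) k
      · have h3 : Fin.succAbove (n := m + 1) 1 0 = 0 := rfl
        have h4 : Fin.succAbove (n := m + 2) 1 0 = 0 := rfl
        rw [Function.comp_apply, Function.comp_apply, h3, h4, Equiv.swap_apply_left]
        rfl
      · have h3 : Fin.succAbove (n := m + 1) 1 j.succ = j.succ.succ := by
          rw [← Fin.succ_zero_eq_one, Fin.succ_succAbove_succ, Fin.succAbove_zero]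
        have h4 : Fin.succAbove (n := m + 2) 1 j.succ.succ = j.succ.succ.succ := by
          rw [← Fin.succ_zero_eq_one, Fin.succ_succAbove_succ, Fin.succAbove_zero]
        rw [Function.comp_apply, Function.comp_apply, h3, h4, Equiv.swap_apply_of_ne_of_ne]
        · rfl
        · exact Fin.succ_ne_zero _
        · intro h5
          have h6 := congrArg Fin.val h5
          simp only [Fin.val_succ] at h6
          have h7 : ((2 : Fin (m + 1 + 2)) : ℕ) = 2 := rfl
          omega
    have e2 : Equiv.swap (0 : Fin (m + 1 + 2)) 2 (Fin.succAbove (n := m + 2) 1 1) = 0 := by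
      have h3 : Fin.succAbove (n := m + 2) 1 1 = 2 := rfl
      rw [h3, Equiv.swap_apply_right]
    have e3 : Equiv.swap (0 : Fin (m + 1 + 2)) 2 1 = 1 := by
      apply Equiv.swap_apply_of_ne_of_ne
      · exact one_ne_zero
      · intro h5
        have h6 := congrArg Fin.val h5
        have h7 : ((2 : Fin (m + 1 + 2)) : ℕ) = 2 := rfl
        have h8 : ((1 : Fin (m + 1 + 2)) : ℕ) = 1 := rfl
        omega
    unfold insr suspA
    rw [map_add, map_add, map_add, rename_rename, rename_rename, map_pow, map_pow, map_pow,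
      rename_X, rename_X, rename_X, e1, e2, e3]
  rwa [h2] at h1

end Pool.Agent.HCR
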