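import Pool.Agent.HCR.A1
import Pool.Agent.HCR.E1a
import Pool.Agent.HCR.E1b
import Pool.Agent.HCR.E1c
import Pool.Agent.HCR.E1d
import Pool.Agent.HCR.E1e

namespace Pool.Agent.HCR

open Pool.Agent.HCH Pool.Agent.HCF MvPolynomial

/-
PROOF. V = suspA D G : Fin (2 i + 1 + 2), M = 2 i + 1. prime_of_sg V. hart_of_affine V .. i: Hart (rhoI V) (i - 1) by hlow (2 i) 1
(sg_rhoI). AT K (deh V) (i + 1): deh V = suspA D (deh G) (deh_suspA), Gen_false_iff, (hcrit i hi G).trans: q with (s, t): hyper_tors V .. with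
lq_mem s t, j = i: Hart (mem t s V) (i - 1) by hlow (2 i) 1: mem_suspA, sg_cone; deh (C s * X 0 - C t * X 1) = C s * X 0 - C t * X 1;
Rt_iff to pass from ARat (cls) to Rt (single).
-/
theorem alpha_crit (D : ℕ) (hD : 2 ≤ D) (i : ℕ) (hi : 1 ≤ i) {K : Type} [Field K]
    (ε : Nonempty (K ≃+* ℂ))
    (hlow : ∀ M r, 2 * (i - 1) + r + 1 ≤ M → ∀ F : MvPolynomial (Fin (M + 2)) K,
      F.IsHomogeneous D → SgLe F r → Hart F (i - 1))
    (hcrit : GenCrit D K) (G : MvPolynomial (Fin (2 * i + 1)) K) (hG : G.IsHomogeneous D)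
    (h : SgLe G 0) : Hart (suspA D G) i := by
  have c0 : CharZero K := charZero_of_equiv ε
  have hV : (suspA D G).IsHomogeneous D := suspA_homog D G hG
  have hsV : SgLe (suspA D G) 0 := sg_suspA D hD G 0 h
  obtain ⟨hprime, hdm⟩ := prime_of_sg (suspA D G) hV (by omega) 0 hsV (by omega)
  have hR : Hart (rhoI (suspA D G)) (i - 1) :=
    hlow (2 * i) 1 (by omega) _ (rhoI_homog _ hV) (sg_rhoI _ hV hD 0 hsV)
  have e1 : 2 * i + 1 - i = i + 1 := by omega
  apply hart_of_affine (M := 2 * i + 1) (suspA D G) hV hprime hdm i hi (by omega) hR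
  rw [e1]
  have hdeh : (deh (suspA D G) : MvPolynomial (Fin (2 * i + 2)) K) = suspA D (deh G) :=
    deh_suspA D G
  have key : AT K (suspA D (deh G)) (i + 1) := by
    rw [← Gen_false_iff]
    refine (hcrit i hi G hG h).trans ?_
    rintro q hq hd ⟨s, t, hst, hl⟩
    obtain ⟨tau, hq'⟩ := lq_mem (K := K) (m := 2 * i + 1) s t hst
    have hH : Hart (mem t s (suspA D G)) (i - 1) := by
      apply hlow (2 * i) 1 (by omega) _ (hq'.hrho _ _ hV)
      rw [mem_suspA]
      exact sg_cone D (by omega) G (t ^ D + s ^ D) 0 h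
    have hl' : (deh (C s * X 0 - C t * X 1 : MvPolynomial (Fin (2 * i + 1 + 2)) K) :
        MvPolynomial (Fin (2 * i + 1 + 1)) K) = C s * X 0 - C t * X 1 := by
      rw [map_sub, map_mul, map_mul]
      have h0 : (X 0 : MvPolynomial (Fin (2 * i + 1 + 2)) K) = X (Fin.castSucc 0) := rfl
      have h1 : (X 1 : MvPolynomial (Fin (2 * i + 1 + 2)) K) = X (Fin.castSucc 1) := rfl
      rw [h0, h1, deh_castSucc, deh_castSucc]
      have hC : ∀ c : K, (deh (C c : MvPolynomial (Fin (2 * i + 1 + 2)) K) :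
          MvPolynomial (Fin (2 * i + 1 + 1)) K) = C c := fun c => by
        unfold deh
        rw [← MvPolynomial.algebraMap_eq, AlgHom.commutes, MvPolynomial.algebraMap_eq]
      rw [hC, hC]
    obtain ⟨N, hN, hz⟩ := hyper_tors (M := 2 * i + 1) (suspA D G) hV hprime hdm hq' i hi
      (by omega) hH q (by rw [hdeh]; exact hq) (by rw [hl']; exact hl) (by rw [e1]; exact hd)
    refine ⟨N, hN, ?_⟩
    rw [e1, hdeh, ← t1_coe, ← Rt_iff] at hz
    exact AddSubgroup.mem_sup_left hz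
  rw [hdeh]
  exact key

end Pool.Agent.HCR
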