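import Pool.Agent.HCR.E2a
import Pool.Agent.HCR.E2b
import Pool.Agent.HCR.E2c

namespace Pool.Agent.HCR

open Pool.Agent.HCH Pool.Agent.HCF MvPolynomial

/-
PROOF. Induction on N. N = 2 i + 1: r = 0, alpha_crit. N = N'' + 2 ≥ 2 i + 2: prime_of_sg G (r + 3 ≤ N), good_coord G: a with
SgLe (rhoI (phi a G)) (r - 1), G' = phi a G (phi_homog, sg_phi). F = insr D (insr D G') : Fin (N'' + 4). `step` for F, j = i:
SgLe F r (sg_insr twice), SgLe (rhoI F) (r - 1) (rhoI_insr twice, sg_insr), h1: hlow (N'' + 1) (r - 1), h2: hlow (N'' + 1) (r + 1)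
(rhoT_homog, sg_rhoT), h3: ext (psi F) = suspA D (ext (psi G')) (psi_insr twice, ext_suspA, sus_sus); induction hypothesis at N - 1, r - 1 over
AlgebraicClosure (RatFunc K) (closure_equiv), SgLe by sg_psi G' and sg_ext. Then hart_insr and hart_phi_suspA.
-/
theorem alpha (D : ℕ) (hD : 2 ≤ D) (i : ℕ) (hi : 1 ≤ i)
    (hlow : ∀ M r, 2 * (i - 1) + r + 1 ≤ M → ∀ (K : Type) [Field K], Nonempty (K ≃+* ℂ) →
      ∀ F : MvPolynomial (Fin (M + 2)) K, F.IsHomogeneous D → SgLe F r → Hart F (i - 1))
    (hcrit : ∀ (K : Type) [Field K], Nonempty (K ≃+* ℂ) → GenCrit D K) :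
    ∀ N r, 2 * i + r + 1 ≤ N → ∀ (K : Type) [Field K], Nonempty (K ≃+* ℂ) →
      ∀ G : MvPolynomial (Fin N) K, G.IsHomogeneous D → SgLe G r → Hart (suspA D G) i := by
  intro N
  induction N with
  | zero => intro r hN; omega
  | succ N ih =>
    intro r hN K _ ε G hG h
    by_cases hcase : N + 1 = 2 * i + 1
    · have hN' : N = 2 * i := by omega
      subst hN'
      have hr : r = 0 := by omega
      subst hr
      exact alpha_crit D hD i hi ε (fun M r hM F hF hs => hlow M r hM K ε F hF hs) (hcrit K ε) G hG h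
    · obtain ⟨N, rfl⟩ : ∃ N'', N = N'' + 2 := ⟨N - 2, by omega⟩
      have c0 := charZero_of_equiv ε
      obtain ⟨hp, hdm⟩ := prime_of_sg G hG (by omega) r h (by omega)
      obtain ⟨a, ha⟩ := good_coord G hG hD hp hdm r h
      apply hart_phi_suspA D a
      have hG' := phi_homog a G hG
      have h' := sg_phi a G r h
      apply hart_insr
      have hF : (insr D (insr D (phi a G))).IsHomogeneous D :=
        insr_homog D _ (insr_homog D _ hG')
      have hS : SgLe (insr D (insr D (phi a G))) r := sg_insr D hD _ r (sg_insr D hD _ r h')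
      have hSI : SgLe (rhoI (insr D (insr D (phi a G)))) (r - 1) := by
        rw [rhoI_insr, rhoI_insr]
        exact sg_insr D hD _ _ (sg_insr D hD _ _ ha)
      have k1 : Hart (rhoI (insr D (insr D (phi a G)))) (i - 1) :=
        hlow (N + 2) (r - 1) (by omega) K ε _ (rhoI_homog _ hF) hSI
      have k2 : ∀ t : K, Hart (rhoT t (insr D (insr D (phi a G)))) (i - 1) := fun t =>
        hlow (N + 2) (r + 1) (by omega) K ε _ (rhoT_homog t _ hF) (sg_rhoT t _ hF hD r hS)
      refine step (M := N + 2) ε hD (insr D (insr D (phi a G))) hF i r hi (by omega) hS hSI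
        k1 k2 ?_
      · intro _
        have e1 := sg_psi (phi a G) hG' hD r h' ha
        have e2 := sg_ext (E := AlgebraicClosure (RatFunc K)) (psi (phi a G)) (r - 1) e1
        have e3 : ext (RatFunc K) (AlgebraicClosure (RatFunc K)) (N + 2 + 2)
            (psi (insr D (insr D (phi a G)))) =
            suspA D (ext (RatFunc K) (AlgebraicClosure (RatFunc K)) (N + 2) (psi (phi a G))) := by
          rw [psi_insr, psi_insr, sus_sus, ext_suspA]
        rw [e3]
        exact ih (r - 1) (by omega) _ (closure_equiv ε) _ ((psi_homog _ hG').map _) e2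

end Pool.Agent.HCR
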