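import Pool.Agent.HCR.A1
import Pool.Agent.HCR.C4a
import Pool.Agent.HCR.C4b

namespace Pool.Agent.HCR

open Pool.Agent.HCH Pool.Agent.HCF MvPolynomial

/-
PROOF. H.trans with mem_cases: SpP, or a, b with a ^ D + b ^ D = 1: AT.push for φ = mem a b (mem_surj, ker_mem), φ (suspA D g) = sus D g
(mem_suspA); the case SpP: N = 1, in Cy.
-/
theorem gen_special {K : Type} [Field K] [IsAlgClosed K] {m : ℕ} (D : ℕ) (hD : 1 ≤ D)
    (g : MvPolynomial (Fin m) K) (e : ℕ) (H : Gen K (suspA D g) e (MemP 0 1))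
    (H' : AT K (sus D g) e) : Gen K (suspA D g) e (SpP D 0 1) := by
  apply H.trans
  intro q hf hd hq
  rcases mem_cases D hD q hq with hS | ⟨a, b, hab, hl⟩
  · refine ⟨1, Nat.one_pos, ?_⟩
    rw [Nat.cast_one, one_smul]
    exact AddSubgroup.mem_sup_right (AddSubgroup.subset_closure ⟨q, hf, hd, hS, rfl⟩)
  · have h0 : a ≠ 0 ∨ b ≠ 0 := by
      by_contra hcon
      rw [not_or, not_not, not_not] at hcon
      rw [hcon.1, hcon.2, zero_pow (by omega), add_zero] at hab
      exact zero_ne_one hab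
    have he : mem a b (suspA D g) = sus D g := by
      rw [mem_suspA, hab, C_1, one_mul]
      rfl
    obtain ⟨N, hN, hz⟩ := AT.push (f := suspA D g) (mem a b) (mem_surj a b h0)
      (by rw [he]; exact H') q hf (by
        rw [ker_mem a b h0, Ideal.span_singleton_le_iff_mem]
        exact hl) hd
    exact ⟨N, hN, AddSubgroup.mem_sup_left hz⟩

end Pool.Agent.HCR
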