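import Pool.Agent.HCR.A2c
import Pool.Agent.HCR.E1d
import Pool.Agent.HCR.E1e
import Pool.Agent.HCR.E2e

namespace Pool.Agent.HCR

open Pool.Agent.HCH Pool.Agent.HCF MvPolynomial

theorem E2f_mem_range {K L : Type} [Field K] [IsAlgClosed K] [Field L] [Algebra K L] (D : ℕ)
    (hD : 1 ≤ D) (x : L) (hx : x ^ D = -1) : ∃ η : K, η ^ D = -1 ∧ algebraMap K L η = x := by
  have hint : IsIntegral K x := by
    refine ⟨Polynomial.X ^ D + Polynomial.C 1, Polynomial.monic_X_pow_add_C 1 (by omega), ?_⟩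
    simp [hx]
  have h1 : (minpoly K x).degree = 1 :=
    IsAlgClosed.degree_eq_one_of_irreducible K (minpoly.irreducible hint)
  obtain ⟨η, hη⟩ := minpoly.mem_range_of_degree_eq_one K x h1
  refine ⟨η, ?_, hη⟩
  apply (algebraMap K L).injective
  rw [map_pow, hη, hx, map_neg, map_one]

/-
PROOF. Over k̄ = AlgebraicClosure (RatFunc K) (closure_equiv): Fη = ext (psi F) : Fin (2 i + 2), SgLe 0 (sg_psi, sg_ext), gη = deh Fη = ext (lamR (deh F))
(deh_ext, deh_psi). hcrit k̄ (i + 1) (sus D Fη): Gen k̄ (suspA D (sus D gη)) (i + 2) (MemP 0 1) (deh_sus). AT k̄ (sus D (sus D gη)) (i + 2):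
hart_affine for suspA D Fη (alpha, N = 2 i + 2, r = 0), deh_suspA, sus_sus. gen_special (g := sus D gη). suspA D (sus D gη) = ext (sus³ (lamR (deh F))) (ext_sus), gen_descend,
and the roots of ε ^ D = -1 in k̄ lie in K: if X 0 - C ε * X 1 ∈ Q then ε = algebraMap ε₀ (K algebraically closed, e.g. exists_roots), so
the contraction contains X 0 - C ε₀ * X 1 (coefficients in K ⊂ RatFunc K).
-/
/-- The generic member of the pencil: generation by special cycles over `K(u)`. -/
theorem beta_generic (D : ℕ) (hD : 3 ≤ D) (i : ℕ) (hi : 1 ≤ i)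
    (halpha : ∀ N r, 2 * i + r + 1 ≤ N → ∀ (K : Type) [Field K], Nonempty (K ≃+* ℂ) →
      ∀ G : MvPolynomial (Fin N) K, G.IsHomogeneous D → SgLe G r → Hart (suspA D G) i)
    (hcrit : ∀ (K : Type) [Field K], Nonempty (K ≃+* ℂ) → GenCrit D K) {K : Type} [Field K]
    (ε : Nonempty (K ≃+* ℂ)) (F : MvPolynomial (Fin (2 * i + 3)) K) (hF : F.IsHomogeneous D)
    (hs : SgLe F 0) (hI : SgLe (rhoI F) 0) :
    Gen (RatFunc K) (suspA D (sus D (lamR K (2 * i + 1) (deh F)))) (i + 2)
      (fun q => ∃ η : K, η ^ D = -1 ∧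
        X 0 - C (algebraMap K (RatFunc K) η) * X 1 ∈ q.asIdeal) := by
  obtain ⟨e⟩ := ε
  have c0 : CharZero K := charZero_of_injective_ringHom (f := (e.symm : ℂ →+* K)) e.symm.injective
  have hac : IsAlgClosed K := IsAlgClosed.of_ringEquiv ℂ K e.symm
  have cR : CharZero (RatFunc K) := charZero_of_injective_algebraMap (algebraMap K _).injective
  set L := AlgebraicClosure (RatFunc K) with hL
  have εL : Nonempty (L ≃+* ℂ) := closure_equiv ⟨e⟩
  set Fe : MvPolynomial (Fin (2 * i + 2)) L := ext (RatFunc K) L (2 * i + 2) (psi F) with hFe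
  have hFeh : Fe.IsHomogeneous D := by
    rw [hFe]
    exact e6_ext_homog _ _ (psi_homog F hF)
  have hFes : SgLe Fe 0 := by
    rw [hFe]
    exact sg_ext (psi F) 0 (sg_psi (m := 2 * i) F hF (by omega) 0 hs hI)
  have hdeh : deh Fe = ext (RatFunc K) L (2 * i + 1) (lamR K (2 * i + 1) (deh F)) := by
    rw [hFe, deh_ext, deh_psi]
  have h1 : Gen L (suspA D (sus D (deh Fe))) (i + 2) (MemP 0 1) := by
    have := hcrit L εL (i + 1) (by omega) (sus D Fe) (sus_homog D Fe hFeh)
      (sg_sus D (by omega) Fe 0 hFes)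
    rw [deh_sus] at this
    exact this
  have h2 : AT L (sus D (sus D (deh Fe))) (i + 2) := by
    have h3 := hart_affine (suspA D Fe) (suspA_homog D Fe hFeh) i hi (by omega)
      (halpha (2 * i + 2) 0 (by omega) L εL Fe hFeh hFes)
    rw [deh_suspA, ← sus_sus] at h3
    have h4 : 2 * i + 2 - i = i + 2 := by omega
    rw [h4] at h3
    exact h3
  have h5 := gen_special D (by omega) (sus D (deh Fe)) (i + 2) h1 h2
  rw [hdeh, ← ext_sus, ← ext_suspA] at h5
  have h6 := gen_descend _ _ _ h5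
  refine h6.mono ?_
  rintro q - - ⟨Q, rfl, x, hx, hxQ⟩
  obtain ⟨η, hη, hηx⟩ := E2f_mem_range (K := K) D (by omega) x hx
  refine ⟨η, hη, ?_⟩
  change ext (RatFunc K) L (2 * i + 1 + 1 + 2) (X 0 - C (algebraMap K (RatFunc K) η) * X 1) ∈ Q.asIdeal
  have h7 : ext (RatFunc K) L (2 * i + 1 + 1 + 2) (X 0 - C (algebraMap K (RatFunc K) η) * X 1) =
      X 0 - C x * X 1 := by
    unfold HCH.ext
    rw [map_sub, map_mul, map_X, map_X, map_C, ← IsScalarTower.algebraMap_apply, hηx]
  rw [h7]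
  exact hxQ

end Pool.Agent.HCR
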