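import Pool.Agent.HCR.A2b
import Pool.Agent.HCR.E2b
import Pool.Agent.HCR.E2f

namespace Pool.Agent.HCR

open Pool.Agent.HCH Pool.Agent.HCF MvPolynomial

theorem E2g_val3 {n : ℕ} : (3 : Fin (n + 4)).val = 3 := by
  show 3 % (n + 4) = 3
  exact Nat.mod_eq_of_lt (by omega)

theorem E2g_clt {n : ℕ} (k : Fin (n + 4)) (hk : k.val < 3) :
    (Fin.cycleRange (3 : Fin (n + 4)) k).val = k.val + 1 := by
  have h : k < (3 : Fin (n + 4)) := by
    rw [Fin.lt_def, E2g_val3]
    exact hk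
  exact Fin.coe_cycleRange_of_lt h

theorem E2g_c3 {n : ℕ} : Fin.cycleRange (3 : Fin (n + 4)) (Fin.succ (Fin.succ (Fin.succ (0 : Fin (n + 1))))) = 0 := by
  apply Fin.cycleRange_of_eq
  apply Fin.ext
  rw [E2g_val3]
  rfl

theorem E2g_c4 {n : ℕ} (k : Fin n) :
    Fin.cycleRange (3 : Fin (n + 4)) k.succ.succ.succ.succ = k.succ.succ.succ.succ := by
  apply Fin.cycleRange_of_gt
  rw [Fin.lt_def, E2g_val3]
  simp only [Fin.val_succ]
  omega

theorem E2g_sA0 {n : ℕ} : (Fin.succAbove (1 : Fin (n + 2)) (0 : Fin (n + 1))) = 0 := by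
  rw [Fin.succAbove_of_castSucc_lt]
  · rfl
  · exact Fin.zero_lt_one

theorem E2g_sAs {n : ℕ} (k : Fin n) :
    (Fin.succAbove (1 : Fin (n + 2)) k.succ) = k.succ.succ := by
  apply Fin.succAbove_of_le_castSucc
  rw [Fin.le_def]
  show (1 : Fin (n + 2)).val ≤ k.val + 1
  rw [Fin.val_one]
  omega

theorem E2g_sA1 {n : ℕ} : (Fin.succAbove (1 : Fin (n + 3)) (1 : Fin (n + 2))) = Fin.succ (Fin.succ 0) :=
  E2g_sAs (n := n + 1) 0

/-- three new variables behind the first one -/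
theorem E2g_rename {K : Type} [Field K] {m : ℕ} (D : ℕ) (g : MvPolynomial (Fin (m + 1)) K) :
    rename (Fin.cycleRange (3 : Fin (m + 4))) (suspA D (sus D g)) = insr D (insr D (insr D g)) := by
  rw [← sus_sus]
  have h1 : (Fin.cycleRange (3 : Fin (m + 4)) ∘ Fin.succ ∘ Fin.succ ∘ Fin.succ : Fin (m + 1) → Fin (m + 4)) =
      (Fin.succAbove 1 ∘ Fin.succAbove 1 ∘ Fin.succAbove 1 : Fin (m + 1) → Fin (m + 4)) := by
    funext k
    simp only [Function.comp]
    refine Fin.cases ?_ (fun k => ?_) k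
    · rw [E2g_c3, E2g_sA0, E2g_sA0, E2g_sA0]
    · rw [E2g_c4, E2g_sAs, E2g_sAs, E2g_sAs]
  have hL : rename (Fin.cycleRange (3 : Fin (m + 4))) (sus D (sus D (sus D g))) =
      rename (Fin.cycleRange (3 : Fin (m + 4)) ∘ Fin.succ ∘ Fin.succ ∘ Fin.succ) g +
        X (Fin.cycleRange (3 : Fin (m + 4)) (Fin.succ (Fin.succ 0))) ^ D +
        X (Fin.cycleRange (3 : Fin (m + 4)) (Fin.succ 0)) ^ D + X (Fin.cycleRange (3 : Fin (m + 4)) 0) ^ D := by
    unfold sus
    simp only [map_add, map_pow, rename_X, rename_rename]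
  have hR : insr D (insr D (insr D g)) =
      rename (Fin.succAbove (1 : Fin (m + 4)) ∘ Fin.succAbove 1 ∘ Fin.succAbove 1) g +
        X (Fin.succAbove (1 : Fin (m + 4)) (Fin.succAbove 1 1)) ^ D +
        X (Fin.succAbove (1 : Fin (m + 4)) 1) ^ D + X 1 ^ D := by
    unfold insr
    simp only [map_add, map_pow, rename_X, rename_rename]
  have e1 : Fin.cycleRange (3 : Fin (m + 4)) (Fin.succ (Fin.succ 0)) = Fin.succAbove (1 : Fin (m + 4)) (Fin.succAbove 1 1) := by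
    rw [E2g_sA1, E2g_sAs]
    apply Fin.ext
    rw [E2g_clt _ (show (Fin.succ (Fin.succ (0 : Fin (m + 2)))).val < 3 from by
      rw [Fin.val_succ, Fin.val_succ, Fin.val_zero]; norm_num)]
    rfl
  have e2 : Fin.cycleRange (3 : Fin (m + 4)) (Fin.succ 0) = Fin.succAbove (1 : Fin (m + 4)) 1 := by
    rw [E2g_sA1]
    apply Fin.ext
    rw [E2g_clt _ (by simp)]
    rfl
  have e3 : Fin.cycleRange (3 : Fin (m + 4)) 0 = 1 := by
    apply Fin.ext
    rw [E2g_clt _ (by simp)]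
    rfl
  rw [hL, hR, h1, e1, e2, e3]

/-
PROOF. W = insr D (insr D (insr D F)) : Fin (2 i + 6), M = 2 i + 4, j = i + 1; deh W = insr³ (deh F) (deh_insr), lamR (deh W) = sus³ (lamR (deh F)) (lam_insr).
gen_of_generic for deh W, e = i + 3: hs: special_tors W .. t (i + 1): Hart (rhoT t W) i: rhoT t W = sus³ (rhoT t F) = suspA D (sus D (rhoT t F))
(rhoT_insr), halpha (2 i + 3) 1 (sg_rhoT, sg_sus). hg: beta_generic (sus_sus). So Gen K (deh W) (i + 3) (∃ η, X 1 - C η * X 2 ∈ P).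
Transport to suspA D (sus D (deh F)) = sus³ (deh F): deh W = rename σ (sus³ (deh F)), σ 0 = 1, σ 1 = 2, σ 2 = 3, σ 3 = 0 (insr_eq
three times, or on variables), Gen.equiv for renameEquiv σ.
-/
theorem beta (D : ℕ) (hD : 3 ≤ D) (i : ℕ) (hi : 1 ≤ i)
    (halpha : ∀ N r, 2 * i + r + 1 ≤ N → ∀ (K : Type) [Field K], Nonempty (K ≃+* ℂ) →
      ∀ G : MvPolynomial (Fin N) K, G.IsHomogeneous D → SgLe G r → Hart (suspA D G) i)
    (hcrit : ∀ (K : Type) [Field K], Nonempty (K ≃+* ℂ) → GenCrit D K) {K : Type} [Field K]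
    (ε : Nonempty (K ≃+* ℂ)) (F : MvPolynomial (Fin (2 * i + 3)) K) (hF : F.IsHomogeneous D)
    (hs : SgLe F 0) (hI : SgLe (rhoI F) 0) :
    Gen K (suspA D (sus D (deh F))) (i + 3) (SpP D 0 1) := by
  have c0 := charZero_of_equiv ε
  have ac := algClosed_of_equiv ε
  set W : MvPolynomial (Fin (2 * i + 4 + 2)) K := insr D (insr D (insr D F)) with hW
  have hWh : W.IsHomogeneous D := insr_homog D _ (insr_homog D _ (insr_homog D _ hF))
  have hWs : SgLe W 0 := sg_insr D (by omega) _ 0 (sg_insr D (by omega) _ 0 (sg_insr D (by omega) _ 0 hs))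
  obtain ⟨hp, hdm⟩ := prime_of_sg W hWh (by omega) 0 hWs (by omega)
  have hdm' : dm K (Ideal.span {W}) = (2 * i + 4) + 1 := by rw [hdm]; rfl
  have hdeh : deh W = insr D (insr D (insr D (deh F))) := by
    rw [hW, deh_insr, deh_insr, deh_insr]
  have hrho : ∀ t : K, rhoT t W = suspA D (sus D (rhoT t F)) := by
    intro t
    rw [hW, rhoT_insr, rhoT_insr, rhoT_insr, sus_sus]
  have hlam : lamR K (2 * i + 4) (deh W) = suspA D (sus D (lamR K (2 * i + 1) (deh F))) := by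
    rw [hdeh, lam_insr, lam_insr, lam_insr, sus_sus]
  have hgen : Gen K (deh W) (i + 3) (fun P => ∃ q, PrimeSpectrum.comap (lamR K (2 * i + 4)) q = P ∧
      ∃ η : K, η ^ D = -1 ∧ X 0 - C (algebraMap K (RatFunc K) η) * X 1 ∈ q.asIdeal) := by
    apply gen_of_generic (deh W) (i + 3) (by omega)
    · intro t p hp' ht hd'
      have hM : 2 * i + 4 - (i + 1) = i + 3 := by omega
      have h1 := special_tors W hWh hp hdm' t (i + 1) (by omega) (by omega) (by
        rw [Nat.add_sub_cancel, hrho t]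
        exact halpha (2 * i + 3) 1 (by omega) K ε _ (sus_homog D _ (rhoT_homog t F hF))
          (sg_sus D (by omega) _ 1 (sg_rhoT t F hF (by omega) 0 hs))) p hp' ht (by rw [hM]; exact hd')
      rw [hM] at h1
      exact h1
    · rw [hlam]
      exact beta_generic D hD i hi halpha hcrit ε F hF hs hI
  have hgen2 : Gen K (deh W) (i + 3) (fun P => ∃ η : K, η ^ D = -1 ∧ X 1 - C η * X 2 ∈ P.asIdeal) := by
    refine hgen.mono ?_
    rintro P - - ⟨q, rfl, η, hη, hq⟩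
    refine ⟨η, hη, ?_⟩
    rw [PrimeSpectrum.comap_asIdeal, Ideal.mem_comap]
    have h1 : lamR K (2 * i + 4) (X 1 - C η * X 2) = X 0 - C (algebraMap K (RatFunc K) η) * X 1 := by
      show lam (X 1 - C η * X 2) = _
      unfold lam
      rw [map_sub, map_mul, aeval_X, aeval_X, aeval_C]
      rfl
    rw [h1]
    exact hq
  set σ : Fin (2 * i + 1 + 4) ≃ Fin (2 * i + 1 + 4) := Fin.cycleRange (3 : Fin (2 * i + 1 + 4)) with hσ
  have hφ : renameEquiv K σ (suspA D (sus D (deh F))) = deh W := by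
    rw [hdeh]
    exact E2g_rename D (deh F)
  have hgen3 := Gen.equiv (f := suspA D (sus D (deh F))) (e := i + 3) (renameEquiv K σ)
    (S' := fun P => ∃ η : K, η ^ D = -1 ∧ X 1 - C η * X 2 ∈ P.asIdeal) (by rw [hφ]; exact hgen2)
  refine hgen3.mono ?_
  rintro P - - ⟨q, rfl, η, hη, hq⟩
  refine ⟨η, hη, ?_⟩
  rw [PrimeSpectrum.comap_asIdeal, Ideal.mem_comap]
  have e0 : σ 0 = 1 := by
    apply Fin.ext
    rw [hσ, E2g_clt _ (by simp)]
    rfl
  have e1 : σ 1 = 2 := by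
    apply Fin.ext
    rw [hσ, E2g_clt _ (by simp)]
    rfl
  have h1 : (((renameEquiv K σ : MvPolynomial (Fin (2 * i + 1 + 4)) K ≃ₐ[K] _) :
      MvPolynomial (Fin (2 * i + 1 + 4)) K →ₐ[K] MvPolynomial (Fin (2 * i + 1 + 4)) K) :
      MvPolynomial (Fin (2 * i + 1 + 4)) K →+* MvPolynomial (Fin (2 * i + 1 + 4)) K) (X 0 - C η * X 1) =
      X 1 - C η * X 2 := by
    show rename σ (X 0 - C η * X 1) = _
    rw [map_sub, map_mul, rename_X, rename_X, rename_C, e0, e1]
  rw [h1]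
  exact hq

end Pool.Agent.HCR
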