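import Pool.Agent.HCR.E2d
import Pool.Agent.HCR.E2g
import Pool.Agent.HCR.C5b

namespace Pool.Agent.HCR

open Pool.Agent.HCH Pool.Agent.HCF MvPolynomial

/-
PROOF. Strong induction on j = i. hlow: HCH.main with Cl = True (Closed trivially), crit for smaller codimensions. F: prime_of_sg, good_coord: a, F' = phi a F,
SgLe (rhoI F') 0; hart_phi. alpha gives halpha; beta: H3; hcrit ℂ (i + 2) (suspA D F') : Gen (suspA D (deh (suspA D F'))) (i + 3) (MemP 0 1), deh_suspA: H4.
core (m = 2 i + 2, e = i + 1): AT ℂ (deh F') (i + 1). hart_of_affine (M = 2 i + 1), Hart (rhoI F') (i - 1) by hlow (2 i) 0.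
-/
theorem crit_of_gen (D : ℕ) (hD : 3 ≤ D)
    (hcrit : ∀ (K : Type) [Field K], Nonempty (K ≃+* ℂ) → GenCrit D K) :
    ∀ j, 1 ≤ j → ∀ F : MvPolynomial (Fin (2 * j + 3)) ℂ, F.IsHomogeneous D → SgLe F 0 →
      Hart F j := by
  intro i
  induction i using Nat.strong_induction_on with
  | _ i ih =>
    intro hi F hF hs
    have ε : Nonempty (ℂ ≃+* ℂ) := ⟨RingEquiv.refl ℂ⟩
    have hlow : ∀ M r, 2 * (i - 1) + r + 1 ≤ M → ∀ (K : Type) [Field K], Nonempty (K ≃+* ℂ) →
        ∀ F : MvPolynomial (Fin (M + 2)) K, F.IsHomogeneous D → SgLe F r → Hart F (i - 1) := by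
      intro M r hM K _ hK F hF hs
      have hCl : Closed (fun (K : Type) [Field K] (m : ℕ) (_ : MvPolynomial (Fin m) K) => True) := by
        intro K L _ _ _ m m' ε Ψ _ _ F _
        trivial
      exact main hCl D (i - 1) (by omega) (fun j hj hji F _ hF hs => ih j (by omega) hj F hF hs)
        (i - 1) le_rfl M r hM K hK F trivial hF hs
    obtain ⟨hp, hdm⟩ := prime_of_sg F hF (by omega) 0 hs (by omega)
    obtain ⟨a, ha⟩ := good_coord (m := 2 * i + 2) F hF (by omega) hp hdm 0 hs
    apply hart_phi a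
    have hF' := phi_homog a F hF
    have h' := sg_phi a F 0 hs
    obtain ⟨hp', hdm'⟩ := prime_of_sg (phi a F) hF' (by omega) 0 h' (by omega)
    have hI : SgLe (rhoI (phi a F)) 0 := ha
    have halpha := alpha D (by omega) i hi hlow hcrit
    have H3 := beta D hD i hi halpha hcrit ε (phi a F) hF' h' hI
    have H4 : Gen ℂ (suspA D (suspA D (deh (phi a F)))) (i + 3) (MemP 0 1) := by
      have h1 := hcrit ℂ ε (i + 2) (by omega) (suspA D (phi a F)) (suspA_homog D _ hF')
        (sg_suspA D (by omega) _ 0 h')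
      rw [← deh_suspA]
      exact h1
    have hAT : AT ℂ (deh (phi a F)) (i + 1) := core D hD (deh (phi a F)) (i + 1) (by omega) H4 H3
    refine hart_of_affine (M := 2 * i + 1) (phi a F) hF' hp' hdm' i hi (by omega) ?_ ?_
    · exact hlow (2 * i) 0 (by omega) ℂ ε _ (rhoI_homog _ hF') hI
    · have h2 : 2 * i + 1 - i = i + 1 := by omega
      rw [h2]
      exact hAT

end Pool.Agent.HCR
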