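import Pool.Agent.HCR.A2d
import Pool.Agent.HCR.C3a

namespace Pool.Agent.HCR

open Pool.Agent.HCH Pool.Agent.HCF MvPolynomial

/-
PROOF. F over K, F^ε over ℂ (homogeneous, sg_field): Gen ℂ (suspA D (deh F^ε)) .. and suspA D (deh F^ε) = map ε (suspA D (deh F)) (on variables). gen_semi
and MemP 0 1 pulls back (s, t ∈ K with ε s, ε t).
-/
theorem genCrit_equiv (D : ℕ) {K : Type} [Field K] (ε : K ≃+* ℂ) (h : GenCrit D ℂ) :
    GenCrit D K := by
  intro j hj F hF hS
  have h1 := h j hj (MvPolynomial.map (ε : K →+* ℂ) F) (hF.map _) (sg_field ε F 0 hS)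
  have h2 : suspA D (deh (MvPolynomial.map (ε : K →+* ℂ) F)) =
      MvPolynomial.map (ε : K →+* ℂ) (suspA D (deh F)) := by
    let _ : Algebra K ℂ := (ε : K →+* ℂ).toAlgebra
    have h3 : deh (MvPolynomial.map (ε : K →+* ℂ) F) =
        MvPolynomial.map (ε : K →+* ℂ) (deh F) := deh_ext (k := K) (E := ℂ) F
    rw [h3]
    unfold suspA
    rw [map_add, map_add, map_pow, map_pow, map_X, map_X, map_rename]
  rw [h2] at h1
  refine (gen_semi ε _ _ _ h1).mono ?_
  rintro q - - ⟨Q, rfl, s, t, hst, hmem⟩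
  refine ⟨ε.symm s, ε.symm t, ?_, ?_⟩
  · rcases hst with hs | ht
    · left
      exact (map_ne_zero ε.symm).mpr hs
    · right
      exact (map_ne_zero ε.symm).mpr ht
  · change MvPolynomial.map (ε : K →+* ℂ) (C (ε.symm s) * X 0 - C (ε.symm t) * X 1) ∈ Q.asIdeal
    have h4 : MvPolynomial.map (ε : K →+* ℂ)
        (C (ε.symm s) * X 0 - C (ε.symm t) * X 1 : MvPolynomial (Fin (2 * j + 2)) K) =
        C s * X 0 - C t * X 1 := by
      rw [map_sub, map_mul, map_mul, map_C, map_C, map_X, map_X]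
      have h5 : (ε : K →+* ℂ) (ε.symm s) = s := ε.apply_symm_apply s
      have h6 : (ε : K →+* ℂ) (ε.symm t) = t := ε.apply_symm_apply t
      rw [h5, h6]
    rw [h4]
    exact hmem

end Pool.Agent.HCR
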