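import Pool.Agent.HCR.Defs

namespace Pool.Agent.HCR

open Pool.Agent.HCH Pool.Agent.HCF MvPolynomial

/-- `X 0 ↦ X 0 * X 1`. -/
noncomputable def sgm (K : Type) [Field K] (m : ℕ) :
    MvPolynomial (Fin (m + 2)) K →ₐ[K] MvPolynomial (Fin (m + 2)) K :=
  aeval (Fin.cons (α := fun _ => MvPolynomial (Fin (m + 2)) K) (X 0 * X 1) (fun k => X k.succ))

/-- `X 0 ↦ t X 0`, `X 1 ↦ X 0`, `X (k + 2) ↦ X (k + 1)`. -/
noncomputable def theta (K : Type) [Field K] (m : ℕ) :
    MvPolynomial (Fin (m + 2)) K →+* MvPolynomial (Fin (m + 1)) (RatFunc K) :=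
  (lamR K (m + 1)).comp (sgm K m : MvPolynomial (Fin (m + 2)) K →+* MvPolynomial (Fin (m + 2)) K)

theorem T1a_sgm_zero (K : Type) [Field K] (m : ℕ) : sgm K m (X 0) = X 0 * X 1 := by
  unfold sgm
  rw [aeval_X, Fin.cons_zero]

theorem T1a_sgm_succ (K : Type) [Field K] (m : ℕ) (k : Fin (m + 1)) :
    sgm K m (X k.succ) = X k.succ := by
  unfold sgm
  rw [aeval_X, Fin.cons_succ]

theorem T1a_lam_zero (K : Type) [Field K] (m : ℕ) :
    lamR K m (X 0) = C (RatFunc.X : RatFunc K) := by
  change lam (X 0 : MvPolynomial (Fin (m + 1)) K) = C (RatFunc.X : RatFunc K)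
  unfold lam
  rw [aeval_X, Fin.cons_zero]

theorem T1a_lam_succ (K : Type) [Field K] (m : ℕ) (k : Fin m) :
    lamR K m (X k.succ) = X k := by
  change lam (X k.succ : MvPolynomial (Fin (m + 1)) K) = X k
  unfold lam
  rw [aeval_X, Fin.cons_succ]

theorem T1a_theta_zero (K : Type) [Field K] (m : ℕ) :
    theta K m (X 0) = C (RatFunc.X : RatFunc K) * X 0 := by
  have h1 : (1 : Fin (m + 2)) = (0 : Fin (m + 1)).succ := rfl
  change lamR K (m + 1) (sgm K m (X 0)) = _
  rw [T1a_sgm_zero, map_mul, T1a_lam_zero, h1, T1a_lam_succ]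

theorem T1a_theta_one (K : Type) [Field K] (m : ℕ) : theta K m (X 1) = X 0 := by
  have h1 : (1 : Fin (m + 2)) = (0 : Fin (m + 1)).succ := rfl
  change lamR K (m + 1) (sgm K m (X 1)) = _
  rw [h1, T1a_sgm_succ, T1a_lam_succ]

theorem T1a_theta_succ (K : Type) [Field K] (m : ℕ) (k : Fin (m + 1)) :
    theta K m (X k.succ) = X k := by
  change lamR K (m + 1) (sgm K m (X k.succ)) = _
  rw [T1a_sgm_succ, T1a_lam_succ]

theorem T1a_theta_C (K : Type) [Field K] (m : ℕ) (a : K) :
    theta K m (C a) = C (algebraMap K (RatFunc K) a) := by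
  change lam (sgm K m (C a)) = _
  have h1 : sgm K m (C a) = C a := (sgm K m).commutes a
  rw [h1]
  exact (lam : MvPolynomial (Fin (m + 2)) K →ₐ[K] MvPolynomial (Fin (m + 1)) (RatFunc K)).commutes a

theorem T1a_theta_rename {K : Type} [Field K] {m : ℕ} (f : MvPolynomial (Fin m) K) :
    theta K m (rename (Fin.succ ∘ Fin.succ) f) = rename Fin.succ (ext K (RatFunc K) m f) := by
  have h : (theta K m).comp
      (rename (Fin.succ ∘ Fin.succ) : MvPolynomial (Fin m) K →ₐ[K]
        MvPolynomial (Fin (m + 2)) K).toRingHom =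
      (rename Fin.succ : MvPolynomial (Fin m) (RatFunc K) →ₐ[RatFunc K]
        MvPolynomial (Fin (m + 1)) (RatFunc K)).toRingHom.comp (ext K (RatFunc K) m) := by
    apply MvPolynomial.ringHom_ext
    · intro a
      change theta K m (rename (Fin.succ ∘ Fin.succ) (C a)) =
        rename Fin.succ (MvPolynomial.map (algebraMap K (RatFunc K)) (C a))
      rw [rename_C, T1a_theta_C, map_C, rename_C]
    · intro i
      change theta K m (rename (Fin.succ ∘ Fin.succ) (X i)) =
        rename Fin.succ (MvPolynomial.map (algebraMap K (RatFunc K)) (X i))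
      rw [rename_X, Function.comp_apply, T1a_theta_succ, map_X, rename_X]
  exact DFunLike.congr_fun h f

/-
PROOF. On variables.
-/
theorem theta_suspA {K : Type} [Field K] {m : ℕ} (D : ℕ) (f : MvPolynomial (Fin m) K) :
    theta K m (suspA D f) = tw D f := by
  unfold suspA tw
  rw [map_add, map_add, map_pow, map_pow, T1a_theta_rename, T1a_theta_zero, T1a_theta_one, map_add,
    map_one, map_pow]
  ring

/-
PROOF. As e4_alg (HCH/E4), with X 1 instead of the last variable.
-/
theorem dm_sgm {K : Type} [Field K] {m : ℕ} (P : PrimeSpectrum (MvPolynomial (Fin (m + 2)) K))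
    (h : X 1 ∉ P.asIdeal) :
    dm K (PrimeSpectrum.comap
      (sgm K m : MvPolynomial (Fin (m + 2)) K →+* MvPolynomial (Fin (m + 2)) K) P).asIdeal =
      dm K P.asIdeal := by
  have hPp := P.isPrime
  have hP' : (P.asIdeal.comap (sgm K m)).IsPrime := Ideal.comap_isPrime _ _
  let φ : (MvPolynomial (Fin (m + 2)) K ⧸ P.asIdeal.comap (sgm K m)) →ₐ[K]
      (MvPolynomial (Fin (m + 2)) K ⧸ P.asIdeal) := Ideal.quotientMapₐ P.asIdeal (sgm K m) le_rfl
  have hφ : ∀ p, φ (Ideal.Quotient.mk _ p) = Ideal.Quotient.mk P.asIdeal (sgm K m p) :=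
    fun _ => rfl
  have hinj : Function.Injective φ := by
    rw [injective_iff_map_eq_zero]
    intro a
    obtain ⟨p, rfl⟩ := Ideal.Quotient.mk_surjective a
    rw [hφ, Ideal.Quotient.eq_zero_iff_mem, Ideal.Quotient.eq_zero_iff_mem]
    exact id
  let _ : Algebra (MvPolynomial (Fin (m + 2)) K ⧸ P.asIdeal.comap (sgm K m))
    (MvPolynomial (Fin (m + 2)) K ⧸ P.asIdeal) := φ.toRingHom.toAlgebra
  have halg : ∀ a, algebraMap (MvPolynomial (Fin (m + 2)) K ⧸ P.asIdeal.comap (sgm K m))
      (MvPolynomial (Fin (m + 2)) K ⧸ P.asIdeal) a = φ a := fun _ => rfl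
  have : IsScalarTower K (MvPolynomial (Fin (m + 2)) K ⧸ P.asIdeal.comap (sgm K m))
      (MvPolynomial (Fin (m + 2)) K ⧸ P.asIdeal) :=
    IsScalarTower.of_algebraMap_eq fun x => (φ.commutes x).symm
  have : FaithfulSMul (MvPolynomial (Fin (m + 2)) K ⧸ P.asIdeal.comap (sgm K m))
      (MvPolynomial (Fin (m + 2)) K ⧸ P.asIdeal) :=
    (faithfulSMul_iff_algebraMap_injective _ _).2 hinj
  have hfK : @FaithfulSMul K (MvPolynomial (Fin (m + 2)) K ⧸ P.asIdeal.comap (sgm K m))
      Algebra.toSMul :=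
    (faithfulSMul_iff_algebraMap_injective _ _).2 (RingHom.injective _)
  have hX : ∀ k : Fin (m + 1), IsAlgebraic
      (MvPolynomial (Fin (m + 2)) K ⧸ P.asIdeal.comap (sgm K m))
      (Ideal.Quotient.mk P.asIdeal (X k.succ)) := by
    intro k
    have h1 : Ideal.Quotient.mk P.asIdeal (X k.succ) =
        algebraMap (MvPolynomial (Fin (m + 2)) K ⧸ P.asIdeal.comap (sgm K m)) _
          (Ideal.Quotient.mk _ (X k.succ)) := by
      rw [halg, hφ, T1a_sgm_succ]
    rw [h1]
    exact isAlgebraic_algebraMap _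
  have hone : (1 : Fin (m + 2)) = (0 : Fin (m + 1)).succ := rfl
  have hX0 : IsAlgebraic (MvPolynomial (Fin (m + 2)) K ⧸ P.asIdeal.comap (sgm K m))
      (Ideal.Quotient.mk P.asIdeal (X 0)) := by
    refine ⟨Polynomial.C (Ideal.Quotient.mk _ (X 1)) * Polynomial.X -
      Polynomial.C (Ideal.Quotient.mk _ (X 0)), ?_, ?_⟩
    · intro h0
      have h1 := congrArg (fun q => Polynomial.coeff q 1) h0
      simp only [Polynomial.coeff_sub, Polynomial.coeff_C_mul, Polynomial.coeff_X_one, mul_one,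
        Polynomial.coeff_C_succ, sub_zero, Polynomial.coeff_zero] at h1
      rw [Ideal.Quotient.eq_zero_iff_mem, Ideal.mem_comap, hone, T1a_sgm_succ] at h1
      exact h h1
    · rw [map_sub, map_mul, Polynomial.aeval_C, Polynomial.aeval_C, Polynomial.aeval_X, halg, halg,
        hφ, hφ, T1a_sgm_zero, hone, T1a_sgm_succ, ← map_mul, ← map_sub, mul_comm, sub_self,
        map_zero]
  have : Algebra.IsAlgebraic (MvPolynomial (Fin (m + 2)) K ⧸ P.asIdeal.comap (sgm K m))
      (MvPolynomial (Fin (m + 2)) K ⧸ P.asIdeal) := by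
    constructor
    intro a
    obtain ⟨p, rfl⟩ := Ideal.Quotient.mk_surjective a
    induction p using MvPolynomial.induction_on with
    | C c =>
      have h1 : Ideal.Quotient.mk P.asIdeal (C c) =
          algebraMap (MvPolynomial (Fin (m + 2)) K ⧸ P.asIdeal.comap (sgm K m)) _
            (Ideal.Quotient.mk _ (C c)) := by
        rw [halg, hφ]
        congr 1
        exact ((sgm K m).commutes c).symm
      rw [h1]
      exact isAlgebraic_algebraMap _
    | add p q hp hq =>
      rw [map_add]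
      exact hp.add hq
    | mul_X p i hp =>
      rw [map_mul]
      refine hp.mul ?_
      refine Fin.cases ?_ ?_ i
      · exact hX0
      · exact hX
  have h1 := _root_.trdeg_add_eq K (MvPolynomial (Fin (m + 2)) K ⧸ P.asIdeal.comap (sgm K m))
    (A := MvPolynomial (Fin (m + 2)) K ⧸ P.asIdeal)
  rw [_root_.trdeg_eq_zero (R := MvPolynomial (Fin (m + 2)) K ⧸ P.asIdeal.comap (sgm K m)),
    add_zero] at h1
  change Cardinal.toNat (Algebra.trdeg K (MvPolynomial (Fin (m + 2)) K ⧸
    P.asIdeal.comap (sgm K m))) = Cardinal.toNat (Algebra.trdeg K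
      (MvPolynomial (Fin (m + 2)) K ⧸ P.asIdeal))
  rw [h1]

end Pool.Agent.HCR
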