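import Pool.Agent.HCR.T1a

namespace Pool.Agent.HCR

open Pool.Agent.HCH Pool.Agent.HCF MvPolynomial

theorem T1b_X1 {K : Type} [Field K] {m : ℕ} : sgm K m (X 1) = X 1 := by
  have h : (1 : Fin (m + 2)) = Fin.succ 0 := rfl
  rw [sgm, aeval_X, h, Fin.cons_succ]

theorem T1b_X0 {K : Type} [Field K] {m : ℕ} : sgm K m (X 0) = X 0 * X 1 := by
  rw [sgm, aeval_X, Fin.cons_zero]

theorem T1b_Xs {K : Type} [Field K] {m : ℕ} (k : Fin (m + 1)) :
    sgm K m (X k.succ) = X k.succ := by
  rw [sgm, aeval_X, Fin.cons_succ]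

/-
PROOF. For every r there are n and r' with X 1 ^ n * r = sgm r' (on monomials: X 0 ^ a x^b ↦ n = a). Hence sgm becomes an isomorphism after inverting
X 1: for Q := comap sgm P with X 1 ∉ P, Q determines P (r ∈ P iff r' ∈ Q), and every prime Q ∌ X 1 is comap sgm of the prime
{r | r' ∈ Q}.
-/
theorem sgm_lift {K : Type} [Field K] {m : ℕ} (r : MvPolynomial (Fin (m + 2)) K) :
    ∃ (n : ℕ) (r' : MvPolynomial (Fin (m + 2)) K), sgm K m r' = X 1 ^ n * r := by
  induction r using MvPolynomial.induction_on with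
  | C a =>
    refine ⟨0, C a, ?_⟩
    rw [pow_zero, one_mul]
    exact (sgm K m).commutes a
  | add p q hp hq =>
    obtain ⟨n, p', hp⟩ := hp
    obtain ⟨k, q', hq⟩ := hq
    refine ⟨n + k, X 1 ^ k * p' + X 1 ^ n * q', ?_⟩
    rw [map_add, map_mul, map_mul, map_pow, map_pow, T1b_X1, hp, hq]
    ring
  | mul_X p i hp =>
    obtain ⟨n, p', hp⟩ := hp
    induction i using Fin.cases with
    | zero =>
      refine ⟨n + 1, p' * X 0, ?_⟩
      rw [map_mul, T1b_X0, hp]
      ring
    | succ i =>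
      refine ⟨n, p' * X i.succ, ?_⟩
      rw [map_mul, T1b_Xs, hp]
      ring

theorem sgm_inj {K : Type} [Field K] {m : ℕ} (P P' : PrimeSpectrum (MvPolynomial (Fin (m + 2)) K))
    (h : X 1 ∉ P.asIdeal) (h' : X 1 ∉ P'.asIdeal)
    (he : PrimeSpectrum.comap
      (sgm K m : MvPolynomial (Fin (m + 2)) K →+* MvPolynomial (Fin (m + 2)) K) P =
      PrimeSpectrum.comap
      (sgm K m : MvPolynomial (Fin (m + 2)) K →+* MvPolynomial (Fin (m + 2)) K) P') : P = P' := by
  have key : ∀ (P : PrimeSpectrum (MvPolynomial (Fin (m + 2)) K)), X 1 ∉ P.asIdeal →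
      ∀ (r r' : MvPolynomial (Fin (m + 2)) K) (n : ℕ), sgm K m r' = X 1 ^ n * r →
        (r ∈ P.asIdeal ↔ r' ∈ (PrimeSpectrum.comap
          (sgm K m : MvPolynomial (Fin (m + 2)) K →+* MvPolynomial (Fin (m + 2)) K) P).asIdeal) := by
    intro P hP r r' n hr
    change _ ↔ sgm K m r' ∈ P.asIdeal
    rw [hr]
    constructor
    · exact fun h => P.asIdeal.mul_mem_left _ h
    · intro h
      rcases P.isPrime.mem_or_mem h with h1 | h1
      · exact absurd (P.isPrime.mem_of_pow_mem n h1) hP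
      · exact h1
  apply PrimeSpectrum.ext
  ext r
  obtain ⟨n, r', hr⟩ := sgm_lift r
  rw [key P h r r' n hr, key P' h' r r' n hr, he]

theorem sgm_surj {K : Type} [Field K] {m : ℕ} (Q : PrimeSpectrum (MvPolynomial (Fin (m + 2)) K))
    (h : X 1 ∉ Q.asIdeal) : ∃ P : PrimeSpectrum (MvPolynomial (Fin (m + 2)) K), X 1 ∉ P.asIdeal ∧
      PrimeSpectrum.comap
      (sgm K m : MvPolynomial (Fin (m + 2)) K →+* MvPolynomial (Fin (m + 2)) K) P = Q := by
  have hQ := Q.isPrime
  let F := FractionRing (MvPolynomial (Fin (m + 2)) K ⧸ Q.asIdeal)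
  let can : MvPolynomial (Fin (m + 2)) K →+* F :=
    (algebraMap (MvPolynomial (Fin (m + 2)) K ⧸ Q.asIdeal) F).comp (Ideal.Quotient.mk Q.asIdeal)
  have hcan : ∀ r, can r = 0 ↔ r ∈ Q.asIdeal := by
    intro r
    constructor
    · intro h0
      have h1 : Ideal.Quotient.mk Q.asIdeal r = 0 :=
        (IsFractionRing.injective (MvPolynomial (Fin (m + 2)) K ⧸ Q.asIdeal) F)
          (h0.trans (map_zero _).symm)
      exact Ideal.Quotient.eq_zero_iff_mem.mp h1
    · intro h0
      have h1 : Ideal.Quotient.mk Q.asIdeal r = 0 := Ideal.Quotient.eq_zero_iff_mem.mpr h0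
      change algebraMap (MvPolynomial (Fin (m + 2)) K ⧸ Q.asIdeal) F
        (Ideal.Quotient.mk Q.asIdeal r) = 0
      rw [h1, map_zero]
  have hx1 : can (X 1) ≠ 0 := fun h0 => h ((hcan _).mp h0)
  let τ : MvPolynomial (Fin (m + 2)) K →+* F := MvPolynomial.eval₂Hom (can.comp C)
    (Fin.cons (α := fun _ => F) (can (X 0) / can (X 1)) (fun k => can (X k.succ)))
  have hτ1 : τ (X 1) = can (X 1) := by
    have h1 : (1 : Fin (m + 2)) = Fin.succ 0 := rfl
    change MvPolynomial.eval₂Hom _ _ (X 1) = _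
    rw [MvPolynomial.eval₂Hom_X', h1, Fin.cons_succ]
  have hτ : τ.comp (sgm K m : MvPolynomial (Fin (m + 2)) K →+* MvPolynomial (Fin (m + 2)) K) =
      can := by
    apply MvPolynomial.ringHom_ext
    · intro a
      have h1 : sgm K m (C a) = C a := (sgm K m).commutes a
      change τ (sgm K m (C a)) = _
      rw [h1]
      change MvPolynomial.eval₂Hom _ _ (C a) = _
      rw [MvPolynomial.eval₂Hom_C]
      rfl
    · intro i
      change τ (sgm K m (X i)) = _
      induction i using Fin.cases with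
      | zero =>
        rw [T1b_X0, map_mul, hτ1]
        have h1 : τ (X 0) = can (X 0) / can (X 1) := by
          change MvPolynomial.eval₂Hom _ _ (X 0) = _
          rw [MvPolynomial.eval₂Hom_X', Fin.cons_zero]
        rw [h1, div_mul_cancel₀ _ hx1]
      | succ i =>
        rw [T1b_Xs]
        change MvPolynomial.eval₂Hom _ _ (X i.succ) = _
        rw [MvPolynomial.eval₂Hom_X', Fin.cons_succ]
  have hbot : (⊥ : Ideal F).IsPrime := Ideal.isPrime_bot
  refine ⟨PrimeSpectrum.comap τ ⟨⊥, hbot⟩, ?_, ?_⟩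
  · intro h0
    have h1 : τ (X 1) ∈ (⊥ : Ideal F) := h0
    rw [Ideal.mem_bot, hτ1] at h1
    exact hx1 h1
  · apply PrimeSpectrum.ext
    ext r
    change τ (sgm K m r) ∈ (⊥ : Ideal F) ↔ r ∈ Q.asIdeal
    rw [Ideal.mem_bot, ← hcan r, ← hτ]
    rfl

end Pool.Agent.HCR
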