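import Pool.Agent.HCR.T1b
import Pool.Agent.HCF.S2b

namespace Pool.Agent.HCR

open Pool.Agent.HCH Pool.Agent.HCF MvPolynomial

theorem T1c_loc {B L : Type} [CommRing B] [CommRing L] (M : Submonoid B) (φ : B →+* L)
    (h1 : ∀ y : M, IsUnit (φ y)) (h2 : ∀ z : L, ∃ x : B × M, z * φ x.2 = φ x.1)
    (h3 : ∀ {x y : B}, φ x = φ y → ∃ c : M, c * x = c * y) (q : PrimeSpectrum L) (J : Ideal B) :
    mlt (J.map φ) q = mlt J (PrimeSpectrum.comap φ q) := by
  let _ : Algebra B L := φ.toAlgebra
  have : IsLocalization M L := (isLocalization_iff M L).2 ⟨h1, h2, h3⟩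
  exact s2b_loc M q J

theorem T1c_sgm_one {K : Type} [Field K] {m : ℕ} :
    sgm K m (X 1) = X 1 := by
  have h : (1 : Fin (m + 2)) = Fin.succ 0 := rfl
  rw [sgm, aeval_X, h, Fin.cons_succ]

theorem T1c_X_ne {K : Type} [Field K] {m : ℕ} : (X 1 : MvPolynomial (Fin (m + 2)) K) ≠ 0 :=
  MvPolynomial.X_ne_zero 1

theorem T1c_inj {K : Type} [Field K] {m : ℕ} {a b : MvPolynomial (Fin (m + 2)) K}
    (h : sgm K m a = sgm K m b) : a = b := by
  set F := FractionRing (MvPolynomial (Fin (m + 2)) K)
  set al : MvPolynomial (Fin (m + 2)) K →+* F := algebraMap _ F with hal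
  have hinj : Function.Injective al := IsFractionRing.injective _ F
  have hx : al (X 1) ≠ 0 := by
    intro h0
    exact T1c_X_ne (hinj (by rw [h0, map_zero]))
  let ta : MvPolynomial (Fin (m + 2)) K →+* F :=
    eval₂Hom (al.comp C) (Fin.cons (α := fun _ => F) (al (X 0) / al (X 1)) (fun k => al (X k.succ)))
  have key : ta.comp (sgm K m : MvPolynomial (Fin (m + 2)) K →+* MvPolynomial (Fin (m + 2)) K) = al := by
    apply MvPolynomial.ringHom_ext
    · intro c
      have h1 : (sgm K m : MvPolynomial (Fin (m + 2)) K →+* MvPolynomial (Fin (m + 2)) K) (C c) = C c := by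
        change sgm K m (C c) = C c
        exact (sgm K m).commutes c
      rw [RingHom.comp_apply, h1]
      change eval₂Hom (al.comp C) _ (C c) = al (C c)
      rw [eval₂Hom_C]
      rfl
    · intro i
      rw [RingHom.comp_apply]
      refine Fin.cases ?_ (fun k => ?_) i
      · have h1 : (sgm K m : MvPolynomial (Fin (m + 2)) K →+* MvPolynomial (Fin (m + 2)) K) (X 0) = X 0 * X 1 := by
          change sgm K m (X 0) = X 0 * X 1
          rw [sgm, aeval_X, Fin.cons_zero]
        have h2 : (1 : Fin (m + 2)) = Fin.succ 0 := rfl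
        rw [h1, map_mul]
        change eval₂Hom (al.comp C) _ (X 0) * eval₂Hom (al.comp C) _ (X 1) = al (X 0)
        rw [eval₂Hom_X', eval₂Hom_X', Fin.cons_zero, h2, Fin.cons_succ]
        exact div_mul_cancel₀ _ (by rw [← h2]; exact hx)
      · have h1 : (sgm K m : MvPolynomial (Fin (m + 2)) K →+* MvPolynomial (Fin (m + 2)) K) (X k.succ) =
            X k.succ := by
          change sgm K m (X k.succ) = X k.succ
          rw [sgm, aeval_X, Fin.cons_succ]
        rw [h1]
        change eval₂Hom (al.comp C) _ (X k.succ) = al (X k.succ)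
        rw [eval₂Hom_X', Fin.cons_succ]
  have h1 : ta (sgm K m a) = al a := by
    have := congrArg (fun f => f a) key
    exact this
  have h2 : ta (sgm K m b) = al b := by
    have := congrArg (fun f => f b) key
    exact this
  apply hinj
  rw [← h1, ← h2, h]

/-
PROOF. Both localisations at the powers of X 1 are the same ring L = Localization.Away (X 1) of MvPolynomial: through algebraMap and through
algebraMap ∘ sgm (IsLocalization of the powers of X 1: sgm (X 1) = X 1 is a unit, surjectivity from sgm_lift, injectivity: sgm is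
injective). s2b_loc (HCF/S2b) twice: mlt (J.map sgm.map ..) at the prime of L over P equals mlt J' P and mlt J (comap sgm P), for
J' = W ⊔ span {sgm g'}, J = comap sgm W ⊔ span {g'}: their images in L agree (W is the saturation).
-/
theorem mlt_sgm {K : Type} [Field K] {m : ℕ} (W P : PrimeSpectrum (MvPolynomial (Fin (m + 2)) K))
    (hW : X 1 ∉ W.asIdeal) (hP : X 1 ∉ P.asIdeal) (g : MvPolynomial (Fin (m + 2)) K) :
    mlt ((PrimeSpectrum.comap
      (sgm K m : MvPolynomial (Fin (m + 2)) K →+* MvPolynomial (Fin (m + 2)) K) W).asIdeal ⊔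
        Ideal.span {g}) (PrimeSpectrum.comap
      (sgm K m : MvPolynomial (Fin (m + 2)) K →+* MvPolynomial (Fin (m + 2)) K) P) =
      mlt (W.asIdeal ⊔ Ideal.span {sgm K m g}) P := by
  have _ := hW
  let sg : MvPolynomial (Fin (m + 2)) K →+* MvPolynomial (Fin (m + 2)) K :=
    (sgm K m : MvPolynomial (Fin (m + 2)) K →+* MvPolynomial (Fin (m + 2)) K)
  change mlt ((PrimeSpectrum.comap sg W).asIdeal ⊔ Ideal.span {g}) (PrimeSpectrum.comap sg P) = _
  have hsga : ∀ r, sg r = sgm K m r := fun r => rfl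
  clear_value sg
  let M : Submonoid (MvPolynomial (Fin (m + 2)) K) := Submonoid.powers (X 1)
  let al : MvPolynomial (Fin (m + 2)) K →+* Localization M := algebraMap _ _
  have hunit : IsUnit (al (X 1)) :=
    IsLocalization.map_units (Localization M) (⟨X 1, Submonoid.mem_powers _⟩ : M)
  have hdisj : Disjoint (M : Set (MvPolynomial (Fin (m + 2)) K)) (P.asIdeal : Set _) := by
    rw [Set.disjoint_left]
    rintro _ ⟨n, rfl⟩ hmem
    exact hP (P.isPrime.mem_of_pow_mem n hmem)
  let q : PrimeSpectrum (Localization M) :=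
    ⟨P.asIdeal.map al, IsLocalization.isPrime_of_isPrime_disjoint M (Localization M) _ P.isPrime hdisj⟩
  have hqP : PrimeSpectrum.comap al q = P := by
    apply PrimeSpectrum.ext
    exact IsLocalization.under_map_of_isPrime_disjoint M (Localization M) P.isPrime hdisj
  have h1 : mlt ((W.asIdeal ⊔ Ideal.span {sgm K m g}).map al) q =
      mlt (W.asIdeal ⊔ Ideal.span {sgm K m g}) (PrimeSpectrum.comap al q) :=
    s2b_loc M q (W.asIdeal ⊔ Ideal.span {sgm K m g})
  have h2 := T1c_loc M (al.comp sg) (by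
      rintro ⟨y, n, rfl⟩
      change IsUnit (al (sg (X 1 ^ n)))
      rw [map_pow, map_pow, hsga, T1c_sgm_one]
      exact hunit.pow n) (by
      intro z
      obtain ⟨⟨r, ⟨s, k, rfl⟩⟩, hz⟩ := IsLocalization.surj M z
      obtain ⟨n, r', hr'⟩ := sgm_lift r
      refine ⟨⟨r', ⟨X 1 ^ (n + k), n + k, rfl⟩⟩, ?_⟩
      change z * al (sg (X 1 ^ (n + k))) = al (sg r')
      have hz' : z * al (X 1 ^ k) = al r := hz
      rw [map_pow, hsga, hsga, T1c_sgm_one, hr', map_mul, ← hz', pow_add, map_mul]
      ring) (by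
      intro a b hab
      have hab' : al (sg a) = al (sg b) := hab
      obtain ⟨⟨c, n, rfl⟩, hc⟩ := (IsLocalization.eq_iff_exists M (Localization M)).1 hab'
      refine ⟨⟨X 1 ^ n, n, rfl⟩, ?_⟩
      have hc' : X 1 ^ n * sg a = X 1 ^ n * sg b := hc
      change X 1 ^ n * a = X 1 ^ n * b
      apply T1c_inj
      rw [map_mul, map_mul, map_pow, T1c_sgm_one]
      rw [hsga, hsga] at hc'
      exact hc') q ((PrimeSpectrum.comap sg W).asIdeal ⊔ Ideal.span {g})
  have h3 : PrimeSpectrum.comap (al.comp sg) q = PrimeSpectrum.comap sg P := by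
    rw [← hqP]
    rfl
  rw [h3] at h2
  rw [hqP] at h1
  rw [← h2, ← h1]
  congr 1
  rw [Ideal.map_sup, Ideal.map_sup, Ideal.map_span, Ideal.map_span, Set.image_singleton, Set.image_singleton]
  have h7 : (al.comp sg) g = al (sgm K m g) := by
    rw [RingHom.comp_apply, hsga]
  rw [h7]
  congr 1
  apply le_antisymm
  · rw [Ideal.map_le_iff_le_comap]
    intro r hr
    have hr' : sg r ∈ W.asIdeal := hr
    change al (sg r) ∈ W.asIdeal.map al
    exact Ideal.mem_map_of_mem al hr'
  · rw [Ideal.map_le_iff_le_comap]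
    intro r hr
    obtain ⟨n, r', hr'⟩ := sgm_lift r
    have h4 : r' ∈ (PrimeSpectrum.comap sg W).asIdeal := by
      change sg r' ∈ W.asIdeal
      rw [hsga, hr']
      exact Ideal.mul_mem_left _ _ hr
    have h5 : (al.comp sg) r' ∈ ((PrimeSpectrum.comap sg W).asIdeal).map (al.comp sg) :=
      Ideal.mem_map_of_mem _ h4
    have h6 : (al.comp sg) r' = al (X 1) ^ n * al r := by
      rw [RingHom.comp_apply, hsga, hr', map_mul, map_pow]
    rw [h6] at h5
    change al r ∈ ((PrimeSpectrum.comap sg W).asIdeal).map (al.comp sg)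
    exact (Ideal.unit_mul_mem_iff_mem _ (hunit.pow n)).1 h5

end Pool.Agent.HCR
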