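import Pool.Agent.HCR.T1c

namespace Pool.Agent.HCR

open Pool.Agent.HCH Pool.Agent.HCF MvPolynomial

theorem T1d_mlt {R : Type} [CommRing R] (W : Ideal R) (u g : R) (P : PrimeSpectrum R)
    (hu : u ∉ P.asIdeal) :
    mlt (W ⊔ Ideal.span {u * g}) P = mlt (W ⊔ Ideal.span {g}) P := by
  have hun : IsUnit (algebraMap R (Localization.AtPrime P.asIdeal) u) :=
    IsLocalization.map_units (Localization.AtPrime P.asIdeal) (⟨u, hu⟩ : P.asIdeal.primeCompl)
  have h : (W ⊔ Ideal.span {u * g}).map (algebraMap R (Localization.AtPrime P.asIdeal)) =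
      (W ⊔ Ideal.span {g}).map (algebraMap R (Localization.AtPrime P.asIdeal)) := by
    rw [Ideal.map_sup, Ideal.map_sup, Ideal.map_span, Ideal.map_span, Set.image_singleton,
      Set.image_singleton, map_mul, Ideal.span_singleton_mul_left_unit hun]
  unfold mlt
  rw [h]

/-
PROOF. AddSubgroup.closure_induction over the generators adiv K W g e of ARat K (sgm f) e. If X 1 ∈ W: Z = 0 works (the support of adiv is in
V(W)). Otherwise g ∉ W, X 1 ^ n * g = sgm g' (sgm_lift), Z = adiv K (comap sgm W) g' e: f ∈ comap sgm W, dm_sgm, g' ∉; at P ∌ X 1: mlt_sgm,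
mlt (W ⊔ span {X 1 ^ n * g}) P = mlt (W ⊔ span {g}) P as X 1 is a unit at P.
-/
theorem sgm_up {K : Type} [Field K] {m : ℕ} (f : MvPolynomial (Fin (m + 2)) K) (e : ℕ)
    (z : PrimeSpectrum (MvPolynomial (Fin (m + 2)) K) → ℤ) (hz : z ∈ ARat K (sgm K m f) e) :
    ∃ Z ∈ ARat K f e, ∀ P : PrimeSpectrum (MvPolynomial (Fin (m + 2)) K), X 1 ∉ P.asIdeal →
      Z (PrimeSpectrum.comap
        (sgm K m : MvPolynomial (Fin (m + 2)) K →+* MvPolynomial (Fin (m + 2)) K) P) = z P := by
  unfold ARat at hz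
  induction hz using AddSubgroup.closure_induction with
  | mem z hz =>
    obtain ⟨W, g, hfW, hdW, hgW, rfl⟩ := hz
    have hWp := W.isPrime
    by_cases hX : X 1 ∈ W.asIdeal
    · refine ⟨0, AddSubgroup.zero_mem _, ?_⟩
      intro P hP
      have h1 : mlt (W.asIdeal ⊔ Ideal.span {g}) P = 0 := by
        apply mlt_eq_zero
        intro hle
        exact hP (hle (Ideal.mem_sup_left hX))
      unfold adiv od
      rw [h1]
      split_ifs <;> rfl
    · obtain ⟨n, g', hg'⟩ := sgm_lift g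
      refine ⟨adiv K (PrimeSpectrum.comap
        (sgm K m : MvPolynomial (Fin (m + 2)) K →+* MvPolynomial (Fin (m + 2)) K) W).asIdeal g' e,
        ?_, ?_⟩
      · apply AddSubgroup.subset_closure
        refine ⟨_, g', hfW, ?_, ?_, rfl⟩
        · rw [dm_sgm W hX, hdW]
        · intro h1
          have h2 : sgm K m g' ∈ W.asIdeal := h1
          rw [hg'] at h2
          rcases hWp.mem_or_mem h2 with h3 | h3
          · exact hX (hWp.mem_of_pow_mem n h3)
          · exact hgW h3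
      · intro P hP
        have hPp := P.isPrime
        have h1 := mlt_sgm W P hX hP g'
        rw [hg', T1d_mlt W.asIdeal (X 1 ^ n) g P (fun h2 => hP (hPp.mem_of_pow_mem n h2))] at h1
        unfold adiv od
        rw [dm_sgm P hP, h1]
  | zero => exact ⟨0, AddSubgroup.zero_mem _, fun _ _ => rfl⟩
  | add x y _ _ hx hy =>
    obtain ⟨X1, hX1, hX2⟩ := hx
    obtain ⟨Y1, hY1, hY2⟩ := hy
    refine ⟨X1 + Y1, AddSubgroup.add_mem _ hX1 hY1, ?_⟩
    intro P hP
    rw [Pi.add_apply, Pi.add_apply, hX2 P hP, hY2 P hP]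
  | neg x _ hx =>
    obtain ⟨X1, hX1, hX2⟩ := hx
    refine ⟨-X1, AddSubgroup.neg_mem _ hX1, ?_⟩
    intro P hP
    rw [Pi.neg_apply, Pi.neg_apply, hX2 P hP]

end Pool.Agent.HCR
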