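import Pool.Agent.HCR.T1c

namespace Pool.Agent.HCR

open Pool.Agent.HCH Pool.Agent.HCF MvPolynomial

/-
PROOF. As sgm_up in the other direction: for a generator adiv K W g e with X 1 ∉ W take W' with comap sgm W' = W (sgm_surj), z = adiv K W' (sgm g) e.
-/
theorem sgm_down {K : Type} [Field K] {m : ℕ} (f : MvPolynomial (Fin (m + 2)) K) (e : ℕ)
    (Z : PrimeSpectrum (MvPolynomial (Fin (m + 2)) K) → ℤ) (hZ : Z ∈ ARat K f e) :
    ∃ z ∈ ARat K (sgm K m f) e, ∀ P : PrimeSpectrum (MvPolynomial (Fin (m + 2)) K),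
      X 1 ∉ P.asIdeal → z P = Z (PrimeSpectrum.comap
        (sgm K m : MvPolynomial (Fin (m + 2)) K →+* MvPolynomial (Fin (m + 2)) K) P) := by
  have hX1 : sgm K m (X 1) = X 1 := by
    unfold sgm
    rw [aeval_X]
    rfl
  unfold ARat at hZ
  induction hZ using AddSubgroup.closure_induction with
  | mem Z hZ =>
    obtain ⟨W, g, hfW, hdW, hgW, rfl⟩ := hZ
    by_cases hX : X 1 ∈ W.asIdeal
    · refine ⟨0, AddSubgroup.zero_mem _, ?_⟩
      intro P hP
      have h1 : mlt (W.asIdeal ⊔ Ideal.span {g}) (PrimeSpectrum.comap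
          (sgm K m : MvPolynomial (Fin (m + 2)) K →+* MvPolynomial (Fin (m + 2)) K) P) = 0 := by
        apply mlt_eq_zero
        intro hle
        have h2 : sgm K m (X 1) ∈ P.asIdeal := hle (Ideal.mem_sup_left hX)
        rw [hX1] at h2
        exact hP h2
      unfold adiv od
      rw [h1]
      split_ifs <;> rfl
    · obtain ⟨W', hXW', rfl⟩ := sgm_surj W hX
      refine ⟨adiv K W'.asIdeal (sgm K m g) e, ?_, ?_⟩
      · apply AddSubgroup.subset_closure
        refine ⟨W', sgm K m g, hfW, ?_, hgW, rfl⟩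
        rw [← dm_sgm W' hXW', hdW]
      · intro P hP
        have h1 := mlt_sgm W' P hXW' hP g
        unfold adiv od
        rw [dm_sgm P hP, h1]
  | zero => exact ⟨0, AddSubgroup.zero_mem _, fun _ _ => rfl⟩
  | add x y _ _ hx hy =>
    obtain ⟨X1, hX1, hX2⟩ := hx
    obtain ⟨Y1, hY1, hY2⟩ := hy
    refine ⟨X1 + Y1, AddSubgroup.add_mem _ hX1 hY1, ?_⟩
    intro P hP
    rw [Pi.add_apply, Pi.add_apply, hX2 P hP, hY2 P hP]
  | neg x _ hx =>
    obtain ⟨X1, hX1, hX2⟩ := hx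
    refine ⟨-X1, AddSubgroup.neg_mem _ hX1, ?_⟩
    intro P hP
    rw [Pi.neg_apply, Pi.neg_apply, hX2 P hP]

end Pool.Agent.HCR
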