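import Pool.Agent.HCR.Defs

namespace Pool.Agent.HCR

open Pool.Agent.HCH Pool.Agent.HCF MvPolynomial

/-- No prime of the generic fibre contains `X 0 - C t`. -/
private theorem t1f_not_mem {K : Type} [Field K] {m : ℕ} (t : K)
    (q : PrimeSpectrum (MvPolynomial (Fin m) (RatFunc K))) :
    X 0 - C t ∉ (PrimeSpectrum.comap (lamR K m) q).asIdeal := by
  intro h
  have h1 : lamR K m (X 0 - C t) ∈ q.asIdeal := h
  have h2 : lamR K m (X 0 - C t) = C ((RatFunc.X : RatFunc K) - RatFunc.C t) := by
    have h3 : (lam : MvPolynomial (Fin (m + 1)) K →ₐ[K] MvPolynomial (Fin m) (RatFunc K))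
        (X 0) = C (RatFunc.X : RatFunc K) := by
      unfold lam
      rw [aeval_X, Fin.cons_zero]
    have h4 : (lam : MvPolynomial (Fin (m + 1)) K →ₐ[K] MvPolynomial (Fin m) (RatFunc K))
        (C t) = C (RatFunc.C t) := by
      rw [← MvPolynomial.algebraMap_eq, AlgHom.commutes]
      rfl
    have h5 : (lam : MvPolynomial (Fin (m + 1)) K →ₐ[K] MvPolynomial (Fin m) (RatFunc K))
        (X 0 - C t) = C ((RatFunc.X : RatFunc K) - RatFunc.C t) := by
      rw [map_sub, h3, h4, map_sub]
    exact h5
  rw [h2] at h1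
  apply q.isPrime.ne_top
  apply Ideal.eq_top_of_isUnit_mem _ h1
  apply IsUnit.map
  rw [isUnit_iff_ne_zero]
  intro h0
  have h4 : (algebraMap (Polynomial K) (RatFunc K)) (Polynomial.X - Polynomial.C t) = 0 := by
    rw [map_sub, RatFunc.algebraMap_X, RatFunc.algebraMap_C]
    exact h0
  have h5 : (Polynomial.X - Polynomial.C t : Polynomial K) = 0 :=
    (IsFractionRing.injective (Polynomial K) (RatFunc K)) (by rw [h4, map_zero])
  exact Polynomial.X_sub_C_ne_zero t h5

/-
PROOF. closure_induction: for a generator adiv K W g (e + 1), f ∈ W: if W = comap lam W' (comap_lam_or) then z = adiv (RatFunc K) W' (lamR g) e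
(dm_lam, mlt_lam with J = W ⊔ span {g}, J.map lamR = W' ⊔ span {lamR g} by lam_map). If X 0 - C t ∈ W no prime comap lam q contains W: 0.
-/
/-- Restriction of rational equivalences to the generic fibre. -/
theorem lam_down {K : Type} [Field K] [IsAlgClosed K] {m : ℕ}
    (f : MvPolynomial (Fin (m + 1)) K) (e : ℕ)
    (Z : PrimeSpectrum (MvPolynomial (Fin (m + 1)) K) → ℤ) (hZ : Z ∈ ARat K f (e + 1)) :
    (fun q => Z (PrimeSpectrum.comap (lamR K m) q)) ∈ ARat (RatFunc K) (lamR K m f) e := by
  classical
  unfold ARat at hZ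
  induction hZ using AddSubgroup.closure_induction with
  | mem Z hZ =>
    obtain ⟨W, g, hf, hd, hg, rfl⟩ := hZ
    rcases comap_lam_or W with ⟨t, ht⟩ | ⟨W', rfl⟩
    · have h0 : (fun q => adiv K W.asIdeal g (e + 1) (PrimeSpectrum.comap (lamR K m) q)) =
          (0 : PrimeSpectrum (MvPolynomial (Fin m) (RatFunc K)) → ℤ) := by
        funext q
        unfold adiv
        have h1 : od (W.asIdeal ⊔ Ideal.span {g}) (PrimeSpectrum.comap (lamR K m) q) = 0 := by
          unfold od
          rw [mlt_eq_zero]
          · rfl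
          · intro hle
            exact t1f_not_mem t q (hle (Ideal.mem_sup_left ht))
        rw [h1, ite_self]
        rfl
      rw [h0]
      exact (ARat (RatFunc K) (lamR K m f) e).zero_mem
    · apply AddSubgroup.subset_closure
      refine ⟨W', lamR K m g, hf, ?_, hg, ?_⟩
      · have h1 : dm K (W'.asIdeal.comap (lamR K m)) = dm (RatFunc K) W'.asIdeal + 1 :=
          dm_lam W'.asIdeal
        have h2 : dm K (W'.asIdeal.comap (lamR K m)) = e + 1 + 1 := hd
        omega
      · funext q
        unfold adiv
        have h1 : dm K (PrimeSpectrum.comap (lamR K m) q).asIdeal = dm (RatFunc K) q.asIdeal + 1 :=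
          dm_lam q.asIdeal
        have h2 : od ((PrimeSpectrum.comap (lamR K m) W').asIdeal ⊔ Ideal.span {g})
            (PrimeSpectrum.comap (lamR K m) q) =
            od (W'.asIdeal ⊔ Ideal.span {lamR K m g}) q := by
          unfold od
          rw [← mlt_lam]
          congr 3
          rw [Ideal.map_sup, Ideal.map_span, Set.image_singleton]
          congr 1
          exact lam_map W'.asIdeal
        rw [h1, h2]
        by_cases h3 : dm (RatFunc K) q.asIdeal = e
        · rw [if_pos h3, if_pos (by rw [h3])]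
        · rw [if_neg h3, if_neg (by omega)]
  | zero => exact (ARat (RatFunc K) (lamR K m f) e).zero_mem
  | add x y _ _ hx hy => exact (ARat (RatFunc K) (lamR K m f) e).add_mem hx hy
  | neg x _ hx => exact (ARat (RatFunc K) (lamR K m f) e).neg_mem hx

end Pool.Agent.HCR
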