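import Pool.Agent.HCR.T1d
import Pool.Agent.HCR.T1e
import Pool.Agent.HCR.T1f

namespace Pool.Agent.HCR

open Pool.Agent.HCH Pool.Agent.HCF MvPolynomial

private theorem t1g_comap {K : Type} [Field K] {m : ℕ}
    (q : PrimeSpectrum (MvPolynomial (Fin (m + 1)) (RatFunc K))) :
    PrimeSpectrum.comap (theta K m) q = PrimeSpectrum.comap
      (sgm K m : MvPolynomial (Fin (m + 2)) K →+* MvPolynomial (Fin (m + 2)) K)
      (PrimeSpectrum.comap (lamR K (m + 1)) q) := rfl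

private theorem t1g_lam_X1 {K : Type} [Field K] {m : ℕ} :
    lamR K (m + 1) (X 1) = X 0 := by
  have h2 : (lam : MvPolynomial (Fin (m + 2)) K →ₐ[K] MvPolynomial (Fin (m + 1)) (RatFunc K))
      (X (Fin.succ 0)) = X 0 := by
    unfold lam
    rw [aeval_X, Fin.cons_succ]
  exact h2

private theorem t1g_X1 {K : Type} [Field K] {m : ℕ}
    (q : PrimeSpectrum (MvPolynomial (Fin (m + 1)) (RatFunc K))) (h : X 0 ∉ q.asIdeal) :
    X 1 ∉ (PrimeSpectrum.comap (lamR K (m + 1)) q).asIdeal := by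
  intro h1
  have h2 : lamR K (m + 1) (X 1) ∈ q.asIdeal := h1
  rw [t1g_lam_X1] at h2
  exact h h2

/-
PROOF. comap theta q = comap sgm (comap lam q); X 1 ∉ comap lam q since lamR (X 1) = X 0 ∉ q; dm_sgm, dm_lam.
-/
theorem dm_theta {K : Type} [Field K] {m : ℕ}
    (q : PrimeSpectrum (MvPolynomial (Fin (m + 1)) (RatFunc K))) (h : X 0 ∉ q.asIdeal) :
    dm K (PrimeSpectrum.comap (theta K m) q).asIdeal = dm (RatFunc K) q.asIdeal + 1 := by
  rw [t1g_comap, dm_sgm _ (t1g_X1 q h)]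
  exact dm_lam q.asIdeal

/-
PROOF. P ∌ X 1: P = comap sgm P₁, X 1 ∉ P₁ (sgm_surj); P₁ does not contain X 0 - C τ (otherwise P contains X 0 - C τ * X 1, as
sgm of it is X 1 * (X 0 - C τ)). comap_lam_or: P₁ = comap lam q; X 0 ∉ q.
-/
theorem theta_surj {K : Type} [Field K] [IsAlgClosed K] {m : ℕ}
    (P : PrimeSpectrum (MvPolynomial (Fin (m + 2)) K)) (h : ¬ MemP 0 1 P) :
    ∃ q : PrimeSpectrum (MvPolynomial (Fin (m + 1)) (RatFunc K)), X 0 ∉ q.asIdeal ∧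
      PrimeSpectrum.comap (theta K m) q = P := by
  have h1 : X 1 ∉ P.asIdeal := by
    intro h1
    apply h
    refine ⟨0, 1, Or.inr one_ne_zero, ?_⟩
    rw [C_0, zero_mul, zero_sub, C_1, one_mul]
    exact P.asIdeal.neg_mem h1
  obtain ⟨P₁, hP₁, hP₁c⟩ := sgm_surj P h1
  rcases comap_lam_or P₁ with ⟨t, ht⟩ | ⟨q, hq⟩
  · exfalso
    apply h
    refine ⟨1, t, Or.inl one_ne_zero, ?_⟩
    rw [← hP₁c]
    change sgm K m (C 1 * X 0 - C t * X 1) ∈ P₁.asIdeal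
    have h2 : sgm K m (C 1 * X 0 - C t * X 1) = X 1 * (X 0 - C t) := by
      have h3 : sgm K m (X 0) = X 0 * X 1 := by
        unfold sgm
        rw [aeval_X, Fin.cons_zero]
      have h4 : sgm K m (X 1) = X 1 := by
        have h5 : sgm K m (X (Fin.succ 0)) = X (Fin.succ 0) := by
          unfold sgm
          rw [aeval_X, Fin.cons_succ]
        exact h5
      have h6 : sgm K m (C t) = C t := by
        rw [← MvPolynomial.algebraMap_eq, AlgHom.commutes]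
      rw [C_1, one_mul, map_sub, map_mul, h3, h4, h6]
      ring
    rw [h2]
    exact P₁.asIdeal.mul_mem_left _ ht
  · refine ⟨q, ?_, ?_⟩
    · intro h2
      apply hP₁
      rw [← hq]
      change lamR K (m + 1) (X 1) ∈ q.asIdeal
      rw [t1g_lam_X1]
      exact h2
    · rw [t1g_comap, hq, hP₁c]

theorem theta_inj {K : Type} [Field K] {m : ℕ}
    (q q' : PrimeSpectrum (MvPolynomial (Fin (m + 1)) (RatFunc K))) (h : X 0 ∉ q.asIdeal)
    (h' : X 0 ∉ q'.asIdeal)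
    (he : PrimeSpectrum.comap (theta K m) q = PrimeSpectrum.comap (theta K m) q') : q = q' := by
  rw [t1g_comap, t1g_comap] at he
  exact comap_lam_inj (sgm_inj _ _ (t1g_X1 q h) (t1g_X1 q' h') he)

/-
PROOF. lift_lam for f₁ = sgm f: Z₁ ∈ ARat K (sgm f) (e + 1), then sgm_up.
-/
theorem theta_up {K : Type} [Field K] {m : ℕ} (f : MvPolynomial (Fin (m + 2)) K) (e : ℕ)
    (z : PrimeSpectrum (MvPolynomial (Fin (m + 1)) (RatFunc K)) → ℤ)
    (hz : z ∈ ARat (RatFunc K) (theta K m f) e) :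
    ∃ Z ∈ ARat K f (e + 1), ∀ q : PrimeSpectrum (MvPolynomial (Fin (m + 1)) (RatFunc K)),
      X 0 ∉ q.asIdeal → Z (PrimeSpectrum.comap (theta K m) q) = z q := by
  obtain ⟨Z₁, hZ₁, hZ₁v⟩ := lift_lam (sgm K m f) e z hz
  obtain ⟨Z, hZ, hZv⟩ := sgm_up f (e + 1) Z₁ hZ₁
  refine ⟨Z, hZ, fun q hq => ?_⟩
  rw [t1g_comap, hZv _ (t1g_X1 q hq), hZ₁v]

/-
PROOF. sgm_down, then lam_down.
-/
theorem theta_down {K : Type} [Field K] [IsAlgClosed K] {m : ℕ}
    (f : MvPolynomial (Fin (m + 2)) K) (e : ℕ)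
    (Z : PrimeSpectrum (MvPolynomial (Fin (m + 2)) K) → ℤ) (hZ : Z ∈ ARat K f (e + 1)) :
    ∃ z ∈ ARat (RatFunc K) (theta K m f) e,
      ∀ q : PrimeSpectrum (MvPolynomial (Fin (m + 1)) (RatFunc K)),
      X 0 ∉ q.asIdeal → z q = Z (PrimeSpectrum.comap (theta K m) q) := by
  obtain ⟨z₁, hz₁, hz₁v⟩ := sgm_down f (e + 1) Z hZ
  refine ⟨fun q => z₁ (PrimeSpectrum.comap (lamR K (m + 1)) q),
    lam_down (sgm K m f) e z₁ hz₁, fun q hq => ?_⟩
  rw [t1g_comap]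
  exact hz₁v _ (t1g_X1 q hq)

end Pool.Agent.HCR
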