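import Pool.Agent.HCR.A1
import Pool.Agent.HCR.T1g

namespace Pool.Agent.HCR

open Pool.Agent.HCH Pool.Agent.HCF MvPolynomial

/-
PROOF. P with suspA D f ∈ P, dm P = e + 1. If MemP 0 1 P: N = 1. Otherwise P = comap theta q (theta_surj), tw D f = theta (suspA D f) ∈ q, dm q = e
(dm_theta): N • cls q ∈ ARat; theta_up: Z ∈ ARat K (suspA D f) (e + 1) with Z (comap theta q') = N cls q q'. N • cls P - Z vanishes at all
primes with ¬ MemP (theta_surj, theta_inj), its support is finite (ARat_supp) and in V(suspA D f), dimension e + 1: it is in Cy.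
Rt_iff to translate.
-/
theorem gen_of_tw {K : Type} [Field K] [IsAlgClosed K] {m : ℕ} (D : ℕ)
    (f : MvPolynomial (Fin m) K) (e : ℕ) (h : AT (RatFunc K) (tw D f) e) :
    Gen K (suspA D f) (e + 1) (MemP 0 1) := by
  classical
  intro p hp hd
  by_cases hM : MemP 0 1 p
  · refine ⟨1, one_pos, ?_⟩
    rw [Nat.cast_one, one_smul]
    exact AddSubgroup.mem_sup_right (AddSubgroup.subset_closure ⟨p, hp, hd, hM, rfl⟩)
  · obtain ⟨q, hq0, hqp⟩ := theta_surj p hM
    have hq : tw D f ∈ q.asIdeal := by
      rw [← theta_suspA]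
      rw [← hqp] at hp
      exact hp
    have hdq : dm (RatFunc K) q.asIdeal = e := by
      have h1 := dm_theta q hq0
      rw [hqp] at h1
      omega
    obtain ⟨N, hN, hz⟩ := h q hq hdq
    rw [← theta_suspA] at hz
    obtain ⟨Z, hZ, hZv⟩ := theta_up (suspA D f) e _ hz
    obtain ⟨hZf, hZs⟩ := ARat_supp (suspA D f) (e + 1) Z hZ
    have hZ' : Finsupp.ofSupportFinite Z hZf ∈ Rt K (Ideal.span {suspA D f}) (e + 1) := by
      rw [Rt_iff]
      exact hZ
    have hZ'v : ∀ p', Finsupp.ofSupportFinite Z hZf p' = Z p' := fun p' => rfl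
    obtain ⟨c, hc⟩ : ∃ c : PrimeSpectrum (MvPolynomial (Fin (m + 2)) K) →₀ ℤ,
        c = (N : ℤ) • Finsupp.single p (1 : ℤ) - Finsupp.ofSupportFinite Z hZf := ⟨_, rfl⟩
    have hcs : ∀ p', c p' ≠ 0 → suspA D f ∈ p'.asIdeal ∧ dm K p'.asIdeal = e + 1 ∧
        MemP 0 1 p' := by
      intro p' hp'
      have hMp : MemP 0 1 p' := by
        by_contra hM'
        obtain ⟨q', hq0', hqp'⟩ := theta_surj p' hM'
        apply hp'
        have h1 := hZv q' hq0'
        rw [hqp'] at h1
        rw [hc, Finsupp.sub_apply, hZ'v, h1, Finsupp.smul_apply, Pi.smul_apply]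
        have h2 : (Finsupp.single p (1 : ℤ)) p' = cls q q' := by
          rw [Finsupp.single_apply]
          unfold cls
          by_cases h3 : q' = q
          · rw [if_pos h3, if_pos]
            rw [← hqp, ← hqp', h3]
          · rw [if_neg h3, if_neg]
            intro h4
            apply h3
            rw [← hqp, ← hqp'] at h4
            exact (theta_inj q q' hq0 hq0' h4).symm
        rw [h2, sub_self]
      by_cases h1 : p' = p
      · rw [h1] at hMp
        exact absurd hMp hM
      · have h2 : Z p' ≠ 0 := by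
          intro h0
          apply hp'
          rw [hc, Finsupp.sub_apply, hZ'v, h0, Finsupp.smul_apply, Finsupp.single_apply,
            if_neg (Ne.symm h1)]
          simp
        exact ⟨(hZs p' h2).1, (hZs p' h2).2, hMp⟩
    have hcC : c ∈ Cy K (suspA D f) (e + 1) (MemP 0 1) := by
      have h1 : c = ∑ p' ∈ c.support, c p' • Finsupp.single p' (1 : ℤ) := by
        conv_lhs => rw [← Finsupp.sum_single c]
        unfold Finsupp.sum
        refine Finset.sum_congr rfl fun p' _ => ?_
        rw [Finsupp.smul_single, smul_eq_mul, mul_one]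
      rw [h1]
      refine AddSubgroup.sum_mem _ fun p' hp' => AddSubgroup.zsmul_mem _ ?_ _
      obtain ⟨h2, h3, h4⟩ := hcs p' (Finsupp.mem_support_iff.1 hp')
      exact AddSubgroup.subset_closure ⟨p', h2, h3, h4, rfl⟩
    refine ⟨N, hN, ?_⟩
    have e1 : (N : ℤ) • Finsupp.single p (1 : ℤ) = Finsupp.ofSupportFinite Z hZf + c := by
      rw [hc]
      abel
    rw [e1]
    exact AddSubgroup.add_mem_sup hZ' hcC

end Pool.Agent.HCR
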