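import Pool.Agent.HCR.A1
import Pool.Agent.HCR.T1g

namespace Pool.Agent.HCR

open Pool.Agent.HCH Pool.Agent.HCF MvPolynomial

/-
PROOF. q with tw D f ∈ q, dm q = e. If X 0 ∈ q: ext f ∈ q; φ : X 0 ↦ 0, X k.succ ↦ X k is surjective with kernel span {X 0} ≤ q,
φ (tw D f) = ext f: AT.push with h0. Otherwise P = comap theta q: suspA D f ∈ P, dm P = e + 1 (dm_theta), N • cls P ∈ ARat; theta_down: z ∈ ARat (RatFunc K) (tw D f) e
with z q' = N cls P (comap theta q') for X 0 ∉ q'. N • cls q - z is supported on primes containing X 0 (theta_inj), tw D f, dimension e: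
torsion by the first case (finite support: ARat_supp; tors_sum or tors_closure).
-/
theorem tw_of_AT {K : Type} [Field K] [IsAlgClosed K] {m : ℕ} (D : ℕ) (hD : 1 ≤ D)
    (f : MvPolynomial (Fin m) K) (e : ℕ) (h : AT K (suspA D f) (e + 1))
    (h0 : AT (RatFunc K) (ext K (RatFunc K) m f) e) : AT (RatFunc K) (tw D f) e := by
  classical
  let L := RatFunc K
  let φ : MvPolynomial (Fin (m + 1)) L →ₐ[L] MvPolynomial (Fin m) L :=
    aeval (Fin.cons (α := fun _ => MvPolynomial (Fin m) L) 0 X)
  have hφ0 : φ (X 0) = 0 := by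
    simp only [φ, aeval_X, Fin.cons_zero]
  have hφs : ∀ k : Fin m, φ (X k.succ) = X k := by
    intro k
    simp only [φ, aeval_X, Fin.cons_succ]
  have hφr : ∀ x : MvPolynomial (Fin m) L, φ (rename Fin.succ x) = x := by
    intro x
    have h1 : φ.comp (rename Fin.succ) = AlgHom.id L _ := by
      apply MvPolynomial.algHom_ext
      intro k
      rw [AlgHom.comp_apply, rename_X, hφs, AlgHom.id_apply]
    exact congrArg (fun ψ : MvPolynomial (Fin m) L →ₐ[L] MvPolynomial (Fin m) L => ψ x) h1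
  have hker : RingHom.ker (φ : MvPolynomial (Fin (m + 1)) L →+* MvPolynomial (Fin m) L) =
      Ideal.span {X 0} := by
    apply ker_of_vars φ (rename Fin.succ) (X 0)
    · exact hφ0
    · intro i
      refine Fin.cases ?_ (fun k => ?_) i
      · rw [hφ0, map_zero, sub_zero]
        exact Ideal.mem_span_singleton_self _
      · rw [hφs, rename_X, sub_self]
        exact Submodule.zero_mem _
  have hφtw : φ (tw D f) = ext K L m f := by
    unfold tw
    rw [map_add, map_mul, map_pow, hφr, hφ0, zero_pow (by omega), mul_zero, add_zero]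
  -- primes containing the new variable
  have case1 : ∀ q : PrimeSpectrum (MvPolynomial (Fin (m + 1)) L), tw D f ∈ q.asIdeal →
      X 0 ∈ q.asIdeal → dm L q.asIdeal = e →
      ∃ N : ℕ, 0 < N ∧ (N : ℤ) • cls q ∈ ARat L (tw D f) e := by
    intro q hq h0q hd
    have h1 : AT L (φ (tw D f)) e := by
      rw [hφtw]
      exact h0
    have hs : Function.Surjective φ := fun x => ⟨_, hφr x⟩
    obtain ⟨N, hN, hz⟩ := AT.push φ hs h1 q hq (by
      rw [hker, Ideal.span_singleton_le_iff_mem]
      exact h0q) hd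
    rw [Rt_iff, t1_coe] at hz
    exact ⟨N, hN, hz⟩
  intro q hq hd
  by_cases h0q : X 0 ∈ q.asIdeal
  · exact case1 q hq h0q hd
  · have hP1 : suspA D f ∈ (PrimeSpectrum.comap (theta K m) q).asIdeal := by
      rw [PrimeSpectrum.comap_asIdeal, Ideal.mem_comap, theta_suspA]
      exact hq
    have hP2 : dm K (PrimeSpectrum.comap (theta K m) q).asIdeal = e + 1 := by
      rw [dm_theta q h0q, hd]
    obtain ⟨N, hN, hZ⟩ := h _ hP1 hP2
    obtain ⟨z, hz, hzq⟩ := theta_down (suspA D f) e _ hZ
    rw [theta_suspA] at hz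
    obtain ⟨hfin, hsupp⟩ := ARat_supp _ _ z hz
    have hw0 : ∀ q', ((N : ℤ) • cls q - z) q' ≠ 0 → X 0 ∈ q'.asIdeal ∧ z q' ≠ 0 := by
      intro q' hq'
      by_cases h1 : X 0 ∈ q'.asIdeal
      · refine ⟨h1, ?_⟩
        have hne : q' ≠ q := by
          rintro rfl
          exact h0q h1
        intro h2
        apply hq'
        rw [Pi.sub_apply, Pi.smul_apply, h2]
        unfold cls
        rw [if_neg hne, smul_zero, sub_zero]
      · exfalso
        apply hq'
        rw [Pi.sub_apply, hzq q' h1, Pi.smul_apply, Pi.smul_apply]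
        unfold cls
        by_cases h2 : q' = q
        · subst h2
          rw [if_pos rfl, if_pos rfl, sub_self]
        · rw [if_neg h2, if_neg, sub_self]
          intro h3
          exact h2 (theta_inj q' q h1 h0q h3)
    obtain ⟨N', hN', c, hc⟩ := tors_sum (ARat L (tw D f) e) 0 ((N : ℤ) • cls q - z)
      (hfin.subset fun q' hq' => (hw0 q' hq').2) (by
        intro q' hq'
        obtain ⟨h1, h2⟩ := hw0 q' hq'
        obtain ⟨h3, h4⟩ := hsupp q' h2
        obtain ⟨N1, hN1, h5⟩ := case1 q' h3 h1 h4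
        exact ⟨N1, hN1, 0, by rwa [zero_smul, sub_zero]⟩)
    refine ⟨N' * N, Nat.mul_pos hN' hN, ?_⟩
    rw [smul_zero, sub_zero] at hc
    have h6 := (ARat L (tw D f) e).add_mem hc ((ARat L (tw D f) e).zsmul_mem hz (N' : ℤ))
    have h7 : (N' : ℤ) • ((N : ℤ) • cls q - z) + (N' : ℤ) • z = ((N' * N : ℕ) : ℤ) • cls q := by
      rw [smul_sub, sub_add_cancel, smul_smul, Nat.cast_mul]
    rw [h7] at h6
    exact h6

end Pool.Agent.HCR
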