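import Pool.Agent.HCR.Defs

namespace Pool.Agent.HCR

open Pool.Agent.HCH Pool.Agent.HCF MvPolynomial

/-- Apply a linear functional to the coefficients. -/
noncomputable def U1a_phi {K L : Type} [Field K] [Field L] [Algebra K L] {n : ℕ}
    (φ : L →ₗ[K] K) (a : MvPolynomial (Fin n) L) : MvPolynomial (Fin n) K :=
  ∑ s ∈ a.support, monomial s (φ (coeff s a))

theorem U1a_coeff {K L : Type} [Field K] [Field L] [Algebra K L] {n : ℕ}
    (φ : L →ₗ[K] K) (a : MvPolynomial (Fin n) L) (t : Fin n →₀ ℕ) :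
    coeff t (U1a_phi φ a) = φ (coeff t a) := by
  classical
  rw [U1a_phi, coeff_sum]
  simp only [coeff_monomial]
  rw [Finset.sum_ite_eq' a.support t]
  split_ifs with h
  · rfl
  · rw [notMem_support_iff.1 h, map_zero]

theorem U1a_add {K L : Type} [Field K] [Field L] [Algebra K L] {n : ℕ}
    (φ : L →ₗ[K] K) (a b : MvPolynomial (Fin n) L) :
    U1a_phi φ (a + b) = U1a_phi φ a + U1a_phi φ b := by
  ext t
  rw [U1a_coeff, coeff_add, coeff_add, U1a_coeff, U1a_coeff, map_add]

theorem U1a_mul {K L : Type} [Field K] [Field L] [Algebra K L] {n : ℕ}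
    (φ : L →ₗ[K] K) (a : MvPolynomial (Fin n) L) (r : MvPolynomial (Fin n) K) :
    U1a_phi φ (a * ext K L n r) = U1a_phi φ a * r := by
  classical
  ext t
  rw [U1a_coeff, coeff_mul, coeff_mul, map_sum]
  refine Finset.sum_congr rfl fun x _ => ?_
  rw [U1a_coeff, HCH.ext, coeff_map, mul_comm, ← Algebra.smul_def, map_smul, smul_eq_mul, mul_comm]

theorem U1a_zero {K L : Type} [Field K] [Field L] [Algebra K L] {n : ℕ}
    (φ : L →ₗ[K] K) : U1a_phi φ (0 : MvPolynomial (Fin n) L) = 0 := by
  ext t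
  rw [U1a_coeff, coeff_zero, coeff_zero, map_zero]

theorem U1a_mem {K L : Type} [Field K] [Field L] [Algebra K L] {n : ℕ}
    (φ : L →ₗ[K] K) (p : Ideal (MvPolynomial (Fin n) K)) (u : MvPolynomial (Fin n) L)
    (hu : u ∈ p.map (ext K L n)) : U1a_phi φ u ∈ p := by
  rw [Ideal.map] at hu
  suffices h : ∀ a, U1a_phi φ (a * u) ∈ p by
    have := h 1
    rwa [one_mul] at this
  refine Submodule.span_induction (p := fun u _ => ∀ a, U1a_phi φ (a * u) ∈ p) ?_ ?_ ?_ ?_ hu
  · rintro x ⟨r, hr, rfl⟩ a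
    rw [U1a_mul]
    exact p.mul_mem_left _ hr
  · intro a
    rw [mul_zero, U1a_zero]
    exact p.zero_mem
  · intro x y _ _ hx hy a
    rw [mul_add, U1a_add]
    exact p.add_mem (hx a) (hy a)
  · intro b x _ hx a
    rw [smul_eq_mul, ← mul_assoc]
    exact hx (a * b)

theorem U1a_sum {K L : Type} [Field K] [Field L] [Algebra K L] {n : ℕ}
    (φ : L →ₗ[K] K) {ι : Type} (s : Finset ι) (f : ι → MvPolynomial (Fin n) L) :
    U1a_phi φ (∑ i ∈ s, f i) = ∑ i ∈ s, U1a_phi φ (f i) := by
  ext t
  rw [U1a_coeff, coeff_sum, coeff_sum, map_sum]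
  exact Finset.sum_congr rfl fun i _ => (U1a_coeff φ (f i) t).symm

/-
PROOF. L is free over K; μ linearly independent over K in L, extended to a basis (Basis.extend / sumExtend or LinearIndependent.exists ..):
every element of L[x] is uniquely Σ μ_b v_b with v_b ∈ K[x], and p.map ext is the set of those with all v_b ∈ p.
E.g. through MvPolynomial coefficients: the K-linear functional φ_j : L → K dual to μ_j (LinearIndependent.. exists with φ_j μ_i = δ_ij,
Basis.coord) gives Φ_j : L[x] → K[x] coefficientwise, K[x]-linear, with Φ_j (ext r * u) = r * Φ_j u, so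
Φ_j (p.map ext) ⊆ p; and Φ_j (Σ μ_i ext v_i) = v_j.
-/
theorem coeff_mem_of_map {K L : Type} [Field K] [Field L] [Algebra K L] {n : ℕ}
    (p : Ideal (MvPolynomial (Fin n) K)) {ι : Type} [Fintype ι] (μ : ι → L)
    (hμ : LinearIndependent K μ) (v : ι → MvPolynomial (Fin n) K)
    (h : ∑ i, C (μ i) * ext K L n (v i) ∈ p.map (ext K L n)) (i : ι) : v i ∈ p := by
  classical
  obtain ⟨φ, hφ⟩ := LinearMap.exists_extend ((Module.Basis.span hμ).coord i)
  have hφ' : ∀ j, φ (μ j) = if j = i then 1 else 0 := by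
    intro j
    have h1 := congrArg (fun g => g ((Module.Basis.span hμ) j)) hφ
    simp only [LinearMap.comp_apply, Submodule.subtype_apply, Module.Basis.coord_apply,
      Module.Basis.repr_self] at h1
    rw [Module.Basis.span_apply] at h1
    rw [h1, Finsupp.single_apply]
  have h2 := U1a_mem φ p _ h
  have h3 : U1a_phi φ (∑ j, C (μ j) * ext K L n (v j)) = v i := by
    rw [U1a_sum]
    have h4 : ∀ j, U1a_phi φ (C (μ j) * ext K L n (v j)) = if j = i then v j else 0 := by
      intro j
      have h5 : U1a_phi φ (C (μ j) : MvPolynomial (Fin n) L) = C (φ (μ j)) := by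
        ext t
        rw [U1a_coeff, coeff_C, coeff_C]
        split_ifs
        · rfl
        · rw [map_zero]
      rw [U1a_mul, h5, hφ' j]
      split_ifs
      · rw [C_1, one_mul]
      · rw [C_0, zero_mul]
    rw [Finset.sum_congr rfl fun j _ => h4 j, Finset.sum_ite_eq' Finset.univ i,
      if_pos (Finset.mem_univ i)]
  rwa [h3] at h2

/-
PROOF. coeff_mem_of_map with ι = Unit, μ = 1.
-/
theorem comap_map_ext {K L : Type} [Field K] [Field L] [Algebra K L] {n : ℕ}
    (p : Ideal (MvPolynomial (Fin n) K)) : (p.map (ext K L n)).comap (ext K L n) = p := by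
  refine le_antisymm ?_ Ideal.le_comap_map
  intro x hx
  rw [Ideal.mem_comap] at hx
  refine coeff_mem_of_map p (ι := Unit) (fun _ => (1 : L)) ?_ (fun _ => x) ?_ ()
  · exact linearIndependent_unique_iff.2 one_ne_zero
  · simp only [Finset.univ_unique, Finset.sum_singleton, C_1, one_mul]
    exact hx

end Pool.Agent.HCR
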