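import Pool.Agent.HCR.U1b

namespace Pool.Agent.HCR

open Pool.Agent.HCH Pool.Agent.HCF MvPolynomial

/-- the inclusion of `K[x] ⧸ Q ∩ K[x]` in `L[x] ⧸ Q` -/
noncomputable def U1c_f {K L : Type} [Field K] [Field L] [Algebra K L] {n : ℕ}
    (Q : Ideal (MvPolynomial (Fin n) L)) :
    (MvPolynomial (Fin n) K ⧸ Q.comap (ext K L n)) →ₐ[K] (MvPolynomial (Fin n) L ⧸ Q) :=
  Ideal.quotientMapₐ Q (MvPolynomial.mapAlgHom (Algebra.ofId K L)) le_rfl

theorem U1c_f_mk {K L : Type} [Field K] [Field L] [Algebra K L] {n : ℕ}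
    (Q : Ideal (MvPolynomial (Fin n) L)) (f : MvPolynomial (Fin n) K) :
    U1c_f Q (Ideal.Quotient.mk _ f) = Ideal.Quotient.mk Q (ext K L n f) := rfl

theorem U1c_le {K L : Type} [Field K] [Field L] [Algebra K L] {n : ℕ}
    (Q : Ideal (MvPolynomial (Fin n) L)) [hQ : Q.IsPrime] :
    Algebra.trdeg L (MvPolynomial (Fin n) L ⧸ Q) ≤
      Algebra.trdeg K (MvPolynomial (Fin n) K ⧸ Q.comap (ext K L n)) := by
  classical
  have hfs : FaithfulSMul L (MvPolynomial (Fin n) L ⧸ Q) :=
    (faithfulSMul_iff_algebraMap_injective L (MvPolynomial (Fin n) L ⧸ Q)).mpr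
      (algebraMap L (MvPolynomial (Fin n) L ⧸ Q)).injective
  have htop : Algebra.adjoin L (Set.range fun i : Fin n =>
      Ideal.Quotient.mk Q (X i)) = ⊤ := by
    have h1 : Algebra.adjoin L
        (Set.range (X : Fin n → MvPolynomial (Fin n) L)) = ⊤ :=
      MvPolynomial.adjoin_range_X
    have h2 := congrArg (Subalgebra.map (Ideal.Quotient.mkₐ L Q)) h1
    rw [AlgHom.map_adjoin, Algebra.map_top, ← Set.range_comp] at h2
    have h3 : (Ideal.Quotient.mkₐ L Q).range = ⊤ :=
      (AlgHom.range_eq_top _).2 (Ideal.Quotient.mkₐ_surjective _ _)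
    rw [h3] at h2
    exact h2
  have halg : Algebra.IsAlgebraic (Algebra.adjoin L (Set.range fun i : Fin n =>
      Ideal.Quotient.mk Q (X i))) (MvPolynomial (Fin n) L ⧸ Q) := by
    refine ⟨fun b => ?_⟩
    have hb : b ∈ Algebra.adjoin L (Set.range fun i : Fin n =>
      Ideal.Quotient.mk Q (X i)) := by rw [htop]; trivial
    exact isAlgebraic_algebraMap (⟨b, hb⟩ : Algebra.adjoin L (Set.range fun i : Fin n =>
      Ideal.Quotient.mk Q (X i)))
  obtain ⟨t, hts, ht⟩ := exists_isTranscendenceBasis_subset (R := L)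
    (Set.range fun i : Fin n => Ideal.Quotient.mk Q (X i))
  have h1 : AlgebraicIndependent K ((↑) : t → MvPolynomial (Fin n) L ⧸ Q) :=
    ht.1.restrictScalars (algebraMap K L).injective
  have h2 : ∀ b : t, ∃ i : Fin n, Ideal.Quotient.mk Q (X i) = b.1 := fun b => hts b.2
  choose g hg using h2
  have h3 : AlgebraicIndependent K (fun b : t =>
      (Ideal.Quotient.mk (Q.comap (ext K L n)) (X (g b)))) := by
    apply AlgebraicIndependent.of_comp (U1c_f Q)
    have e : (U1c_f Q) ∘ (fun b : t =>
        (Ideal.Quotient.mk (Q.comap (ext K L n)) (X (g b)))) =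
        ((↑) : t → MvPolynomial (Fin n) L ⧸ Q) := by
      funext b
      rw [Function.comp_apply, U1c_f_mk, ← hg b]
      congr 1
      exact MvPolynomial.map_X _ _
    rw [e]
    exact h1
  have h4 := h3.cardinalMk_le_trdeg
  rw [ht.cardinalMk_eq_trdeg] at h4
  exact h4

theorem U1c_indep {K L : Type} [Field K] [Field L] [Algebra K L] {n : ℕ}
    (p : Ideal (MvPolynomial (Fin n) K)) {t : Type} (u : t → MvPolynomial (Fin n) K)
    (hu : AlgebraicIndependent K (fun b => Ideal.Quotient.mk p (u b))) :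
    AlgebraicIndependent L (fun b =>
      Ideal.Quotient.mk (p.map (ext K L n)) (ext K L n (u b))) := by
  classical
  rw [algebraicIndependent_iff]
  intro F hF
  let b0 := Module.Basis.ofVectorSpace K L
  obtain ⟨c, hc⟩ := TensorProduct.eq_repr_basis_left b0
    ((MvPolynomial.algebraTensorAlgEquiv K L).symm F)
  have hF' : F = ∑ i ∈ c.support, b0 i • MvPolynomial.map (algebraMap K L) (c i) := by
    have h1 := congrArg (MvPolynomial.algebraTensorAlgEquiv K L) hc
    rw [AlgEquiv.apply_symm_apply, Finsupp.sum, map_sum] at h1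
    rw [← h1]
    exact Finset.sum_congr rfl fun i _ => by rw [MvPolynomial.algebraTensorAlgEquiv_tmul]
  let φ : MvPolynomial (Fin n) K →ₐ[K] (MvPolynomial (Fin n) L ⧸ p.map (ext K L n)) :=
    (Ideal.Quotient.mkₐ K (p.map (ext K L n))).comp (MvPolynomial.mapAlgHom (Algebra.ofId K L))
  have hφ : ∀ g, φ g = Ideal.Quotient.mk (p.map (ext K L n)) (ext K L n g) := fun g => rfl
  have hterm : ∀ g : MvPolynomial t K, aeval (fun b =>
      Ideal.Quotient.mk (p.map (ext K L n)) (ext K L n (u b)))
        (MvPolynomial.map (algebraMap K L) g) =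
      Ideal.Quotient.mk (p.map (ext K L n)) (ext K L n (aeval u g)) := by
    intro g
    rw [MvPolynomial.aeval_map_algebraMap, ← hφ, MvPolynomial.comp_aeval_apply]
    rfl
  have h1 : Ideal.Quotient.mk (p.map (ext K L n))
      (∑ i ∈ c.support, C (b0 i) * ext K L n (aeval u (c i))) = 0 := by
    rw [← hF, hF', map_sum, map_sum]
    refine Finset.sum_congr rfl fun i _ => ?_
    have e1 : (aeval fun b => Ideal.Quotient.mk (p.map (ext K L n)) (ext K L n (u b)))
        (b0 i • MvPolynomial.map (algebraMap K L) (c i)) =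
        b0 i • (aeval fun b => Ideal.Quotient.mk (p.map (ext K L n)) (ext K L n (u b)))
          (MvPolynomial.map (algebraMap K L) (c i)) := map_smul _ _ _
    rw [e1, hterm, ← MvPolynomial.smul_eq_C_mul]
    rfl
  rw [Ideal.Quotient.eq_zero_iff_mem] at h1
  have hempty : c.support = ∅ := by
    by_contra hne
    obtain ⟨i, hi⟩ := Finset.nonempty_iff_ne_empty.2 hne
    have hli : LinearIndependent K (fun j : c.support => b0 j) :=
      b0.linearIndependent.comp _ Subtype.val_injective
    have h2 := coeff_mem_of_map p (fun j : c.support => b0 j) hli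
      (fun j : c.support => aeval u (c j)) (by
        rw [Finset.sum_coe_sort c.support (fun j => C (b0 j) * ext K L n (aeval u (c j)))]
        exact h1) ⟨i, hi⟩
    have h3 : aeval (fun b => Ideal.Quotient.mk p (u b)) (c i) = 0 := by
      have h4 : (Ideal.Quotient.mkₐ K p) (aeval u (c i)) = 0 :=
        Ideal.Quotient.eq_zero_iff_mem.2 h2
      rw [MvPolynomial.comp_aeval_apply] at h4
      exact h4
    exact (Finsupp.mem_support_iff.1 hi) (algebraicIndependent_iff.1 hu _ h3)
  rw [hF', hempty, Finset.sum_empty]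

theorem U1c_ge {K L : Type} [Field K] [Field L] [Algebra K L] {n : ℕ}
    (p : Ideal (MvPolynomial (Fin n) K)) [hp : p.IsPrime] :
    Algebra.trdeg K (MvPolynomial (Fin n) K ⧸ p) ≤
      Algebra.trdeg L (MvPolynomial (Fin n) L ⧸ p.map (ext K L n)) := by
  have hfs : FaithfulSMul K (MvPolynomial (Fin n) K ⧸ p) :=
    (faithfulSMul_iff_algebraMap_injective K (MvPolynomial (Fin n) K ⧸ p)).mpr
      (algebraMap K (MvPolynomial (Fin n) K ⧸ p)).injective
  obtain ⟨t, ht⟩ := exists_isTranscendenceBasis K (MvPolynomial (Fin n) K ⧸ p)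
  have h2 : ∀ b : t, ∃ u : MvPolynomial (Fin n) K, Ideal.Quotient.mk p u = b.1 :=
    fun b => Ideal.Quotient.mk_surjective b.1
  choose u hu using h2
  have h3 : AlgebraicIndependent K (fun b : t => Ideal.Quotient.mk p (u b)) := by
    have e : (fun b : t => Ideal.Quotient.mk p (u b)) = (fun b : t => b.1) := funext hu
    rw [e]
    exact ht.1
  have h4 := (U1c_indep (L := L) p u h3).cardinalMk_le_trdeg
  rw [ht.cardinalMk_eq_trdeg] at h4
  exact h4

/-
PROOF. A = K[x] ⧸ p → B = L[x] ⧸ p_L (injective by comap_map_ext). If a : Fin d → A is algebraically independent over K, its image is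
algebraically independent over L: the monomials in a are K-linearly independent modulo p, so L-linearly independent modulo p_L
(Σ_i λ_i u_i ∈ p_L, write λ_i = Σ_j c_ij μ_j with μ linearly independent over K: coeff_mem_of_map gives Σ_i c_ij u_i ∈ p, so c_ij = 0).
Hence dm K p ≤ dm L p_L. Conversely the images of the variables generate B over L and are algebraic over the algebra generated by
a transcendence basis of A over K (chosen in A): trdeg L B ≤ trdeg K A; cf. dm_ext_le (HCH/E5).
-/
theorem dm_bc {K L : Type} [Field K] [IsAlgClosed K] [Field L] [Algebra K L] {n : ℕ}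
    (p : PrimeSpectrum (MvPolynomial (Fin n) K)) : dm L (bc L p).asIdeal = dm K p.asIdeal := by
  have h1 := U1c_le (K := K) (L := L) (bc L p).asIdeal (hQ := (bc L p).isPrime)
  have h2 : (bc L p).asIdeal.comap (ext K L n) = p.asIdeal := comap_map_ext p.asIdeal
  rw [h2] at h1
  have h3 := U1c_ge (L := L) p.asIdeal (hp := p.isPrime)
  exact congrArg Cardinal.toNat (le_antisymm h1 h3)

/-
PROOF. Each Q with comap ext Q = comap ext (bc L p) = p contains p_L = bc L p; with equal dimensions they agree (eq_of_le).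
-/
theorem bc_unique {K L : Type} [Field K] [IsAlgClosed K] [Field L] [Algebra K L] {n : ℕ}
    (p : PrimeSpectrum (MvPolynomial (Fin n) K)) (Q : PrimeSpectrum (MvPolynomial (Fin n) L))
    (h : p.asIdeal ≤ Q.asIdeal.comap (ext K L n)) (hd : dm L Q.asIdeal = dm K p.asIdeal) :
    Q = bc L p := by
  refine (eq_of_le (K := L) (bc L p) Q ?_ ?_).symm
  · change p.asIdeal.map (ext K L n) ≤ Q.asIdeal
    exact Ideal.map_le_iff_le_comap.2 h
  · rw [dm_bc, hd]

end Pool.Agent.HCR
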