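import Pool.Agent.HCR.Defs

namespace Pool.Agent.HCR

open Pool.Agent.HCH Pool.Agent.HCF MvPolynomial

theorem U1d_hc {k E : Type} [Field k] [Field E] [Algebra k E] {n : ℕ}
    (F : MvPolynomial (Fin n) k) (d : ℕ) :
    ext k E n (homogeneousComponent d F) = homogeneousComponent d (ext k E n F) := by
  apply MvPolynomial.ext
  intro m
  unfold HCH.ext
  rw [coeff_map, coeff_homogeneousComponent, coeff_homogeneousComponent, coeff_map]
  split_ifs
  · rfl
  · rw [map_zero]

theorem U1d_X {K : Type} [Field K] {n : ℕ} (P : Ideal (MvPolynomial (Fin n) K)) [hP : P.IsPrime]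
    (hh : HgI P) (hd : dm K P = 0) (k : Fin n) : (X k : MvPolynomial (Fin n) K) ∈ P := by
  have h0 : Algebra.trdeg K (MvPolynomial (Fin n) K ⧸ P) = 0 := by
    rcases Cardinal.toNat_eq_zero.1 hd with h1 | h1
    · exact h1
    · exact absurd h1 (not_le.2 trdeg_lt_aleph0_of_finiteType)
  have halg : Algebra.IsAlgebraic K (MvPolynomial (Fin n) K ⧸ P) := trdeg_eq_zero_iff.1 h0
  obtain ⟨q, hq0, hq⟩ := halg.isAlgebraic (Ideal.Quotient.mk P (X k))
  have hmem : Polynomial.aeval (X k : MvPolynomial (Fin n) K) q ∈ P := by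
    have h1 : (Ideal.Quotient.mkₐ K P) (Polynomial.aeval (X k : MvPolynomial (Fin n) K) q) = 0 := by
      rw [← Polynomial.aeval_algHom_apply]
      exact hq
    exact Ideal.Quotient.eq_zero_iff_mem.1 h1
  obtain ⟨d, hd0⟩ : ∃ d, q.coeff d ≠ 0 := by
    by_contra hcon
    push Not at hcon
    exact hq0 (Polynomial.ext fun i => by rw [hcon i, Polynomial.coeff_zero])
  have h2 : Polynomial.aeval (X k : MvPolynomial (Fin n) K) q =
      ∑ i ∈ q.support, C (q.coeff i) * X k ^ i := by
    rw [Polynomial.aeval_def, Polynomial.eval₂_eq_sum, Polynomial.sum]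
    rfl
  have h3 : homogeneousComponent d (Polynomial.aeval (X k : MvPolynomial (Fin n) K) q) =
      C (q.coeff d) * X k ^ d := by
    rw [h2, map_sum]
    have h4 : ∀ i, homogeneousComponent d (C (q.coeff i) * X k ^ i : MvPolynomial (Fin n) K) =
        if i = d then C (q.coeff d) * X k ^ d else 0 := by
      intro i
      have h5 : (C (q.coeff i) * X k ^ i : MvPolynomial (Fin n) K).IsHomogeneous i := by
        have h6 := (isHomogeneous_C (Fin n) (q.coeff i)).mul
          (isHomogeneous_X_pow (R := K) k i)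
        rwa [zero_add] at h6
      rw [homogeneousComponent_of_mem h5]
      by_cases hi : i = d
      · rw [if_pos hi, if_pos hi.symm, hi]
      · rw [if_neg hi, if_neg (Ne.symm hi)]
    rw [Finset.sum_congr rfl fun i _ => h4 i, Finset.sum_ite_eq' q.support d,
      if_pos (Polynomial.mem_support_iff.2 hd0)]
  have h4 := hh _ hmem d
  rw [h3] at h4
  have h5 : (C (q.coeff d)⁻¹ * (C (q.coeff d) * X k ^ d) : MvPolynomial (Fin n) K) = X k ^ d := by
    rw [← mul_assoc, ← C_mul, inv_mul_cancel₀ hd0, C_1, one_mul]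
  have h6 := P.mul_mem_left (C (q.coeff d)⁻¹) h4
  rw [h5] at h6
  exact hP.mem_of_pow_mem d h6

/-
PROOF. P homogeneous prime, dm P = 0: X k ∈ P, otherwise the image of X k in K[x] ⧸ P is transcendental over K (a polynomial relation
splits into homogeneous components c X_k ^ n ∈ P), dm ≥ 1. So: P' ∋ pderiv (ext F), homogeneous; P = comap ext P' is homogeneous, contains
the partials of F, dm P = 0, X k ∈ P, X k ∈ P', dm P' = 0 (e3_dm_zero).
-/
theorem sg_ext0 {k E : Type} [Field k] [Field E] [Algebra k E] {n : ℕ}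
    (F : MvPolynomial (Fin n) k) (h : SgLe F 0) : SgLe (ext k E n F) 0 := by
  intro P' hh' hp'
  have hP : (P'.asIdeal.comap (ext k E n)).IsPrime := Ideal.comap_isPrime _ _
  have hh : HgI (P'.asIdeal.comap (ext k E n)) := by
    intro f hf d
    rw [Ideal.mem_comap] at hf ⊢
    rw [U1d_hc]
    exact hh' _ hf d
  have h1 : dm k (P'.asIdeal.comap (ext k E n)) = 0 := by
    have h2 := h ⟨P'.asIdeal.comap (ext k E n), hP⟩ hh (fun i => by
      change ext k E n (pderiv i F) ∈ P'.asIdeal
      have h3 : ext k E n (pderiv i F) = pderiv i (ext k E n F) := pderiv_map.symm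
      rw [h3]
      exact hp' i)
    exact Nat.le_zero.1 h2
  have h2 : ∀ i, (X i : MvPolynomial (Fin n) E) ∈ P'.asIdeal := by
    intro i
    have h3 := U1d_X _ hh h1 i
    rw [Ideal.mem_comap] at h3
    have h4 : ext k E n (X i) = X i := MvPolynomial.map_X _ _
    rwa [h4] at h3
  rw [e3_dm_zero _ h2]

end Pool.Agent.HCR
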