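import Pool.Agent.HCR.Defs

namespace Pool.Agent.HCR

open Pool.Agent.HCH Pool.Agent.HCF MvPolynomial

theorem U2a_pow_mem {E : Type} [Field E] [CharZero E] {n : ℕ} (P : PrimeSpectrum (MvPolynomial (Fin n) E))
    (D : ℕ) (hD : 2 ≤ D) (a : E) (ha : a ≠ 0) (k : Fin n)
    (h : C (a * (D : E)) * X k ^ (D - 1) ∈ P.asIdeal) : (X k : MvPolynomial (Fin n) E) ∈ P.asIdeal := by
  rcases P.isPrime.mem_or_mem h with h1 | h1
  · exfalso
    apply P.isPrime.ne_top
    refine Ideal.eq_top_of_isUnit_mem _ h1 ?_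
    refine IsUnit.map C (IsUnit.mk0 _ (mul_ne_zero ha ?_))
    exact_mod_cast (by omega : D ≠ 0)
  · exact P.isPrime.mem_of_pow_mem _ h1

/-
PROOF. F3 = X 0 ^ D + X 1 ^ D + C c * X 2 ^ D over E is homogeneous, SgLe F3 0 (the partials give X k ^ (D - 1) ∈ P, X k ∈ P, e3_dm_zero): prime_of_sg.
X 2 ∉ span {F3}; hm_surj: span {F3} = hm p, p = (hm p).map deh = span {deh F3}, deh F3 = X 0 ^ D + X 1 ^ D + C c.
-/
theorem curve_prime {E : Type} [Field E] [CharZero E] (D : ℕ) (hD : 2 ≤ D) (c : E) (hc : c ≠ 0) :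
    (Ideal.span {(X 0 ^ D + X 1 ^ D + C c : MvPolynomial (Fin 2) E)}).IsPrime := by
  set F : MvPolynomial (Fin 3) E := X 0 ^ D + X 1 ^ D + C c * X 2 ^ D with hFd
  have hF : F.IsHomogeneous D := by
    refine ((isHomogeneous_X_pow 0 D).add (isHomogeneous_X_pow 1 D)).add ?_
    have h1 := (isHomogeneous_C (Fin 3) c).mul (isHomogeneous_X_pow (R := E) (2 : Fin 3) D)
    rwa [zero_add] at h1
  have hp0 : pderiv 0 F = C ((1 : E) * (D : E)) * X 0 ^ (D - 1) := by
    rw [hFd]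
    simp only [map_add, Derivation.leibniz, Derivation.leibniz_pow, pderiv_X, pderiv_C, smul_eq_mul,
      nsmul_eq_mul]
    simp
  have hp1 : pderiv 1 F = C ((1 : E) * (D : E)) * X 1 ^ (D - 1) := by
    rw [hFd]
    simp only [map_add, Derivation.leibniz, Derivation.leibniz_pow, pderiv_X, pderiv_C, smul_eq_mul,
      nsmul_eq_mul]
    simp
  have hp2 : pderiv 2 F = C (c * (D : E)) * X 2 ^ (D - 1) := by
    rw [hFd]
    simp only [map_add, Derivation.leibniz, Derivation.leibniz_pow, pderiv_X, pderiv_C, smul_eq_mul,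
      nsmul_eq_mul]
    simp
    ring
  have hs : SgLe F 0 := by
    intro P _ hP
    rw [e3_dm_zero]
    intro k
    have h0 := hP 0
    have h1 := hP 1
    have h2 := hP 2
    rw [hp0] at h0
    rw [hp1] at h1
    rw [hp2] at h2
    fin_cases k
    · exact U2a_pow_mem P D hD 1 one_ne_zero 0 h0
    · exact U2a_pow_mem P D hD 1 one_ne_zero 1 h1
    · exact U2a_pow_mem P D hD c hc 2 h2
  obtain ⟨hpr, -⟩ := prime_of_sg F hF (by omega) 0 hs le_rfl
  have hF0 : F ≠ 0 := by
    intro h0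
    have h1 := congrArg (eval (![1, 0, 0] : Fin 3 → E)) h0
    rw [hFd] at h1
    simp [show D ≠ 0 by omega] at h1
  obtain ⟨hFh, -⟩ := form_span F hF (by omega)
  have hl : (X (Fin.last 2) : MvPolynomial (Fin 3) E) ∉ Ideal.span {F} := by
    intro h0
    rw [Ideal.mem_span_singleton] at h0
    obtain ⟨g, hg⟩ := h0
    have hX : (X (Fin.last 2) : MvPolynomial (Fin 3) E) ≠ 0 := X_ne_zero _
    have hg0 : g ≠ 0 := by
      rintro rfl
      rw [mul_zero] at hg
      exact hX hg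
    have h1 := totalDegree_mul_of_isDomain hF0 hg0
    rw [← hg, totalDegree_X, hF.totalDegree hF0] at h1
    omega
  obtain ⟨p, hp⟩ := hm_surj (⟨Ideal.span {F}, hpr⟩ : PrimeSpectrum (MvPolynomial (Fin 3) E)) hFh hl
  have h1 := map_hm p
  rw [hp] at h1
  have h2 : (Ideal.span {F}).map (deh : MvPolynomial (Fin 3) E →ₐ[E] MvPolynomial (Fin 2) E) = p.asIdeal := h1
  rw [Ideal.map_span, Set.image_singleton] at h2
  have h3 : deh F = (X 0 ^ D + X 1 ^ D + C c : MvPolynomial (Fin 2) E) := by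
    have e0 : deh (X 0 : MvPolynomial (Fin 3) E) = X 0 := deh_castSucc (K := E) (m := 2) 0
    have e1 : deh (X 1 : MvPolynomial (Fin 3) E) = X 1 := deh_castSucc (K := E) (m := 2) 1
    have e2 : deh (X 2 : MvPolynomial (Fin 3) E) = 1 := deh_last (K := E) (m := 2)
    rw [hFd, map_add, map_add, map_mul, map_pow, map_pow, map_pow, e0, e1, e2, one_pow, mul_one]
    congr 1
    exact algHom_C _ _
  rw [← h3, h2]
  exact p.isPrime

end Pool.Agent.HCR
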