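import Pool.Agent.HCR.U2a
import Pool.Agent.HCR.C2c

/-!
The hypersurface `f + y_0 ^ D + y_1 ^ D` over a subvariety not contained in `V(f)` is irreducible.
-/

namespace Pool.Agent.HCR

open Pool.Agent.HCH Pool.Agent.HCF MvPolynomial

/-- Clearing denominators in a polynomial. -/
theorem U2b_den {A S : Type} [CommRing A] [CommRing S] (ι : A →+* S) (M : Submonoid A)
    (H : ∀ x : S, ∃ c ∈ M, ∃ a : A, ι a = ι c * x) (h : Polynomial S) :
    ∃ c ∈ M, ∃ a : Polynomial A, a.map ι = Polynomial.C (ι c) * h := by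
  induction h using Polynomial.induction_on' with
  | add p q hp hq =>
    obtain ⟨c, hc, a, ha⟩ := hp
    obtain ⟨c', hc', a', ha'⟩ := hq
    refine ⟨c * c', M.mul_mem hc hc', Polynomial.C c' * a + Polynomial.C c * a', ?_⟩
    rw [Polynomial.map_add, Polynomial.map_mul, Polynomial.map_mul, ha, ha', Polynomial.map_C,
      Polynomial.map_C, map_mul ι, Polynomial.C_mul]
    ring
  | monomial n x =>
    obtain ⟨c, hc, a, ha⟩ := H x
    refine ⟨c, hc, Polynomial.monomial n a, ?_⟩
    rw [Polynomial.map_monomial, ha, Polynomial.C_mul_monomial]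

theorem U2b_curve {E : Type} [Field E] [CharZero E] (D : ℕ) (hD : 2 ≤ D) (c : E) (hc : c ≠ 0) :
    (Ideal.span {(Polynomial.C (Polynomial.C c) + Polynomial.C Polynomial.X ^ D +
      Polynomial.X ^ D : Polynomial (Polynomial E))}).IsPrime := by
  have h1 := curve_prime D hD c hc
  let e1 : MvPolynomial (Fin 2) E ≃ₐ[E] Polynomial (MvPolynomial (Fin 1) E) :=
    MvPolynomial.finSuccEquiv E 1
  let e2 : Polynomial (MvPolynomial (Fin 1) E) ≃ₐ[E] Polynomial (Polynomial E) :=
    Polynomial.mapAlgEquiv (MvPolynomial.uniqueAlgEquiv E (Fin 1))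
  have he2 : ∀ p, e2 p = p.map ((MvPolynomial.uniqueAlgEquiv E (Fin 1) :
      MvPolynomial (Fin 1) E →+* Polynomial E)) := fun p => rfl
  have hX0 : e1 (X 0) = Polynomial.X := MvPolynomial.finSuccEquiv_X_zero
  have hX1 : e1 (X 1) = Polynomial.C (X 0) := by
    have h01 : (1 : Fin 2) = (0 : Fin 1).succ := rfl
    rw [h01]
    exact MvPolynomial.finSuccEquiv_X_succ
  have hC : e1 (C c) = Polynomial.C (C c) := by
    have := e1.commutes c
    exact this
  have hu : (MvPolynomial.uniqueAlgEquiv E (Fin 1)) (X 0) = Polynomial.X := by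
    simp [MvPolynomial.uniqueAlgEquiv]
  have hg : (e1.trans e2) (X 0 ^ D + X 1 ^ D + C c) = Polynomial.C (Polynomial.C c) +
      Polynomial.C Polynomial.X ^ D + Polynomial.X ^ D := by
    have h0 : (e1.trans e2) (X 0 ^ D + X 1 ^ D + C c) = e2 Polynomial.X ^ D +
        e2 (Polynomial.C (X 0)) ^ D + e2 (Polynomial.C (C c)) := by
      rw [← hX0, ← hX1, ← hC, ← map_pow, ← map_pow, ← map_pow, ← map_pow, ← map_add, ← map_add,
        ← map_add, ← map_add]
      rfl
    rw [h0, he2, he2, he2, Polynomial.map_X, Polynomial.map_C, Polynomial.map_C]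
    have h2 : ((MvPolynomial.uniqueAlgEquiv E (Fin 1) : MvPolynomial (Fin 1) E →+* Polynomial E))
        (X 0) = Polynomial.X := hu
    have h3 : ((MvPolynomial.uniqueAlgEquiv E (Fin 1) : MvPolynomial (Fin 1) E →+* Polynomial E))
        (C c) = Polynomial.C c := (MvPolynomial.uniqueAlgEquiv E (Fin 1)).commutes c
    rw [h2, h3]
    ring
  have h4 := Ideal.map_isPrime_of_equiv (e1.trans e2) (I := Ideal.span {X 0 ^ D + X 1 ^ D + C c})
  rw [Ideal.map_span, Set.image_singleton] at h4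
  rw [← hg]
  exact h4

/-- The statement in the ring `A[X][Y]`, with a field `E` in the role of the residue field. -/
theorem U2b_main0 {K A E : Type} [Field K] [CommRing A] [Algebra K A]
    [Algebra.FiniteType K A] [Field E] [CharZero E] (D : ℕ) (hD : 2 ≤ D) (f : A)
    (p : PrimeSpectrum A) (hf : f ∉ p.asIdeal) (ι : A →+* E)
    (hker : ∀ a : A, ι a = 0 ↔ a ∈ p.asIdeal)
    (hden : ∀ x : E, ∃ c ∈ p.asIdeal.primeCompl, ∃ a : A, ι a = ι c * x) :
    ∃ T : PrimeSpectrum (Polynomial (Polynomial A)),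
      ∀ Q : PrimeSpectrum (Polynomial (Polynomial A)),
      (Polynomial.C (Polynomial.C f) + Polynomial.C Polynomial.X ^ D + Polynomial.X ^ D :
        Polynomial (Polynomial A)) ∈ Q.asIdeal →
      (∀ a : A, Polynomial.C (Polynomial.C a) ∈ Q.asIdeal ↔ a ∈ p.asIdeal) →
      dm K Q.asIdeal = dm K p.asIdeal + 1 → Q = T := by
  have hpp := p.isPrime
  set φ : Polynomial (Polynomial A) →+* Polynomial (Polynomial E) :=
    Polynomial.mapRingHom (Polynomial.mapRingHom ι) with hφ
  set g : Polynomial (Polynomial A) := Polynomial.C (Polynomial.C f) +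
    Polynomial.C Polynomial.X ^ D + Polynomial.X ^ D with hg
  set G : Polynomial (Polynomial E) := Polynomial.C (Polynomial.C (ι f)) +
    Polynomial.C Polynomial.X ^ D + Polynomial.X ^ D with hG
  have hφCC : ∀ a : A, φ (Polynomial.C (Polynomial.C a)) = Polynomial.C (Polynomial.C (ι a)) := by
    intro a
    rw [hφ, Polynomial.coe_mapRingHom, Polynomial.map_C, Polynomial.coe_mapRingHom,
      Polynomial.map_C]
  have hφg : φ g = G := by
    rw [hg, hG, map_add, map_add, map_pow, map_pow, hφCC]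
    congr 1
    · congr 1
      rw [hφ, Polynomial.coe_mapRingHom, Polynomial.map_C, Polynomial.coe_mapRingHom,
        Polynomial.map_X]
    · rw [hφ, Polynomial.coe_mapRingHom, Polynomial.map_X]
  have hιf : ι f ≠ 0 := fun h => hf ((hker f).1 h)
  have hprime : (Ideal.span {G}).IsPrime := U2b_curve D hD (ι f) hιf
  set T : PrimeSpectrum (Polynomial (Polynomial A)) :=
    PrimeSpectrum.comap φ ⟨Ideal.span {G}, hprime⟩ with hT
  have hTmem : ∀ r, r ∈ T.asIdeal ↔ φ r ∈ Ideal.span {G} := fun r => Iff.rfl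
  -- the kernel
  have hkφ : ∀ r, φ r = 0 ↔ r ∈ (cylP (cylP p)).asIdeal := by
    intro r
    rw [mem_cylP]
    constructor
    · intro h n
      rw [mem_cylP]
      intro k
      rw [← hker]
      have h1 := congrArg (fun P : Polynomial (Polynomial E) => (P.coeff n).coeff k) h
      simp only [hφ, Polynomial.coe_mapRingHom, Polynomial.coeff_map, Polynomial.coeff_zero] at h1
      exact h1
    · intro h
      apply Polynomial.ext
      intro n
      apply Polynomial.ext
      intro k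
      have h1 := h n
      rw [mem_cylP] at h1
      have h2 := (hker _).2 (h1 k)
      simp only [hφ, Polynomial.coe_mapRingHom, Polynomial.coeff_map, Polynomial.coeff_zero]
      exact h2
  have hWT : (cylP (cylP p)).asIdeal ≤ T.asIdeal := by
    intro r hr
    rw [hTmem, (hkφ r).2 hr]
    exact Ideal.zero_mem _
  have hgT : g ∈ T.asIdeal := by
    rw [hTmem, hφg]
    exact Ideal.mem_span_singleton_self G
  have hgW : g ∉ (cylP (cylP p)).asIdeal := by
    intro h
    rw [mem_cylP] at h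
    have h1 := h D
    rw [mem_cylP] at h1
    have h2 := h1 0
    have h3 : (g.coeff D) = 1 := by
      rw [hg, Polynomial.coeff_add, Polynomial.coeff_add, Polynomial.coeff_C, if_neg (by omega),
        ← Polynomial.C_pow, Polynomial.coeff_C, if_neg (by omega), Polynomial.coeff_X_pow,
        if_pos rfl, zero_add, zero_add]
    rw [h3, Polynomial.coeff_one, if_pos rfl] at h2
    exact hpp.ne_top ((Ideal.eq_top_iff_one _).2 h2)
  have hdW : dm K (cylP (cylP p)).asIdeal = dm K p.asIdeal + 2 :=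
    dm_cylP (K := K) _ (cylP p) (dm_cylP (K := K) _ p rfl)
  have hdT : dm K T.asIdeal < dm K (cylP (cylP p)).asIdeal := by
    have := T.isPrime
    have := (cylP (cylP p)).isPrime
    exact dm_lt _ _ (lt_of_le_of_ne hWT (fun h => hgW (h ▸ hgT)))
  refine ⟨T, fun Q hQg hQp hQd => ?_⟩
  have hWQ : (cylP (cylP p)).asIdeal ≤ Q.asIdeal := by
    change (cylP p).asIdeal.map Polynomial.C ≤ _
    rw [Ideal.map_le_iff_le_comap]
    change p.asIdeal.map Polynomial.C ≤ _
    rw [Ideal.map_le_iff_le_comap]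
    intro a ha
    exact (hQp a).2 ha
  have hTQ : T.asIdeal ≤ Q.asIdeal := by
    intro r hr
    obtain ⟨h, hh⟩ := Ideal.mem_span_singleton.1 ((hTmem r).1 hr)
    obtain ⟨c, hc, a, ha⟩ := U2b_den (Polynomial.mapRingHom ι)
      (p.asIdeal.primeCompl.map (Polynomial.C : A →+* Polynomial A)) (by
        intro x
        obtain ⟨c, hc, a, ha⟩ := U2b_den ι p.asIdeal.primeCompl hden x
        refine ⟨Polynomial.C c, ⟨c, hc, rfl⟩, a, ?_⟩
        rw [Polynomial.coe_mapRingHom, ha, Polynomial.map_C]) h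
    obtain ⟨c, hc, rfl⟩ := hc
    have h1 : φ (Polynomial.C (Polynomial.C c) * r - a * g) = 0 := by
      have h2 : φ a = Polynomial.C (Polynomial.C (ι c)) * h := by
        rw [hφ, Polynomial.coe_mapRingHom, ha, Polynomial.coe_mapRingHom]
        congr 2
        exact Polynomial.map_C ι
      rw [map_sub, map_mul, map_mul, hφCC, hh, hφg, h2]
      ring
    have h2 := hWQ ((hkφ _).1 h1)
    have h3 : Polynomial.C (Polynomial.C c) * r ∈ Q.asIdeal := by
      have := Q.asIdeal.add_mem h2 (Q.asIdeal.mul_mem_left a hQg)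
      rwa [sub_add_cancel] at this
    rcases Q.isPrime.mem_or_mem h3 with h4 | h4
    · exact absurd ((hQp c).1 h4) hc
    · exact h4
  have := T.isPrime
  have := Q.isPrime
  apply PrimeSpectrum.ext
  exact (eq_of_dm_le (K := K) T.asIdeal Q.asIdeal hTQ (by omega)).symm

/-- The statement in the ring `A[X][Y]`. -/
theorem U2b_main {K A : Type} [Field K] [CharZero K] [CommRing A] [Algebra K A]
    [Algebra.FiniteType K A] (D : ℕ) (hD : 2 ≤ D) (f : A) (p : PrimeSpectrum A)
    (hf : f ∉ p.asIdeal) : ∃ T : PrimeSpectrum (Polynomial (Polynomial A)),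
      ∀ Q : PrimeSpectrum (Polynomial (Polynomial A)),
      (Polynomial.C (Polynomial.C f) + Polynomial.C Polynomial.X ^ D + Polynomial.X ^ D :
        Polynomial (Polynomial A)) ∈ Q.asIdeal →
      (∀ a : A, Polynomial.C (Polynomial.C a) ∈ Q.asIdeal ↔ a ∈ p.asIdeal) →
      dm K Q.asIdeal = dm K p.asIdeal + 1 → Q = T := by
  have hpp := p.isPrime
  have hcE : CharZero (FractionRing (A ⧸ p.asIdeal)) :=
    charZero_of_injective_algebraMap (algebraMap K (FractionRing (A ⧸ p.asIdeal))).injective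
  have hker : ∀ a : A, ((algebraMap (A ⧸ p.asIdeal) (FractionRing (A ⧸ p.asIdeal))).comp
      (Ideal.Quotient.mk p.asIdeal)) a = 0 ↔ a ∈ p.asIdeal := by
    intro a
    rw [RingHom.comp_apply, map_eq_zero_iff _ (IsFractionRing.injective (A ⧸ p.asIdeal)
      (FractionRing (A ⧸ p.asIdeal))), Ideal.Quotient.eq_zero_iff_mem]
  have hden : ∀ x : FractionRing (A ⧸ p.asIdeal), ∃ c ∈ p.asIdeal.primeCompl, ∃ a : A,
      ((algebraMap (A ⧸ p.asIdeal) (FractionRing (A ⧸ p.asIdeal))).comp
        (Ideal.Quotient.mk p.asIdeal)) a =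
      ((algebraMap (A ⧸ p.asIdeal) (FractionRing (A ⧸ p.asIdeal))).comp
        (Ideal.Quotient.mk p.asIdeal)) c * x := by
    intro x
    obtain ⟨⟨n, d⟩, hnd⟩ := IsLocalization.surj (nonZeroDivisors (A ⧸ p.asIdeal)) x
    obtain ⟨a, ha⟩ := Ideal.Quotient.mk_surjective n
    obtain ⟨c, hc⟩ := Ideal.Quotient.mk_surjective (d : A ⧸ p.asIdeal)
    refine ⟨c, ?_, a, ?_⟩
    · intro hcp
      apply nonZeroDivisors.ne_zero d.2
      rw [← hc]
      exact Ideal.Quotient.eq_zero_iff_mem.2 hcp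
    · rw [RingHom.comp_apply, RingHom.comp_apply, ha, hc, mul_comm]
      exact hnd.symm
  exact U2b_main0 D hD f p hf _ hker hden

/-- Transport of uniqueness along an isomorphism of algebras. -/
theorem U2b_transport {K A B S : Type} [Field K] [CommRing B] [CommRing S] [Algebra K B]
    [Algebra K S] (ψ : B ≃ₐ[K] S) (i : A → B) (j : A → S) (hij : ∀ a, ψ (i a) = j a) (g : B)
    (γ : S) (hg : ψ g = γ) (p : Set A) (d : ℕ) (T : PrimeSpectrum S)
    (hT : ∀ Q : PrimeSpectrum S, γ ∈ Q.asIdeal → (∀ a, j a ∈ Q.asIdeal ↔ a ∈ p) →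
      dm K Q.asIdeal = d → Q = T) (P P' : PrimeSpectrum B) (h : g ∈ P.asIdeal)
    (h' : g ∈ P'.asIdeal) (hp : ∀ a, i a ∈ P.asIdeal ↔ a ∈ p)
    (hp' : ∀ a, i a ∈ P'.asIdeal ↔ a ∈ p) (hd : dm K P.asIdeal = d)
    (hd' : dm K P'.asIdeal = d) : P = P' := by
  have key : ∀ P : PrimeSpectrum B, g ∈ P.asIdeal → (∀ a, i a ∈ P.asIdeal ↔ a ∈ p) →
      dm K P.asIdeal = d → PrimeSpectrum.comap ((ψ.symm : S →ₐ[K] B) : S →+* B) P = T := by
    intro P h hp hd
    apply hT
    · change ψ.symm γ ∈ P.asIdeal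
      rw [← hg, AlgEquiv.symm_apply_apply]
      exact h
    · intro a
      change ψ.symm (j a) ∈ P.asIdeal ↔ _
      rw [← hij a, AlgEquiv.symm_apply_apply]
      exact hp a
    · rw [← hd]
      exact dm_comap (ψ.symm : S →ₐ[K] B) ψ.symm.surjective P.asIdeal
  have h1 := (key P h hp hd).trans (key P' h' hp' hd').symm
  apply PrimeSpectrum.ext
  ext r
  have h2 : ψ r ∈ (PrimeSpectrum.comap ((ψ.symm : S →ₐ[K] B) : S →+* B) P).asIdeal ↔
      ψ r ∈ (PrimeSpectrum.comap ((ψ.symm : S →ₐ[K] B) : S →+* B) P').asIdeal := by rw [h1]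
  change ψ.symm (ψ r) ∈ P.asIdeal ↔ ψ.symm (ψ r) ∈ P'.asIdeal at h2
  rw [AlgEquiv.symm_apply_apply] at h2
  exact h2

theorem susp_unique {K : Type} [Field K] [CharZero K] {m : ℕ} (D : ℕ) (hD : 2 ≤ D)
    (f : MvPolynomial (Fin m) K) (p : PrimeSpectrum (MvPolynomial (Fin m) K))
    (hf : f ∉ p.asIdeal) (P P' : PrimeSpectrum (MvPolynomial (Fin (m + 2)) K))
    (h : suspA D f ∈ P.asIdeal) (h' : suspA D f ∈ P'.asIdeal)
    (hp : P.asIdeal.comap (rename (Fin.succ ∘ Fin.succ) : MvPolynomial (Fin m) K →ₐ[K] _) = p.asIdeal)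
    (hp' : P'.asIdeal.comap (rename (Fin.succ ∘ Fin.succ) : MvPolynomial (Fin m) K →ₐ[K] _) =
      p.asIdeal) (hd : dm K P.asIdeal = dm K p.asIdeal + 1)
    (hd' : dm K P'.asIdeal = dm K p.asIdeal + 1) : P = P' := by
  obtain ⟨ψ, hψ, -⟩ := exists_equiv2 (K := K) m
  have hψr : ∀ r : MvPolynomial (Fin m) K, ψ (rename (Fin.succ ∘ Fin.succ) r) =
      Polynomial.C (Polynomial.C r) := by
    intro r
    have h1 := hψ D r
    have h2 := hψ D (0 : MvPolynomial (Fin m) K)
    have h3 : rename (Fin.succ ∘ Fin.succ) r = suspA D r - suspA D (0 : MvPolynomial (Fin m) K) := by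
      unfold suspA
      rw [map_zero]
      ring
    rw [h3, map_sub, h1, h2, map_zero, map_zero]
    ring
  obtain ⟨T, hT⟩ := U2b_main (K := K) D hD f p hf
  exact U2b_transport ψ (rename (Fin.succ ∘ Fin.succ)) (fun r => Polynomial.C (Polynomial.C r))
    hψr (suspA D f) _ (hψ D f) (p.asIdeal : Set (MvPolynomial (Fin m) K)) _ T hT P P' h h'
    (fun a => by rw [SetLike.mem_coe, ← hp]; rfl) (fun a => by rw [SetLike.mem_coe, ← hp']; rfl)
    hd hd'

end Pool.Agent.HCR
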