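import Pool.Agent.HCR.U2b
import Pool.Agent.HCR.U1c
import Pool.Agent.HCR.T1g

/-!
The twisted suspension `f + (1 + t ^ D) x ^ D` over a subvariety defined over the base field.
-/

namespace Pool.Agent.HCR

open Pool.Agent.HCH Pool.Agent.HCF MvPolynomial

theorem U2c_rename {k : Type} [Field k] {m : ℕ} (r : MvPolynomial (Fin m) k) :
    MvPolynomial.finSuccEquiv k m (rename Fin.succ r) = Polynomial.C r := by
  have hC : ∀ a : k, MvPolynomial.finSuccEquiv k m (C a) = Polynomial.C (C a) :=
    fun a => (MvPolynomial.finSuccEquiv k m).commutes a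
  induction r using MvPolynomial.induction_on with
  | C a => rw [rename_C, hC]
  | add a b ha hb => rw [map_add, map_add, ha, hb, Polynomial.C_add]
  | mul_X a n ha =>
    rw [map_mul, map_mul, ha, rename_X, MvPolynomial.finSuccEquiv_X_succ, Polynomial.C_mul]

/-- A prime containing a polynomial which does not vanish on the cylinder over its contraction has
at most the dimension of the contraction. -/
theorem U2c_dm {k : Type} [Field k] {m : ℕ}
    (q : PrimeSpectrum (MvPolynomial (Fin (m + 1)) k)) (q₁ : PrimeSpectrum (MvPolynomial (Fin m) k))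
    (hq₁ : ∀ r, r ∈ q₁.asIdeal ↔ rename Fin.succ r ∈ q.asIdeal)
    (g : MvPolynomial (Fin (m + 1)) k) (hg : g ∈ q.asIdeal) (n : ℕ)
    (hn : (MvPolynomial.finSuccEquiv k m g).coeff n ∉ q₁.asIdeal) :
    dm k q.asIdeal ≤ dm k q₁.asIdeal := by
  have hs : ∀ r, MvPolynomial.finSuccEquiv k m (rename Fin.succ r) = Polynomial.C r := by
    intro r
    exact U2c_rename r
  set Q : PrimeSpectrum (Polynomial (MvPolynomial (Fin m) k)) :=
    PrimeSpectrum.comap (((MvPolynomial.finSuccEquiv k m).symm :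
      Polynomial (MvPolynomial (Fin m) k) →ₐ[k] MvPolynomial (Fin (m + 1)) k) :
      Polynomial (MvPolynomial (Fin m) k) →+* MvPolynomial (Fin (m + 1)) k) q with hQ
  have hQm : ∀ r, r ∈ Q.asIdeal ↔ (MvPolynomial.finSuccEquiv k m).symm r ∈ q.asIdeal :=
    fun r => Iff.rfl
  have hd : dm k Q.asIdeal = dm k q.asIdeal :=
    dm_comap (((MvPolynomial.finSuccEquiv k m).symm :
      Polynomial (MvPolynomial (Fin m) k) →ₐ[k] MvPolynomial (Fin (m + 1)) k))
      (MvPolynomial.finSuccEquiv k m).symm.surjective q.asIdeal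
  have hle : (cylP q₁).asIdeal ≤ Q.asIdeal := by
    change q₁.asIdeal.map Polynomial.C ≤ _
    rw [Ideal.map_le_iff_le_comap]
    intro r hr
    change Polynomial.C r ∈ Q.asIdeal
    rw [hQm, ← hs, AlgEquiv.symm_apply_apply]
    exact (hq₁ r).1 hr
  have hgQ : MvPolynomial.finSuccEquiv k m g ∈ Q.asIdeal := by
    rw [hQm, AlgEquiv.symm_apply_apply]
    exact hg
  have hgc : MvPolynomial.finSuccEquiv k m g ∉ (cylP q₁).asIdeal := by
    rw [mem_cylP]
    exact fun h => hn (h n)
  have h1 := (cylP q₁).isPrime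
  have h2 := Q.isPrime
  have h3 : dm k Q.asIdeal < dm k (cylP q₁).asIdeal :=
    dm_lt _ _ (lt_of_le_of_ne hle (fun h => hgc (h ▸ hgQ)))
  rw [dm_cylP (K := k) _ q₁ rfl, hd] at h3
  omega

theorem U2c_base {K : Type} [Field K] [IsAlgClosed K] {m : ℕ} (D : ℕ) (hD : 1 ≤ D)
    (f : MvPolynomial (Fin m) K) (p : PrimeSpectrum (MvPolynomial (Fin m) K))
    (q : PrimeSpectrum (MvPolynomial (Fin (m + 1)) (RatFunc K)))
    (ht : (1 + (RatFunc.X : RatFunc K) ^ D) ≠ 0)
    (h : tw D f ∈ q.asIdeal)
    (hp : ∀ r ∈ p.asIdeal, rename Fin.succ (ext K (RatFunc K) m r) ∈ q.asIdeal)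
    (hd : dm (RatFunc K) q.asIdeal = dm K p.asIdeal)
    (r : MvPolynomial (Fin m) (RatFunc K)) :
    rename Fin.succ r ∈ q.asIdeal ↔ r ∈ (bc (RatFunc K) p).asIdeal := by
  set q₁ : PrimeSpectrum (MvPolynomial (Fin m) (RatFunc K)) :=
    PrimeSpectrum.comap ((rename Fin.succ : MvPolynomial (Fin m) (RatFunc K) →ₐ[RatFunc K] _) :
      MvPolynomial (Fin m) (RatFunc K) →+* MvPolynomial (Fin (m + 1)) (RatFunc K)) q with hq₁
  have hm : ∀ r, r ∈ q₁.asIdeal ↔ rename Fin.succ r ∈ q.asIdeal := fun r => Iff.rfl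
  have hle : p.asIdeal ≤ q₁.asIdeal.comap (ext K (RatFunc K) m) := by
    intro r hr
    exact hp r hr
  have hc : ((MvPolynomial.finSuccEquiv (RatFunc K) m) (tw D f)).coeff D =
      C (1 + (RatFunc.X : RatFunc K) ^ D) := by
    unfold tw
    rw [map_add, map_mul, map_pow, U2c_rename,
      MvPolynomial.finSuccEquiv_X_zero, Polynomial.coeff_add, Polynomial.coeff_C,
      if_neg (by omega), zero_add]
    have h1 : (MvPolynomial.finSuccEquiv (RatFunc K) m) (C (1 + (RatFunc.X : RatFunc K) ^ D)) =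
        Polynomial.C (C (1 + (RatFunc.X : RatFunc K) ^ D)) :=
      (MvPolynomial.finSuccEquiv (RatFunc K) m).commutes _
    rw [h1, Polynomial.coeff_C_mul, Polynomial.coeff_X_pow, if_pos rfl, mul_one]
  have hd1 : dm (RatFunc K) q.asIdeal ≤ dm (RatFunc K) q₁.asIdeal := by
    refine U2c_dm q q₁ hm (tw D f) h D ?_
    rw [hc]
    intro hmem
    apply q₁.isPrime.ne_top
    rw [Ideal.eq_top_iff_one]
    have h2 := q₁.asIdeal.mul_mem_left (C (1 + (RatFunc.X : RatFunc K) ^ D)⁻¹) hmem
    rw [← C_mul, inv_mul_cancel₀ ht, C_1] at h2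
    exact h2
  have hd2 : dm (RatFunc K) q₁.asIdeal ≤ dm K p.asIdeal := by
    rw [← dm_bc (L := RatFunc K) p]
    have := (bc (RatFunc K) p).isPrime
    have := q₁.isPrime
    apply dm_le
    change p.asIdeal.map (ext K (RatFunc K) m) ≤ _
    rw [Ideal.map_le_iff_le_comap]
    exact hle
  have he : q₁ = bc (RatFunc K) p := bc_unique p q₁ hle (by omega)
  rw [← hm, he]

theorem tw_unique {K : Type} [Field K] [IsAlgClosed K] [CharZero K] {m : ℕ} (D : ℕ) (hD : 2 ≤ D)
    (f : MvPolynomial (Fin m) K) (p : PrimeSpectrum (MvPolynomial (Fin m) K))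
    (q q' : PrimeSpectrum (MvPolynomial (Fin (m + 1)) (RatFunc K)))
    (h : tw D f ∈ q.asIdeal) (h' : tw D f ∈ q'.asIdeal)
    (hp : ∀ r ∈ p.asIdeal, rename Fin.succ (ext K (RatFunc K) m r) ∈ q.asIdeal)
    (hp' : ∀ r ∈ p.asIdeal, rename Fin.succ (ext K (RatFunc K) m r) ∈ q'.asIdeal)
    (hd : dm (RatFunc K) q.asIdeal = dm K p.asIdeal)
    (hd' : dm (RatFunc K) q'.asIdeal = dm K p.asIdeal) : q = q' := by
  have ht : (1 + (RatFunc.X : RatFunc K) ^ D) ≠ 0 := by
    have h1 : (1 + (RatFunc.X : RatFunc K) ^ D) =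
        algebraMap (Polynomial K) (RatFunc K) (1 + Polynomial.X ^ D) := by
      rw [map_add, map_pow, map_one, RatFunc.algebraMap_X]
    rw [h1]
    intro h2
    rw [map_eq_zero_iff _ (RatFunc.algebraMap_injective K)] at h2
    have h3 := congrArg (fun P : Polynomial K => P.coeff D) h2
    simp only [Polynomial.coeff_add, Polynomial.coeff_one, Polynomial.coeff_X_pow,
      Polynomial.coeff_zero, if_true] at h3
    rw [if_neg (by omega), zero_add] at h3
    exact one_ne_zero h3
  have hb := U2c_base D (by omega) f p q ht h hp hd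
  have hb' := U2c_base D (by omega) f p q' ht h' hp' hd'
  have hC : ∀ Q : PrimeSpectrum (MvPolynomial (Fin (m + 1)) (RatFunc K)),
      C (1 + (RatFunc.X : RatFunc K) ^ D) * X 0 ^ D ∈ Q.asIdeal → X 0 ∈ Q.asIdeal := by
    intro Q hQ
    have h2 := Q.asIdeal.mul_mem_left (C (1 + (RatFunc.X : RatFunc K) ^ D)⁻¹) hQ
    rw [← mul_assoc, ← C_mul, inv_mul_cancel₀ ht, C_1, one_mul] at h2
    exact Q.isPrime.mem_of_pow_mem _ h2
  by_cases hf : f ∈ p.asIdeal
  · have key : ∀ Q : PrimeSpectrum (MvPolynomial (Fin (m + 1)) (RatFunc K)),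
        tw D f ∈ Q.asIdeal →
        (∀ r ∈ p.asIdeal, rename Fin.succ (ext K (RatFunc K) m r) ∈ Q.asIdeal) →
        (∀ r : MvPolynomial (Fin m) (RatFunc K), rename Fin.succ r ∈ Q.asIdeal ↔
          r ∈ (bc (RatFunc K) p).asIdeal) → ∀ g, g ∈ Q.asIdeal ↔
          aeval (Fin.cases 0 X : Fin (m + 1) → MvPolynomial (Fin m) (RatFunc K)) g ∈
            (bc (RatFunc K) p).asIdeal := by
      intro Q hQ hQp hQb g
      have hX : X 0 ∈ Q.asIdeal := by
        apply hC
        have h3 := Q.asIdeal.sub_mem hQ (hQp f hf)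
        unfold tw at h3
        rwa [add_sub_cancel_left] at h3
      rw [← hQb]
      have h4 : ∀ g : MvPolynomial (Fin (m + 1)) (RatFunc K), g - rename Fin.succ
          (aeval (Fin.cases 0 X : Fin (m + 1) → MvPolynomial (Fin m) (RatFunc K)) g) ∈
            Q.asIdeal := by
        intro g
        induction g using MvPolynomial.induction_on with
        | C a =>
          have : (aeval (Fin.cases 0 X : Fin (m + 1) → MvPolynomial (Fin m) (RatFunc K)))
              (C a : MvPolynomial (Fin (m + 1)) (RatFunc K)) = C a := by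
            rw [aeval_C]
            rfl
          rw [this, rename_C, sub_self]
          exact Q.asIdeal.zero_mem
        | add a b ha hb =>
          rw [map_add, map_add]
          have := Q.asIdeal.add_mem ha hb
          convert this using 1
          ring
        | mul_X a n ha =>
          rw [map_mul, map_mul, aeval_X]
          refine Fin.cases ?_ (fun n => ?_) n
          · rw [Fin.cases_zero, map_zero, mul_zero, sub_zero]
            exact Q.asIdeal.mul_mem_left _ hX
          · rw [Fin.cases_succ, rename_X]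
            have := Q.asIdeal.mul_mem_right (X n.succ) ha
            convert this using 1
            ring
      constructor
      · intro hg
        have := Q.asIdeal.sub_mem hg (h4 g)
        rwa [sub_sub_cancel] at this
      · intro hg
        have := Q.asIdeal.add_mem (h4 g) hg
        rwa [sub_add_cancel] at this
    apply PrimeSpectrum.ext
    ext g
    rw [key q h hp hb, key q' h' hp' hb']
  · have key : ∀ Q : PrimeSpectrum (MvPolynomial (Fin (m + 1)) (RatFunc K)),
        tw D f ∈ Q.asIdeal →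
        (∀ r : MvPolynomial (Fin m) (RatFunc K), rename Fin.succ r ∈ Q.asIdeal ↔
          r ∈ (bc (RatFunc K) p).asIdeal) → X 0 ∉ Q.asIdeal ∧
          suspA D f ∈ (PrimeSpectrum.comap (theta K m) Q).asIdeal ∧
          (PrimeSpectrum.comap (theta K m) Q).asIdeal.comap (rename (Fin.succ ∘ Fin.succ) :
            MvPolynomial (Fin m) K →ₐ[K] _) = p.asIdeal := by
      intro Q hQ hQb
      have hr : ∀ r : MvPolynomial (Fin m) K,
          rename Fin.succ (ext K (RatFunc K) m r) ∈ Q.asIdeal ↔ r ∈ p.asIdeal := by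
        intro r
        rw [hQb]
        change r ∈ (p.asIdeal.map (ext K (RatFunc K) m)).comap (ext K (RatFunc K) m) ↔ _
        rw [comap_map_ext]
      refine ⟨?_, ?_, ?_⟩
      · intro hX
        apply hf
        rw [← hr]
        have h3 := Q.asIdeal.sub_mem hQ (Q.asIdeal.mul_mem_left
          (C (1 + (RatFunc.X : RatFunc K) ^ D)) (Q.asIdeal.pow_mem_of_mem hX D (by omega)))
        unfold tw at h3
        rwa [add_sub_cancel_right] at h3
      · change theta K m (suspA D f) ∈ Q.asIdeal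
        rw [theta_suspA]
        exact hQ
      · ext r
        change theta K m (rename (Fin.succ ∘ Fin.succ) r) ∈ Q.asIdeal ↔ _
        rw [T1a_theta_rename, hr]
    obtain ⟨k1, k2, k3⟩ := key q h hb
    obtain ⟨l1, l2, l3⟩ := key q' h' hb'
    apply theta_inj q q' k1 l1
    refine susp_unique D hD f p hf _ _ k2 l2 k3 l3 ?_ ?_
    · rw [dm_theta q k1, hd]
    · rw [dm_theta q' l1, hd']

end Pool.Agent.HCR
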