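import Pool.Agent.HCR.U2c
import Pool.Agent.HCR.U1e

namespace Pool.Agent.HCR

open Pool.Agent.HCH Pool.Agent.HCF MvPolynomial

theorem U2d_fs {k : Type} [Field k] {m : ℕ} (s : MvPolynomial (Fin m) k) :
    MvPolynomial.finSuccEquiv k m (rename Fin.succ s) = Polynomial.C s := by
  have h : ((MvPolynomial.finSuccEquiv k m : MvPolynomial (Fin (m + 1)) k →ₐ[k] _).comp
      (rename Fin.succ : MvPolynomial (Fin m) k →ₐ[k] MvPolynomial (Fin (m + 1)) k)) =
      (IsScalarTower.toAlgHom k (MvPolynomial (Fin m) k) (Polynomial (MvPolynomial (Fin m) k))) := by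
    apply MvPolynomial.algHom_ext
    intro i
    show MvPolynomial.finSuccEquiv k m (rename Fin.succ (X i)) = _
    rw [rename_X, MvPolynomial.finSuccEquiv_X_succ]
    rfl
  exact congrArg (fun g : MvPolynomial (Fin m) k →ₐ[k] Polynomial (MvPolynomial (Fin m) k) => g s) h

theorem U2d_fsC {k : Type} [Field k] {m : ℕ} (a : k) :
    MvPolynomial.finSuccEquiv k m (C a) = Polynomial.C (C a) := by
  have h := U2d_fs (m := m) (C a : MvPolynomial (Fin m) k)
  rw [rename_C] at h
  exact h

theorem U2d_ne {K : Type} [Field K] (D : ℕ) (hD : 1 ≤ D) : (1 + (RatFunc.X : RatFunc K) ^ D) ≠ 0 := by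
  have h1 : (1 + (RatFunc.X : RatFunc K) ^ D) = algebraMap (Polynomial K) (RatFunc K) (1 + Polynomial.X ^ D) := by
    rw [map_add, map_one, map_pow, RatFunc.algebraMap_X]
  rw [h1]
  intro h2
  have h3 : (1 + Polynomial.X ^ D : Polynomial K) = 0 :=
    (map_eq_zero_iff _ (IsFractionRing.injective (Polynomial K) (RatFunc K))).1 h2
  have h4 := congrArg (fun r : Polynomial K => r.coeff D) h3
  simp only [Polynomial.coeff_add, Polynomial.coeff_one, Polynomial.coeff_X_pow, Polynomial.coeff_zero, if_true] at h4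
  rw [if_neg (by omega), zero_add] at h4
  exact one_ne_zero h4

theorem U2d_mlt {R : Type} [CommRing R] (J : Ideal R) (P : PrimeSpectrum R) (h : J ≤ P.asIdeal) : mlt J P ≠ 0 := by
  unfold mlt
  rw [Ne, Module.length_eq_zero_iff]
  intro hs
  have h1 : J.map (algebraMap R (Localization.AtPrime P.asIdeal)) = ⊤ := by
    have := Ideal.Quotient.subsingleton_iff.1 hs
    exact this
  have h2 : J.map (algebraMap R (Localization.AtPrime P.asIdeal)) ≤
      IsLocalRing.maximalIdeal (Localization.AtPrime P.asIdeal) := by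
    have h3 : Ideal.comap (algebraMap R (Localization.AtPrime P.asIdeal))
        (IsLocalRing.maximalIdeal (Localization.AtPrime P.asIdeal)) = P.asIdeal :=
      Localization.AtPrime.under_maximalIdeal
    rw [Ideal.map_le_iff_le_comap, h3]
    exact h
  rw [h1, top_le_iff] at h2
  exact (IsLocalRing.maximalIdeal.isMaximal (Localization.AtPrime P.asIdeal)).ne_top h2

/-
PROOF. k = RatFunc K, e = dm p. W = the cylinder over bc k p in k[X 0, x]: W = comap (finSuccEquiv) (cylP (bc k p)), dm W = e + 1 (dm_bc, dm_cylP), W ≤ q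
and tw D f ∉ W (the coefficient of X 0 ^ D is the unit 1 + t ^ D). v = fdiv k W (tw D f) e: every prime in its support contains W and
tw D f and has dimension e (fdiv_supp), so is q by tw_unique: v = v q • single q 1; v q = od > 0 as W ⊔ span {tw D f} ≤ q and the
length is finite (mlt_ne_top) and nonzero. gys_tors' (e + 1 < m + 1).
-/
/-- Constant cycles on the twisted hypersurface are torsion. -/
theorem cst_tors {K : Type} [Field K] [IsAlgClosed K] [CharZero K] {m : ℕ} (D : ℕ) (hD : 2 ≤ D)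
    (f : MvPolynomial (Fin m) K) (p : PrimeSpectrum (MvPolynomial (Fin m) K)) (e : ℕ)
    (he : e < m) (hpe : dm K p.asIdeal = e)
    (q : PrimeSpectrum (MvPolynomial (Fin (m + 1)) (RatFunc K)))
    (h : tw D f ∈ q.asIdeal)
    (hp : ∀ r ∈ p.asIdeal, rename Fin.succ (ext K (RatFunc K) m r) ∈ q.asIdeal)
    (hd : dm (RatFunc K) q.asIdeal = e) :
    ∃ N : ℕ, 0 < N ∧ (N : ℤ) • Finsupp.single q (1 : ℤ) ∈
      Rt (RatFunc K) (Ideal.span {tw D f}) e := by
  have cR : CharZero (RatFunc K) := charZero_of_injective_algebraMap (algebraMap K _).injective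
  set p' : PrimeSpectrum (MvPolynomial (Fin m) (RatFunc K)) := bc (RatFunc K) p with hp'
  have hdp' : dm (RatFunc K) p'.asIdeal = e := by rw [hp', dm_bc, hpe]
  set φ : MvPolynomial (Fin (m + 1)) (RatFunc K) →ₐ[RatFunc K] Polynomial (MvPolynomial (Fin m) (RatFunc K)) :=
    (MvPolynomial.finSuccEquiv (RatFunc K) m : MvPolynomial (Fin (m + 1)) (RatFunc K) →ₐ[RatFunc K]
      Polynomial (MvPolynomial (Fin m) (RatFunc K))) with hφ
  have hφs : Function.Surjective φ := (MvPolynomial.finSuccEquiv (RatFunc K) m).surjective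
  set W : PrimeSpectrum (MvPolynomial (Fin (m + 1)) (RatFunc K)) :=
    PrimeSpectrum.comap (φ : MvPolynomial (Fin (m + 1)) (RatFunc K) →+* _) (cylP p') with hW
  have hWd : dm (RatFunc K) W.asIdeal = e + 1 := by
    rw [hW]
    exact (dm_comap φ hφs (cylP p').asIdeal).trans (dm_cylP e p' hdp')
  have hWmem : ∀ r, r ∈ W.asIdeal ↔ ∀ n, (φ r).coeff n ∈ p'.asIdeal := by
    intro r
    exact mem_cylP p' (φ r)
  -- the generators of `W`
  have hWr : ∀ r ∈ p.asIdeal, rename Fin.succ (ext K (RatFunc K) m r) ∈ W.asIdeal := by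
    intro r hr
    rw [hWmem]
    intro n
    have h1 : φ (rename Fin.succ (ext K (RatFunc K) m r)) = Polynomial.C (ext K (RatFunc K) m r) := U2d_fs _
    rw [h1, Polynomial.coeff_C]
    split_ifs
    · exact Ideal.mem_map_of_mem _ hr
    · exact Ideal.zero_mem _
  have hWle : ∀ Q : PrimeSpectrum (MvPolynomial (Fin (m + 1)) (RatFunc K)),
      (∀ r ∈ p.asIdeal, rename Fin.succ (ext K (RatFunc K) m r) ∈ Q.asIdeal) → W.asIdeal ≤ Q.asIdeal := by
    intro Q hQ r hr
    have h1 : (cylP p').asIdeal ≤ Q.asIdeal.comap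
        ((MvPolynomial.finSuccEquiv (RatFunc K) m).symm : Polynomial (MvPolynomial (Fin m) (RatFunc K)) →+* _) := by
      show p'.asIdeal.map Polynomial.C ≤ _
      rw [Ideal.map_le_iff_le_comap]
      show p.asIdeal.map (ext K (RatFunc K) m) ≤ _
      rw [Ideal.map_le_iff_le_comap]
      intro r hr
      rw [Ideal.mem_comap, Ideal.mem_comap, Ideal.mem_comap]
      have h2 : (MvPolynomial.finSuccEquiv (RatFunc K) m).symm (Polynomial.C (ext K (RatFunc K) m r)) =
          rename Fin.succ (ext K (RatFunc K) m r) := by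
        rw [AlgEquiv.symm_apply_eq]
        exact (U2d_fs _).symm
      show (MvPolynomial.finSuccEquiv (RatFunc K) m).symm (Polynomial.C (ext K (RatFunc K) m r)) ∈ Q.asIdeal
      rw [h2]
      exact hQ r hr
    have h2 := h1 (show φ r ∈ (cylP p').asIdeal from hr)
    rw [Ideal.mem_comap] at h2
    have h3 : ((MvPolynomial.finSuccEquiv (RatFunc K) m).symm :
        Polynomial (MvPolynomial (Fin m) (RatFunc K)) →+* _) (φ r) = r :=
      (MvPolynomial.finSuccEquiv (RatFunc K) m).symm_apply_apply r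
    rw [h3] at h2
    exact h2
  have hWtw : tw D f ∉ W.asIdeal := by
    intro hmem
    have h1 := (hWmem _).1 hmem D
    have h2 : φ (tw D f) = Polynomial.C (ext K (RatFunc K) m f) +
        Polynomial.C (C (1 + (RatFunc.X : RatFunc K) ^ D)) * Polynomial.X ^ D := by
      show MvPolynomial.finSuccEquiv (RatFunc K) m (tw D f) = _
      unfold tw
      rw [map_add, map_mul, map_pow, U2d_fs, U2d_fsC, MvPolynomial.finSuccEquiv_X_zero]
    rw [h2, Polynomial.coeff_add, Polynomial.coeff_C, if_neg (by omega), zero_add, Polynomial.coeff_C_mul,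
      Polynomial.coeff_X_pow, if_pos rfl, mul_one] at h1
    have h3 : IsUnit (C (1 + (RatFunc.X : RatFunc K) ^ D) : MvPolynomial (Fin m) (RatFunc K)) :=
      (isUnit_iff_ne_zero.2 (U2d_ne D (by omega))).map C
    exact p'.isPrime.ne_top (Ideal.eq_top_of_isUnit_mem _ h1 h3)
  obtain ⟨N, hN, hRt⟩ := gys_tors' (m + 1) e (by omega) (tw D f) W hWd hWtw
  have hWp := W.isPrime
  have hqle : W.asIdeal ⊔ Ideal.span {tw D f} ≤ q.asIdeal := by
    refine sup_le (hWle q hp) ?_
    rw [Ideal.span_singleton_le_iff_mem]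
    exact h
  have hv : fdiv (RatFunc K) W.asIdeal (tw D f) e =
      (fdiv (RatFunc K) W.asIdeal (tw D f) e q) • Finsupp.single q (1 : ℤ) := by
    ext P
    rw [Finsupp.smul_apply, smul_eq_mul]
    by_cases hPq : P = q
    · rw [hPq, Finsupp.single_eq_same, mul_one]
    · rw [Finsupp.single_eq_of_ne (fun h' => hPq h'), mul_zero]
      by_contra hne
      obtain ⟨h1, h2⟩ := fdiv_supp _ _ _ _ hne
      apply hPq
      refine tw_unique D hD f p P q ?_ h ?_ hp (by rw [h1, hpe]) (by rw [hd, hpe])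
      · exact h2 (Ideal.mem_sup_right (Ideal.mem_span_singleton_self _))
      · intro r hr
        exact h2 (Ideal.mem_sup_left (hWr r hr))
  have hc : fdiv (RatFunc K) W.asIdeal (tw D f) e q = od (W.asIdeal ⊔ Ideal.span {tw D f}) q :=
    fdiv_apply W.asIdeal (tw D f) hWtw e hWd q hd
  have hc0 : 0 < (mlt (W.asIdeal ⊔ Ideal.span {tw D f}) q).toNat := by
    have h1 := U2d_mlt _ q hqle
    have h2 := mlt_ne_top (K := RatFunc K) W.asIdeal (tw D f) hWtw q (by rw [hWd, hd])
    rw [Nat.pos_iff_ne_zero, Ne, ENat.toNat_eq_zero, not_or]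
    exact ⟨h1, h2⟩
  refine ⟨N * (mlt (W.asIdeal ⊔ Ideal.span {tw D f}) q).toNat, Nat.mul_pos hN hc0, ?_⟩
  rw [hv, hc] at hRt
  rw [Nat.cast_mul, mul_smul]
  exact hRt

end Pool.Agent.HCR
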