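import Pool.Agent.HCR.A2a

namespace Pool.Agent.HCR

open Pool.Agent.HCH Pool.Agent.HCF MvPolynomial

/-
PROOF. Q over q (lying_over), dm L Q = e (dm_alg). Gen at Q: N • single Q 1 = y + w. Rt L = Rt k on L[x] (Rt_congr; dm k Q' = dm L Q' on primes: dm_alg and
integrality, or trdeg in the tower). psh_Rt_hom for the k-algebra map k[x] → L[x] (finite): psh y ∈ Rt k (span {g}) e; psh (single Q 1) =
rdeg • single q 1, rdeg > 0 (rdeg_pos); psh w ∈ Cy.
-/
/-- Push-forward of generation along a finite extension of the ground field. -/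
theorem gen_finite {k L : Type} [Field k] [Field L] [Algebra k L] [FiniteDimensional k L] {n : ℕ}
    (g : MvPolynomial (Fin n) k) (e : ℕ) (S : PrimeSpectrum (MvPolynomial (Fin n) L) → Prop)
    (h : Gen L (ext k L n g) e S) :
    Gen k g e (fun q => ∃ Q, PrimeSpectrum.comap (ext k L n) Q = q ∧ S Q) := by
  let φ : MvPolynomial (Fin n) k →ₐ[k] MvPolynomial (Fin n) L :=
    MvPolynomial.mapAlgHom (Algebra.ofId k L)
  let _ : Algebra (MvPolynomial (Fin n) k) (MvPolynomial (Fin n) L) :=
    (φ : MvPolynomial (Fin n) k →+* MvPolynomial (Fin n) L).toAlgebra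
  have hsc : IsScalarTower k (MvPolynomial (Fin n) k) (MvPolynomial (Fin n) L) :=
    IsScalarTower.of_algebraMap_eq (fun x => (φ.commutes x).symm)
  have hft0 : Algebra.FiniteType k L := inferInstance
  have hft : Algebra.FiniteType k (MvPolynomial (Fin n) L) :=
    Algebra.FiniteType.trans (S := L) hft0 inferInstance
  have hft' : Algebra.FiniteType (MvPolynomial (Fin n) k) (MvPolynomial (Fin n) L) :=
    Algebra.FiniteType.of_restrictScalars_finiteType k _ _
  have hint : Algebra.IsIntegral (MvPolynomial (Fin n) k) (MvPolynomial (Fin n) L) :=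
    ⟨fun x => ext_integral (k := k) x⟩
  have hfin : Module.Finite (MvPolynomial (Fin n) k) (MvPolynomial (Fin n) L) :=
    Algebra.IsIntegral.finite
  have hfin' : (φ : MvPolynomial (Fin n) k →+* MvPolynomial (Fin n) L).Finite := hfin
  have hdim : ∀ Q : PrimeSpectrum (MvPolynomial (Fin n) L), dm L Q.asIdeal = dm k Q.asIdeal := by
    intro Q
    have hQ := Q.isPrime
    have h1 := dm_alg (k := k) Q.asIdeal
    have h2 := dm_un (K := k) (R := MvPolynomial (Fin n) k) Q
    rw [← h1]
    exact h2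
  have hun : ∀ Q : PrimeSpectrum (MvPolynomial (Fin n) L),
      un (MvPolynomial (Fin n) k) Q = PrimeSpectrum.comap (ext k L n) Q := fun Q => rfl
  intro q hq hd
  obtain ⟨Q, rfl⟩ := lying_over (E := L) q
  have hQp := Q.isPrime
  have hdQ : dm L Q.asIdeal = e := by
    rw [← hd]
    exact (dm_alg Q.asIdeal).symm
  obtain ⟨N, hN, hz⟩ := h Q hq hdQ
  rw [AddSubgroup.mem_sup] at hz
  obtain ⟨y, hy, w, hw, hyw⟩ := hz
  rw [Rt_congr hdim] at hy
  have hy' := psh_Rt_hom φ hfin' (Ideal.span {g}) e y (by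
    rw [Ideal.map_span, Set.image_singleton]
    exact hy)
  have hw' : psh (MvPolynomial (Fin n) k) (MvPolynomial (Fin n) L) w ∈
      Cy k g e (fun q => ∃ Q, PrimeSpectrum.comap (ext k L n) Q = q ∧ S Q) := by
    have h1 : Cy L (ext k L n g) e S ≤
        (Cy k g e (fun q => ∃ Q, PrimeSpectrum.comap (ext k L n) Q = q ∧ S Q)).comap
          (psh (MvPolynomial (Fin n) k) (MvPolynomial (Fin n) L)) := by
      refine (AddSubgroup.closure_le _).2 ?_
      rintro z ⟨Q', h1, h2, h3, rfl⟩
      have hQ' := Q'.isPrime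
      rw [SetLike.mem_coe, AddSubgroup.mem_comap, psh_single, one_smul, hun]
      have e1 : (Finsupp.single (PrimeSpectrum.comap (ext k L n) Q')
          (rdeg (MvPolynomial (Fin n) k) Q') : PrimeSpectrum (MvPolynomial (Fin n) k) →₀ ℤ) =
          rdeg (MvPolynomial (Fin n) k) Q' •
            Finsupp.single (PrimeSpectrum.comap (ext k L n) Q') (1 : ℤ) := by
        rw [Finsupp.smul_single, smul_eq_mul, mul_one]
      rw [e1]
      apply AddSubgroup.zsmul_mem
      apply AddSubgroup.subset_closure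
      refine ⟨_, h1, ?_, ⟨Q', rfl, h3⟩, rfl⟩
      rw [← h2]
      exact dm_alg Q'.asIdeal
    exact h1 hw
  have hr := rdeg_pos (K := k) (R := MvPolynomial (Fin n) k) Q
  obtain ⟨r, hr'⟩ := Int.eq_ofNat_of_zero_le hr.le
  refine ⟨N * r, Nat.mul_pos hN (by
    have : (0 : ℤ) < (r : ℤ) := by rw [← hr']; exact hr
    exact_mod_cast this), ?_⟩
  rw [AddSubgroup.mem_sup]
  refine ⟨_, hy', _, hw', ?_⟩
  rw [← map_add, hyw, map_zsmul, psh_single, one_smul, hun, hr', Finsupp.smul_single,
    Finsupp.smul_single, smul_eq_mul, smul_eq_mul, mul_one]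
  push_cast
  rfl

end Pool.Agent.HCR
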