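import Pool.Agent.HCR.A1
import Pool.Agent.HCR.U1b

namespace Pool.Agent.HCR

open Pool.Agent.HCH Pool.Agent.HCF MvPolynomial

open Classical in
/-- the restriction of a projective cycle to the affine part -/
private noncomputable def U2f_r {L : Type} [Field L] {m : ℕ} (F : MvPolynomial (Fin (m + 1)) L)
    (e : ℕ) (v : Sub F (e + 1) →₀ ℚ) (p : PrimeSpectrum (MvPolynomial (Fin m) L)) : ℚ :=
  if h : HgI (hm p).asIdeal ∧ F ∈ (hm p).asIdeal ∧ dm L (hm p).asIdeal = e + 1 then
    v ⟨hm p, h⟩ else 0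

private theorem U2f_add {L : Type} [Field L] {m : ℕ} (F : MvPolynomial (Fin (m + 1)) L)
    (e : ℕ) (v v' : Sub F (e + 1) →₀ ℚ) (p : PrimeSpectrum (MvPolynomial (Fin m) L)) :
    U2f_r F e (v + v') p = U2f_r F e v p + U2f_r F e v' p := by
  unfold U2f_r
  split_ifs
  · rfl
  · rw [add_zero]

private theorem U2f_smul {L : Type} [Field L] {m : ℕ} (F : MvPolynomial (Fin (m + 1)) L)
    (e : ℕ) (c : ℚ) (v : Sub F (e + 1) →₀ ℚ) (p : PrimeSpectrum (MvPolynomial (Fin m) L)) :
    U2f_r F e (c • v) p = c * U2f_r F e v p := by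
  unfold U2f_r
  split_ifs
  · rfl
  · rw [mul_zero]

private theorem U2f_zero {L : Type} [Field L] {m : ℕ} (F : MvPolynomial (Fin (m + 1)) L)
    (e : ℕ) (p : PrimeSpectrum (MvPolynomial (Fin m) L)) : U2f_r F e 0 p = 0 := by
  unfold U2f_r
  split_ifs
  · rfl
  · rfl

/-- projective cycles whose restriction is, up to a multiple, in `G` -/
private noncomputable def U2f_M {L : Type} [Field L] {m : ℕ} (F : MvPolynomial (Fin (m + 1)) L)
    (e : ℕ) (G : AddSubgroup (PrimeSpectrum (MvPolynomial (Fin m) L) →₀ ℤ)) :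
    Submodule ℚ (Sub F (e + 1) →₀ ℚ) where
  carrier := {v | ∃ N : ℕ, 0 < N ∧ ∃ z ∈ G, ∀ p, (z p : ℚ) = N * U2f_r F e v p}
  zero_mem' := ⟨1, one_pos, 0, G.zero_mem, fun p => by rw [U2f_zero]; simp⟩
  add_mem' := by
    rintro v v' ⟨N1, hN1, z1, hz1, h1⟩ ⟨N2, hN2, z2, hz2, h2⟩
    refine ⟨N1 * N2, Nat.mul_pos hN1 hN2, (N2 : ℤ) • z1 + (N1 : ℤ) • z2,
      G.add_mem (G.zsmul_mem hz1 _) (G.zsmul_mem hz2 _), fun p => ?_⟩
    rw [U2f_add, Finsupp.add_apply, Finsupp.smul_apply, Finsupp.smul_apply, smul_eq_mul,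
      smul_eq_mul]
    push_cast
    rw [h1, h2]
    ring
  smul_mem' := by
    rintro c v ⟨N1, hN1, z1, hz1, h1⟩
    refine ⟨N1 * c.den, Nat.mul_pos hN1 c.den_pos, c.num • z1, G.zsmul_mem hz1 _, fun p => ?_⟩
    rw [U2f_smul, Finsupp.smul_apply, smul_eq_mul]
    push_cast
    rw [h1]
    have h3 : (c.num : ℚ) = c * c.den := by
      exact_mod_cast (Rat.mul_den_eq_num c).symm
    rw [h3]
    ring

/-
PROOF. Q prime of L[x] with ext (deh F) ∈ Q, dm = e: hm Q ∈ Sub (ext F) (e + 1) (deh_ext, mem_hm, dm_hm). OntoL: single (hm Q) 1 - Σ c_i single Q_i 1 ∈ RatEq, c_i ∈ ℚ,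
Q_i = (P_i)_L; multiply by a common denominator; rat_int: Z ∈ PRat with Z = N (..) on Sub and 0 elsewhere; res_PRat: (p ↦ Z (hm p)) ∈
ARat L (deh (ext F)) e. If X last ∈ Q_i it does not contribute; otherwise Q_i = hm q_i, P_i = hm p_i (hm_surj), q_i = (hm q_i).map deh =
((hm p_i).map ext).map deh = p_i.map ext (map_hm, deh_ext), so q_i = bc L p_i.
-/
theorem gen_of_onto {L : Type} [Field L] [Algebra ℂ L] {m D : ℕ}
    (F : MvPolynomial (Fin (m + 1)) ℂ) (hF : F.IsHomogeneous D) (e : ℕ)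
    (h : OntoL L F (e + 1)) :
    Gen L (ext ℂ L m (deh F)) e (fun Q => ∃ p : PrimeSpectrum (MvPolynomial (Fin m) ℂ),
      deh F ∈ p.asIdeal ∧ Q = bc L p) := by
  classical
  set S : PrimeSpectrum (MvPolynomial (Fin m) L) → Prop := fun Q =>
    ∃ p : PrimeSpectrum (MvPolynomial (Fin m) ℂ), deh F ∈ p.asIdeal ∧ Q = bc L p with hS
  set f := ext ℂ L m (deh F) with hf
  set F' := ext ℂ L (m + 1) F with hF'
  have hdeh : deh F' = f := deh_ext F
  have hFh : F'.IsHomogeneous D := hF.map _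
  intro q hq hd
  let G := Rt L (Ideal.span {f}) e ⊔ Cy L f e S
  have hin : ∀ p : PrimeSpectrum (MvPolynomial (Fin m) L), f ∈ p.asIdeal → dm L p.asIdeal = e →
      HgI (hm p).asIdeal ∧ F' ∈ (hm p).asIdeal ∧ dm L (hm p).asIdeal = e + 1 := by
    intro p hp hdp
    refine ⟨hm_homog p, ?_, ?_⟩
    · rw [mem_hm p F' D hFh, hdeh]
      exact hp
    · rw [dm_hm, hdp]
  -- rational equivalence
  have hR : RatEq F' (e + 1) ≤ U2f_M F' e G := by
    intro v hv
    obtain ⟨N, hN, Z, hZ, h1, h2⟩ := rat_int F' (e + 1) v hv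
    have h3 := res_PRat F' e Z hZ
    rw [hdeh] at h3
    have h4 := (ARat_supp (K := L) f e _ h3).1
    let z : PrimeSpectrum (MvPolynomial (Fin m) L) →₀ ℤ :=
      Finsupp.ofSupportFinite (fun p => Z (hm p)) h4
    have hz : z ∈ Rt L (Ideal.span {f}) e := (Rt_iff f e z).2 h3
    refine ⟨N, hN, z, (le_sup_left : Rt L (Ideal.span {f}) e ≤ G) hz, fun p => ?_⟩
    change ((Z (hm p) : ℤ) : ℚ) = _
    unfold U2f_r
    split_ifs with h5
    · exact h1 ⟨hm p, h5⟩
    · rw [h2 _ h5]
      simp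
  -- the base changes
  have hB : ∀ (P : Sub F (e + 1)) (Q : Sub F' (e + 1)),
      Q.1.asIdeal = P.1.asIdeal.map (ext ℂ L (m + 1)) →
      (Finsupp.single Q 1 : Sub F' (e + 1) →₀ ℚ) ∈ U2f_M F' e G := by
    intro P Q hPQ
    by_cases hl : (X (Fin.last m) : MvPolynomial (Fin (m + 1)) L) ∈ Q.1.asIdeal
    · refine ⟨1, one_pos, 0, G.zero_mem, fun p => ?_⟩
      have h5 : U2f_r F' e (Finsupp.single Q 1) p = 0 := by
        unfold U2f_r
        split_ifs with h5
        · rw [Finsupp.single_apply, if_neg]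
          intro h6
          apply last_notMem p
          rw [h6] at hl
          exact hl
        · rfl
      rw [h5]
      simp
    · obtain ⟨q0, hq0⟩ := hm_surj Q.1 Q.2.1 hl
      have hlP : (X (Fin.last m) : MvPolynomial (Fin (m + 1)) ℂ) ∉ P.1.asIdeal := by
        intro h6
        apply hl
        rw [hPQ]
        have h7 := Ideal.mem_map_of_mem (ext ℂ L (m + 1)) h6
        have h8 : ext ℂ L (m + 1) (X (Fin.last m)) = X (Fin.last m) := by
          unfold Pool.Agent.HCH.ext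
          rw [MvPolynomial.map_X]
        rwa [h8] at h7
      obtain ⟨p0, hp0⟩ := hm_surj P.1 P.2.1 hlP
      have hq0bc : q0 = bc L p0 := by
        apply PrimeSpectrum.ext
        change q0.asIdeal = p0.asIdeal.map (ext ℂ L m)
        rw [← map_hm q0, hq0, hPQ, ← hp0, ← map_hm p0]
        change Ideal.map ((deh : MvPolynomial (Fin (m + 1)) L →ₐ[L] MvPolynomial (Fin m) L) :
          MvPolynomial (Fin (m + 1)) L →+* MvPolynomial (Fin m) L) _ =
          Ideal.map (ext ℂ L m) (Ideal.map ((deh : MvPolynomial (Fin (m + 1)) ℂ →ₐ[ℂ]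
            MvPolynomial (Fin m) ℂ) : MvPolynomial (Fin (m + 1)) ℂ →+* MvPolynomial (Fin m) ℂ) _)
        rw [Ideal.map_map, Ideal.map_map]
        congr 1
        apply RingHom.ext
        intro g
        exact deh_ext g
      have hfq : f ∈ q0.asIdeal := by
        rw [← hdeh]
        apply mem_deh
        rw [hq0]
        exact Q.2.2.1
      have hdq : dm L q0.asIdeal = e := by
        have h9 := dm_hm q0
        rw [hq0, Q.2.2.2] at h9
        omega
      have hFp : deh F ∈ p0.asIdeal := by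
        apply mem_deh
        rw [hp0]
        exact P.2.2.1
      refine ⟨1, one_pos, Finsupp.single q0 1, (le_sup_right : Cy L f e S ≤ G)
        (AddSubgroup.subset_closure ⟨q0, hfq, hdq, ⟨p0, hFp, hq0bc⟩, rfl⟩), fun p => ?_⟩
      rw [Nat.cast_one, one_mul]
      unfold U2f_r
      split_ifs with h5
      · rw [Finsupp.single_apply, Finsupp.single_apply]
        by_cases h6 : q0 = p
        · rw [if_pos h6, if_pos]
          · simp
          · apply Subtype.ext
            rw [← hq0, h6]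
        · rw [if_neg h6, if_neg]
          · simp
          · intro h7
            apply h6
            apply hm_inj
            rw [hq0, h7]
      · rw [Finsupp.single_apply, if_neg]
        · simp
        · intro h6
          apply h5
          rw [← h6]
          exact hin q0 hfq hdq
  let Q : Sub F' (e + 1) := ⟨hm q, hin q hq hd⟩
  have h1 := h ((RatEq F' (e + 1)).mkQ (Finsupp.single Q 1))
  have h2 : {y | ∃ (P : Sub F (e + 1)) (Q : Sub F' (e + 1)),
      Q.1.asIdeal = P.1.asIdeal.map (ext ℂ L (m + 1)) ∧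
      y = (RatEq F' (e + 1)).mkQ (Finsupp.single Q 1)} ⊆
      (((U2f_M F' e G).map (RatEq F' (e + 1)).mkQ : Submodule ℚ (Chow F' (e + 1))) : Set _) := by
    rintro y ⟨P, Q', hPQ, rfl⟩
    exact ⟨_, hB P Q' hPQ, rfl⟩
  have h3 := Submodule.span_le.2 h2 h1
  obtain ⟨v, hv, hvQ⟩ := h3
  have h4 : (Finsupp.single Q 1 : Sub F' (e + 1) →₀ ℚ) - v ∈ RatEq F' (e + 1) := by
    rw [← Submodule.ker_mkQ (RatEq F' (e + 1)), LinearMap.mem_ker, map_sub, hvQ, sub_self]
  have h5 : (Finsupp.single Q 1 : Sub F' (e + 1) →₀ ℚ) ∈ U2f_M F' e G := by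
    have h6 := add_mem (hR h4) hv
    rwa [sub_add_cancel] at h6
  obtain ⟨N, hN, z, hz, hzp⟩ := h5
  refine ⟨N, hN, ?_⟩
  have h6 : z = (N : ℤ) • Finsupp.single q (1 : ℤ) := by
    ext p
    have h7 := hzp p
    have h8 : U2f_r F' e (Finsupp.single Q 1) p = if q = p then 1 else 0 := by
      unfold U2f_r
      split_ifs with h5 h6 h6
      · rw [Finsupp.single_apply, if_pos]
        apply Subtype.ext
        change hm q = hm p
        rw [h6]
      · rw [Finsupp.single_apply, if_neg]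
        intro h7
        apply h6
        apply hm_inj
        exact congrArg Subtype.val h7
      · exfalso
        apply h5
        rw [← h6]
        exact hin q hq hd
      · rfl
    rw [h8] at h7
    rw [Finsupp.smul_apply, Finsupp.single_apply, smul_eq_mul]
    split_ifs at h7 ⊢ with h9
    · have : ((z p : ℤ) : ℚ) = ((N : ℤ) : ℚ) := by rw [h7]; simp
      rw [mul_one]
      exact_mod_cast this
    · rw [mul_zero] at h7 ⊢
      exact_mod_cast h7
  rw [← h6]
  exact hz

end Pool.Agent.HCR
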