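import Pool.Agent.HCR.Defs

namespace Pool.Agent.HCR

open Pool.Agent.HCH Pool.Agent.HCF MvPolynomial

private theorem U2g_ne (D : ℕ) (hD : 1 ≤ D) : (RatFunc.X : RatFunc ℂ) ^ D + 1 ≠ 0 := by
  intro h
  have h1 : algebraMap (Polynomial ℂ) (RatFunc ℂ) (Polynomial.X ^ D + Polynomial.C 1) = 0 := by
    rw [map_add, map_pow, RatFunc.algebraMap_X, Polynomial.C_1, map_one]
    exact h
  have h2 : (Polynomial.X ^ D + Polynomial.C 1 : Polynomial ℂ) = 0 := by
    rw [← map_zero (algebraMap (Polynomial ℂ) (RatFunc ℂ))] at h1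
    exact RatFunc.algebraMap_injective ℂ h1
  exact Polynomial.X_pow_add_C_ne_zero (by omega) (1 : ℂ) h2

/-
PROOF. AlgebraicClosure (RatFunc ℂ) is algebraically closed: a root s of s ^ D + t ^ D + 1 = 0; it lies in FF D by definition.
-/
theorem exists_s (D : ℕ) (hD : 1 ≤ D) : ∃ s : FF D,
    s ^ D + algebraMap (RatFunc ℂ) (FF D) RatFunc.X ^ D + 1 = 0 := by
  obtain ⟨s, hs⟩ := IsAlgClosed.exists_pow_nat_eq
    (-((algebraMap (RatFunc ℂ) (AlgebraicClosure (RatFunc ℂ)) RatFunc.X) ^ D + 1))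
    (show 0 < D by omega)
  have hs1 : s ^ D + (algebraMap (RatFunc ℂ) (AlgebraicClosure (RatFunc ℂ)) RatFunc.X) ^ D + 1
      = 0 := by
    rw [hs]; ring
  refine ⟨⟨s, IntermediateField.subset_adjoin _ _ hs1⟩, ?_⟩
  apply Subtype.ext
  exact hs1

private theorem U2g_split (D : ℕ) (hD : 1 ≤ D) :
    Polynomial.IsSplittingField (RatFunc ℂ) (FF D)
      (Polynomial.X ^ D - Polynomial.C (-((RatFunc.X : RatFunc ℂ) ^ D + 1))) := by
  have h1 : ({s | s ^ D + (algebraMap (RatFunc ℂ) (AlgebraicClosure (RatFunc ℂ)) RatFunc.X) ^ D + 1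
      = 0} : Set (AlgebraicClosure (RatFunc ℂ))) =
      (Polynomial.X ^ D - Polynomial.C (-((RatFunc.X : RatFunc ℂ) ^ D + 1))).rootSet
        (AlgebraicClosure (RatFunc ℂ)) := by
    ext s
    rw [Polynomial.mem_rootSet, and_iff_right (Polynomial.X_pow_sub_C_ne_zero (by omega) _),
      Set.mem_ofPred_eq, map_sub, map_pow, Polynomial.aeval_X, Polynomial.aeval_C, map_neg, map_add,
      map_pow, map_one, sub_neg_eq_add, ← add_assoc]
  unfold FF
  rw [h1]
  exact IntermediateField.adjoin_rootSet_isSplittingField (IsAlgClosed.splits _)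

/-
PROOF. FF D = adjoin of the roots of X ^ D + C (t ^ D + 1), a separable polynomial (char 0, t ^ D + 1 ≠ 0): a splitting field, finite and Galois.
Also IntermediateField.adjoin k {s} = ⊤ for one root s since the others are ζ s with ζ ∈ ℂ.
-/
theorem FF_finite (D : ℕ) (hD : 1 ≤ D) : FiniteDimensional (RatFunc ℂ) (FF D) ∧
    IsGalois (RatFunc ℂ) (FF D) := by
  have h1 := U2g_split D hD
  have hsep : (Polynomial.X ^ D - Polynomial.C (-((RatFunc.X : RatFunc ℂ) ^ D + 1))).Separable :=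
    Polynomial.separable_X_pow_sub_C _ (Nat.cast_ne_zero.mpr (by omega))
      (neg_ne_zero.mpr (U2g_ne D hD))
  exact ⟨Polynomial.IsSplittingField.finiteDimensional (FF D)
      (Polynomial.X ^ D - Polynomial.C (-((RatFunc.X : RatFunc ℂ) ^ D + 1))),
    IsGalois.of_separable_splitting_field hsep⟩

/-
PROOF. σ s = τ s; every other root is ζ s with ζ ∈ ℂ fixed by σ and τ, so σ = τ on the generators of FF D (AlgEquiv.ext on adjoin: 
IntermediateField.algHom_ext_of_eq_adjoin or adjoin_induction).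
-/
theorem FF_ext (D : ℕ) (hD : 1 ≤ D) (s : FF D)
    (hs : s ^ D + algebraMap (RatFunc ℂ) (FF D) RatFunc.X ^ D + 1 = 0)
    (σ τ : FF D ≃ₐ[RatFunc ℂ] FF D) (h : σ s = τ s) : σ = τ := by
  have hs0 : s ≠ 0 := by
    rintro rfl
    rw [zero_pow (by omega), zero_add, ← map_pow, ← map_one (algebraMap (RatFunc ℂ) (FF D)),
      ← map_add] at hs
    exact U2g_ne D hD ((map_eq_zero _).mp hs)
  have key : ∀ x : FF D, x ^ D + algebraMap (RatFunc ℂ) (FF D) RatFunc.X ^ D + 1 = 0 →
      σ x = τ x := by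
    intro x hx
    have h1 : (x / s) ^ D = 1 := by
      rw [div_pow, div_eq_one_iff_eq (pow_ne_zero D hs0)]
      linear_combination hx - hs
    have h2 : IsIntegral ℂ (x / s) := by
      refine IsIntegral.of_pow (n := D) (by omega) ?_
      rw [h1]
      exact isIntegral_one
    have h3 : x / s ∈ (algebraMap ℂ (FF D)).range :=
      h2.mem_range_algebraMap_of_minpoly_splits (IsAlgClosed.splits _)
    obtain ⟨c, hc⟩ := h3
    have h4 : x = algebraMap (RatFunc ℂ) (FF D) (algebraMap ℂ (RatFunc ℂ) c) * s := by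
      rw [← IsScalarTower.algebraMap_apply ℂ (RatFunc ℂ) (FF D), hc, div_mul_cancel₀ x hs0]
    rw [h4, map_mul, map_mul, AlgEquiv.commutes, AlgEquiv.commutes, h]
  have h5 : (σ : FF D →ₐ[RatFunc ℂ] FF D) = (τ : FF D →ₐ[RatFunc ℂ] FF D) := by
    refine IntermediateField.algHom_ext_of_eq_adjoin (RatFunc ℂ) (S := FF D) rfl ?_
    intro x hx
    apply key
    apply Subtype.ext
    exact hx
  ext1 x
  exact congrArg (fun f : FF D →ₐ[RatFunc ℂ] FF D => f x) h5

end Pool.Agent.HCR
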