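import Pool.Agent.HCR.U2d
import Pool.Agent.HCR.U2e
import Pool.Agent.HCR.U2f
import Pool.Agent.HCR.U2g
import Pool.Agent.HCR.C3b
import Pool.Agent.HCR.E1d
import Pool.Agent.HCR.E1e
import Pool.Agent.HCH.J1

namespace Pool.Agent.HCR

open Pool.Agent.HCH Pool.Agent.HCF MvPolynomial

/-- the first variable is integral over the others on `f + x ^ D = 0` -/
private theorem U2h_dm {K : Type} [Field K] {m : ℕ} (D : ℕ) (hD : 1 ≤ D)
    (f : MvPolynomial (Fin m) K) (P : PrimeSpectrum (MvPolynomial (Fin (m + 1)) K))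
    (h : sus D f ∈ P.asIdeal) :
    dm K (P.asIdeal.comap (rename Fin.succ : MvPolynomial (Fin m) K →ₐ[K] _)) =
      dm K P.asIdeal := by
  have hP := P.isPrime
  have hp : (P.asIdeal.comap (rename Fin.succ : MvPolynomial (Fin m) K →ₐ[K]
    MvPolynomial (Fin (m + 1)) K)).IsPrime := Ideal.comap_isPrime _ _
  let φ : MvPolynomial (Fin m) K →ₐ[K] MvPolynomial (Fin (m + 1)) K := rename Fin.succ
  unfold dm
  congr 1
  let F : (MvPolynomial (Fin m) K ⧸ P.asIdeal.comap φ) →ₐ[K]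
      (MvPolynomial (Fin (m + 1)) K ⧸ P.asIdeal) := Ideal.quotientMapₐ P.asIdeal φ le_rfl
  have hF : Function.Injective F := Ideal.quotientMap_injective' (H := le_rfl) le_rfl
  have hFmk : ∀ a, F (Ideal.Quotient.mk _ a) = Ideal.Quotient.mk P.asIdeal (φ a) := fun a => rfl
  have hnt : Nontrivial (MvPolynomial (Fin m) K ⧸ P.asIdeal.comap φ) :=
    Ideal.Quotient.nontrivial_iff.mpr hp.ne_top
  refine trdeg_alg_top K _ _ F hF ?_
  have hint : ∀ b : MvPolynomial (Fin (m + 1)) K,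
      (F : (MvPolynomial (Fin m) K ⧸ P.asIdeal.comap φ) →+*
        (MvPolynomial (Fin (m + 1)) K ⧸ P.asIdeal)).IsIntegralElem
        (Ideal.Quotient.mk P.asIdeal b) := by
    intro b
    induction b using MvPolynomial.induction_on with
    | C a =>
      have h1 : Ideal.Quotient.mk P.asIdeal (C a) =
          (F : (MvPolynomial (Fin m) K ⧸ P.asIdeal.comap φ) →+*
        (MvPolynomial (Fin (m + 1)) K ⧸ P.asIdeal)) (Ideal.Quotient.mk _ (C a)) := by
        change _ = F (Ideal.Quotient.mk _ (C a))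
        rw [hFmk]
        congr 1
        change C a = rename Fin.succ (C a)
        rw [rename_C]
      rw [h1]
      exact RingHom.isIntegralElem_map _
    | add x y hx hy =>
      rw [map_add]
      exact hx.add _ hy
    | mul_X x i hx =>
      rw [map_mul]
      refine hx.mul _ ?_
      refine Fin.cases ?_ (fun i => ?_) i
      · refine ⟨Polynomial.X ^ D + Polynomial.C (Ideal.Quotient.mk _ f),
          Polynomial.monic_X_pow_add_C _ (by omega), ?_⟩
        rw [Polynomial.eval₂_add, Polynomial.eval₂_X_pow, Polynomial.eval₂_C]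
        change Ideal.Quotient.mk P.asIdeal (X 0) ^ D + F (Ideal.Quotient.mk _ f) = 0
        rw [hFmk, ← map_pow, ← map_add, Ideal.Quotient.eq_zero_iff_mem]
        have h' := h
        unfold sus at h'
        rw [add_comm (rename Fin.succ f) (X 0 ^ D)] at h'
        exact h'
      · have h1 : Ideal.Quotient.mk P.asIdeal (X i.succ) =
            (F : (MvPolynomial (Fin m) K ⧸ P.asIdeal.comap φ) →+*
          (MvPolynomial (Fin (m + 1)) K ⧸ P.asIdeal)) (Ideal.Quotient.mk _ (X i)) := by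
          change _ = F (Ideal.Quotient.mk _ (X i))
          rw [hFmk]
          congr 1
          change X i.succ = rename Fin.succ (X i)
          rw [rename_X]
        rw [h1]
        exact RingHom.isIntegralElem_map _
  intro b
  obtain ⟨b, rfl⟩ := Ideal.Quotient.mk_surjective b
  obtain ⟨p, hpm, hp0⟩ := hint b
  exact ⟨p, hpm.ne_zero, hp0⟩

private theorem U2h_ext_rename {k L : Type} [Field k] [Field L] [Algebra k L] {m : ℕ}
    (f : MvPolynomial (Fin m) k) : HCH.ext k L (m + 1) (rename Fin.succ f) =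
      rename Fin.succ (HCH.ext k L m f) := by
  unfold HCH.ext
  rw [MvPolynomial.map_rename]

private theorem U2h_dg {L : Type} [Field L] {m : ℕ} (u : Lˣ) (f : MvPolynomial (Fin m) L) :
    dg (Fin.cons u (fun _ => 1) : Fin (m + 1) → Lˣ) (rename Fin.succ f) = rename Fin.succ f := by
  have h : ((dg (Fin.cons u (fun _ => 1) : Fin (m + 1) → Lˣ) :
      MvPolynomial (Fin (m + 1)) L →ₐ[L] MvPolynomial (Fin (m + 1)) L)).comp
      (rename Fin.succ) = (rename Fin.succ : MvPolynomial (Fin m) L →ₐ[L] _) := by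
    apply algHom_ext
    intro k
    rw [AlgHom.comp_apply, rename_X]
    change dg _ (X k.succ) = X k.succ
    rw [dg_X, Fin.cons_succ, Units.val_one, C_1, one_mul]
  exact congrArg (fun g : MvPolynomial (Fin m) L →ₐ[L] MvPolynomial (Fin (m + 1)) L => g f) h

/-
PROOF. F₀ : Fin (2 j + 1), f₀ = deh F₀ : Fin (2 j). X = sus D F₀ : Fin (2 j + 2) smooth (sg_sus; smooth_of_sg, sg_of_smooth). gen_of_onto: Gen L (ext (sus D f₀)) j const.
s₁ = ε s, ε ^ D = -1, s₁ ^ D = 1 + t ^ D; α = dg (s₁, 1, .., 1) over L: α (ext ℂ L (sus D f₀)) = ext k L (tw D f₀). Gen.equiv for φ = α⁻¹ and g = ext k L (tw D f₀):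
Gen L (ext k L (tw D f₀)) j (∃ Q', cm α.symm Q' = Q ∧ const Q'); gen_finite: Gen k (tw D f₀) j (..). Gen.trans with cst_tors: q = comap ext (cm α.symm (bc L p')), p' ∋ sus D f₀
a prime of ℂ[X 0, x], p = p'.comap (rename succ): dm p = dm p' = j (X 0 integral over ℂ[x] modulo p': X 0 ^ D + f₀ ∈ p'), and r ∈ p gives
rename succ (ext r) ∈ q (α fixes it; ext ℂ L (rename succ r) ∈ bc L p'). j < 2 j. Gen_false_iff.
-/
theorem tw_of_onto (D : ℕ) (hD : 3 ≤ D)
    (h : ∀ j ≥ 1, ∀ F : MvPolynomial (Fin (2 * j + 1)) ℂ, F.IsHomogeneous D → Smooth F →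
      OntoL (FF D) (sus D F) (j + 1)) (j : ℕ) (hj : 1 ≤ j) (F : MvPolynomial (Fin (2 * j + 1)) ℂ)
    (hF : F.IsHomogeneous D) (hs : SgLe F 0) : AT (RatFunc ℂ) (tw D (deh F)) j := by
  have hfin := (FF_finite D (by omega)).1
  have hG : (sus D F).IsHomogeneous D := sus_homog D F hF
  have h1 := gen_of_onto (sus D F) hG j (h j hj F hF (smooth_of_sg F hF hs))
  rw [deh_sus] at h1
  obtain ⟨s, hs0⟩ := exists_s D (by omega)
  obtain ⟨ε, hε⟩ := IsAlgClosed.exists_pow_nat_eq (-1 : ℂ) (show 0 < D by omega)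
  let s₁ : FF D := algebraMap ℂ (FF D) ε * s
  have hs₁ : s₁ ^ D = algebraMap (RatFunc ℂ) (FF D) (1 + RatFunc.X ^ D) := by
    rw [mul_pow, ← map_pow, hε, map_neg, map_one, map_add, map_one, map_pow]
    linear_combination -hs0
  have hne : (1 + RatFunc.X ^ D : RatFunc ℂ) ≠ 0 := by
    intro h
    have h1 : algebraMap (Polynomial ℂ) (RatFunc ℂ) (Polynomial.X ^ D + Polynomial.C 1) = 0 := by
      rw [map_add, map_pow, RatFunc.algebraMap_X, Polynomial.C_1, map_one, add_comm]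
      exact h
    have h2 : (Polynomial.X ^ D + Polynomial.C 1 : Polynomial ℂ) = 0 := by
      rw [← map_zero (algebraMap (Polynomial ℂ) (RatFunc ℂ))] at h1
      exact RatFunc.algebraMap_injective ℂ h1
    exact Polynomial.X_pow_add_C_ne_zero (by omega) (1 : ℂ) h2
  have hs₁0 : s₁ ≠ 0 := by
    intro h0
    rw [h0, zero_pow (by omega)] at hs₁
    exact hne ((map_eq_zero _).mp hs₁.symm)
  let α := dg (Fin.cons (Units.mk0 s₁ hs₁0) (fun _ => 1) : Fin (2 * j + 1) → (FF D)ˣ)
  have hα : ∀ y, α (rename Fin.succ y) = rename Fin.succ y := fun y => U2h_dg _ y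
  have hα' : ∀ y, α.symm (rename Fin.succ y) = rename Fin.succ y := fun y => by
    rw [AlgEquiv.symm_apply_eq, hα]
  have hcomp : ∀ (n : ℕ) (y : MvPolynomial (Fin n) ℂ), HCH.ext (RatFunc ℂ) (FF D) n
      (HCH.ext ℂ (RatFunc ℂ) n y) = HCH.ext ℂ (FF D) n y := by
    intro n y
    have := ext_comp (k := ℂ) (E := RatFunc ℂ) (L := FF D) n
    rw [← this]
    rfl
  have hαg : α (HCH.ext ℂ (FF D) (2 * j + 1) (sus D (deh F))) =
      HCH.ext (RatFunc ℂ) (FF D) (2 * j + 1) (tw D (deh F)) := by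
    rw [ext_sus]
    unfold sus tw
    rw [map_add, map_add, hα, U2h_ext_rename, hcomp, map_pow, map_mul, map_pow]
    congr 1
    change dg _ (X 0) ^ D = _
    rw [dg_X, Fin.cons_zero, Units.val_mk0, mul_pow, ← C_pow, hs₁]
    unfold HCH.ext
    rw [MvPolynomial.map_C, MvPolynomial.map_X]
  have h2 : Gen (FF D) (α.symm (HCH.ext (RatFunc ℂ) (FF D) (2 * j + 1) (tw D (deh F)))) j
      (fun Q => ∃ p : PrimeSpectrum (MvPolynomial (Fin (2 * j + 1)) ℂ),
      sus D (deh F) ∈ p.asIdeal ∧ Q = bc (FF D) p) := by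
    rw [← hαg, AlgEquiv.symm_apply_apply]
    exact h1
  have h3 := gen_finite (k := RatFunc ℂ) (L := FF D) (tw D (deh F)) j _ (Gen.equiv α.symm h2)
  rw [← Gen_false_iff]
  refine h3.trans ?_
  rintro q hq hdq ⟨Q, hQq, q', hq'Q, p', hp', rfl⟩
  have hdQ : dm (FF D) Q.asIdeal = j := by
    have h10 : (PrimeSpectrum.comap (HCH.ext (RatFunc ℂ) (FF D) (2 * j + 1))
        Q).asIdeal = q.asIdeal := by
      have := congrArg PrimeSpectrum.asIdeal hQq
      exact this
    refine (dm_alg (k := RatFunc ℂ) (E := FF D) Q.asIdeal).symm.trans ?_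
    refine Eq.trans ?_ hdq
    exact congrArg (dm (RatFunc ℂ)) h10
  have hdp' : dm ℂ p'.asIdeal = j := by
    refine (dm_bc (L := FF D) p').symm.trans (Eq.trans ?_ hdQ)
    have h10 := congrArg PrimeSpectrum.asIdeal hq'Q
    refine Eq.trans ?_ (congrArg (dm (FF D)) h10)
    exact (dm_comap (α.symm : MvPolynomial (Fin (2 * j + 1)) (FF D) →ₐ[FF D]
      MvPolynomial (Fin (2 * j + 1)) (FF D)) α.symm.surjective (bc (FF D) p').asIdeal).symm
  let p : PrimeSpectrum (MvPolynomial (Fin (2 * j)) ℂ) :=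
    ⟨p'.asIdeal.comap (rename Fin.succ : MvPolynomial (Fin (2 * j)) ℂ →ₐ[ℂ] _),
      Ideal.comap_isPrime _ _⟩
  have hdp : dm ℂ p.asIdeal = j := by
    refine Eq.trans ?_ hdp'
    exact U2h_dm D (by omega) (deh F) p' hp'
  obtain ⟨N, hN, hz⟩ := cst_tors D (by omega) (deh F) p j (by omega) hdp q hq (by
    intro r hr
    rw [← hQq]
    change HCH.ext (RatFunc ℂ) (FF D) (2 * j + 1)
      (rename Fin.succ (HCH.ext ℂ (RatFunc ℂ) (2 * j) r)) ∈ Q.asIdeal
    rw [U2h_ext_rename, hcomp, ← hq'Q]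
    change α.symm (rename Fin.succ (HCH.ext ℂ (FF D) (2 * j) r)) ∈ (bc (FF D) p').asIdeal
    rw [hα', ← U2h_ext_rename]
    exact Ideal.mem_map_of_mem _ hr) hdq
  exact ⟨N, hN, AddSubgroup.mem_sup_left hz⟩

end Pool.Agent.HCR
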