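import Pool.Agent.HCR.A1
import Pool.Agent.HCH.Main

namespace Pool.Agent.HCR

open Pool.Agent.HCH Pool.Agent.HCF MvPolynomial

/-- a minimal prime of the extension of a prime lies over it -/
private theorem V1a_over {k L : Type} [Field k] [Field L] [Algebra k L] {n : ℕ}
    (W : PrimeSpectrum (MvPolynomial (Fin n) k)) (w : PrimeSpectrum (MvPolynomial (Fin n) L))
    (hw : w.asIdeal ∈ (W.asIdeal.map (ext k L n)).minimalPrimes) :
    PrimeSpectrum.comap (ext k L n) w = W := by
  have h1 : W ≤ PrimeSpectrum.comap (ext k L n) w := Ideal.map_le_iff_le_comap.mp hw.1.2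
  obtain ⟨x, hx, hxW⟩ := (ext_flat (k := k) (E := L) (n := n)).generalizingMap_comap
    ((PrimeSpectrum.le_iff_specializes _ _).mp h1)
  have h2 : x ≤ w := (PrimeSpectrum.le_iff_specializes _ _).mpr hx
  have h3 : W.asIdeal.map (ext k L n) ≤ x.asIdeal := by
    rw [Ideal.map_le_iff_le_comap, ← hxW]
    exact le_rfl
  have h4 : w.asIdeal ≤ x.asIdeal := hw.2 ⟨x.isPrime, h3⟩ h2
  have h5 : x = w := PrimeSpectrum.ext (le_antisymm h2 h4)
  rw [← h5, hxW]

/-
PROOF. closure_induction; generator z = adiv k W g e. s = the finite set of primes w of L[x] with comap ext w = W (they are the minimal primes of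
W.map ext: Noetherian, finite; dm L w = dm k W = e + 1 by dm_alg; every prime containing W.map ext contains one of them, ext_radical: W.map ext = ⨅_{w ∈ s} w).
For Q with dm L Q = e: mlt_ext: mlt (W ⊔ span {g}) (comap Q) = mlt ((⨅ w) ⊔ span {ext g}) Q = Σ_w mlt (w ⊔ span {ext g}) Q (mlt_inf; ext g ∉ w), all finite
(mlt_ne_top), so the function is Σ_w adiv L w (ext g) e; dm k (comap Q) = dm L Q (dm_alg).
-/
/-- Base change of rational equivalences along a Galois extension. -/
theorem ARat_ext {k L : Type} [Field k] [CharZero k] [Field L] [Algebra k L] [IsGalois k L] {n : ℕ}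
    (f : MvPolynomial (Fin n) k) (e : ℕ) (z : PrimeSpectrum (MvPolynomial (Fin n) k) → ℤ)
    (hz : z ∈ ARat k f e) :
    (fun Q => z (PrimeSpectrum.comap (ext k L n) Q)) ∈ ARat L (ext k L n f) e := by
  classical
  let Φ : (PrimeSpectrum (MvPolynomial (Fin n) k) → ℤ) →+
      (PrimeSpectrum (MvPolynomial (Fin n) L) → ℤ) :=
    { toFun := fun z Q => z (PrimeSpectrum.comap (ext k L n) Q)
      map_zero' := rfl
      map_add' := fun _ _ => rfl }
  suffices hle : ARat k f e ≤ (ARat L (ext k L n f) e).comap Φ from hle hz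
  refine (AddSubgroup.closure_le _).2 ?_
  rintro z ⟨W, g, hfW, hdW, hgW, rfl⟩
  rw [SetLike.mem_coe, AddSubgroup.mem_comap]
  set I := W.asIdeal.map (ext k L n) with hI
  have hfin : {w : PrimeSpectrum (MvPolynomial (Fin n) L) | w.asIdeal ∈ I.minimalPrimes}.Finite :=
    (Ideal.finite_minimalPrimes_of_isNoetherianRing _ I).preimage
      (f := PrimeSpectrum.asIdeal) (fun x _ y _ h => PrimeSpectrum.ext h)
  have hmem : ∀ w, w ∈ hfin.toFinset ↔ w.asIdeal ∈ I.minimalPrimes := fun w => by
    rw [Set.Finite.mem_toFinset]; rfl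
  have hover : ∀ w ∈ hfin.toFinset, PrimeSpectrum.comap (ext k L n) w = W := fun w hw =>
    V1a_over W w ((hmem w).mp hw)
  have hover' : ∀ w ∈ hfin.toFinset, w.asIdeal.comap (ext k L n) = W.asIdeal := fun w hw =>
    congrArg PrimeSpectrum.asIdeal (hover w hw)
  have hinf : (⨅ w ∈ hfin.toFinset, w.asIdeal) = I := by
    apply le_antisymm
    · have hrad : I.IsRadical := ext_radical (k := k) (E := L) W.asIdeal
      conv_rhs => rw [← hrad.radical, ← Ideal.sInf_minimalPrimes]
      refine le_sInf fun J hJ => ?_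
      have hJp : J.IsPrime := hJ.1.1
      exact iInf₂_le (⟨J, hJp⟩ : PrimeSpectrum (MvPolynomial (Fin n) L)) ((hmem _).mpr hJ)
    · exact le_iInf₂ fun w hw => ((hmem w).mp hw).1.2
  have hdm : ∀ w ∈ hfin.toFinset, dm L w.asIdeal = e + 1 := by
    intro w hw
    rw [← dm_alg (k := k) w.asIdeal, hover' w hw, hdW]
  have hg : ∀ w ∈ hfin.toFinset, ext k L n g ∉ w.asIdeal := by
    intro w hw h
    apply hgW
    rw [← hover' w hw]
    exact h
  have heq : Φ (adiv k W.asIdeal g e) =
      ∑ w ∈ hfin.toFinset, adiv L w.asIdeal (ext k L n g) e := by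
    funext Q
    rw [Finset.sum_apply]
    change adiv k W.asIdeal g e (PrimeSpectrum.comap (ext k L n) Q) = _
    unfold adiv
    have hdq : dm k (PrimeSpectrum.comap (ext k L n) Q).asIdeal = dm L Q.asIdeal :=
      dm_alg Q.asIdeal
    rw [hdq]
    by_cases hQ : dm L Q.asIdeal = e
    · simp only [if_pos hQ]
      unfold od
      have h1 : mlt (W.asIdeal ⊔ Ideal.span {g}) (PrimeSpectrum.comap (ext k L n) Q) =
          ∑ w ∈ hfin.toFinset, mlt (w.asIdeal ⊔ Ideal.span {ext k L n g}) Q := by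
        have h0 := mlt_inf (K := L) hfin.toFinset e hdm _ hg Q hQ
        rw [hinf] at h0
        rw [← mlt_ext, Ideal.map_sup, Ideal.map_span, Set.image_singleton, ← hI]
        exact h0
      have h2 : ∀ w ∈ hfin.toFinset, mlt (w.asIdeal ⊔ Ideal.span {ext k L n g}) Q ≠ ⊤ := by
        intro w hw
        exact mlt_ne_top (K := L) w.asIdeal _ (hg w hw) Q (by rw [hdm w hw, hQ])
      have h3 : ∑ w ∈ hfin.toFinset, mlt (w.asIdeal ⊔ Ideal.span {ext k L n g}) Q =
          ((∑ w ∈ hfin.toFinset, (mlt (w.asIdeal ⊔ Ideal.span {ext k L n g}) Q).toNat : ℕ) :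
            ℕ∞) := by
        rw [Nat.cast_sum]
        exact Finset.sum_congr rfl fun w hw => (ENat.natCast_toNat (h2 w hw)).symm
      rw [h1, h3, ENat.toNat_natCast, Nat.cast_sum]
    · simp only [if_neg hQ, Finset.sum_const_zero]
  rw [heq]
  refine AddSubgroup.sum_mem _ fun w hw => AddSubgroup.subset_closure ?_
  refine ⟨w, ext k L n g, ?_, hdm w hw, hg w hw, rfl⟩
  have h4 : f ∈ w.asIdeal.comap (ext k L n) := by
    rw [hover' w hw]; exact hfW
  exact h4

end Pool.Agent.HCR
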