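import Pool.Agent.HCR.Defs
import Pool.Agent.HCH.Main

namespace Pool.Agent.HCR

open Pool.Agent.HCH Pool.Agent.HCF MvPolynomial

theorem V1b_comap_mul {k L : Type} [Field k] [Field L] [Algebra k L] {n : ℕ} (σ τ : L ≃ₐ[k] L)
    (Q : PrimeSpectrum (MvPolynomial (Fin n) L)) :
    PrimeSpectrum.comap (ga n (σ * τ)) Q =
      PrimeSpectrum.comap (ga n τ) (PrimeSpectrum.comap (ga n σ) Q) := by
  apply PrimeSpectrum.ext
  ext a
  change ga n (σ * τ) a ∈ Q.asIdeal ↔ ga n σ (ga n τ a) ∈ Q.asIdeal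
  rw [ga_mul]

open Classical in
/-
PROOF. m = number of σ with comap (ga n σ) Q₀ = Q₀ (the identity is one). If comap ext Q ≠ comap ext Q₀ both sides are 0 (ga_comap). Otherwise Q₀ = comap (ga n τ) Q
(conj, HCH/G5) and σ ↦ comap (ga n σ) Q = Q₀ is a coset of the stabiliser.
-/
theorem orbit_sum {k L : Type} [Field k] [Field L] [Algebra k L] [FiniteDimensional k L]
    [IsGalois k L] {n : ℕ} (Q₀ : PrimeSpectrum (MvPolynomial (Fin n) L)) :
    ∃ m : ℕ, 0 < m ∧ ∀ Q : PrimeSpectrum (MvPolynomial (Fin n) L),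
      ∑ σ : L ≃ₐ[k] L, cls Q₀ (PrimeSpectrum.comap (ga n σ) Q) =
        (m : ℤ) * cls (PrimeSpectrum.comap (ext k L n) Q₀) (PrimeSpectrum.comap (ext k L n) Q) := by
  set A : Finset (L ≃ₐ[k] L) := Finset.univ.filter
    (fun σ => PrimeSpectrum.comap (ga n σ) Q₀ = Q₀) with hA
  refine ⟨A.card, ?_, ?_⟩
  · rw [Finset.card_pos]
    refine ⟨1, ?_⟩
    rw [hA, Finset.mem_filter]
    refine ⟨Finset.mem_univ _, ?_⟩
    have h1 := V1b_comap_mul (k := k) (1 : L ≃ₐ[k] L) 1 Q₀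
    apply PrimeSpectrum.ext
    ext a
    change ga n (1 : L ≃ₐ[k] L) a ∈ Q₀.asIdeal ↔ a ∈ Q₀.asIdeal
    have h2 : ga n (1 : L ≃ₐ[k] L) a = a := by
      unfold ga
      have h3 : (((1 : L ≃ₐ[k] L) : L ≃+* L) : L →+* L) = RingHom.id L := rfl
      rw [h3, MvPolynomial.map_id]
    rw [h2]
  · intro Q
    by_cases hQ : PrimeSpectrum.comap (ext k L n) Q = PrimeSpectrum.comap (ext k L n) Q₀
    · obtain ⟨τ, hτ⟩ := conj Q Q₀ hQ
      have h1 : cls (PrimeSpectrum.comap (ext k L n) Q₀) (PrimeSpectrum.comap (ext k L n) Q) = 1 := by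
        rw [cls, if_pos hQ]
      rw [h1, mul_one]
      have h2 : ∑ σ : L ≃ₐ[k] L, cls Q₀ (PrimeSpectrum.comap (ga n σ) Q) =
          ∑ σ : L ≃ₐ[k] L, cls Q₀ (PrimeSpectrum.comap (ga n (τ * σ)) Q) :=
        (Equiv.sum_comp (Equiv.mulLeft τ)
          (fun σ => cls Q₀ (PrimeSpectrum.comap (ga n σ) Q))).symm
      rw [h2, hA, Finset.card_filter]
      push_cast
      refine Finset.sum_congr rfl fun σ _ => ?_
      rw [V1b_comap_mul, hτ, cls]
    · have h1 : cls (PrimeSpectrum.comap (ext k L n) Q₀) (PrimeSpectrum.comap (ext k L n) Q) = 0 := by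
        rw [cls, if_neg hQ]
      rw [h1, mul_zero]
      refine Finset.sum_eq_zero fun σ _ => ?_
      rw [cls, if_neg]
      intro h
      apply hQ
      rw [← h, ga_comap]

end Pool.Agent.HCR
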