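import Pool.Agent.HCR.C2a
import Pool.Agent.HCH.Main

namespace Pool.Agent.HCR

open Pool.Agent.HCH Pool.Agent.HCF MvPolynomial

private theorem v1c_zhom {k L : Type} [Field k] [Field L] [Algebra k L] {n : ℕ} (σ : L ≃ₐ[k] L)
    (a : L) (r : MvPolynomial (Fin (n + 2)) L) :
    zhom a (ga (n + 2) σ r) = Polynomial.map (ga n σ) (zhom (σ⁻¹ a) r) := by
  have hC : ∀ (b c : L), (zhom b : MvPolynomial (Fin (n + 2)) L →ₐ[L]
      Polynomial (MvPolynomial (Fin n) L)) (C c) = Polynomial.C (C c) := by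
    intro b c
    rw [← MvPolynomial.algebraMap_eq, AlgHom.commutes]
    rfl
  have h0 : ∀ b : L, (zhom b : MvPolynomial (Fin (n + 2)) L →ₐ[L]
      Polynomial (MvPolynomial (Fin n) L)) (X 0) = Polynomial.X := by
    intro b
    unfold zhom
    rw [aeval_X, Fin.cons_zero]
  have h1 : ∀ b : L, (zhom b : MvPolynomial (Fin (n + 2)) L →ₐ[L]
      Polynomial (MvPolynomial (Fin n) L)) (X (Fin.succ 0)) =
        Polynomial.C (C b) * Polynomial.X := by
    intro b
    unfold zhom
    rw [aeval_X, Fin.cons_succ, Fin.cons_zero]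
  have h2 : ∀ (b : L) (i : Fin n), (zhom b : MvPolynomial (Fin (n + 2)) L →ₐ[L]
      Polynomial (MvPolynomial (Fin n) L)) (X (Fin.succ (Fin.succ i))) =
        Polynomial.C (X i) := by
    intro b i
    unfold zhom
    rw [aeval_X, Fin.cons_succ, Fin.cons_succ]
  have hgC : ∀ (m : ℕ) (c : L), ga m σ (C c) = C (σ c) := by
    intro m c
    unfold ga
    rw [map_C]
    rfl
  have hgX : ∀ (m : ℕ) (i : Fin m), ga m σ (X i) = X i := by
    intro m i
    unfold ga
    rw [map_X]
  have key : ((zhom a : MvPolynomial (Fin (n + 2)) L →ₐ[L]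
        Polynomial (MvPolynomial (Fin n) L)) : MvPolynomial (Fin (n + 2)) L →+*
        Polynomial (MvPolynomial (Fin n) L)).comp (ga (n + 2) σ) =
      (Polynomial.mapRingHom (ga n σ)).comp ((zhom (σ⁻¹ a) : MvPolynomial (Fin (n + 2)) L →ₐ[L]
        Polynomial (MvPolynomial (Fin n) L)) : MvPolynomial (Fin (n + 2)) L →+*
        Polynomial (MvPolynomial (Fin n) L)) := by
    apply MvPolynomial.ringHom_ext
    · intro c
      rw [RingHom.comp_apply, RingHom.comp_apply, hgC, RingHom.coe_coe, RingHom.coe_coe, hC, hC,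
        Polynomial.coe_mapRingHom, Polynomial.map_C, hgC]
    · intro i
      rw [RingHom.comp_apply, RingHom.comp_apply, hgX, RingHom.coe_coe, RingHom.coe_coe,
        Polynomial.coe_mapRingHom]
      refine Fin.cases ?_ (fun j => ?_) i
      · rw [h0, h0, Polynomial.map_X]
      · refine Fin.cases ?_ (fun l => ?_) j
        · have hs : σ (σ⁻¹ a) = a := σ.apply_symm_apply a
          rw [h1, h1, Polynomial.map_mul, Polynomial.map_C, Polynomial.map_X, hgC, hs]
        · rw [h2, h2, Polynomial.map_C, hgX]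
  exact DFunLike.congr_fun key r

/-
PROOF. (ga n σ) applied to the coefficients commutes with zhom: zhom a (ga (n+2) σ r) = (ga n σ on coefficients) (zhom (σ⁻¹ a) r), on variables and constants. The cylinder over Q
pulls back to the cylinder over comap (ga n σ) Q.
-/
theorem ga_mz {k L : Type} [Field k] [Field L] [Algebra k L] {n : ℕ} (σ : L ≃ₐ[k] L) (a : L)
    (Q : PrimeSpectrum (MvPolynomial (Fin n) L)) :
    PrimeSpectrum.comap (ga (n + 2) σ) (mz a Q) = mz (σ⁻¹ a) (PrimeSpectrum.comap (ga n σ) Q) := by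
  apply PrimeSpectrum.ext
  ext r
  have h1 : r ∈ (PrimeSpectrum.comap (ga (n + 2) σ) (mz a Q)).asIdeal ↔
      zhom a (ga (n + 2) σ r) ∈ (cylP Q).asIdeal := Iff.rfl
  have h2 : r ∈ (mz (σ⁻¹ a) (PrimeSpectrum.comap (ga n σ) Q)).asIdeal ↔
      zhom (σ⁻¹ a) r ∈ (cylP (PrimeSpectrum.comap (ga n σ) Q)).asIdeal := Iff.rfl
  rw [h1, h2, mem_cylP, mem_cylP, v1c_zhom]
  apply forall_congr'
  intro i
  rw [Polynomial.coeff_map]
  exact Iff.rfl

end Pool.Agent.HCR
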