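import Pool.Agent.HCR.B1d
import Pool.Agent.HCR.T1f
import Pool.Agent.HCR.U1c

namespace Pool.Agent.HCR

open Pool.Agent.HCH Pool.Agent.HCF MvPolynomial

theorem V1d_lam {K : Type} [Field K] {n : ℕ} (g : MvPolynomial (Fin n) K) :
    lamR K n (rename Fin.succ g) = HCH.ext K (RatFunc K) n g := by
  have h : ((lam : MvPolynomial (Fin (n + 1)) K →ₐ[K] MvPolynomial (Fin n) (RatFunc K)).comp
      (rename Fin.succ)) = MvPolynomial.mapAlgHom (Algebra.ofId K (RatFunc K)) := by
    apply MvPolynomial.algHom_ext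
    intro i
    simp [lam]
  exact DFunLike.congr_fun h g

theorem V1d_fse {K : Type} [Field K] {n : ℕ} (g : MvPolynomial (Fin n) K) :
    finSuccEquiv K n (rename Fin.succ g) = Polynomial.C g := by
  have h : ((finSuccEquiv K n : MvPolynomial (Fin (n + 1)) K →ₐ[K]
      Polynomial (MvPolynomial (Fin n) K)).comp (rename Fin.succ)) =
      (Polynomial.CAlgHom : MvPolynomial (Fin n) K →ₐ[MvPolynomial (Fin n) K]
        Polynomial (MvPolynomial (Fin n) K)).restrictScalars K := by
    apply MvPolynomial.algHom_ext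
    intro i
    simp [finSuccEquiv_X_succ]
  exact DFunLike.congr_fun h g

theorem V1d_inj {K : Type} [Field K] {n : ℕ} :
    Function.Injective (PrimeSpectrum.comap (lamR K n)) := by
  intro q q' h
  have h1 : q.asIdeal.comap (lamR K n) = q'.asIdeal.comap (lamR K n) :=
    congrArg PrimeSpectrum.asIdeal h
  apply PrimeSpectrum.ext
  calc q.asIdeal = (q.asIdeal.comap (lamR K n)).map (lamR K n) := (lam_map q.asIdeal).symm
    _ = (q'.asIdeal.comap (lamR K n)).map (lamR K n) := by rw [h1]
    _ = q'.asIdeal := lam_map q'.asIdeal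

/-
PROOF. γ ∈ Spec k[x], ext f ∈ γ, dm = e. P = comap (lamR K n) γ ⊂ K[X 0, x], dm K P = e + 1 (dm_lam), contains rename succ f (lamR (rename succ f) = ext f). E = the
corresponding prime of (K[x])[X] under finSuccEquiv; cyl_gen f E: w with single E 1 + w ∈ Rt K (span {C f}) (e + 1), w supported on cylinders cylP q, f ∈ q, dm q = e.
map_Rt back to MvPolynomial (Fin (n + 1)) K, Rt_iff, lam_down: single γ + Σ w(cylP q) [prime γ' with comap lam γ' = the cylinder over q] ∈ Rt k; that γ' is bc (RatFunc K) q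
(bc_unique).
-/
/-- Cycles over `K(t)` on a constant hypersurface are constant. -/
theorem gen_const {K : Type} [Field K] [IsAlgClosed K] {n : ℕ} (f : MvPolynomial (Fin n) K)
    (e : ℕ) :
    Gen (RatFunc K) (ext K (RatFunc K) n f) e
      (fun γ => ∃ p : PrimeSpectrum (MvPolynomial (Fin n) K), f ∈ p.asIdeal ∧
        γ = bc (RatFunc K) p) := by
  classical
  intro γ hγ hd
  refine ⟨1, Nat.one_pos, ?_⟩
  rw [Nat.cast_one, one_smul]
  let φ : MvPolynomial (Fin (n + 1)) K →ₐ[K] Polynomial (MvPolynomial (Fin n) K) :=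
    (finSuccEquiv K n : MvPolynomial (Fin (n + 1)) K →ₐ[K] Polynomial (MvPolynomial (Fin n) K))
  have hφ : Function.Surjective φ := (finSuccEquiv K n).surjective
  have hφi : Function.Injective φ := (finSuccEquiv K n).injective
  have hφs : ∀ g : MvPolynomial (Fin n) K, φ (rename Fin.succ g) = Polynomial.C g := V1d_fse
  have hker : RingHom.ker (φ : MvPolynomial (Fin (n + 1)) K →+*
      Polynomial (MvPolynomial (Fin n) K)) ≤ (PrimeSpectrum.comap (lamR K n) γ).asIdeal := by
    have h1 : RingHom.ker (φ : MvPolynomial (Fin (n + 1)) K →+*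
      Polynomial (MvPolynomial (Fin n) K)) = ⊥ := (RingHom.injective_iff_ker_eq_bot _).1 hφi
    rw [h1]
    exact bot_le
  obtain ⟨E, hE⟩ := exists_comap φ (PrimeSpectrum.comap (lamR K n) γ) hker hφ
  have hcinj : Function.Injective (PrimeSpectrum.comap (φ : MvPolynomial (Fin (n + 1)) K →+*
      Polynomial (MvPolynomial (Fin n) K))) := PrimeSpectrum.comap_injective_of_surjective _ hφ
  have hEd : dm K E.asIdeal = e + 1 := by
    rw [← dm_comap φ hφ E.asIdeal]
    have h1 : E.asIdeal.comap (φ : MvPolynomial (Fin (n + 1)) K →+*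
      Polynomial (MvPolynomial (Fin n) K)) = γ.asIdeal.comap (lamR K n) :=
      congrArg PrimeSpectrum.asIdeal hE
    rw [h1, dm_lam (hq := γ.isPrime), hd]
  have hEf : Polynomial.C f ∈ E.asIdeal := by
    have h1 : rename Fin.succ f ∈ (PrimeSpectrum.comap (lamR K n) γ).asIdeal := by
      change lamR K n (rename Fin.succ f) ∈ γ.asIdeal
      rw [V1d_lam]
      exact hγ
    rw [← hE] at h1
    change φ (rename Fin.succ f) ∈ E.asIdeal at h1
    rwa [hφs] at h1
  obtain ⟨w, hw, hz⟩ := cyl_gen (K := K) f E hEf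
  rw [hEd] at hw hz
  -- back to the polynomial ring
  have hz1 := map_Rt φ hφ (Ideal.span {rename Fin.succ f}) (e + 1) _ (by
    rw [Ideal.map_span, Set.image_singleton]
    change Finsupp.single E 1 + w ∈ Rt K (Ideal.span {φ (rename Fin.succ f)}) (e + 1)
    rw [hφs]
    exact hz)
  rw [Finsupp.mapDomain_add, Finsupp.mapDomain_single, hE] at hz1
  set w' := w.mapDomain (PrimeSpectrum.comap (φ : MvPolynomial (Fin (n + 1)) K →+*
      Polynomial (MvPolynomial (Fin n) K))) with hw'
  have hz2 := lam_down (rename Fin.succ f) e _ ((Rt_iff _ _ _).1 hz1)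
  rw [V1d_lam] at hz2
  let u : PrimeSpectrum (MvPolynomial (Fin n) (RatFunc K)) →₀ ℤ :=
    w'.comapDomain (PrimeSpectrum.comap (lamR K n)) (V1d_inj.injOn)
  have hu : ∀ q, u q = w' (PrimeSpectrum.comap (lamR K n) q) := fun q => rfl
  have hz3 : Finsupp.single γ 1 + u ∈ Rt (RatFunc K)
      (Ideal.span {HCH.ext K (RatFunc K) n f}) e := by
    rw [Rt_iff]
    have h1 : ⇑(Finsupp.single γ 1 + u : PrimeSpectrum (MvPolynomial (Fin n) (RatFunc K)) →₀ ℤ) =
        (fun q => (Finsupp.single (PrimeSpectrum.comap (lamR K n) γ) 1 + w' :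
          PrimeSpectrum (MvPolynomial (Fin (n + 1)) K) →₀ ℤ)
            (PrimeSpectrum.comap (lamR K n) q)) := by
      funext q
      rw [Finsupp.add_apply, Finsupp.add_apply, hu, Finsupp.single_apply, Finsupp.single_apply]
      by_cases h2 : γ = q
      · rw [if_pos h2, if_pos (congrArg _ h2)]
      · rw [if_neg h2, if_neg (fun h3 => h2 (V1d_inj h3))]
    rw [h1]
    exact hz2
  have hucy : u ∈ Cy (RatFunc K) (HCH.ext K (RatFunc K) n f) e (fun γ =>
      ∃ p : PrimeSpectrum (MvPolynomial (Fin n) K), f ∈ p.asIdeal ∧ γ = bc (RatFunc K) p) := by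
    rw [← Finsupp.sum_single u, Finsupp.sum]
    refine AddSubgroup.sum_mem _ fun q hq => ?_
    have hq0 : w' (PrimeSpectrum.comap (lamR K n) q) ≠ 0 := by
      have h0 := Finsupp.mem_support_iff.1 hq
      rwa [hu] at h0
    obtain ⟨Q, hQ, hQw⟩ : ∃ Q, PrimeSpectrum.comap (φ : MvPolynomial (Fin (n + 1)) K →+*
        Polynomial (MvPolynomial (Fin n) K)) Q = PrimeSpectrum.comap (lamR K n) q ∧ w Q ≠ 0 := by
      have h1 : PrimeSpectrum.comap (lamR K n) q ∈ w'.support := Finsupp.mem_support_iff.2 hq0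
      have h2 := Finsupp.mapDomain_support h1
      rw [Finset.mem_image] at h2
      obtain ⟨Q, hQ1, hQ2⟩ := h2
      exact ⟨Q, hQ2, Finsupp.mem_support_iff.1 hQ1⟩
    obtain ⟨q0, rfl, hfq, hdq⟩ := hw Q hQw
    have hdq' : dm K q0.asIdeal = e := by omega
    have hqd : dm (RatFunc K) q.asIdeal = e := by
      have h1 := dm_lam q.asIdeal (hq := q.isPrime)
      have h2 : q.asIdeal.comap (lamR K n) = (cylP q0).asIdeal.comap
          (φ : MvPolynomial (Fin (n + 1)) K →+* Polynomial (MvPolynomial (Fin n) K)) :=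
        (congrArg PrimeSpectrum.asIdeal hQ).symm
      rw [h2, dm_comap φ hφ, dm_cylP e q0 hdq'] at h1
      omega
    have hle : q0.asIdeal ≤ q.asIdeal.comap (HCH.ext K (RatFunc K) n) := by
      intro g hg
      rw [Ideal.mem_comap, ← V1d_lam]
      have h2 : q.asIdeal.comap (lamR K n) = (cylP q0).asIdeal.comap
          (φ : MvPolynomial (Fin (n + 1)) K →+* Polynomial (MvPolynomial (Fin n) K)) :=
        (congrArg PrimeSpectrum.asIdeal hQ).symm
      rw [← Ideal.mem_comap, h2]
      change φ (rename Fin.succ g) ∈ (cylP q0).asIdeal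
      rw [hφs]
      exact Ideal.mem_map_of_mem _ hg
    have hbc := bc_unique q0 q hle (hqd.trans hdq'.symm)
    have e2 : Finsupp.single q (u q) = (u q) • Finsupp.single q (1 : ℤ) := by
      rw [Finsupp.smul_single, smul_eq_mul, mul_one]
    have hmem : Finsupp.single q (1 : ℤ) ∈ Cy (RatFunc K) (HCH.ext K (RatFunc K) n f) e (fun γ =>
        ∃ p : PrimeSpectrum (MvPolynomial (Fin n) K), f ∈ p.asIdeal ∧ γ = bc (RatFunc K) p) :=
      AddSubgroup.subset_closure ⟨q, hle hfq, hqd, ⟨q0, hfq, hbc⟩, rfl⟩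
    rw [e2]
    exact AddSubgroup.zsmul_mem _ hmem _
  have hfin : Finsupp.single γ (1 : ℤ) = (Finsupp.single γ 1 + u) + (-u) := by abel
  rw [hfin]
  exact AddSubgroup.add_mem_sup hz3 (AddSubgroup.neg_mem _ hucy)

end Pool.Agent.HCR
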