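import Pool.Agent.HCR.V1a
import Pool.Agent.HCR.V1b
import Pool.Agent.HCR.V1c
import Pool.Agent.HCR.U2g
import Pool.Agent.HCR.U1e
import Pool.Agent.HCR.C2d
import Pool.Agent.HCR.C3b
import Pool.Agent.HCR.E1e

/-!
The trace of a cycle of middle dimension over the function field of the Fermat curve.
-/

namespace Pool.Agent.HCR

open Pool.Agent.HCH Pool.Agent.HCF MvPolynomial

theorem V1e_ext_tw {L : Type} [Field L] [Algebra ℂ L] [Algebra (RatFunc ℂ) L]
    [IsScalarTower ℂ (RatFunc ℂ) L] (D : ℕ) {n : ℕ} (F : MvPolynomial (Fin n) ℂ) :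
    ext (RatFunc ℂ) L (n + 1) (tw D F) = rename Fin.succ (ext ℂ L n F) +
      C (1 + (algebraMap (RatFunc ℂ) L RatFunc.X) ^ D) * X 0 ^ D := by
  unfold tw
  rw [map_add, map_mul, map_pow]
  congr 1
  · unfold Pool.Agent.HCH.ext
    rw [MvPolynomial.map_rename, MvPolynomial.map_map, ← IsScalarTower.algebraMap_eq]
  · unfold Pool.Agent.HCH.ext
    rw [MvPolynomial.map_C, MvPolynomial.map_X, map_add, map_one, map_pow]

theorem V1e_dg_suspA {L : Type} [Field L] (D : ℕ) {n : ℕ} (F : MvPolynomial (Fin n) L)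
    (α : Fin (n + 2) → Lˣ) (h1 : α 1 = 1) (h2 : ∀ k : Fin n, α k.succ.succ = 1) :
    dg α (suspA D F) = rename Fin.succ (sus D F) + C ((α 0 : L) ^ D) * X 0 ^ D := by
  have hr : dg α (rename (Fin.succ ∘ Fin.succ) F) = rename (Fin.succ ∘ Fin.succ) F := by
    have h3 : (dg α : MvPolynomial (Fin (n + 2)) L →ₐ[L] MvPolynomial (Fin (n + 2)) L).comp
        (rename (Fin.succ ∘ Fin.succ)) = rename (Fin.succ ∘ Fin.succ) := by
      apply algHom_ext
      intro k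
      rw [AlgHom.comp_apply, rename_X]
      change dg α (X k.succ.succ) = X k.succ.succ
      rw [dg_X, h2, Units.val_one, C_1, one_mul]
    exact congrArg (fun φ : MvPolynomial (Fin n) L →ₐ[L] MvPolynomial (Fin (n + 2)) L => φ F) h3
  unfold suspA sus
  rw [map_add, map_add, hr, map_pow, map_pow, dg_X, dg_X, h1, Units.val_one, C_1, one_mul, map_add,
    map_pow, rename_X, rename_rename, mul_pow, ← C_pow]
  have h4 : (1 : Fin (n + 2)) = (0 : Fin (n + 1)).succ := rfl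
  rw [h4]
  ring

theorem V1e_cls_ga {k L : Type} [Field k] [Field L] [Algebra k L] {n : ℕ} (σ : L ≃ₐ[k] L)
    (Q₀ Q : PrimeSpectrum (MvPolynomial (Fin n) L)) :
    cls Q₀ (PrimeSpectrum.comap (ga n σ) Q) = cls (PrimeSpectrum.comap (ga n σ⁻¹) Q₀) Q := by
  have hcomp : ∀ (τ : L ≃ₐ[k] L) (P : PrimeSpectrum (MvPolynomial (Fin n) L)),
      PrimeSpectrum.comap (ga n τ) (PrimeSpectrum.comap (ga n τ⁻¹) P) = P := by
    intro τ P
    apply PrimeSpectrum.ext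
    ext a
    change ga n τ⁻¹ (ga n τ a) ∈ P.asIdeal ↔ _
    rw [← ga_mul, inv_mul_cancel, ga_one]
  unfold cls
  have h1 : PrimeSpectrum.comap (ga n σ) Q = Q₀ ↔ Q = PrimeSpectrum.comap (ga n σ⁻¹) Q₀ := by
    constructor
    · intro h
      rw [← h]
      have := hcomp σ⁻¹ Q
      rw [inv_inv] at this
      exact this.symm
    · intro h
      rw [h]
      exact hcomp σ Q₀
  by_cases h2 : PrimeSpectrum.comap (ga n σ) Q = Q₀
  · rw [if_pos h2, if_pos (h1.1 h2)]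
  · rw [if_neg h2, if_neg (fun h => h2 (h1.2 h))]

/-- The trace of the prime `x_1 = s x_0` over `Γ`. -/
theorem V1e_orbit {k L : Type} [Field k] [CharZero k] [Field L] [Algebra k L] [IsGalois k L]
    [FiniteDimensional k L] {n : ℕ} (g : MvPolynomial (Fin (n + 2)) k) (e : ℕ)
    (h : AT k g e) (s : L) (Γ : PrimeSpectrum (MvPolynomial (Fin n) L))
    (hg : ext k L (n + 2) g ∈ (mz s Γ).asIdeal) (hd : dm L (mz s Γ).asIdeal = e) :
    ∃ N : ℕ, 0 < N ∧ (N : ℤ) • ∑ σ : L ≃ₐ[k] L,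
      Finsupp.single (mz (σ⁻¹ s) (PrimeSpectrum.comap (ga n σ) Γ)) (1 : ℤ) ∈
        Rt L (Ideal.span {ext k L (n + 2) g}) e := by
  classical
  set γ := PrimeSpectrum.comap (ext k L (n + 2)) (mz s Γ) with hγ
  obtain ⟨N, hN, hz⟩ := h γ hg (by
    have := dm_alg (k := k) (mz s Γ).asIdeal
    rw [hd] at this
    exact this)
  obtain ⟨m, hm, ho⟩ := orbit_sum (k := k) (mz s Γ)
  have h1 := ARat_ext (L := L) g e _ hz
  refine ⟨N, hN, ?_⟩
  rw [Rt_iff]
  have h2 := (ARat L (ext k L (n + 2) g) e).zsmul_mem h1 (m : ℤ)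
  convert! h2 using 1
  funext Q
  have h3 : (⇑((N : ℤ) • ∑ σ : L ≃ₐ[k] L,
      Finsupp.single (mz (σ⁻¹ s) (PrimeSpectrum.comap (ga n σ) Γ)) (1 : ℤ)) :
      PrimeSpectrum (MvPolynomial (Fin (n + 2)) L) → ℤ) Q =
      (N : ℤ) * ∑ σ : L ≃ₐ[k] L, cls (mz (σ⁻¹ s) (PrimeSpectrum.comap (ga n σ) Γ)) Q := by
    rw [Finsupp.smul_apply, Finsupp.finsetSum_apply, smul_eq_mul]
    congr 1
    apply Finset.sum_congr rfl
    intro σ _
    unfold cls
    rw [Finsupp.single_apply]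
    by_cases h4 : Q = mz (σ⁻¹ s) (PrimeSpectrum.comap (ga n σ) Γ)
    · rw [if_pos h4.symm, if_pos h4]
    · rw [if_neg (fun h5 => h4 h5.symm), if_neg h4]
  rw [h3]
  have h4 : ∑ σ : L ≃ₐ[k] L, cls (mz (σ⁻¹ s) (PrimeSpectrum.comap (ga n σ) Γ)) Q =
      ∑ σ : L ≃ₐ[k] L, cls (mz s Γ) (PrimeSpectrum.comap (ga (n + 2) σ) Q) := by
    rw [← Equiv.sum_comp (Equiv.inv (L ≃ₐ[k] L))
      (fun σ => cls (mz (σ⁻¹ s) (PrimeSpectrum.comap (ga n σ) Γ)) Q)]
    apply Finset.sum_congr rfl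
    intro σ _
    rw [V1e_cls_ga, ga_mz]
    rfl
  rw [h4, ho Q]
  simp only [Pi.smul_apply, smul_eq_mul]
  ring

theorem V1e_s_ne {D : ℕ} (hD : 1 ≤ D) (s : FF D)
    (hs : s ^ D + algebraMap (RatFunc ℂ) (FF D) RatFunc.X ^ D + 1 = 0) : s ≠ 0 := by
  intro h0
  rw [h0, zero_pow (by omega), zero_add] at hs
  have h1 : algebraMap (RatFunc ℂ) (FF D) (RatFunc.X ^ D + 1) = 0 := by
    rw [map_add, map_pow, map_one, hs]
  rw [map_eq_zero] at h1
  have h2 : (RatFunc.X ^ D + 1 : RatFunc ℂ) =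
      algebraMap (Polynomial ℂ) (RatFunc ℂ) (Polynomial.X ^ D + Polynomial.C 1) := by
    rw [map_add, map_pow, RatFunc.algebraMap_X, Polynomial.C_1, map_one]
  rw [h2, map_eq_zero_iff _ (IsFractionRing.injective (Polynomial ℂ) (RatFunc ℂ))] at h1
  exact Polynomial.X_pow_add_C_ne_zero (by omega) 1 h1

theorem V1e_roots {L : Type} [Field L] [Algebra ℂ L] (D : ℕ) (hD : 2 ≤ D) :
    ∃ S : Finset L, S.card = D ∧ (∀ η : L, η ^ D = -1 → η ∈ S) ∧ ∀ n : ℕ,
      ∏ ζ ∈ S, (Polynomial.C Polynomial.X - Polynomial.C (Polynomial.C (algebraMap L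
        (MvPolynomial (Fin n) L) ζ)) * Polynomial.X :
          Polynomial (Polynomial (MvPolynomial (Fin n) L))) =
            Polynomial.C Polynomial.X ^ D + Polynomial.X ^ D := by
  classical
  obtain ⟨S₀, hS₀, hprod⟩ := exists_roots (K := ℂ) D hD
  refine ⟨S₀.image (algebraMap ℂ L), ?_, ?_, ?_⟩
  · rw [Finset.card_image_of_injective _ (algebraMap ℂ L).injective, hS₀]
  · intro η h1
    have h2 := congrArg (fun P : Polynomial (Polynomial L) =>
      (P.eval (1 : Polynomial L)).eval η) (hprod L)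
    simp only [Polynomial.eval_prod, Polynomial.eval_sub, Polynomial.eval_C, Polynomial.eval_mul,
      Polynomial.eval_X, Polynomial.eval_add, Polynomial.eval_pow, mul_one, one_pow, h1,
      Polynomial.eval_one] at h2
    rw [neg_add_cancel, Finset.prod_eq_zero_iff] at h2
    obtain ⟨ζ, hζ, h3⟩ := h2
    rw [Finset.mem_image]
    exact ⟨ζ, hζ, (sub_eq_zero.1 h3).symm⟩
  · intro n
    rw [Finset.prod_image (fun a _ b _ hab => (algebraMap ℂ L).injective hab),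
      ← hprod (MvPolynomial (Fin n) L)]
    apply Finset.prod_congr rfl
    intro ζ _
    rw [IsScalarTower.algebraMap_apply ℂ L (MvPolynomial (Fin n) L)]

theorem V1e_main {L : Type} [Field L] [Algebra ℂ L] [Algebra (RatFunc ℂ) L]
    [IsScalarTower ℂ (RatFunc ℂ) L] [FiniteDimensional (RatFunc ℂ) L] [IsGalois (RatFunc ℂ) L]
    (D : ℕ) (hD : 3 ≤ D) (s : L) (hs0 : s ≠ 0)
    (hs : s ^ D + algebraMap (RatFunc ℂ) L RatFunc.X ^ D + 1 = 0)
    (hext : ∀ σ τ : L ≃ₐ[RatFunc ℂ] L, σ s = τ s → σ = τ) {n : ℕ}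
    (f : MvPolynomial (Fin n) ℂ) (e : ℕ) (he : e + 1 < n)
    (h : AT (RatFunc ℂ) (tw D (sus D f)) (e + 1))
    (Γ : PrimeSpectrum (MvPolynomial (Fin n) L)) (hΓ : ext ℂ L n f ∈ Γ.asIdeal)
    (hd : dm L Γ.asIdeal = e) :
    ∃ N : ℕ, 0 < N ∧ (N : ℤ) • (∑ σ : L ≃ₐ[RatFunc ℂ] L,
      Finsupp.single (PrimeSpectrum.comap (ga n σ) Γ) (1 : ℤ) -
        (D : ℤ) • Finsupp.single Γ (1 : ℤ)) ∈ Rt L (Ideal.span {ext ℂ L n f}) e := by
  classical
  have hc0 : CharZero (RatFunc ℂ) := charZero_of_injective_algebraMap (algebraMap ℂ _).injective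
  have hcL : CharZero L :=
    charZero_of_injective_algebraMap (algebraMap (RatFunc ℂ) L).injective
  have hinf : Infinite L := CharZero.infinite _
  obtain ⟨ε, hε⟩ := IsAlgClosed.exists_pow_nat_eq (-1 : ℂ) (show 0 < D by omega)
  have hε0 : ε ≠ 0 := by
    rintro rfl
    rw [zero_pow (by omega)] at hε
    norm_num at hε
  set εL : L := algebraMap ℂ L ε with hεL
  have hεL0 : εL ≠ 0 := by
    rw [hεL, Ne, map_eq_zero]
    exact hε0
  have hεLD : εL ^ D = -1 := by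
    rw [hεL, ← map_pow, hε, map_neg, map_one]
  have hsD : (εL * s) ^ D = 1 + algebraMap (RatFunc ℂ) L RatFunc.X ^ D := by
    rw [mul_pow, hεLD]
    linear_combination (-1 : L) * hs
  have hus : εL * s ≠ 0 := mul_ne_zero hεL0 hs0
  -- the scaling
  set α : Fin (n + 2) → Lˣ := Fin.cons (Units.mk0 (εL * s) hus) (fun _ => 1) with hα
  have hα0 : (α 0 : L) = εL * s := rfl
  have hα1 : α 1 = 1 := rfl
  have hα2 : ∀ k : Fin n, α k.succ.succ = 1 := fun k => rfl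
  set fL := ext ℂ L n f with hfL
  have hgL : ext (RatFunc ℂ) L (n + 2) (tw D (sus D f)) = dg α (suspA D fL) := by
    rw [V1e_ext_tw, V1e_dg_suspA D fL α hα1 hα2, hα0, hsD, ext_sus]
  have hcm : ∀ (a : L) (Q : PrimeSpectrum (MvPolynomial (Fin n) L)),
      cm (dg α) (mz a Q) = mz (a * (εL * s)⁻¹) Q := by
    intro a Q
    rw [cm_dg_mz, hα1, Units.val_one, mul_one]
    have h1 : (fun k : Fin n => α k.succ.succ) = fun _ => (1 : Lˣ) := rfl
    rw [h1, cm_dg_one, ← hα0, Units.val_inv_eq_inv_val]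
  have hη : ∀ a : L, a ^ D = s ^ D → (a * (εL * s)⁻¹) ^ D = -1 := by
    intro a ha
    have hsD0 : s ^ D ≠ 0 := pow_ne_zero _ hs0
    rw [mul_pow, ha, inv_pow, mul_pow, hεLD]
    field_simp
  have hσs : ∀ σ : L ≃ₐ[RatFunc ℂ] L, (σ s) ^ D = s ^ D := by
    intro σ
    have h1 : σ (s ^ D + algebraMap (RatFunc ℂ) L RatFunc.X ^ D + 1) = 0 := by
      rw [hs, map_zero]
    rw [map_add, map_add, map_pow, map_pow, AlgEquiv.commutes, map_one] at h1
    linear_combination h1 - hs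
  have hmem : ext (RatFunc ℂ) L (n + 2) (tw D (sus D f)) ∈ (mz s Γ).asIdeal := by
    rw [hgL]
    change suspA D fL ∈ (cm (dg α) (mz s Γ)).asIdeal
    rw [hcm]
    exact susp_mem_mz D fL _ (hη s rfl) Γ hΓ
  obtain ⟨N, hN, hR⟩ := V1e_orbit (tw D (sus D f)) (e + 1) h s Γ hmem (by rw [dm_mz, hd])
  -- transport by the scaling
  have hR2 : (N : ℤ) • ∑ σ : L ≃ₐ[RatFunc ℂ] L,
      Finsupp.single (mz (σ⁻¹ s * (εL * s)⁻¹) (PrimeSpectrum.comap (ga n σ) Γ)) (1 : ℤ) ∈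
        Rt L (Ideal.span {suspA D fL}) (e + 1) := by
    have h1 := map_Rt (K := L) (dg α : MvPolynomial (Fin (n + 2)) L →ₐ[L]
      MvPolynomial (Fin (n + 2)) L) (dg α).surjective (Ideal.span {suspA D fL}) (e + 1)
      ((N : ℤ) • ∑ σ : L ≃ₐ[RatFunc ℂ] L,
        Finsupp.single (mz (σ⁻¹ s) (PrimeSpectrum.comap (ga n σ) Γ)) (1 : ℤ)) (by
          rw [Ideal.map_span, Set.image_singleton]
          have h2 : ((dg α : MvPolynomial (Fin (n + 2)) L →ₐ[L]
            MvPolynomial (Fin (n + 2)) L) : MvPolynomial (Fin (n + 2)) L →+*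
              MvPolynomial (Fin (n + 2)) L) (suspA D fL) =
              ext (RatFunc ℂ) L (n + 2) (tw D (sus D f)) := hgL.symm
          rw [h2]
          exact hR)
    rw [Finsupp.mapDomain_smul, Finsupp.mapDomain_finsetSum] at h1
    have h3 : ∀ σ : L ≃ₐ[RatFunc ℂ] L, Finsupp.mapDomain (PrimeSpectrum.comap
        ((dg α : MvPolynomial (Fin (n + 2)) L →ₐ[L]
          MvPolynomial (Fin (n + 2)) L) : MvPolynomial (Fin (n + 2)) L →+*
            MvPolynomial (Fin (n + 2)) L))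
        (Finsupp.single (mz (σ⁻¹ s) (PrimeSpectrum.comap (ga n σ) Γ)) (1 : ℤ)) =
        Finsupp.single (mz (σ⁻¹ s * (εL * s)⁻¹) (PrimeSpectrum.comap (ga n σ) Γ)) (1 : ℤ) := by
      intro σ
      rw [Finsupp.mapDomain_single]
      exact congrArg (fun P => Finsupp.single P (1 : ℤ)) (hcm _ _)
    rw [Finset.sum_congr rfl (fun σ _ => h3 σ)] at h1
    exact h1
  -- the roots
  obtain ⟨S, hScard, hSmem, hSprod'⟩ := V1e_roots (L := L) D (by omega)
  have hSprod := hSprod' n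
  -- the cycles
  set ησ : (L ≃ₐ[RatFunc ℂ] L) → L := fun σ => σ⁻¹ s * (εL * s)⁻¹ with hησ
  set Γσ : (L ≃ₐ[RatFunc ℂ] L) → PrimeSpectrum (MvPolynomial (Fin n) L) :=
    fun σ => PrimeSpectrum.comap (ga n σ) Γ with hΓσ
  set w : L → (PrimeSpectrum (MvPolynomial (Fin n) L) →₀ ℤ) := fun η =>
    (N : ℤ) • ∑ σ ∈ Finset.univ.filter (fun σ => ησ σ = η), Finsupp.single (Γσ σ) (1 : ℤ) with hw
  have hηS : ∀ σ, ησ σ ∈ S := fun σ => hSmem _ (hη _ (hσs _))
  have hwd : ∀ ζ p, w ζ p ≠ 0 → dm L p.asIdeal = e := by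
    intro ζ p hp
    have h1 : ∃ σ : L ≃ₐ[RatFunc ℂ] L, Γσ σ = p := by
      by_contra h2
      push Not at h2
      apply hp
      simp only [hw, Finsupp.smul_apply, Finsupp.finsetSum_apply]
      rw [Finset.sum_eq_zero, smul_zero]
      intro σ _
      rw [Finsupp.single_apply, if_neg (h2 σ)]
    obtain ⟨σ, rfl⟩ := h1
    rw [hΓσ]
    simp only [ga_dm, hd]
  have hsum : ∑ ζ ∈ S, Finsupp.mapDomain (mz ζ) (w ζ) ∈
      Rt L (Ideal.span {suspA D fL}) (e + 1) := by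
    have h1 : ∑ ζ ∈ S, Finsupp.mapDomain (mz ζ) (w ζ) =
        (N : ℤ) • ∑ σ : L ≃ₐ[RatFunc ℂ] L,
          Finsupp.single (mz (ησ σ) (Γσ σ)) (1 : ℤ) := by
      rw [← Finset.sum_fiberwise_of_maps_to (s := Finset.univ) (t := S) (g := ησ)
        (fun σ _ => hηS σ), Finset.smul_sum]
      apply Finset.sum_congr rfl
      intro ζ _
      simp only [hw]
      rw [Finsupp.mapDomain_smul, Finsupp.mapDomain_finsetSum]
      congr 1
      apply Finset.sum_congr rfl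
      intro σ hσ
      rw [Finsupp.mapDomain_single, (Finset.mem_filter.1 hσ).2]
    rw [h1]
    exact hR2
  have hJ := push_mz fL D S (by omega) hSprod e w hwd hsum (ησ 1) (hηS 1)
  have hη1 : ∀ σ, ησ σ = ησ 1 ↔ σ = 1 := by
    intro σ
    constructor
    · intro h1
      have h2 : σ⁻¹ s = (1 : L ≃ₐ[RatFunc ℂ] L)⁻¹ s := mul_right_cancel₀ (inv_ne_zero hus) h1
      have h3 := hext _ _ h2
      exact inv_injective h3
    · rintro rfl
      rfl
  have hw1 : w (ησ 1) = (N : ℤ) • Finsupp.single Γ (1 : ℤ) := by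
    have h1 : Finset.univ.filter (fun σ => ησ σ = ησ 1) = {1} := by
      ext σ
      rw [Finset.mem_filter, Finset.mem_singleton, hη1]
      simp
    simp only [hw]
    rw [h1, Finset.sum_singleton]
    have h2 : Γσ 1 = Γ := by
      apply PrimeSpectrum.ext
      ext a
      change ga n 1 a ∈ Γ.asIdeal ↔ _
      rw [ga_one]
    rw [h2]
  have hwS : ∑ ζ ∈ S, w ζ = (N : ℤ) • ∑ σ : L ≃ₐ[RatFunc ℂ] L,
      Finsupp.single (Γσ σ) (1 : ℤ) := by
    rw [← Finset.sum_fiberwise_of_maps_to (s := Finset.univ) (t := S) (g := ησ)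
      (fun σ _ => hηS σ), Finset.smul_sum]
  have hfinal : ∑ ζ ∈ S.erase (ησ 1), w ζ - (S.card - 1) • w (ησ 1) =
      (N : ℤ) • (∑ σ : L ≃ₐ[RatFunc ℂ] L, Finsupp.single (Γσ σ) (1 : ℤ) -
        (D : ℤ) • Finsupp.single Γ (1 : ℤ)) := by
    have h1 := Finset.add_sum_erase S w (hηS 1)
    rw [hwS] at h1
    have h2 : ∑ ζ ∈ S.erase (ησ 1), w ζ = (N : ℤ) • ∑ σ : L ≃ₐ[RatFunc ℂ] L,
        Finsupp.single (Γσ σ) (1 : ℤ) - w (ησ 1) := by
      rw [← h1]
      abel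
    rw [h2, hw1, hScard]
    obtain ⟨D', rfl⟩ : ∃ D', D = D' + 1 := ⟨D - 1, by omega⟩
    rw [Nat.add_sub_cancel, smul_sub]
    push_cast
    rw [add_smul, one_smul, smul_add, ← natCast_zsmul, smul_comm (D' : ℤ) (N : ℤ)]
    abel
  rw [hfinal] at hJ
  obtain ⟨N', hN', hz⟩ := JJ_tors' he fL _ hJ
  refine ⟨N' * N, Nat.mul_pos hN' hN, ?_⟩
  rw [smul_smul] at hz
  push_cast
  exact hz

/-- The trace of a cycle of middle dimension. -/
theorem trace_tors (D : ℕ) (hD : 3 ≤ D) {n : ℕ} (f : MvPolynomial (Fin n) ℂ) (e : ℕ)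
    (he : e + 1 < n) [FiniteDimensional (RatFunc ℂ) (FF D)]
    (h : AT (RatFunc ℂ) (tw D (sus D f)) (e + 1))
    (Γ : PrimeSpectrum (MvPolynomial (Fin n) (FF D))) (hΓ : ext ℂ (FF D) n f ∈ Γ.asIdeal)
    (hd : dm (FF D) Γ.asIdeal = e) :
    ∃ N : ℕ, 0 < N ∧ (N : ℤ) • (∑ σ : FF D ≃ₐ[RatFunc ℂ] FF D,
      Finsupp.single (PrimeSpectrum.comap (ga n σ) Γ) (1 : ℤ) -
        (D : ℤ) • Finsupp.single Γ (1 : ℤ)) ∈ Rt (FF D) (Ideal.span {ext ℂ (FF D) n f}) e := by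
  obtain ⟨-, hGal⟩ := FF_finite D (by omega)
  obtain ⟨s, hs⟩ := exists_s D (by omega)
  exact V1e_main D hD s (V1e_s_ne (by omega) s hs) hs
    (fun σ τ hστ => FF_ext D (by omega) s hs σ τ hστ) f e he h Γ hΓ hd

end Pool.Agent.HCR
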