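import Pool.Agent.HCR.V1e
import Pool.Agent.HCR.V1d

namespace Pool.Agent.HCR

open Pool.Agent.HCH Pool.Agent.HCF MvPolynomial

private theorem V1f_comp {K k L : Type} [Field K] [Field k] [Field L]
    [Algebra K k] [Algebra k L] [Algebra K L] [IsScalarTower K k L] {n : ℕ}
    (y : MvPolynomial (Fin n) K) : HCH.ext k L n (HCH.ext K k n y) = HCH.ext K L n y := by
  have := ext_comp (k := K) (E := k) (L := L) n
  rw [← this]
  rfl

private theorem V1f_comap_bc {K k L : Type} [Field K] [IsAlgClosed K] [Field k] [Field L]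
    [Algebra K k] [Algebra k L] [Algebra K L] [IsScalarTower K k L] [Algebra.IsAlgebraic k L]
    {n : ℕ} (p : PrimeSpectrum (MvPolynomial (Fin n) K))
    (Q : PrimeSpectrum (MvPolynomial (Fin n) L)) :
    PrimeSpectrum.comap (HCH.ext k L n) Q = bc k p ↔ Q = bc L p := by
  constructor
  · intro h
    have h' : Q.asIdeal.comap (HCH.ext k L n) = (bc k p).asIdeal :=
      congrArg PrimeSpectrum.asIdeal h
    refine bc_unique p Q ?_ ?_
    · intro r hr
      have h1 : HCH.ext K k n r ∈ Q.asIdeal.comap (HCH.ext k L n) := by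
        rw [h']
        exact Ideal.mem_map_of_mem _ hr
      rw [Ideal.mem_comap, V1f_comp] at h1
      exact h1
    · exact (dm_alg (k := k) (E := L) Q.asIdeal).symm.trans
        ((congrArg (dm k) h').trans (dm_bc p))
  · rintro rfl
    refine bc_unique p _ ?_ ?_
    · intro r hr
      change HCH.ext k L n (HCH.ext K k n r) ∈ (bc L p).asIdeal
      rw [V1f_comp]
      exact Ideal.mem_map_of_mem _ hr
    · exact (dm_alg (k := k) (E := L) (bc L p).asIdeal).trans (dm_bc p)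

private theorem V1f_Cy {K k L : Type} [Field K] [IsAlgClosed K] [Field k] [Field L]
    [Algebra K k] [Algebra k L] [Algebra K L] [IsScalarTower K k L] [Algebra.IsAlgebraic k L]
    {n : ℕ} (f : MvPolynomial (Fin n) K) (e : ℕ)
    (w : PrimeSpectrum (MvPolynomial (Fin n) k) →₀ ℤ)
    (hw : w ∈ Cy k (HCH.ext K k n f) e (fun γ => ∃ p : PrimeSpectrum (MvPolynomial (Fin n) K),
      f ∈ p.asIdeal ∧ γ = bc k p)) :
    ∃ w' ∈ Cy L (HCH.ext K L n f) e (fun Q => ∃ p : PrimeSpectrum (MvPolynomial (Fin n) K),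
      f ∈ p.asIdeal ∧ Q = bc L p), (⇑w' : PrimeSpectrum (MvPolynomial (Fin n) L) → ℤ) =
        fun Q => w (PrimeSpectrum.comap (HCH.ext k L n) Q) := by
  classical
  unfold Cy at hw
  induction hw using AddSubgroup.closure_induction with
  | mem z hz =>
    obtain ⟨q, hq, hd, ⟨p, hp, rfl⟩, rfl⟩ := hz
    refine ⟨Finsupp.single (bc L p) 1, AddSubgroup.subset_closure
      ⟨bc L p, Ideal.mem_map_of_mem _ hp, ?_, ⟨p, hp, rfl⟩, rfl⟩, ?_⟩
    · exact (dm_bc p).trans ((dm_bc (L := k) p).symm.trans hd)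
    · funext Q
      rw [Finsupp.single_apply, Finsupp.single_apply]
      have h1 := V1f_comap_bc (k := k) p Q
      by_cases h2 : Q = bc L p
      · rw [if_pos h2.symm, if_pos (h1.mpr h2).symm]
      · rw [if_neg (Ne.symm h2), if_neg (fun h3 => h2 (h1.mp h3.symm))]
  | zero => exact ⟨0, zero_mem _, rfl⟩
  | add a b _ _ ha hb =>
    obtain ⟨a', ha', ha2⟩ := ha
    obtain ⟨b', hb', hb2⟩ := hb
    refine ⟨a' + b', add_mem ha' hb', ?_⟩
    funext Q
    rw [Finsupp.add_apply, Finsupp.add_apply, ha2, hb2]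
  | neg a _ ha =>
    obtain ⟨a', ha', ha2⟩ := ha
    refine ⟨-a', neg_mem ha', ?_⟩
    funext Q
    rw [Finsupp.neg_apply, Finsupp.neg_apply, ha2]

/-
PROOF. trace_tors; γ = comap ext Γ; gen_const at γ: N₂ • single γ - w ∈ Rt k, w ∈ Cy (bc (RatFunc ℂ) p). ARat_ext: the pull-back of single γ is a positive multiple of
the sum over the orbit (orbit_sum for Γ), the pull-back of single (bc k p) is single (bc L p) (at primes of dimension e: bc_unique). So a positive multiple of Σ_σ single Γ_σ is in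
Rt L ⊔ Cy, hence so is one of D • single Γ.
-/
theorem aff_onto (D : ℕ) (hD : 3 ≤ D) {n : ℕ} (f : MvPolynomial (Fin n) ℂ) (e : ℕ)
    (he : e + 1 < n) (h : AT (RatFunc ℂ) (tw D (sus D f)) (e + 1)) :
    Gen (FF D) (ext ℂ (FF D) n f) e (fun Q => ∃ p : PrimeSpectrum (MvPolynomial (Fin n) ℂ),
      f ∈ p.asIdeal ∧ Q = bc (FF D) p) := by
  classical
  have hfin := (FF_finite D (by omega)).1
  have hgal := (FF_finite D (by omega)).2
  intro Γ hΓ hd
  obtain ⟨N, hN, hz⟩ := trace_tors D hD f e he h Γ hΓ hd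
  have hγf : HCH.ext ℂ (RatFunc ℂ) n f ∈
      (PrimeSpectrum.comap (HCH.ext (RatFunc ℂ) (FF D) n) Γ).asIdeal := by
    change HCH.ext (RatFunc ℂ) (FF D) n (HCH.ext ℂ (RatFunc ℂ) n f) ∈ Γ.asIdeal
    rw [V1f_comp]
    exact hΓ
  have hγd : dm (RatFunc ℂ) (PrimeSpectrum.comap (HCH.ext (RatFunc ℂ) (FF D) n) Γ).asIdeal = e :=
    (dm_alg (k := RatFunc ℂ) (E := FF D) Γ.asIdeal).trans hd
  obtain ⟨N₂, hN₂, hz₂⟩ := gen_const f e _ hγf hγd
  obtain ⟨y, hy, w, hw, hyw⟩ := AddSubgroup.mem_sup.mp hz₂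
  obtain ⟨w', hw', hww⟩ := V1f_Cy (L := FF D) f e w hw
  rw [Rt_iff] at hy
  have hy' := ARat_ext (L := FF D) _ e _ hy
  rw [V1f_comp] at hy'
  obtain ⟨m, hm, horb⟩ := orbit_sum (k := RatFunc ℂ) Γ
  -- the sum over the orbit
  have hS : ((N₂ : ℤ) • ∑ σ : FF D ≃ₐ[RatFunc ℂ] FF D,
      Finsupp.single (PrimeSpectrum.comap (ga n σ) Γ) (1 : ℤ) - (m : ℤ) • w') ∈
        Rt (FF D) (Ideal.span {HCH.ext ℂ (FF D) n f}) e := by
    rw [Rt_iff]
    have h1 : (⇑((N₂ : ℤ) • ∑ σ : FF D ≃ₐ[RatFunc ℂ] FF D,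
        Finsupp.single (PrimeSpectrum.comap (ga n σ) Γ) (1 : ℤ) - (m : ℤ) • w') :
        PrimeSpectrum (MvPolynomial (Fin n) (FF D)) → ℤ) =
        (m : ℤ) • (fun Q => y (PrimeSpectrum.comap (HCH.ext (RatFunc ℂ) (FF D) n) Q)) := by
      funext Q
      rw [Finsupp.sub_apply, Finsupp.smul_apply, Finsupp.smul_apply, Pi.smul_apply, hww,
        Finsupp.finsetSum_apply]
      have h2 : ∑ σ : FF D ≃ₐ[RatFunc ℂ] FF D,
          (Finsupp.single (PrimeSpectrum.comap (ga n σ) Γ) (1 : ℤ)) Q =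
          ∑ σ : FF D ≃ₐ[RatFunc ℂ] FF D, cls Γ (PrimeSpectrum.comap (ga n σ) Q) := by
        refine Fintype.sum_equiv (Equiv.inv _) _ _ (fun σ => ?_)
        rw [Finsupp.single_apply, Equiv.inv_apply]
        unfold cls
        have h3 : PrimeSpectrum.comap (ga n σ) Γ = Q ↔ PrimeSpectrum.comap (ga n σ⁻¹) Q = Γ := by
          constructor
          · rintro rfl
            apply PrimeSpectrum.ext
            ext a
            change ga n σ (ga n σ⁻¹ a) ∈ Γ.asIdeal ↔ a ∈ Γ.asIdeal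
            rw [← ga_mul, mul_inv_cancel, ga_one]
          · rintro rfl
            apply PrimeSpectrum.ext
            ext a
            change ga n σ⁻¹ (ga n σ a) ∈ Q.asIdeal ↔ a ∈ Q.asIdeal
            rw [← ga_mul, inv_mul_cancel, ga_one]
        by_cases h4 : PrimeSpectrum.comap (ga n σ) Γ = Q
        · rw [if_pos h4, if_pos (h3.mp h4)]
        · rw [if_neg h4, if_neg (fun h5 => h4 (h3.mpr h5))]
      have h5 := congrArg (fun z : PrimeSpectrum (MvPolynomial (Fin n) (RatFunc ℂ)) →₀ ℤ =>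
        z (PrimeSpectrum.comap (HCH.ext (RatFunc ℂ) (FF D) n) Q)) hyw
      simp only [Finsupp.add_apply, Finsupp.smul_apply] at h5
      have h6 : (Finsupp.single (PrimeSpectrum.comap (HCH.ext (RatFunc ℂ) (FF D) n) Γ) (1 : ℤ))
          (PrimeSpectrum.comap (HCH.ext (RatFunc ℂ) (FF D) n) Q) =
          cls (PrimeSpectrum.comap (HCH.ext (RatFunc ℂ) (FF D) n) Γ)
            (PrimeSpectrum.comap (HCH.ext (RatFunc ℂ) (FF D) n) Q) := by
        rw [Finsupp.single_apply]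
        unfold cls
        by_cases h7 : PrimeSpectrum.comap (HCH.ext (RatFunc ℂ) (FF D) n) Γ =
            PrimeSpectrum.comap (HCH.ext (RatFunc ℂ) (FF D) n) Q
        · rw [if_pos h7, if_pos h7.symm]
        · rw [if_neg h7, if_neg (Ne.symm h7)]
      rw [h6] at h5
      rw [h2, horb]
      simp only [smul_eq_mul] at h5 ⊢
      linear_combination -(m : ℤ) * h5
    rw [h1]
    exact AddSubgroup.zsmul_mem _ hy' _
  refine ⟨N * N₂ * D, by positivity, ?_⟩
  have h8 : (((N * N₂ * D : ℕ) : ℤ) • Finsupp.single Γ (1 : ℤ)) =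
      ((N : ℤ) • ((N₂ : ℤ) • ∑ σ : FF D ≃ₐ[RatFunc ℂ] FF D,
        Finsupp.single (PrimeSpectrum.comap (ga n σ) Γ) (1 : ℤ) - (m : ℤ) • w') -
      (N₂ : ℤ) • ((N : ℤ) • (∑ σ : FF D ≃ₐ[RatFunc ℂ] FF D,
        Finsupp.single (PrimeSpectrum.comap (ga n σ) Γ) (1 : ℤ) -
          (D : ℤ) • Finsupp.single Γ (1 : ℤ)))) + ((N : ℤ) * (m : ℤ)) • w' := by
    push_cast
    module
  rw [h8]
  exact AddSubgroup.add_mem_sup (sub_mem (AddSubgroup.zsmul_mem _ hS _)
    (AddSubgroup.zsmul_mem _ hz _)) (AddSubgroup.zsmul_mem _ hw' _)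

end Pool.Agent.HCR
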