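import Pool.Agent.HCR.A1
import Pool.Agent.HCR.U1c

namespace Pool.Agent.HCR

open Pool.Agent.HCH Pool.Agent.HCF MvPolynomial

attribute [local instance] MvPolynomial.gradedAlgebra

theorem V1g_hg {K L : Type} [Field K] [Field L] [Algebra K L] {n : ℕ}
    (P : Ideal (MvPolynomial (Fin n) K)) (hP : HgI P) : HgI (P.map (HCH.ext K L n)) := by
  rw [hgI_iff] at hP ⊢
  obtain ⟨S, hS⟩ := (Ideal.IsHomogeneous.iff_exists _ _).1 hP
  rw [hS, Ideal.map_span]
  apply Ideal.homogeneous_span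
  rintro x ⟨y, ⟨s, -, rfl⟩, rfl⟩
  obtain ⟨i, hi⟩ := s.2
  refine ⟨i, ?_⟩
  rw [mem_homogeneousSubmodule] at hi ⊢
  exact hi.map _

theorem V1g_hm {K L : Type} [Field K] [IsAlgClosed K] [Field L] [Algebra K L] {m : ℕ}
    (p : PrimeSpectrum (MvPolynomial (Fin m) K)) : hm (bc L p) = bc L (hm p) := by
  have h1 : (X (Fin.last m) : MvPolynomial (Fin (m + 1)) L) ∉ (bc L (hm p)).asIdeal := by
    intro h
    have h2 : (X (Fin.last m) : MvPolynomial (Fin (m + 1)) K) ∈
        ((hm p).asIdeal.map (HCH.ext K L (m + 1))).comap (HCH.ext K L (m + 1)) := by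
      rw [Ideal.mem_comap]
      have h3 : HCH.ext K L (m + 1) (X (Fin.last m)) = X (Fin.last m) := MvPolynomial.map_X _ _
      rw [h3]
      exact h
    rw [comap_map_ext] at h2
    exact last_notMem p h2
  obtain ⟨q, hq⟩ := hm_surj (bc L (hm p)) (V1g_hg _ (hm_homog p)) h1
  rw [← hq]
  congr 1
  apply PrimeSpectrum.ext
  have h4 := map_hm q
  rw [hq] at h4
  rw [← h4]
  change p.asIdeal.map (HCH.ext K L m) = ((hm p).asIdeal.map (HCH.ext K L (m + 1))).map _
  conv_lhs => rw [← map_hm p]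
  have h5 : ((deh : MvPolynomial (Fin (m + 1)) L →ₐ[L] MvPolynomial (Fin m) L) :
      MvPolynomial (Fin (m + 1)) L →+* MvPolynomial (Fin m) L).comp (HCH.ext K L (m + 1)) =
      (HCH.ext K L m).comp ((deh : MvPolynomial (Fin (m + 1)) K →ₐ[K] MvPolynomial (Fin m) K) :
      MvPolynomial (Fin (m + 1)) K →+* MvPolynomial (Fin m) K) := by
    apply RingHom.ext
    intro f
    exact deh_ext f
  have h6 := Ideal.map_map (I := (hm p).asIdeal) (HCH.ext K L (m + 1))
    ((deh : MvPolynomial (Fin (m + 1)) L →ₐ[L] MvPolynomial (Fin m) L) :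
      MvPolynomial (Fin (m + 1)) L →+* MvPolynomial (Fin m) L)
  have h7 := Ideal.map_map (I := (hm p).asIdeal)
    ((deh : MvPolynomial (Fin (m + 1)) K →ₐ[K] MvPolynomial (Fin m) K) :
      MvPolynomial (Fin (m + 1)) K →+* MvPolynomial (Fin m) K) (HCH.ext K L m)
  rw [h5] at h6
  exact h7.trans h6.symm

section core

variable {L : Type} [Field L] {m : ℕ}

theorem V1g_single_mem (G : MvPolynomial (Fin m) L) (e : ℕ) (T' : Submodule ℚ (HCH.Sub G e →₀ ℚ))
    (u : HCH.Sub G e →₀ ℚ) (hu : ∀ P, u P ≠ 0 → Finsupp.single P (1 : ℚ) ∈ T') : u ∈ T' := by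
  rw [← Finsupp.sum_single u, Finsupp.sum]
  apply T'.sum_mem
  intro P hP
  have h1 := T'.smul_mem (u P) (hu P (Finsupp.mem_support_iff.1 hP))
  rwa [Finsupp.smul_single, smul_eq_mul, mul_one] at h1

theorem V1g_lift (G : MvPolynomial (Fin (m + 1)) L) {D : ℕ} (hG : G.IsHomogeneous D) (e : ℕ)
    (S : PrimeSpectrum (MvPolynomial (Fin m) L) → Prop)
    (T' : Submodule ℚ (HCH.Sub G (e + 1) →₀ ℚ))
    (hc : ∀ q, deh G ∈ q.asIdeal → dm L q.asIdeal = e → S q →
      ∀ Q : HCH.Sub G (e + 1), Q.1 = hm q → Finsupp.single Q (1 : ℚ) ∈ T')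
    (w : PrimeSpectrum (MvPolynomial (Fin m) L) →₀ ℤ) (hw : w ∈ Cy L (deh G) e S) :
    ∃ w' ∈ T', ∀ (P : HCH.Sub G (e + 1)) (p), hm p = P.1 → w' P = (w p : ℚ) := by
  classical
  unfold Cy at hw
  induction hw using AddSubgroup.closure_induction with
  | mem w hw =>
    obtain ⟨q, h1, h2, h3, rfl⟩ := hw
    have h4 : G ∈ (hm q).asIdeal := (mem_hm q G D hG).2 h1
    let Q : HCH.Sub G (e + 1) := ⟨hm q, hm_homog q, h4, by rw [dm_hm, h2]⟩
    refine ⟨Finsupp.single Q 1, hc q h1 h2 h3 Q rfl, ?_⟩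
    intro P p hp
    rw [Finsupp.single_apply, Finsupp.single_apply]
    by_cases h : q = p
    · subst h
      have h5 : Q = P := Subtype.ext hp
      rw [if_pos h5, if_pos rfl]
      simp
    · have h5 : Q ≠ P := by
        rintro h6
        apply h
        apply hm_inj
        rw [hp, ← h6]
      rw [if_neg h5, if_neg h]
      simp
  | zero => exact ⟨0, T'.zero_mem, fun P p _ => by simp⟩
  | add x y _ _ hx hy =>
    obtain ⟨x', hx', h1⟩ := hx
    obtain ⟨y', hy', h2⟩ := hy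
    refine ⟨x' + y', T'.add_mem hx' hy', fun P p hp => ?_⟩
    rw [Finsupp.add_apply, Finsupp.add_apply, h1 P p hp, h2 P p hp]
    push_cast
    rfl
  | neg x _ hx =>
    obtain ⟨x', hx', h1⟩ := hx
    refine ⟨-x', T'.neg_mem hx', fun P p hp => ?_⟩
    rw [Finsupp.neg_apply, Finsupp.neg_apply, h1 P p hp]
    push_cast
    rfl

theorem V1g_core (G : MvPolynomial (Fin (m + 1)) L) {D : ℕ} (hG : G.IsHomogeneous D) (e : ℕ)
    (S : PrimeSpectrum (MvPolynomial (Fin m) L) → Prop)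
    (T : Submodule ℚ (Chow G (e + 1)))
    (ha : ∀ Q : HCH.Sub G (e + 1), (X (Fin.last m) : MvPolynomial (Fin (m + 1)) L) ∈ Q.1.asIdeal →
      (RatEq G (e + 1)).mkQ (Finsupp.single Q 1) ∈ T)
    (hb : Gen L (deh G) e S)
    (hc : ∀ q, deh G ∈ q.asIdeal → dm L q.asIdeal = e → S q →
      ∀ Q : HCH.Sub G (e + 1), Q.1 = hm q → (RatEq G (e + 1)).mkQ (Finsupp.single Q 1) ∈ T)
    (x : Chow G (e + 1)) : x ∈ T := by
  classical
  have hT : ∀ v, v ∈ T.comap (RatEq G (e + 1)).mkQ ↔ (RatEq G (e + 1)).mkQ v ∈ T := fun v => Iff.rfl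
  set T' := T.comap (RatEq G (e + 1)).mkQ with hT'
  have hrat : ∀ v ∈ RatEq G (e + 1), v ∈ T' := by
    intro v hv
    rw [hT, (Submodule.Quotient.mk_eq_zero (RatEq G (e + 1))).2 hv |> fun h =>
      (show (RatEq G (e + 1)).mkQ v = 0 from h)]
    exact T.zero_mem
  have key : ∀ Q : HCH.Sub G (e + 1), Finsupp.single Q (1 : ℚ) ∈ T' := by
    intro Q
    by_cases hX : (X (Fin.last m) : MvPolynomial (Fin (m + 1)) L) ∈ Q.1.asIdeal
    · exact ha Q hX
    obtain ⟨q, hq⟩ := hm_surj Q.1 Q.2.1 hX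
    have h1 : deh G ∈ q.asIdeal := by
      rw [← mem_hm q G D hG, hq]
      exact Q.2.2.1
    have h2 : dm L q.asIdeal = e := by
      have h3 := dm_hm q
      rw [hq, Q.2.2.2] at h3
      omega
    obtain ⟨N, hN, hz⟩ := hb q h1 h2
    obtain ⟨y, hy, w, hw, hyw⟩ := AddSubgroup.mem_sup.1 hz
    obtain ⟨w', hw', h4⟩ := V1g_lift G hG e S T' hc w hw
    rw [Rt_iff] at hy
    obtain ⟨Z, hZ, h5⟩ := lift_ARat G hG e _ hy
    obtain ⟨v, hv⟩ := exists_restr G (e + 1) Z hZ
    have hv' := hrat v (int_rat G (e + 1) Z hZ v hv)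
    have hu : (N : ℚ) • Finsupp.single Q (1 : ℚ) - v - w' ∈ T' := by
      apply V1g_single_mem
      intro P hP
      apply ha P
      by_contra hX'
      apply hP
      obtain ⟨p, hp⟩ := hm_surj P.1 P.2.1 hX'
      rw [Finsupp.sub_apply, Finsupp.sub_apply, Finsupp.smul_apply, hv P, ← hp, h5 p, h4 P p hp]
      have h6 : (y p : ℤ) + w p = N * (if q = p then 1 else 0) := by
        have h7 := congrArg (fun f : PrimeSpectrum (MvPolynomial (Fin m) L) →₀ ℤ => f p) hyw
        simp only [Finsupp.add_apply, Finsupp.smul_apply, Finsupp.single_apply, smul_eq_mul] at h7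
        exact h7
      have h8 : (Finsupp.single Q (1 : ℚ)) P = ((if q = p then 1 else 0 : ℤ) : ℚ) := by
        rw [Finsupp.single_apply]
        by_cases h9 : q = p
        · subst h9
          rw [if_pos (Subtype.ext (hq.symm.trans hp)), if_pos rfl]
          simp
        · rw [if_neg, if_neg h9]
          · simp
          · intro h10
            apply h9
            apply hm_inj
            rw [hq, hp, h10]
      rw [h8, smul_eq_mul]
      have h11 := congrArg (fun z : ℤ => (z : ℚ)) h6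
      push_cast at h11 ⊢
      linarith
    have hs : (N : ℚ) • Finsupp.single Q (1 : ℚ) ∈ T' := by
      have := T'.add_mem (T'.add_mem hu hw') hv'
      have e1 : (N : ℚ) • Finsupp.single Q (1 : ℚ) - v - w' + w' + v = (N : ℚ) • Finsupp.single Q (1 : ℚ) := by
        abel
      rwa [e1] at this
    have h12 := T'.smul_mem ((N : ℚ)⁻¹) hs
    rwa [smul_smul, inv_mul_cancel₀ (by exact_mod_cast hN.ne'), one_smul] at h12
  obtain ⟨v, rfl⟩ := Submodule.mkQ_surjective _ x
  exact V1g_single_mem G (e + 1) T' v (fun P _ => key P)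

/-- push-forward from the hyperplane at infinity -/
noncomputable def V1g_sub (G : MvPolynomial (Fin (m + 1)) L) (G' : MvPolynomial (Fin m) L)
    (hG' : rhoI G = G') (e : ℕ) (P : HCH.Sub G' e) : HCH.Sub G e :=
  ⟨PrimeSpectrum.comap ((rhoI : MvPolynomial (Fin (m + 1)) L →ₐ[L] MvPolynomial (Fin m) L) :
    MvPolynomial (Fin (m + 1)) L →+* MvPolynomial (Fin m) L) P.1,
    (lq_homog lq_rhoI P.1).2 P.2.1, show rhoI G ∈ P.1.asIdeal from hG' ▸ P.2.2.1, by
      have := P.1.isPrime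
      exact (dm_comap rhoI (lq_surj lq_rhoI) P.1.asIdeal).trans P.2.2.2⟩

theorem V1g_sub_val (G : MvPolynomial (Fin (m + 1)) L) (G' : MvPolynomial (Fin m) L)
    (hG' : rhoI G = G') (e : ℕ) (P : HCH.Sub G' e) : (V1g_sub G G' hG' e P).1 =
    PrimeSpectrum.comap ((rhoI : MvPolynomial (Fin (m + 1)) L →ₐ[L] MvPolynomial (Fin m) L) :
    MvPolynomial (Fin (m + 1)) L →+* MvPolynomial (Fin m) L) P.1 := rfl

theorem V1g_inj (G : MvPolynomial (Fin (m + 1)) L) (G' : MvPolynomial (Fin m) L)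
    (hG' : rhoI G = G') (e : ℕ) : Function.Injective (V1g_sub G G' hG' e) := by
  intro P Q h
  have h1 := congrArg Subtype.val h
  rw [V1g_sub_val, V1g_sub_val] at h1
  apply Subtype.ext
  exact PrimeSpectrum.comap_injective_of_surjective _ (lq_surj lq_rhoI) h1

theorem V1g_range (G : MvPolynomial (Fin (m + 1)) L) (G' : MvPolynomial (Fin m) L)
    (hG' : rhoI G = G') (e : ℕ) (Q : HCH.Sub G e)
    (hX : (X (Fin.last m) : MvPolynomial (Fin (m + 1)) L) ∈ Q.1.asIdeal) :
    ∃ P : HCH.Sub G' e, V1g_sub G G' hG' e P = Q := by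
  obtain ⟨P', hP'⟩ := lq_range lq_rhoI Q.1 hX
  have h1 : HgI P'.asIdeal := by
    rw [← lq_homog lq_rhoI P', hP']
    exact Q.2.1
  have h2 : G' ∈ P'.asIdeal := by
    have h3 : G ∈ (PrimeSpectrum.comap ((rhoI : MvPolynomial (Fin (m + 1)) L →ₐ[L]
      MvPolynomial (Fin m) L) : MvPolynomial (Fin (m + 1)) L →+* MvPolynomial (Fin m) L) P').asIdeal := by
      rw [hP']
      exact Q.2.2.1
    rw [← hG']
    exact h3
  have h3 : dm L P'.asIdeal = e := by
    have := P'.isPrime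
    rw [← Q.2.2.2, ← hP']
    exact (dm_comap rhoI (lq_surj lq_rhoI) P'.asIdeal).symm
  exact ⟨⟨P', h1, h2, h3⟩, Subtype.ext hP'⟩

theorem V1g_rat (G : MvPolynomial (Fin (m + 1)) L) (G' : MvPolynomial (Fin m) L)
    (hG' : rhoI G = G') (e : ℕ) (v : HCH.Sub G' e →₀ ℚ) (hv : v ∈ RatEq G' e) :
    Finsupp.lmapDomain ℚ ℚ (V1g_sub G G' hG' e) v ∈ RatEq G e := by
  obtain ⟨N, hN, Z, hZ, h3, -⟩ := rat_int G' e v hv
  rw [← hG'] at hZ
  obtain ⟨Z', hZ', h4, h5⟩ := push_PRat lq_rhoI G e Z hZ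
  have h6 : (N : ℚ) • Finsupp.lmapDomain ℚ ℚ (V1g_sub G G' hG' e) v ∈ RatEq G e := by
    apply int_rat G e _ hZ'
    intro Q
    by_cases hX : (X (Fin.last m) : MvPolynomial (Fin (m + 1)) L) ∈ Q.1.asIdeal
    · obtain ⟨P, rfl⟩ := V1g_range G G' hG' e Q hX
      rw [Finsupp.smul_apply, Finsupp.lmapDomain_apply,
        Finsupp.mapDomain_apply (V1g_inj G G' hG' e), V1g_sub_val, h4, h3 P, smul_eq_mul]
    · rw [h5 _ hX, Finsupp.smul_apply, Finsupp.lmapDomain_apply, Finsupp.mapDomain_notin_range,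
        smul_zero, Int.cast_zero]
      rintro ⟨P, rfl⟩
      apply hX
      rw [V1g_sub_val]
      change rhoI (X (Fin.last m)) ∈ P.1.asIdeal
      have h7 : rhoI (X (Fin.last m) : MvPolynomial (Fin (m + 1)) L) = 0 := by
        simp [rhoI]
      rw [h7]
      exact Submodule.zero_mem _
  have h7 := (RatEq G e).smul_mem ((N : ℚ)⁻¹) h6
  rwa [smul_smul, inv_mul_cancel₀ (by exact_mod_cast hN.ne'), one_smul] at h7

end core

theorem V1g_rhoI_ext {K L : Type} [Field K] [Field L] [Algebra K L] {m : ℕ} :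
    ((rhoI : MvPolynomial (Fin (m + 1)) L →ₐ[L] MvPolynomial (Fin m) L) :
      MvPolynomial (Fin (m + 1)) L →+* MvPolynomial (Fin m) L).comp (HCH.ext K L (m + 1)) =
      (HCH.ext K L m).comp ((rhoI : MvPolynomial (Fin (m + 1)) K →ₐ[K] MvPolynomial (Fin m) K) :
      MvPolynomial (Fin (m + 1)) K →+* MvPolynomial (Fin m) K) := by
  apply MvPolynomial.ringHom_ext
  · intro a
    simp [HCH.ext, rhoI]
  · intro i
    induction i using Fin.lastCases with
    | last => simp [HCH.ext, rhoI]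
    | cast i => simp [HCH.ext, rhoI]

theorem V1g_ren_ext {K L : Type} [Field K] [Field L] [Algebra K L] {m : ℕ}
    (f : MvPolynomial (Fin m) K) : (rename Fin.castSucc (HCH.ext K L m f) : MvPolynomial (Fin (m + 1)) L) =
      HCH.ext K L (m + 1) (rename Fin.castSucc f) := (map_rename _ _ _).symm

/-- the base change of a subvariety of the hyperplane at infinity -/
theorem V1g_comap {K L : Type} [Field K] [Field L] [Algebra K L] {m : ℕ}
    (P : Ideal (MvPolynomial (Fin m) K)) :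
    (P.map (HCH.ext K L m)).comap ((rhoI : MvPolynomial (Fin (m + 1)) L →ₐ[L] MvPolynomial (Fin m) L) :
      MvPolynomial (Fin (m + 1)) L →+* MvPolynomial (Fin m) L) =
    (P.comap ((rhoI : MvPolynomial (Fin (m + 1)) K →ₐ[K] MvPolynomial (Fin m) K) :
      MvPolynomial (Fin (m + 1)) K →+* MvPolynomial (Fin m) K)).map (HCH.ext K L (m + 1)) := by
  have hl : (X (Fin.last m) : MvPolynomial (Fin (m + 1)) L) ∈
      (P.comap ((rhoI : MvPolynomial (Fin (m + 1)) K →ₐ[K] MvPolynomial (Fin m) K) :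
      MvPolynomial (Fin (m + 1)) K →+* MvPolynomial (Fin m) K)).map (HCH.ext K L (m + 1)) := by
    have h1 : (X (Fin.last m) : MvPolynomial (Fin (m + 1)) L) = HCH.ext K L (m + 1) (X (Fin.last m)) :=
      (MvPolynomial.map_X _ _).symm
    rw [h1]
    apply Ideal.mem_map_of_mem
    rw [Ideal.mem_comap]
    have h2 : rhoI (X (Fin.last m) : MvPolynomial (Fin (m + 1)) K) = 0 := by
      simp [rhoI]
    change rhoI (X (Fin.last m) : MvPolynomial (Fin (m + 1)) K) ∈ P
    rw [h2]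
    exact P.zero_mem
  apply le_antisymm
  · intro f hf
    rw [Ideal.mem_comap] at hf
    change rhoI f ∈ P.map (HCH.ext K L m) at hf
    have h3 : f - rename Fin.castSucc (rhoI f) ∈ Ideal.span {(X (Fin.last m) :
        MvPolynomial (Fin (m + 1)) L)} := by
      rw [← (lq_rhoI (K := L) (n := m)).ker, RingHom.mem_ker]
      change rhoI (f - rename Fin.castSucc (rhoI f)) = 0
      rw [map_sub, (lq_rhoI (K := L) (n := m)).sec, sub_self]
    have h4 : rename Fin.castSucc (rhoI f) ∈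
      (P.comap ((rhoI : MvPolynomial (Fin (m + 1)) K →ₐ[K] MvPolynomial (Fin m) K) :
      MvPolynomial (Fin (m + 1)) K →+* MvPolynomial (Fin m) K)).map (HCH.ext K L (m + 1)) := by
      have h5 : (P.map (HCH.ext K L m)).map ((rename Fin.castSucc :
          MvPolynomial (Fin m) L →ₐ[L] MvPolynomial (Fin (m + 1)) L) :
          MvPolynomial (Fin m) L →+* MvPolynomial (Fin (m + 1)) L) ≤
        (P.comap ((rhoI : MvPolynomial (Fin (m + 1)) K →ₐ[K] MvPolynomial (Fin m) K) :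
        MvPolynomial (Fin (m + 1)) K →+* MvPolynomial (Fin m) K)).map (HCH.ext K L (m + 1)) := by
        rw [Ideal.map_map, Ideal.map_le_iff_le_comap]
        intro g hg
        rw [Ideal.mem_comap]
        change rename Fin.castSucc (HCH.ext K L m g) ∈ _
        rw [V1g_ren_ext]
        apply Ideal.mem_map_of_mem
        rw [Ideal.mem_comap]
        change rhoI (rename Fin.castSucc g) ∈ P
        rw [(lq_rhoI (K := K) (n := m)).sec]
        exact hg
      apply h5
      exact Ideal.mem_map_of_mem _ hf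
    have h6 : f = (f - rename Fin.castSucc (rhoI f)) + rename Fin.castSucc (rhoI f) := by ring
    rw [h6]
    refine Ideal.add_mem _ ?_ h4
    exact (Ideal.span_singleton_le_iff_mem _).2 hl h3
  · rw [Ideal.map_le_iff_le_comap, Ideal.comap_comap, V1g_rhoI_ext]
    intro g hg
    rw [Ideal.mem_comap]
    exact Ideal.mem_map_of_mem _ hg

/-
PROOF. Let T be the span in the statement. Q ∈ Sub (ext F) (e + 1). (i) X last ∈ Q: Q = comap rhoI Q', Q' ∈ Sub (ext (rhoI F)) (e + 1) (lq_homog, dm_comap); the class of Q' is in the span for rhoI F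
(h'); push_PRat (lq_rhoI) and rat_int / int_rat transport the relation; comap rhoI ((P')_L) = (comap rhoI P')_L. (ii) Q = hm q (hm_surj): Gen at q: N • single q = y + w; lift_ARat: Z ∈ PRat (ext F) (e + 1) with
Z (hm p) = y p. N • cls (hm q) - Z - Σ n_i cls (hm (bc L p_i)) is supported on primes of Sub containing X last: each is in T modulo RatEq by (i). hm (bc L p) = (hm p)_L. x is a combination of
classes of primes.
-/
theorem onto_of_gen {L : Type} [Field L] [Algebra ℂ L] {m D : ℕ}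
    (F : MvPolynomial (Fin (m + 1)) ℂ) (hF : F.IsHomogeneous D) (e : ℕ)
    (h : Gen L (ext ℂ L m (deh F)) e (fun Q => ∃ p : PrimeSpectrum (MvPolynomial (Fin m) ℂ),
      deh F ∈ p.asIdeal ∧ Q = bc L p))
    (h' : OntoL L (rhoI F) (e + 1)) : OntoL L F (e + 1) := by
  intro x
  have hr : rhoI (HCH.ext ℂ L (m + 1) F) = HCH.ext ℂ L m (rhoI F) :=
    congrArg (fun φ : MvPolynomial (Fin (m + 1)) ℂ →+* MvPolynomial (Fin m) L => φ F) V1g_rhoI_ext
  have hd : deh (HCH.ext ℂ L (m + 1) F) = HCH.ext ℂ L m (deh F) := deh_ext F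
  refine V1g_core (HCH.ext ℂ L (m + 1) F) (hF.map _) e
    (fun Q => ∃ p : PrimeSpectrum (MvPolynomial (Fin m) ℂ), deh F ∈ p.asIdeal ∧ Q = bc L p) _ ?_
    (by rw [hd]; exact h) ?_ x
  · intro Q hX
    obtain ⟨P, rfl⟩ := V1g_range _ _ hr (e + 1) Q hX
    let T : Chow (HCH.ext ℂ L m (rhoI F)) (e + 1) →ₗ[ℚ] Chow (HCH.ext ℂ L (m + 1) F) (e + 1) :=
      Submodule.mapQ _ _ (Finsupp.lmapDomain ℚ ℚ (V1g_sub (HCH.ext ℂ L (m + 1) F)
        (HCH.ext ℂ L m (rhoI F)) hr (e + 1))) (fun v hv => V1g_rat _ _ hr (e + 1) v hv)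
    have hT : ∀ R, T ((RatEq (HCH.ext ℂ L m (rhoI F)) (e + 1)).mkQ (Finsupp.single R 1)) =
        (RatEq (HCH.ext ℂ L (m + 1) F) (e + 1)).mkQ (Finsupp.single
          (V1g_sub (HCH.ext ℂ L (m + 1) F) (HCH.ext ℂ L m (rhoI F)) hr (e + 1) R) 1) := by
      intro R
      have h1 : T ((RatEq (HCH.ext ℂ L m (rhoI F)) (e + 1)).mkQ (Finsupp.single R 1)) =
        (RatEq (HCH.ext ℂ L (m + 1) F) (e + 1)).mkQ (Finsupp.lmapDomain ℚ ℚ
          (V1g_sub (HCH.ext ℂ L (m + 1) F) (HCH.ext ℂ L m (rhoI F)) hr (e + 1)) (Finsupp.single R 1)) := rfl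
      rw [h1, Finsupp.lmapDomain_apply, Finsupp.mapDomain_single]
    have h2 := Submodule.mem_map_of_mem (f := T)
      (h' ((RatEq (HCH.ext ℂ L m (rhoI F)) (e + 1)).mkQ (Finsupp.single P 1)))
    rw [Submodule.map_span, hT] at h2
    refine Submodule.span_mono ?_ h2
    rintro _ ⟨y, ⟨P', R, hR, rfl⟩, rfl⟩
    refine ⟨V1g_sub F (rhoI F) rfl (e + 1) P', V1g_sub _ _ hr (e + 1) R, ?_, hT R⟩
    rw [V1g_sub_val, V1g_sub_val]
    change (R.1.asIdeal).comap _ = ((P'.1.asIdeal).comap _).map _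
    rw [hR]
    exact V1g_comap _
  · rintro q h1 h2 ⟨p, hp, rfl⟩ Q hQ
    apply Submodule.subset_span
    have h3 : dm ℂ p.asIdeal = e := by rw [← dm_bc (L := L) p]; exact h2
    refine ⟨⟨hm p, hm_homog p, (mem_hm p F D hF).2 hp, by rw [dm_hm, h3]⟩, Q, ?_, rfl⟩
    rw [hQ, V1g_hm]
    rfl

end Pool.Agent.HCR
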