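import Pool.Agent.HCR.Defs

namespace Pool.Agent.HCR

open Pool.Agent.HCH Pool.Agent.HCF MvPolynomial

section V1h

variable {K : Type} [Field K] {m : ℕ} (Φ : MvPolynomial (Fin m) K ≃+* MvPolynomial (Fin m) K)
  (hΦ : ∀ a, Φ (C a) = C a)
  (h1 : ∀ (f : MvPolynomial (Fin m) K) (a : ℕ), f.IsHomogeneous a → (Φ f).IsHomogeneous a)
  (h2 : ∀ (f : MvPolynomial (Fin m) K) (a : ℕ), f.IsHomogeneous a → (Φ.symm f).IsHomogeneous a)
  (F F' : MvPolynomial (Fin m) K) (hF : Φ F = F') (e : ℕ)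

/-- transport of subvarieties -/
noncomputable def V1h_sub (P : Sub F' e) : Sub F e :=
  ⟨h1_c Φ P.1, h1_hg Φ h1 _ P.2.1, show Φ F ∈ P.1.asIdeal from hF ▸ P.2.2.1, by
    rw [h1_dm (RingEquiv.refl K) Φ hΦ]
    exact P.2.2.2⟩

theorem V1h_sub_val (P : Sub F' e) : (V1h_sub Φ hΦ h1 F F' hF e P).1 = h1_c Φ P.1 := rfl

theorem V1h_inj : Function.Injective (V1h_sub Φ hΦ h1 F F' hF e) := by
  intro P Q h
  have h3 : h1_c Φ P.1 = h1_c Φ Q.1 := congrArg Subtype.val h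
  apply Subtype.ext
  rw [← h1_sc Φ P.1, ← h1_sc Φ Q.1, h3]

include h2 in
theorem V1h_surj (Q : Sub F e) :
    ∃ P : Sub F' e, P.1 = h1_c Φ.symm Q.1 ∧ V1h_sub Φ hΦ h1 F F' hF e P = Q := by
  have h3 : F' ∈ (h1_c Φ.symm Q.1).asIdeal := by
    have h4 : Φ.symm F' ∈ Q.1.asIdeal := by
      rw [← hF, RingEquiv.symm_apply_apply]
      exact Q.2.2.1
    exact h4
  refine ⟨⟨h1_c Φ.symm Q.1, h1_hg Φ.symm h2 _ Q.2.1, h3, ?_⟩, rfl, ?_⟩
  · rw [h1_dms (RingEquiv.refl K) Φ hΦ]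
    exact Q.2.2.2
  · apply Subtype.ext
    rw [V1h_sub_val]
    exact h1_cs Φ Q.1

include h2 in
/-- transport of rational equivalence -/
theorem V1h_rat (v : Sub F' e →₀ ℚ) (hv : v ∈ RatEq F' e) :
    Finsupp.lmapDomain ℚ ℚ (V1h_sub Φ hΦ h1 F F' hF e) v ∈ RatEq F e := by
  obtain ⟨N, hN, Z, hZ, h3, -⟩ := rat_int F' e v hv
  rw [← hF] at hZ
  have h4 := h1_prat (RingEquiv.refl K) Φ hΦ h1 h2 F e Z hZ
  have h5 : (N : ℚ) • Finsupp.lmapDomain ℚ ℚ (V1h_sub Φ hΦ h1 F F' hF e) v ∈ RatEq F e := by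
    apply int_rat F e _ h4
    intro Q
    obtain ⟨P, hP, rfl⟩ := V1h_surj Φ hΦ h1 h2 F F' hF e Q
    rw [Finsupp.smul_apply, Finsupp.lmapDomain_apply,
      Finsupp.mapDomain_apply (V1h_inj Φ hΦ h1 F F' hF e), ← hP, h3 P, smul_eq_mul]
  have h6 : ((N : ℚ)⁻¹) • ((N : ℚ) • Finsupp.lmapDomain ℚ ℚ (V1h_sub Φ hΦ h1 F F' hF e) v) ∈
      RatEq F e := (RatEq F e).smul_mem _ h5
  rwa [smul_smul, inv_mul_cancel₀ (by exact_mod_cast hN.ne'), one_smul] at h6

include h2 in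
/-- transport of spans -/
theorem V1h_span (S' : Sub F' e → Prop) (S : Sub F e → Prop)
    (hS : ∀ Q, S' Q → S (V1h_sub Φ hΦ h1 F F' hF e Q))
    (hx : ∀ x : Chow F' e, x ∈ Submodule.span ℚ {y | ∃ Q : Sub F' e, S' Q ∧
      y = (RatEq F' e).mkQ (Finsupp.single Q 1)}) (x : Chow F e) :
    x ∈ Submodule.span ℚ {y | ∃ Q : Sub F e, S Q ∧ y = (RatEq F e).mkQ (Finsupp.single Q 1)} := by
  obtain ⟨v, rfl⟩ := Submodule.mkQ_surjective _ x
  let T : Chow F' e →ₗ[ℚ] Chow F e :=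
    Submodule.mapQ _ _ (Finsupp.lmapDomain ℚ ℚ (V1h_sub Φ hΦ h1 F F' hF e))
      (fun v hv => V1h_rat Φ hΦ h1 h2 F F' hF e v hv)
  have hT : ∀ u, T ((RatEq F' e).mkQ u) =
      (RatEq F e).mkQ (Finsupp.lmapDomain ℚ ℚ (V1h_sub Φ hΦ h1 F F' hF e) u) :=
    fun u => rfl
  have hs : Function.Surjective (V1h_sub Φ hΦ h1 F F' hF e) := fun Q => by
    obtain ⟨P, -, hP⟩ := V1h_surj Φ hΦ h1 h2 F F' hF e Q
    exact ⟨P, hP⟩
  obtain ⟨u, rfl⟩ := Finsupp.mapDomain_surjective hs v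
  have h3 := Submodule.mem_map_of_mem (f := T) (hx ((RatEq F' e).mkQ u))
  rw [Submodule.map_span, hT] at h3
  refine Submodule.span_mono ?_ h3
  rintro _ ⟨y, ⟨Q, hQ, rfl⟩, rfl⟩
  refine ⟨V1h_sub Φ hΦ h1 F F' hF e Q, hS Q hQ, ?_⟩
  rw [hT, Finsupp.lmapDomain_apply, Finsupp.mapDomain_single]

end V1h

section V1h2

variable {K : Type} [Field K] {m : ℕ}

/-- the change of coordinates `phi a` as an automorphism -/
noncomputable def V1h_E (a : Fin m → K) :
    MvPolynomial (Fin (m + 1)) K ≃+* MvPolynomial (Fin (m + 1)) K where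
  toFun := phi a
  invFun := phi (-a)
  left_inv := fun F => phi_neg a F
  right_inv := fun F => by
    have h := phi_neg (-a) F
    rw [neg_neg] at h
    exact h
  map_mul' := map_mul _
  map_add' := map_add _

theorem V1h_E_apply (a : Fin m → K) (F : MvPolynomial (Fin (m + 1)) K) : V1h_E a F = phi a F := rfl

theorem V1h_E_symm (a : Fin m → K) (F : MvPolynomial (Fin (m + 1)) K) :
    (V1h_E a).symm F = phi (-a) F := rfl

theorem V1h_E_C (a : Fin m → K) (c : K) : V1h_E a (C c) = C c := (phi a).commutes c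

theorem V1h_h1 (a : Fin m → K) (f : MvPolynomial (Fin (m + 1)) K) (n : ℕ) (hf : f.IsHomogeneous n) :
    (V1h_E a f).IsHomogeneous n := phi_homog a f hf

theorem V1h_h2 (a : Fin m → K) (f : MvPolynomial (Fin (m + 1)) K) (n : ℕ) (hf : f.IsHomogeneous n) :
    ((V1h_E a).symm f).IsHomogeneous n := phi_homog (-a) f hf

end V1h2

theorem V1h_ext {K L : Type} [Field K] [Field L] [Algebra K L] {m : ℕ} (a : Fin m → K)
    (F : MvPolynomial (Fin (m + 1)) K) :
    HCH.ext K L (m + 1) (phi a F) = phi (fun k => algebraMap K L (a k)) (HCH.ext K L (m + 1) F) := by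
  have h : (HCH.ext K L (m + 1)).comp ((phi a : MvPolynomial (Fin (m + 1)) K →ₐ[K] _) :
      MvPolynomial (Fin (m + 1)) K →+* MvPolynomial (Fin (m + 1)) K) =
      ((phi (fun k => algebraMap K L (a k)) : MvPolynomial (Fin (m + 1)) L →ₐ[L] _) :
        MvPolynomial (Fin (m + 1)) L →+* MvPolynomial (Fin (m + 1)) L).comp
        (HCH.ext K L (m + 1)) := by
    have hX : ∀ i, HCH.ext K L (m + 1) (X i) = X i := fun i => MvPolynomial.map_X _ _
    have hC : ∀ c, HCH.ext K L (m + 1) (C c) = C (algebraMap K L c) := fun i => MvPolynomial.map_C _ _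
    apply MvPolynomial.ringHom_ext
    · intro r
      change HCH.ext K L (m + 1) (phi a (C r)) = phi _ (HCH.ext K L (m + 1) (C r))
      have e1 : phi a (C r) = C r := (phi a).commutes r
      rw [e1, hC]
      exact ((phi (fun k => algebraMap K L (a k))).commutes (algebraMap K L r)).symm
    · intro i
      change HCH.ext K L (m + 1) (phi a (X i)) = phi _ (HCH.ext K L (m + 1) (X i))
      rw [hX]
      refine Fin.lastCases ?_ (fun k => ?_) i
      · rw [e0_phi_last, e0_phi_last, map_sub, map_sum, hX]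
        congr 1
        apply Finset.sum_congr rfl
        intro k _
        rw [map_mul, hX, hC]
      · rw [e0_phi_cast, e0_phi_cast, hX]
  exact congrArg (fun g => g F) h

theorem V1h_comap {K : Type} [Field K] {m : ℕ} (Φ : MvPolynomial (Fin m) K ≃+* MvPolynomial (Fin m) K)
    (I : Ideal (MvPolynomial (Fin m) K)) :
    I.comap (Φ : MvPolynomial (Fin m) K →+* MvPolynomial (Fin m) K) =
      I.map (Φ.symm : MvPolynomial (Fin m) K →+* MvPolynomial (Fin m) K) :=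
  (Ideal.map_symm Φ).symm

/-
PROOF. Φ = phi a over ℂ and over L (an automorphism; phi_neg), homogeneous: h1_prat (HCH/H1) and int_rat transport the relations; constant classes go to constant classes.
-/
theorem onto_phi {L : Type} [Field L] [Algebra ℂ L] {m : ℕ} (a : Fin m → ℂ)
    (F : MvPolynomial (Fin (m + 1)) ℂ) (e : ℕ) (h : OntoL L (phi a F) e) : OntoL L F e := by
  have hE := V1h_ext (L := L) a F
  set b : Fin m → L := fun k => algebraMap ℂ L (a k) with hb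
  intro x
  have h3 := V1h_span (V1h_E b) (V1h_E_C b) (V1h_h1 b) (V1h_h2 b) (HCH.ext ℂ L (m + 1) F) (HCH.ext ℂ L (m + 1) (phi a F))
    (by rw [V1h_E_apply, hE]) e (fun Q => ∃ P : Sub (phi a F) e, Q.1.asIdeal = P.1.asIdeal.map (HCH.ext ℂ L (m + 1)))
    (fun Q => ∃ P : Sub F e, Q.1.asIdeal = P.1.asIdeal.map (HCH.ext ℂ L (m + 1))) ?_ ?_ x
  · refine Submodule.span_mono ?_ h3
    rintro y ⟨Q, ⟨P, hP⟩, rfl⟩
    exact ⟨P, Q, hP, rfl⟩
  · rintro Q ⟨P, hP⟩
    refine ⟨V1h_sub (V1h_E a) (V1h_E_C a) (V1h_h1 a) F (phi a F) (V1h_E_apply a F) e P, ?_⟩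
    rw [V1h_sub_val, V1h_sub_val]
    have e1 : (h1_c (V1h_E b) Q.1).asIdeal = Q.1.asIdeal.comap
      (V1h_E b : MvPolynomial (Fin (m + 1)) L →+* MvPolynomial (Fin (m + 1)) L) := rfl
    have e2 : (h1_c (V1h_E a) P.1).asIdeal = P.1.asIdeal.comap
      (V1h_E a : MvPolynomial (Fin (m + 1)) ℂ →+* MvPolynomial (Fin (m + 1)) ℂ) := rfl
    rw [e1, e2, V1h_comap, V1h_comap, hP, Ideal.map_map, Ideal.map_map]
    congr 1
    apply RingHom.ext
    intro f
    rw [RingHom.comp_apply, RingHom.comp_apply]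
    have e3 := V1h_ext (L := L) (-a) f
    have e4 : (fun k => algebraMap ℂ L ((-a) k)) = -b := by
      funext k
      rw [hb, Pi.neg_apply, Pi.neg_apply, map_neg]
    rw [e4] at e3
    exact e3.symm
  · intro y
    refine Submodule.span_mono ?_ (h y)
    rintro y ⟨P, Q, hP, rfl⟩
    exact ⟨Q, ⟨P, hP⟩, rfl⟩

end Pool.Agent.HCR
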