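import Pool.Agent.HCR.U1d

namespace Pool.Agent.HCR

open Pool.Agent.HCH Pool.Agent.HCF MvPolynomial

/-
PROOF. Q ∈ Sub (ext F) (m + 1): Q = span {ext F} (dimension; prime_of_sg over L: sg_ext0), so Q = P_L with P = span {F}.
-/
attribute [local instance] MvPolynomial.gradedAlgebra in
theorem onto_zero {L : Type} [Field L] [Algebra ℂ L] {m D : ℕ}
    (F : MvPolynomial (Fin (m + 2)) ℂ) (hF : F.IsHomogeneous D) (hD : 1 ≤ D) (hm : 1 ≤ m)
    (hs : SgLe F 0) : OntoL L F (m + 1) := by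
  classical
  obtain ⟨hp, hdm⟩ := prime_of_sg F hF hD 0 hs (by omega)
  obtain ⟨hp', hdm'⟩ := prime_of_sg (ext ℂ L (m + 2) F) (hF.map _) hD 0 (sg_ext0 F hs) (by omega)
  have hhg : HgI (Ideal.span {F}) := by
    rw [hgI_iff]
    apply Ideal.homogeneous_span
    rintro _ rfl
    exact ⟨D, (mem_homogeneousSubmodule _ _).mpr hF⟩
  let P : Sub F (m + 1) := ⟨⟨Ideal.span {F}, hp⟩, hhg, Ideal.subset_span rfl, hdm⟩
  have hQ : ∀ Q : Sub (ext ℂ L (m + 2) F) (m + 1), Q.1.asIdeal = P.1.asIdeal.map (ext ℂ L (m + 2)) := by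
    intro Q
    have h1 : P.1.asIdeal.map (ext ℂ L (m + 2)) = Ideal.span {ext ℂ L (m + 2) F} := by
      change (Ideal.span {F}).map _ = _
      rw [Ideal.map_span, Set.image_singleton]
    rw [h1]
    have h2 : Ideal.span {ext ℂ L (m + 2) F} ≤ Q.1.asIdeal := by
      rw [Ideal.span_singleton_le_iff_mem]
      exact Q.2.2.1
    exact (eq_of_dm_le (K := L) _ _ h2 (by rw [hdm', Q.2.2.2]; omega)).symm
  intro x
  obtain ⟨z, rfl⟩ := (RatEq (ext ℂ L (m + 2) F) (m + 1)).mkQ_surjective x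
  induction z using Finsupp.induction_linear with
  | zero =>
    rw [map_zero]
    exact Submodule.zero_mem _
  | add x y hx hy =>
    rw [map_add]
    exact Submodule.add_mem _ hx hy
  | single Q c =>
    have h3 : Finsupp.single Q c = c • Finsupp.single Q (1 : ℚ) := by
      rw [Finsupp.smul_single, smul_eq_mul, mul_one]
    rw [h3, map_smul]
    exact Submodule.smul_mem _ _ (Submodule.subset_span ⟨P, Q, hQ Q, rfl⟩)

end Pool.Agent.HCR
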