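import Pool.Agent.HCR.U1d
import Pool.Agent.HCR.U2g
import Pool.Agent.HCH.Main

namespace Pool.Agent.HCR

open Pool.Agent.HCH Pool.Agent.HCF MvPolynomial

/-
PROOF. Hart (ext F) j over the algebraic closure Ω of FF D (Ω = AlgebraicClosure (RatFunc ℂ), closure_equiv; HC), hart_affine, descend_AT (IsAlgClosure (FF D) Ω).
-/
theorem AT_of_hc (D : ℕ) (hD : 2 ≤ D)
    (HC : ∀ n j, 2 * j + 1 ≤ n → ∀ (K : Type) [Field K], Nonempty (K ≃+* ℂ) →
      ∀ F : MvPolynomial (Fin (n + 2)) K, F.IsHomogeneous D → SgLe F 0 → Hart F j)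
    (n j : ℕ) (hj : 1 ≤ j) (hn : 2 * j + 1 ≤ n) (F : MvPolynomial (Fin (n + 2)) ℂ)
    (hF : F.IsHomogeneous D) (hs : SgLe F 0) :
    AT (FF D) (ext ℂ (FF D) (n + 1) (deh F)) (n - j) := by
  have e1 := HC n j hn (AlgebraicClosure (RatFunc ℂ)) (closure_equiv ⟨RingEquiv.refl ℂ⟩)
    (ext ℂ (AlgebraicClosure (RatFunc ℂ)) (n + 2) F) (hF.map _) (sg_ext0 F hs)
  have e2 := hart_affine _ (hF.map _) j hj (by omega) e1
  have ht : IsScalarTower ℂ (FF D) (AlgebraicClosure (RatFunc ℂ)) :=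
    IsScalarTower.of_algebraMap_eq fun x => rfl
  have e3 : deh (ext ℂ (AlgebraicClosure (RatFunc ℂ)) (n + 2) F) =
      ext (FF D) (AlgebraicClosure (RatFunc ℂ)) (n + 1) (ext ℂ (FF D) (n + 1) (deh F)) := by
    rw [deh_ext, ← RingHom.comp_apply, ext_comp]
  have e4 : AT (AlgebraicClosure (RatFunc ℂ))
      (ext (FF D) (AlgebraicClosure (RatFunc ℂ)) (n + 1) (ext ℂ (FF D) (n + 1) (deh F)))
      (n - j) := by
    rw [← e3]
    exact e2
  have halg : Algebra.IsAlgebraic (FF D) (AlgebraicClosure (RatFunc ℂ)) :=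
    Algebra.IsAlgebraic.tower_top (K := RatFunc ℂ) (FF D)
  have hac : IsAlgClosure (FF D) (AlgebraicClosure (RatFunc ℂ)) := ⟨inferInstance, halg⟩
  exact descend_AT _ _ e4

end Pool.Agent.HCR
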