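import Pool.Agent.HCR.T1i
import Pool.Agent.HCR.E1d
import Pool.Agent.HCR.E1e
import Pool.Agent.HCR.U1d
import Pool.Agent.HCH.Main

namespace Pool.Agent.HCR

open Pool.Agent.HCH Pool.Agent.HCF MvPolynomial

/-
PROOF. tw_of_AT (m = 2 j, e = j): AT ℂ (suspA D (deh F)) (j + 1) by hart_affine for suspA D F (HC (2 j + 1) j), deh_suspA; AT (RatFunc ℂ) (ext (deh F)) j: HC over Ω = AlgebraicClosure (RatFunc ℂ)
for ext F (sg_ext0), n = 2 j - 1, j - 1 ≥ 1, hart_affine, descend_AT (ext_comp).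
-/
theorem tw_of_hc (D : ℕ) (hD : 2 ≤ D)
    (HC : ∀ n j, 2 * j + 1 ≤ n → ∀ (K : Type) [Field K], Nonempty (K ≃+* ℂ) →
      ∀ F : MvPolynomial (Fin (n + 2)) K, F.IsHomogeneous D → SgLe F 0 → Hart F j)
    (j : ℕ) (hj : 2 ≤ j) (F : MvPolynomial (Fin (2 * j + 1)) ℂ) (hF : F.IsHomogeneous D)
    (hs : SgLe F 0) : AT (RatFunc ℂ) (tw D (deh F)) j := by
  apply tw_of_AT D (by omega) (deh F) j
  · have h1 : Hart (suspA D F) j :=
      HC (2 * j + 1) j le_rfl ℂ ⟨RingEquiv.refl ℂ⟩ (suspA D F) (suspA_homog D F hF)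
        (sg_suspA D hD F 0 hs)
    have h2 := hart_affine (suspA D F) (suspA_homog D F hF) j (by omega) (by omega) h1
    rw [deh_suspA] at h2
    have e : 2 * j + 1 - j = j + 1 := by omega
    rw [e] at h2
    exact h2
  · obtain ⟨k, rfl⟩ : ∃ k, j = k + 1 := ⟨j - 1, by omega⟩
    have cR : CharZero (RatFunc ℂ) := charZero_of_injective_algebraMap (algebraMap ℂ _).injective
    have hΩ : Nonempty (AlgebraicClosure (RatFunc ℂ) ≃+* ℂ) := closure_equiv ⟨RingEquiv.refl ℂ⟩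
    apply descend_AT (L := AlgebraicClosure (RatFunc ℂ))
    rw [← deh_ext, ← deh_ext]
    have h3 : Hart (m := 2 * k + 1 + 2) (ext (RatFunc ℂ) (AlgebraicClosure (RatFunc ℂ)) (2 * (k + 1) + 1)
        (ext ℂ (RatFunc ℂ) (2 * (k + 1) + 1) F)) k :=
      HC (2 * k + 1) k le_rfl _ hΩ _ ((hF.map _).map _) (sg_ext0 _ (sg_ext0 _ hs))
    have h4 := hart_affine (m := 2 * k + 1) (ext (RatFunc ℂ) (AlgebraicClosure (RatFunc ℂ)) (2 * (k + 1) + 1)
        (ext ℂ (RatFunc ℂ) (2 * (k + 1) + 1) F)) ((hF.map _).map _) k (by omega) (by omega) h3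
    have e : 2 * k + 1 - k = k + 1 := by omega
    rw [e] at h4
    exact h4

end Pool.Agent.HCR
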