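import Pool.Agent.HCR.V1f
import Pool.Agent.HCR.V1g
import Pool.Agent.HCR.V1h
import Pool.Agent.HCR.V1i
import Pool.Agent.HCR.V1j
import Pool.Agent.HCR.V1k

namespace Pool.Agent.HCR

open Pool.Agent.HCH Pool.Agent.HCF MvPolynomial

/-
PROOF. Induction on j (all n, F). j = 0: onto_zero. j ≥ 1: prime_of_sg, good_coord: a, F' = phi a F, SgLe (rhoI F') 0; onto_phi. onto_of_gen with e = n - j:
h' by induction for rhoI F' (n - 1, j - 1; 2 (j - 1) ≤ n - 1, n - 1 ≥ 1). h: 2 j < n: AT_of_hc and Gen.mono from Gen_false_iff; 2 j = n: aff_onto (number of variables n + 1 = 2 j + 1, e = j) with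
tw_of_hc (j + 1) (sus D F'), deh_sus.
-/
theorem onto_of_hc (D : ℕ) (hD : 3 ≤ D)
    (HC : ∀ n j, 2 * j + 1 ≤ n → ∀ (K : Type) [Field K], Nonempty (K ≃+* ℂ) →
      ∀ F : MvPolynomial (Fin (n + 2)) K, F.IsHomogeneous D → SgLe F 0 → Hart F j) :
    ∀ j n, 1 ≤ n → 2 * j ≤ n → ∀ F : MvPolynomial (Fin (n + 2)) ℂ, F.IsHomogeneous D →
      SgLe F 0 → OntoL (FF D) F (n + 1 - j) := by
  intro j
  induction j with
  | zero =>
    intro n hn _ F hF hs
    exact onto_zero F hF (by omega) hn hs
  | succ j ih =>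
    intro n hn h2 F hF hs
    obtain ⟨n', rfl⟩ : ∃ n', n = n' + 1 := ⟨n - 1, by omega⟩
    obtain ⟨hp, hdm⟩ := prime_of_sg F hF (by omega) 0 hs (by omega)
    obtain ⟨a, ha⟩ := good_coord F hF (by omega) hp hdm 0 hs
    apply onto_phi a
    have hF' := phi_homog a F hF
    have hs' := sg_phi a F 0 hs
    have e1 : n' + 1 + 1 - (j + 1) = (n' - j) + 1 := by omega
    rw [e1]
    refine onto_of_gen (phi a F) hF' (n' - j) ?_ ?_
    · by_cases hc : 2 * (j + 1) < n' + 1
      · have h3 := AT_of_hc D (by omega) HC (n' + 1) (j + 1) (by omega) (by omega) (phi a F) hF' hs'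
        have e2 : n' + 1 - (j + 1) = n' - j := by omega
        rw [e2] at h3
        exact ((Gen_false_iff _ _).2 h3).mono fun q _ _ h => h.elim
      · have e3 : n' = 2 * j + 1 := by omega
        subst e3
        have e4 : 2 * j + 1 - j = j + 1 := by omega
        rw [e4]
        have h3 := tw_of_hc D (by omega) HC (j + 2) (by omega) (sus D (phi a F))
          (sus_homog D _ hF') (sg_sus D (by omega) _ 0 hs')
        rw [deh_sus] at h3
        exact aff_onto D hD (deh (phi a F)) (j + 1) (by omega) h3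
    · have h3 := ih n' (by omega) (by omega) (rhoI (phi a F)) (rhoI_homog _ hF') ha
      have e5 : n' - j + 1 = n' + 1 - j := by omega
      rw [e5]
      exact h3

end Pool.Agent.HCR
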