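import Pool.Agent.HCR.Defs

namespace Pool.Agent.HCR

open Pool.Agent.HCH Pool.Agent.HCF MvPolynomial

/-
PROOF. x = c • mk (single S 1), S = flag V l j. If X b ∈ flag V l (j - 1) then X b ∈ S: S is in the pencil (s = 0, t = -1). Otherwise W = flag V l (j - 1) ∈ Sub V (e + 1) (flag_homog),
the divisors of l_(j-1) and X b on W: single S 1 - (combination of primes Q ∋ X b in Sub V e) ∈ RatEq: the divisor of l_(j-1) is single S 1, as W ⊔ span {l_(j-1)} = flag V l j = S (flag_succ; mlt_self, and other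
primes of the same dimension have length 0), G = l_(j-1), H = X b of degree 1; finite_div for the finite support.
-/
theorem pencil_of_ct {n D : ℕ} (V : MvPolynomial (Fin (n + 2)) ℂ) (hV : V.IsHomogeneous D)
    (a b : Fin (n + 2)) (j : ℕ) (hj : 1 ≤ j) (hjn : j ≤ n) (h : ChowTriv V j) :
    PencilGen V a b (n + 1 - j) := by
  classical
  obtain ⟨i, rfl⟩ := Nat.exists_eq_add_of_le' hj
  obtain ⟨l, hl, hfl, S, hS, hx⟩ := h
  intro x
  obtain ⟨c, rfl⟩ := hx x
  refine Submodule.smul_mem _ c ?_
  have hSle : flag V l i ≤ S.1.asIdeal := by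
    rw [hS, flag_succ]
    exact le_sup_left
  by_cases hb : X b ∈ flag V l i
  · apply Submodule.subset_span
    refine ⟨S, ⟨0, -1, Or.inr (neg_ne_zero.2 one_ne_zero), ?_⟩, rfl⟩
    have e1 : (C 0 * X a - C (-1) * X b : MvPolynomial (Fin (n + 2)) ℂ) = X b := by
      rw [C_0, zero_mul, C_neg, C_1, neg_one_mul, sub_neg_eq_add, zero_add]
    rw [e1]
    exact hSle hb
  · obtain ⟨hWp, hWd⟩ := hfl i (Nat.le_succ i)
    have hWd' : dm ℂ (flag V l i) = n + 1 - (i + 1) + 1 := by
      rw [hWd]
      omega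
    let W : Sub V (n + 1 - (i + 1) + 1) := ⟨⟨flag V l i, hWp⟩, flag_homog V D hV l hl i,
      Ideal.subset_span (Or.inl rfl), hWd'⟩
    have hSd := S.2.2.2
    have hG : l i ∉ flag V l i := by
      intro hG
      have h1 : flag V l (i + 1) = flag V l i := by
        rw [flag_succ]
        exact sup_eq_left.2 ((Ideal.span_singleton_le_iff_mem _).2 hG)
      rw [hS, h1, hWd'] at hSd
      omega
    have hfin := finite_div (K := ℂ) (flag V l i) (X b) hb (n + 1 - (i + 1)) hWd'
    let f : Sub V (n + 1 - (i + 1)) → ℚ := fun P =>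
      ((od (flag V l i ⊔ Ideal.span {X b}) P.1 : ℤ) : ℚ)
    have hf : (Function.support f).Finite := by
      apply (hfin.preimage (f := Subtype.val) (Subtype.val_injective.injOn)).subset
      intro P hP
      refine ⟨P.2.2.2, fun h0 => hP ?_⟩
      change ((od (flag V l i ⊔ Ideal.span {X b}) P.1 : ℤ) : ℚ) = 0
      unfold od
      rw [h0]
      simp
    let v : Sub V (n + 1 - (i + 1)) →₀ ℚ := Finsupp.ofSupportFinite f hf
    have hv : ∀ P, v P = f P := fun P => rfl
    have hrel : Finsupp.single S 1 - v ∈ RatEq V (n + 1 - (i + 1)) := by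
      apply Submodule.subset_span
      refine ⟨W, l i, X b, 1, hl i, isHomogeneous_X _ _, hG, hb, fun P => ?_⟩
      have e1 : flag V l i ⊔ Ideal.span {l i} = S.1.asIdeal := by rw [hS, flag_succ]
      rw [Finsupp.sub_apply, hv, Int.cast_sub]
      congr 1
      change _ = ((od (flag V l i ⊔ Ideal.span {l i}) P.1 : ℤ) : ℚ)
      rw [e1, Finsupp.single_apply]
      by_cases hPS : S = P
      · rw [if_pos hPS, ← hPS]
        unfold od
        rw [mlt_self]
        simp
      · rw [if_neg hPS]
        unfold od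
        rw [mlt_eq_zero _ _ (fun hle => hPS (Subtype.ext (PrimeSpectrum.ext
          (eq_of_dm_le (K := ℂ) S.1.asIdeal P.1.asIdeal hle (by rw [hSd, P.2.2.2])))))]
        simp
    have hmk : (RatEq V (n + 1 - (i + 1))).mkQ (Finsupp.single S 1) =
        (RatEq V (n + 1 - (i + 1))).mkQ v := by
      rw [← sub_eq_zero, ← map_sub]
      exact (Submodule.Quotient.mk_eq_zero _).2 hrel
    rw [hmk, ← Finsupp.sum_single v, Finsupp.sum, map_sum]
    refine Submodule.sum_mem _ fun P hP => ?_
    have e2 : Finsupp.single P (v P) = v P • Finsupp.single P (1 : ℚ) := by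
      rw [Finsupp.smul_single, smul_eq_mul, mul_one]
    rw [e2, map_smul]
    refine Submodule.smul_mem _ _ (Submodule.subset_span ⟨P, ⟨0, -1,
      Or.inr (neg_ne_zero.2 one_ne_zero), ?_⟩, rfl⟩)
    have e1 : (C 0 * X a - C (-1) * X b : MvPolynomial (Fin (n + 2)) ℂ) = X b := by
      rw [C_0, zero_mul, C_neg, C_1, neg_one_mul, sub_neg_eq_add, zero_add]
    rw [e1]
    by_contra hbP
    apply Finsupp.mem_support_iff.1 hP
    change ((od (flag V l i ⊔ Ideal.span {X b}) P.1 : ℤ) : ℚ) = 0
    unfold od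
    rw [mlt_eq_zero _ _ (fun hle => hbP (hle (Submodule.mem_sup_right
      (Ideal.mem_span_singleton_self _))))]
    simp

end Pool.Agent.HCR
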