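import Pool.Agent.HCR.A1
import Pool.Agent.HCR.E1e

namespace Pool.Agent.HCR

open Pool.Agent.HCH Pool.Agent.HCF MvPolynomial

private theorem z1b_Cy {K R : Type} [Field K] [CommRing R] [Algebra K R] (f : R) (e : ℕ)
    (S : PrimeSpectrum R → Prop) (w : PrimeSpectrum R →₀ ℤ)
    (hw : ∀ q, w q ≠ 0 → f ∈ q.asIdeal ∧ dm K q.asIdeal = e ∧ S q) : w ∈ Cy K f e S := by
  classical
  rw [← w.sum_single]
  unfold Finsupp.sum
  apply AddSubgroup.sum_mem
  intro q hq
  obtain ⟨h1, h2, h3⟩ := hw q (Finsupp.mem_support_iff.mp hq)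
  have h4 : Finsupp.single q (w q) = (w q) • Finsupp.single q (1 : ℤ) := by
    rw [Finsupp.smul_single, smul_eq_mul, mul_one]
  have h5 : Finsupp.single q (1 : ℤ) ∈ Cy K f e S := by
    apply AddSubgroup.subset_closure
    exact ⟨q, h1, h2, h3, rfl⟩
  rw [h4]
  exact AddSubgroup.zsmul_mem _ h5 _

private theorem z1b_homog {K : Type} [Field K] {m : ℕ} (D : ℕ) (G : MvPolynomial (Fin m) K)
    (h : G.IsHomogeneous D) : (suspA D G).IsHomogeneous D := by
  unfold suspA
  apply IsHomogeneous.add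
  · apply IsHomogeneous.add
    · exact h.rename_isHomogeneous
    · simpa using (isHomogeneous_X K (0 : Fin (m + 2))).pow D
  · simpa using (isHomogeneous_X K (1 : Fin (m + 2))).pow D

/-- Restriction of generation by members of a pencil to an affine chart. -/
private theorem z1b_main {m D : ℕ} (V : MvPolynomial (Fin (m + 1)) ℂ) (hV : V.IsHomogeneous D)
    (a b : Fin m) (e : ℕ) (h : PencilGen V a.castSucc b.castSucc (e + 1)) :
    Gen ℂ (deh V) e (MemP a b) := by
  classical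
  intro p hp hd
  obtain ⟨P, hP⟩ : ∃ P : Sub V (e + 1), P.1 = hm p :=
    ⟨⟨hm p, hm_homog p, (mem_hm p V D hV).mpr hp, by rw [dm_hm, hd]⟩, rfl⟩
  have h1 := h ((RatEq V (e + 1)).mkQ (Finsupp.single P 1))
  set T : Set (Sub V (e + 1)) := {P | ∃ s t : ℂ, (s ≠ 0 ∨ t ≠ 0) ∧
    C s * X a.castSucc - C t * X b.castSucc ∈ P.1.asIdeal} with hT
  have h2 : {y | ∃ P : Sub V (e + 1), (∃ s t : ℂ, (s ≠ 0 ∨ t ≠ 0) ∧
      C s * X a.castSucc - C t * X b.castSucc ∈ P.1.asIdeal) ∧
      y = (RatEq V (e + 1)).mkQ (Finsupp.single P 1)} =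
      (RatEq V (e + 1)).mkQ '' ((fun P : Sub V (e + 1) => Finsupp.single P (1 : ℚ)) '' T) := by
    ext y
    constructor
    · rintro ⟨P, hP, rfl⟩
      exact ⟨_, ⟨P, hP, rfl⟩, rfl⟩
    · rintro ⟨_, ⟨P, hP, rfl⟩, rfl⟩
      exact ⟨P, hP, rfl⟩
  rw [h2, Submodule.span_image, Submodule.mem_map] at h1
  obtain ⟨w, hw, hwe⟩ := h1
  rw [← Finsupp.supported_eq_span_single, Finsupp.mem_supported] at hw
  have h3 : Finsupp.single P 1 - w ∈ RatEq V (e + 1) := by
    rw [← Submodule.ker_mkQ (RatEq V (e + 1)), LinearMap.mem_ker, map_sub, hwe, sub_self]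
  obtain ⟨N, hN, Z, hZ, hZ1, hZ2⟩ := rat_int V (e + 1) _ h3
  have h4 := res_PRat V e Z hZ
  obtain ⟨h5, -⟩ := ARat_supp (deh V) e _ h4
  obtain ⟨z, hz⟩ : ∃ z : PrimeSpectrum (MvPolynomial (Fin m) ℂ) →₀ ℤ,
      ∀ q, z q = Z (hm q) := ⟨Finsupp.ofSupportFinite (fun q => Z (hm q)) h5, fun q => rfl⟩
  have h6 : z ∈ Rt ℂ (Ideal.span {deh V}) e := by
    rw [Rt_iff]
    have h7 : (⇑z : PrimeSpectrum (MvPolynomial (Fin m) ℂ) → ℤ) = fun q => Z (hm q) := funext hz
    rw [h7]
    exact h4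
  refine ⟨N, hN, ?_⟩
  have h7 : (N : ℤ) • Finsupp.single p (1 : ℤ) =
      z + ((N : ℤ) • Finsupp.single p (1 : ℤ) - z) := by abel
  rw [h7]
  refine AddSubgroup.add_mem_sup h6 (z1b_Cy _ _ _ _ ?_)
  intro q hq
  rw [Finsupp.sub_apply, Finsupp.smul_apply, smul_eq_mul, hz q] at hq
  by_cases hS : HgI (hm q).asIdeal ∧ V ∈ (hm q).asIdeal ∧ dm ℂ (hm q).asIdeal = e + 1
  · obtain ⟨Q, hQ⟩ : ∃ Q : Sub V (e + 1), Q.1 = hm q := ⟨⟨hm q, hS⟩, rfl⟩
    refine ⟨mem_deh q V hS.2.1, ?_, ?_⟩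
    · have h8 := hS.2.2
      rw [dm_hm] at h8
      omega
    · have h9 := hZ1 Q
      rw [hQ, Finsupp.sub_apply] at h9
      have h10 : (Finsupp.single P (1 : ℚ)) Q = ((Finsupp.single p (1 : ℤ)) q : ℚ) := by
        by_cases h11 : p = q
        · have h12 : P = Q := Subtype.ext (by rw [hP, hQ, h11])
          rw [h12, h11, Finsupp.single_eq_same, Finsupp.single_eq_same, Int.cast_one]
        · have h12 : P ≠ Q := by
            intro h13
            apply h11
            apply hm_inj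
            rw [← hP, ← hQ, h13]
          rw [Finsupp.single_apply, Finsupp.single_apply, if_neg h12, if_neg h11, Int.cast_zero]
      have h11 : w Q ≠ 0 := by
        intro h0
        apply hq
        rw [h0, sub_zero, h10] at h9
        have h12 : (Z (hm q) : ℚ) = (((N : ℤ) * (Finsupp.single p (1 : ℤ)) q : ℤ) : ℚ) := by
          rw [h9]
          push_cast
          rfl
        have h13 : Z (hm q) = (N : ℤ) * (Finsupp.single p (1 : ℤ)) q := by
          exact_mod_cast h12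
        rw [h13, sub_self]
      have h12 : Q ∈ T := hw (Finset.mem_coe.mpr (Finsupp.mem_support_iff.mpr h11))
      obtain ⟨s, t, hst, hmem⟩ := h12
      refine ⟨s, t, hst, ?_⟩
      rw [hQ] at hmem
      have h13 := mem_deh q _ hmem
      have h14 : deh (C s * X a.castSucc - C t * X b.castSucc : MvPolynomial (Fin (m + 1)) ℂ) =
          C s * X a - C t * X b := by
        rw [map_sub, map_mul, map_mul, deh_castSucc, deh_castSucc, ← MvPolynomial.algebraMap_eq,
          ← MvPolynomial.algebraMap_eq, AlgHom.commutes, AlgHom.commutes]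
      rw [h14] at h13
      exact h13
  · exfalso
    apply hq
    rw [hZ2 _ hS]
    have h8 : p ≠ q := by
      intro h8
      apply hS
      rw [← h8, ← hP]
      exact P.2
    rw [Finsupp.single_apply, if_neg h8, mul_zero, sub_zero]

/-
PROOF. As gen_of_onto with L = ℂ and members of the pencil instead of constant cycles: for p with deh V ∈ p, dm = j + 1, the class of hm p is a combination of classes of Q_i ∋ C s * X 0 - C t * X 1; restrict to the
chart (rat_int, res_PRat); if Q_i = hm q_i then q_i ∋ C s * X 0 - C t * X 1 (mem_hm, deh). V = suspA D F, deh V = suspA D (deh F) (deh_suspA), Smooth from smooth_of_sg.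
-/
theorem genCrit_of_pencil (D : ℕ) (hD : 3 ≤ D)
    (h : ∀ j ≥ 1, ∀ F : MvPolynomial (Fin (2 * j + 1)) ℂ, F.IsHomogeneous D → Smooth F →
      PencilGen (suspA D F) 0 1 (j + 2)) : GenCrit D ℂ := by
  intro j hj F hF hs
  have h1 := z1b_main (suspA D F) (z1b_homog D F hF) 0 1 (j + 1)
    (h j hj F hF (smooth_of_sg F hF hs))
  have h2 : deh (suspA D F) = suspA D (deh F) := deh_suspA D F
  rw [← h2]
  exact h1

end Pool.Agent.HCR
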