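import Pool.Agent.HCR.V1l
import Pool.Agent.HCR.Z1a
import Pool.Agent.HCR.Z1b
import Pool.Agent.HCR.T1h
import Pool.Agent.HCR.U2h
import Pool.Agent.HCR.E2h
import Pool.Agent.HCR.E2i

namespace Pool.Agent.HCR

open Pool.Agent.HCH Pool.Agent.HCF MvPolynomial

theorem genCrit_of_onto (D : ℕ) (hD : 3 ≤ D)
    (h : ∀ j ≥ 1, ∀ F : MvPolynomial (Fin (2 * j + 1)) ℂ, F.IsHomogeneous D → Smooth F →
      OntoL (FF D) (sus D F) (j + 1)) : GenCrit D ℂ := fun j hj F hF hs =>
  gen_of_tw D (deh F) j (tw_of_onto D hD h j hj F hF hs)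

/-
PROOF. crit_of_gen with genCrit_equiv, then HCH.main with Cl = True and i = j.
-/
theorem hc_of_genCrit (D : ℕ) (hD : 3 ≤ D) (h : GenCrit D ℂ) :
    ∀ j M r, 2 * j + r + 1 ≤ M → ∀ (K : Type) [Field K], Nonempty (K ≃+* ℂ) →
      ∀ F : MvPolynomial (Fin (M + 2)) K, F.IsHomogeneous D → SgLe F r → Hart F j := by
  have hcrit : ∀ (K : Type) [Field K], Nonempty (K ≃+* ℂ) → GenCrit D K := by
    intro K _ ⟨ε⟩
    exact genCrit_equiv D ε h
  intro j M r hM K _ ε F hF hs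
  exact main (Cl := fun _ _ _ _ => True) (fun _ _ _ _ _ _ _ _ _ _ _ _ _ => trivial) D j (by omega)
    (fun j' hj' _ F' _ hF' hs' => crit_of_gen D hD hcrit j' hj' F' hF' hs') j le_rfl M r hM K ε F
    trivial hF hs

/-- The rigidity criterion for Hartshorne's conjecture. -/
theorem final4 (D : ℕ) (hD : 3 ≤ D) : List.TFAE [
    ∀ j n, 2 * j < n → ∀ F : MvPolynomial (Fin (n + 2)) ℂ, F.IsHomogeneous D → Smooth F →
      ChowTriv F j,
    ∀ j n r, 2 * j + r + 1 ≤ n → ∀ F : MvPolynomial (Fin (n + 2)) ℂ, F.IsHomogeneous D →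
      SgLe F r → ChowTriv F j,
    ∀ j ≥ 1, ∀ F : MvPolynomial (Fin (2 * j + 1)) ℂ, F.IsHomogeneous D → Smooth F →
      OntoL (FF D) (sus D F) (j + 1),
    ∀ j n, 1 ≤ n → 2 * j ≤ n → ∀ F : MvPolynomial (Fin (n + 2)) ℂ, F.IsHomogeneous D →
      Smooth F → OntoL (FF D) F (n + 1 - j),
    ∀ j ≥ 1, ∀ F : MvPolynomial (Fin (2 * j + 1)) ℂ, F.IsHomogeneous D → Smooth F →
      PencilGen (suspA D F) 0 1 (j + 2)] := by
  have hall : GenCrit D ℂ → ∀ j n r, 2 * j + r + 1 ≤ n → ∀ F : MvPolynomial (Fin (n + 2)) ℂ,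
      F.IsHomogeneous D → SgLe F r → ChowTriv F j := by
    intro h j n r hn F hF hs
    exact ct_of_hart F hF j (hc_of_genCrit D hD h j n r hn ℂ ⟨RingEquiv.refl ℂ⟩ F hF hs)
  -- (1) → (2)
  have h12 : (∀ j n, 2 * j < n → ∀ F : MvPolynomial (Fin (n + 2)) ℂ, F.IsHomogeneous D →
      Smooth F → ChowTriv F j) → ∀ j M r, 2 * j + r + 1 ≤ M → ∀ (K : Type) [Field K],
        Nonempty (K ≃+* ℂ) → ∀ F : MvPolynomial (Fin (M + 2)) K, F.IsHomogeneous D → SgLe F r →
          Hart F j := by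
    intro h j M r hM K _ ε F hF hs
    exact main (Cl := fun _ _ _ _ => True) (fun _ _ _ _ _ _ _ _ _ _ _ _ _ => trivial) D j
      (by omega)
      (fun j' hj' _ F' _ hF' hs' => hart_of_ct F' j' (h j' (2 * j' + 1) (by omega) F' hF'
        (smooth_of_sg F' hF' hs'))) j le_rfl M r hM K ε F
      trivial hF hs
  tfae_have 1 → 2 := by
    intro h j n r hn F hF hs
    exact ct_of_hart F hF j (h12 h j n r hn ℂ ⟨RingEquiv.refl ℂ⟩ F hF hs)
  tfae_have 2 → 1 := by
    intro h j n hn F hF hs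
    exact h j n 0 (by omega) F hF (sg_of_smooth F hs)
  tfae_have 1 → 4 := by
    intro h j n hn1 hn F hF hs
    exact onto_of_hc D hD (fun n' j' hn' K _ ε F' hF' hs' =>
      h12 h j' n' 0 (by omega) K ε F' hF' hs') j n hn1 hn F hF (sg_of_smooth F hs)
  tfae_have 4 → 3 := by
    intro h j hj F hF hs
    have hG : (sus D F).IsHomogeneous D := sus_homog D F hF
    have hGs : Smooth (sus D F) :=
      smooth_of_sg (sus D F) hG (sg_sus D (by omega) F 0 (sg_of_smooth F hs))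
    have := h j (2 * j) (by omega) le_rfl (sus D F) hG hGs
    have e1 : 2 * j + 1 - j = j + 1 := by omega
    rw [e1] at this
    exact this
  tfae_have 3 → 2 := fun h => hall (genCrit_of_onto D hD h)
  tfae_have 2 → 5 := by
    intro h j hj F hF hs
    have h1 := pencil_of_ct (n := 2 * j + 1) (suspA D F) (suspA_homog D F hF) 0 1 j hj (by omega)
      (h j (2 * j + 1) 0 (by omega) (suspA D F) (suspA_homog D F hF)
        (sg_suspA D (by omega) F 0 (sg_of_smooth F hs)))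
    have e1 : 2 * j + 1 + 1 - j = j + 2 := by omega
    rw [e1] at h1
    exact h1
  tfae_have 5 → 2 := fun h => hall (genCrit_of_pencil D hD h)
  tfae_finish

end Pool.Agent.HCR
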